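import Pool.Agent.Lib.MP_72c78a_ag.NormB

/-!
Derivations of `B` moving a prime `n` whose local ring is a discrete valuation ring.
-/

set_option linter.style.haveILetI false

open Algebra

universe u v
namespace MP72c78a

/-- A derivation over the ground ring vanishes at every algebraic element
(characteristic zero). -/
theorem deriv_eq_zero_of_isAlgebraic {A C : Type*} [CommRing A] [IsDomain A] [CommRing C]
    [IsDomain C] [CharZero C] [Algebra A C] [FaithfulSMul A C]
    (D : Derivation A C C) (c : C) (hc : IsAlgebraic A c) : D c = 0 := by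
  classical
  haveI : CharZero A := ⟨fun m n h => by
    have h1 : algebraMap A C (m : A) = algebraMap A C (n : A) := by rw [h]
    rw [map_natCast, map_natCast] at h1
    exact Nat.cast_injective h1⟩
  have hex : ∃ n : ℕ, ∃ p : Polynomial A, p ≠ 0 ∧ Polynomial.aeval c p = 0 ∧ p.natDegree = n := by
    obtain ⟨p, hp, hpc⟩ := hc
    exact ⟨p.natDegree, p, hp, hpc, rfl⟩
  obtain ⟨p, hp, hpc, hpn⟩ := Nat.find_spec hex
  have hmin := fun m hm => Nat.find_min (H := hex) (m := m) hm
  have hdeg : 0 < p.natDegree := by
    rcases Nat.eq_zero_or_pos p.natDegree with h | h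
    · exfalso
      rw [Polynomial.eq_C_of_natDegree_eq_zero h, Polynomial.aeval_C] at hpc
      have h0 : p.coeff 0 = 0 :=
        (FaithfulSMul.algebraMap_injective A C) (by rw [hpc, map_zero])
      apply hp
      rw [Polynomial.eq_C_of_natDegree_eq_zero h, h0, Polynomial.C_0]
    · exact h
  have h1 := D.map_aeval p c
  rw [hpc, map_zero, smul_eq_mul] at h1
  have h2 : Polynomial.aeval c (Polynomial.derivative p) ≠ 0 := by
    intro h
    refine hmin (Polynomial.derivative p).natDegree ?_ ⟨_, ?_, h, rfl⟩
    · rw [← hpn]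
      exact Polynomial.natDegree_derivative_lt (by omega)
    · intro h3
      have := Polynomial.derivative_eq_zero.mp h3
      omega
  rcases mul_eq_zero.mp h1.symm with h | h
  · exact absurd h h2
  · exact h

/-- Local generators of ideals at a prime with discrete valuation ring. -/
theorem exists_local_generator {B : Type*} [CommRing B] [IsDomain B] [IsNoetherianRing B]
    (n : Ideal B) [n.IsPrime] [IsDiscreteValuationRing (Localization.AtPrime n)]
    (I : Ideal B) (hI : I ≠ ⊥) :
    ∃ j ∈ I, j ≠ 0 ∧ ∃ s, s ∉ n ∧ ∀ z ∈ I, ∃ w, s * z = j * w := by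
  classical
  let Bn := Localization.AtPrime n
  have hinj : Function.Injective (algebraMap B Bn) :=
    IsLocalization.injective Bn n.primeCompl_le_nonZeroDivisors
  obtain ⟨ϖ, hϖ⟩ := IsDiscreteValuationRing.exists_irreducible Bn
  obtain ⟨⟨π, t⟩, hπ⟩ := IsLocalization.surj n.primeCompl ϖ
  have hunit : IsUnit (algebraMap B Bn t) := IsLocalization.map_units Bn t
  have hπirr : Irreducible (algebraMap B Bn π) := by
    rw [← hπ]
    exact (irreducible_mul_isUnit hunit).mpr hϖ
  have hIn : Ideal.map (algebraMap B Bn) I ≠ ⊥ := by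
    intro h
    apply hI
    rw [Ideal.map_eq_bot_iff_of_injective hinj] at h
    exact h
  obtain ⟨e, he⟩ := IsDiscreteValuationRing.ideal_eq_span_pow_irreducible hIn hπirr
  have h1 : algebraMap B Bn (π ^ e) ∈ Ideal.map (algebraMap B Bn) I := by
    rw [he, map_pow]; exact Ideal.mem_span_singleton_self _
  obtain ⟨⟨⟨j, hj⟩, t'⟩, hjt⟩ := (IsLocalization.mem_map_algebraMap_iff n.primeCompl Bn).mp h1
  have hx : π ^ e * (t' : B) = j := hinj (by rw [map_mul]; exact hjt)
  have hπ0 : π ≠ 0 := by
    rintro rfl
    exact hπirr.ne_zero (map_zero _)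
  have ht0 : (t' : B) ≠ 0 := fun h => t'.2 (h ▸ n.zero_mem)
  refine ⟨j, hj, ?_, ?_⟩
  · rw [← hx]
    exact mul_ne_zero (pow_ne_zero _ hπ0) ht0
  have hpt : ∀ z ∈ I, ∃ s, s ∉ n ∧ ∃ w, s * z = j * w := by
    intro z hz
    have h8 : algebraMap B Bn z ∈ Ideal.span {algebraMap B Bn π ^ e} := by
      rw [← he]; exact Ideal.mem_map_of_mem _ hz
    rw [Ideal.mem_span_singleton'] at h8
    obtain ⟨w, hw⟩ := h8
    obtain ⟨⟨w', s⟩, hws⟩ := IsLocalization.surj n.primeCompl w
    refine ⟨s * t', ?_, w', ?_⟩
    · intro h
      rcases Ideal.IsPrime.mem_or_mem ‹_› h with h | h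
      · exact s.2 h
      · exact t'.2 h
    · apply hinj
      rw [← hx]
      simp only [map_mul, map_pow]
      rw [← hws, ← hw]
      ring
  obtain ⟨S, hS⟩ := (IsNoetherian.noetherian I : I.FG)
  choose! f hf hf' using hpt
  refine ⟨∏ z ∈ S, f z, ?_, ?_⟩
  · rw [Ideal.IsPrime.prod_mem_iff]
    push Not
    intro z hz
    exact hf z (hS ▸ Submodule.subset_span hz)
  · intro z hz
    rw [← hS] at hz
    induction hz using Submodule.span_induction with
    | mem x hx =>
      obtain ⟨w, hw⟩ := hf' x (hS ▸ Submodule.subset_span hx)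
      refine ⟨w * ∏ z ∈ S.erase x, f z, ?_⟩
      rw [← Finset.mul_prod_erase S f hx]
      linear_combination (∏ z ∈ S.erase x, f z) * hw
    | zero => exact ⟨0, by ring⟩
    | add x y _ _ hx hy =>
      obtain ⟨w, hw⟩ := hx
      obtain ⟨w', hw'⟩ := hy
      exact ⟨w + w', by rw [mul_add, mul_add, hw, hw']⟩
    | smul a x _ hx =>
      obtain ⟨w, hw⟩ := hx
      refine ⟨a * w, ?_⟩
      rw [smul_eq_mul]
      linear_combination a * hw

/-- Existence of a nonzero derivation of the fraction field, killing given elements `y` lifting a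
transcendence basis of `B/n`. -/
theorem exists_deriv_frac (k : Type v) (B : Type u) [Field k] [CharZero k] [CommRing B]
    [IsDomain B] [Algebra k B] [Algebra.EssFiniteType k B] (n : Ideal B) [n.IsPrime]
    (hn : n ≠ ⊥) {ι : Type u} (y : ι → B)
    (hy : AlgebraicIndependent k (fun i => Ideal.Quotient.mk n (y i))) :
    ∃ D : Derivation k B (FractionRing B), D ≠ 0 ∧ ∀ i, D (y i) = 0 := by
  classical
  let F := FractionRing B
  have hyB : AlgebraicIndependent k y :=
    AlgebraicIndependent.of_comp (Ideal.Quotient.mkₐ k n) hy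
  obtain ⟨π, hπ, hπ0⟩ := Submodule.exists_mem_ne_zero_of_ne_bot hn
  -- transcendence of `π`
  have htr : Transcendental (adjoin k (Set.range y)) π := by
    intro halg
    obtain ⟨q, hq0, hq⟩ := halg.exists_nonzero_coeff_and_aeval_eq_zero
      (mem_nonZeroDivisors_of_ne_zero hπ0)
    have hmem : ((q.coeff 0 : adjoin k (Set.range y)) : B) ∈ n := by
      obtain ⟨p, hp⟩ := Polynomial.X_dvd_sub_C (p := q)
      have := congrArg (Polynomial.aeval π) hp
      rw [map_sub, hq, zero_sub, map_mul, Polynomial.aeval_X, Polynomial.aeval_C] at this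
      have h2 : algebraMap (adjoin k (Set.range y)) B (q.coeff 0) = - (π * Polynomial.aeval π p) := by
        rw [← this, neg_neg]
      change algebraMap (adjoin k (Set.range y)) B (q.coeff 0) ∈ n
      rw [h2]
      exact n.neg_mem (n.mul_mem_right _ hπ)
    obtain ⟨P, hP⟩ : ∃ P : MvPolynomial ι k, MvPolynomial.aeval y P = (q.coeff 0 : B) := by
      have h : ∀ x ∈ adjoin k (Set.range y), ∃ P : MvPolynomial ι k, MvPolynomial.aeval y P = x := by
        intro x hx
        rw [Algebra.adjoin_range_eq_range_aeval] at hx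
        exact hx
      exact h _ (q.coeff 0).2
    have hP0 : P = 0 := by
      apply (algebraicIndependent_iff_injective_aeval.mp hy)
      rw [map_zero]
      have h3 : MvPolynomial.aeval (fun i => Ideal.Quotient.mk n (y i)) P =
          Ideal.Quotient.mkₐ k n (MvPolynomial.aeval y P) := by
        rw [← AlgHom.comp_apply, MvPolynomial.comp_aeval]
        rfl
      rw [h3, hP]
      exact Ideal.Quotient.eq_zero_iff_mem.mpr hmem
    apply hq0
    apply Subtype.ext
    rw [← hP, hP0, map_zero]
    rfl
  have hopt : AlgebraicIndependent k (fun o : Option ι ↦ o.elim π y) :=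
    (hyB.option_iff_transcendental π).mpr htr
  -- pass to the fraction field
  let φ : B →ₐ[k] F := IsScalarTower.toAlgHom k B F
  have hφ : Function.Injective φ := IsFractionRing.injective B F
  have hoptF : AlgebraicIndependent k (fun o : Option ι ↦ o.elim (φ π) (fun i => φ (y i))) := by
    have := hopt.map' (f := φ) hφ
    convert this using 2 with o
    cases o <;> rfl
  have hyF : AlgebraicIndependent k (fun i => φ (y i)) := hyB.map' (f := φ) hφ
  have htrF : Transcendental (adjoin k (Set.range (fun i => φ (y i)))) (φ π) :=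
    (hyF.option_iff_transcendental (φ π)).mp hoptF
  let K₀ := IntermediateField.adjoin k (Set.range (fun i => φ (y i)))
  have hnalg : ¬ Algebra.IsAlgebraic K₀ F := by
    intro h
    have h1 : IsAlgebraic K₀ (φ π) := h.isAlgebraic _
    apply htrF
    exact IntermediateField.isAlgebraic_adjoin_iff.mp h1
  haveI : Algebra.EssFiniteType k F := Algebra.EssFiniteType.comp k B F
  haveI : Algebra.EssFiniteType K₀ F := Algebra.EssFiniteType.of_comp k K₀ F
  have hns : ¬ Subsingleton (Ω[F⁄K₀]) := by
    intro h
    haveI : Algebra.FormallyUnramified K₀ F := ⟨h⟩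
    have := Algebra.FormallyUnramified.isSeparable K₀ F
    exact hnalg inferInstance
  rw [not_subsingleton_iff_nontrivial] at hns
  obtain ⟨ω, hω⟩ := exists_ne (0 : Ω[F⁄K₀])
  obtain ⟨f, hf⟩ := Module.Projective.exists_dual_ne_zero F hω
  let DF : Derivation K₀ F F := f.compDer (KaehlerDifferential.D K₀ F)
  have hDF : ∃ z, DF z ≠ 0 := by
    by_contra hcon
    push Not at hcon
    have hall : ∀ w ∈ Submodule.span F (Set.range (KaehlerDifferential.D K₀ F)), f w = 0 := by
      intro w hmem
      induction hmem using Submodule.span_induction with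
      | mem x hx =>
        obtain ⟨z, rfl⟩ := hx
        exact hcon z
      | zero => exact map_zero f
      | add x y _ _ hx hy => rw [map_add, hx, hy, add_zero]
      | smul a x _ hx => rw [map_smul, hx, smul_zero]
    apply hf
    apply hall
    rw [KaehlerDifferential.span_range_derivation]; trivial
  let Dk : Derivation k F F := DF.restrictScalars k
  have hDk : ∀ z, Dk z = DF z := fun _ => rfl
  let D : Derivation k B F := Dk.compAlgebraMap B
  have hD : ∀ b, D b = DF (algebraMap B F b) := fun _ => rfl
  refine ⟨D, ?_, ?_⟩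
  · intro hD0
    obtain ⟨z, hz⟩ := hDF
    apply hz
    obtain ⟨a, b, hb, rfl⟩ := IsFractionRing.div_surjective (A := B) z
    have hb0 : algebraMap B F b ≠ 0 := by
      have := nonZeroDivisors.ne_zero hb
      simpa using this
    have h0 : ∀ c, DF (algebraMap B F c) = 0 := fun c => by
      rw [← hD, hD0]; rfl
    have h1 := DF.leibniz (algebraMap B F a / algebraMap B F b) (algebraMap B F b)
    rw [div_mul_cancel₀ _ hb0, h0, h0, smul_zero, zero_add, smul_eq_mul] at h1
    exact (mul_eq_zero.mp h1.symm).resolve_left hb0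
  · intro i
    rw [hD]
    have hmem : algebraMap B F (y i) ∈ K₀ :=
      IntermediateField.subset_adjoin k _ ⟨i, rfl⟩
    exact DF.map_algebraMap (⟨algebraMap B F (y i), hmem⟩ : K₀)

/-- Existence of a derivation of `B` moving `n`. -/
theorem exists_deriv (k : Type v) (B : Type u) [Field k] [CharZero k] [CommRing B]
    [IsDomain B] [IsNoetherianRing B] [Algebra k B] [Algebra.EssFiniteType k B] (n : Ideal B)
    [n.IsPrime] [IsDiscreteValuationRing (Localization.AtPrime n)] :
    ∃ δ : Derivation k B B, ∃ z ∈ n, δ z ∉ n := by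
  classical
  have hn : n ≠ ⊥ := by
    rintro rfl
    have h1 := IsDiscreteValuationRing.not_isField (Localization.AtPrime (⊥ : Ideal B))
    apply h1
    rw [IsLocalRing.isField_iff_maximalIdeal_eq, ← Localization.AtPrime.map_eq_maximalIdeal,
      Ideal.map_bot]
  let C := B ⧸ n
  let F := FractionRing B
  haveI : FaithfulSMul k C := (faithfulSMul_iff_algebraMap_injective _ _).mpr
    (algebraMap k C).injective
  obtain ⟨S, hS⟩ := exists_isTranscendenceBasis k C
  choose y hy using fun c : C => Ideal.Quotient.mk_surjective (I := n) c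
  have hind : AlgebraicIndependent k (fun i : S => Ideal.Quotient.mk n (y i)) := by
    have : (fun i : S => Ideal.Quotient.mk n (y i)) = ((↑) : S → C) := by
      ext i; exact hy i
    rw [this]; exact hS.1
  obtain ⟨D, hD0, hDy⟩ := exists_deriv_frac k B n hn (fun i : S => y i) hind
  -- the functional
  let l : Ω[B⁄k] →ₗ[B] F := D.liftKaehlerDifferential
  obtain ⟨c, ρ, hc, hρ⟩ := exists_clear l
  have hρD : ∀ b, algebraMap B F (ρ (KaehlerDifferential.D k B b)) = c • D b := by
    intro b
    rw [hρ, Derivation.liftKaehlerDifferential_comp_D]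
  have hI : LinearMap.range ρ ≠ ⊥ := by
    intro h
    apply hD0
    ext b
    have h1 : ρ (KaehlerDifferential.D k B b) = 0 := by
      have : ρ (KaehlerDifferential.D k B b) ∈ LinearMap.range ρ := ⟨_, rfl⟩
      rw [h] at this
      exact (Submodule.mem_bot B).mp this
    have h2 := hρD b
    rw [h1, map_zero, Algebra.smul_def] at h2
    have hc' : algebraMap B F c ≠ 0 := by simpa using hc
    exact (mul_eq_zero.mp h2.symm).resolve_left hc'
  obtain ⟨j, ⟨w₀, hw₀⟩, hj0, s, hs, hsj⟩ := exists_local_generator n (LinearMap.range ρ) hI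
  have hex : ∀ w, ∃ b, s * ρ w = j * b := fun w => hsj _ ⟨w, rfl⟩
  choose g hg using hex
  let ρ' : Ω[B⁄k] →ₗ[B] B :=
    { toFun := g
      map_add' := fun x y => by
        apply mul_left_cancel₀ hj0
        rw [← hg, map_add, mul_add, mul_add, hg, hg]
      map_smul' := fun a x => by
        apply mul_left_cancel₀ hj0
        rw [← hg, map_smul, smul_eq_mul, RingHom.id_apply, smul_eq_mul]
        linear_combination a * hg x }
  have hρ' : ∀ w, s * ρ w = j * ρ' w := hg
  let δ : Derivation k B B := ρ'.compDer (KaehlerDifferential.D k B)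
  have hδ : ∀ b, δ b = ρ' (KaehlerDifferential.D k B b) := fun _ => rfl
  refine ⟨δ, ?_⟩
  by_contra hcon
  push Not at hcon
  -- `δ` kills the `y i`
  have hδy : ∀ i : S, δ (y i) = 0 := by
    intro i
    have h1 : ρ (KaehlerDifferential.D k B (y i)) = 0 := by
      have h2 := hρD (y i)
      rw [hDy i, smul_zero] at h2
      exact (map_eq_zero_iff _ (IsFractionRing.injective B F)).mp h2
    have h3 := hρ' (KaehlerDifferential.D k B (y i))
    rw [h1, mul_zero] at h3
    rw [hδ]
    exact (mul_eq_zero.mp h3.symm).resolve_left hj0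
  -- the induced derivation
  let f : B →ₐ[k] C := Ideal.Quotient.mkₐ k n
  have hf : Function.Surjective f := Ideal.Quotient.mkₐ_surjective k n
  have hδn : ∀ x, f x = 0 → f (δ x) = 0 := by
    intro x hx
    have h1 : x ∈ n := Ideal.Quotient.eq_zero_iff_mem.mp hx
    exact Ideal.Quotient.eq_zero_iff_mem.mpr (hcon x h1)
  let δ' : Derivation k C C := Derivation.liftOfSurjective hf hδn
  have hδ' : ∀ b, δ' (f b) = f (δ b) := fun b => Derivation.liftOfSurjective_apply hf hδn b
  -- it is linear over the transcendence basis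
  have hA : ∀ a ∈ adjoin k (Set.range ((↑) : S → C)), δ' a = 0 := by
    have h1 : Set.EqOn δ' (0 : Derivation k C C) (Set.range ((↑) : S → C)) := by
      rintro _ ⟨i, rfl⟩
      have : (i : C) = f (y i) := (hy i).symm
      rw [this, hδ', hδy, map_zero]
      rfl
    intro a ha
    exact Derivation.eqOn_adjoin h1 ha
  let A := adjoin k (Set.range ((↑) : S → C))
  let δA : Derivation A C C := Derivation.mk'
    { toFun := δ'
      map_add' := map_add δ'
      map_smul' := fun a x => by
        rw [Algebra.smul_def, Derivation.leibniz]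
        have : δ' (algebraMap A C a) = 0 := hA _ a.2
        rw [this, smul_zero, add_zero, smul_eq_mul, RingHom.id_apply, Algebra.smul_def] }
    (fun a b => δ'.leibniz a b)
  have hδA : ∀ c, δA c = δ' c := fun _ => rfl
  haveI : CharZero C := charZero_of_injective_algebraMap (R := k) (algebraMap k C).injective
  have hzero : ∀ c : C, δ' c = 0 := by
    intro c
    rw [← hδA]
    haveI := hS.isAlgebraic
    exact deriv_eq_zero_of_isAlgebraic δA c (Algebra.IsAlgebraic.isAlgebraic c)
  have hall : ∀ b, δ b ∈ n := by
    intro b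
    have := hzero (f b)
    rw [hδ'] at this
    exact Ideal.Quotient.eq_zero_iff_mem.mp this
  have hall' : ∀ w, ρ' w ∈ n := by
    intro w
    have hmem : w ∈ Submodule.span B (Set.range (KaehlerDifferential.D k B)) := by
      rw [KaehlerDifferential.span_range_derivation]; trivial
    induction hmem using Submodule.span_induction with
    | mem x hx =>
      obtain ⟨z, rfl⟩ := hx
      exact hall z
    | zero => rw [map_zero]; exact n.zero_mem
    | add x y _ _ hx hy => rw [map_add]; exact n.add_mem hx hy
    | smul a x _ hx => rw [map_smul]; exact n.mul_mem_left _ hx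
  have h1 := hρ' w₀
  rw [hw₀, mul_comm] at h1
  have h2 := mul_left_cancel₀ hj0 h1
  exact hs (h2 ▸ hall' w₀)

end MP72c78a
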