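import Pool.Agent.Lib.MP_72c78a_ag.InjDim

/-!
Finite injective dimension of a finite module over a Noetherian local ring from the vanishing of
`Ext^i(R/m, N)` for large `i`.
-/

open CategoryTheory Abelian

universe u

namespace MP72c78a

variable {R : Type u} [CommRing R]

/-- Every class is divisible by `s` when `Ext^(i+1)(R/(I+s), N)` vanishes. -/
theorem exists_act_eq {I : Ideal R} (hp : I.IsPrime) {s : R} (hs : s ∉ I) (N : ModuleCat.{u} R)
    (i : ℕ) (h0 : ∀ x : Ext (ModuleCat.of R (R ⧸ (I ⊔ Ideal.span {s}))) N (i + 1), x = 0)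
    (x : Ext (ModuleCat.of R (R ⧸ I)) N i) :
    ∃ y, (Ext.mk₀ (actHom (R := R) (B := R) (R ⧸ I) s)).comp y (zero_add i) = x := by
  let f : (R ⧸ I) →ₗ[R] (R ⧸ I) := LinearMap.lsmul R (R ⧸ I) s
  let g : (R ⧸ I) →ₗ[R] (R ⧸ (I ⊔ Ideal.span {s})) :=
    Submodule.mapQ _ _ LinearMap.id (fun y hy => Ideal.mem_sup_left hy)
  have hf : Function.Injective f := by
    rw [injective_iff_map_eq_zero]
    intro y hy
    obtain ⟨y, rfl⟩ := Ideal.Quotient.mk_surjective y
    have h1 : Ideal.Quotient.mk I (s * y) = 0 := hy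
    rw [Ideal.Quotient.eq_zero_iff_mem] at h1 ⊢
    exact (hp.mem_or_mem h1).resolve_left hs
  have hg : Function.Surjective g := by
    intro y
    obtain ⟨y, rfl⟩ := Ideal.Quotient.mk_surjective y
    exact ⟨Ideal.Quotient.mk I y, rfl⟩
  have hfg : Function.Exact f g := by
    intro y
    obtain ⟨y, rfl⟩ := Ideal.Quotient.mk_surjective y
    constructor
    · intro hy
      have h1 : Ideal.Quotient.mk (I ⊔ Ideal.span {s}) y = 0 := hy
      rw [Ideal.Quotient.eq_zero_iff_mem, Submodule.mem_sup] at h1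
      obtain ⟨a, ha, b, hb, hab⟩ := h1
      obtain ⟨c, rfl⟩ := Ideal.mem_span_singleton'.mp hb
      refine ⟨Ideal.Quotient.mk I c, ?_⟩
      change Ideal.Quotient.mk I (s * c) = Ideal.Quotient.mk I y
      rw [Ideal.Quotient.eq, ← hab]
      have : s * c - (a + c * s) = -a := by ring
      rw [this]
      exact I.neg_mem ha
    · rintro ⟨z, hz⟩
      obtain ⟨z, rfl⟩ := Ideal.Quotient.mk_surjective z
      rw [← hz]
      change Ideal.Quotient.mk (I ⊔ Ideal.span {s}) (s * z) = 0
      rw [Ideal.Quotient.eq_zero_iff_mem]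
      exact Ideal.mem_sup_right (Ideal.mul_mem_right _ _ (Ideal.mem_span_singleton_self s))
  let S : ShortComplex (ModuleCat.{u} R) :=
    ModuleCat.shortComplexOfCompEqZero f g hfg.linearMap_comp_eq_zero
  have hS : S.ShortExact := ModuleCat.shortComplex_shortExact S hfg hf hg
  obtain ⟨y, hy⟩ := Ext.contravariant_sequence_exact₁ hS N x (add_comm 1 i) (h0 _)
  exact ⟨y, hy⟩

/-- Non prime ideals. -/
theorem ext_eq_zero_of_not_prime {I : Ideal R} {a b : R} (_ha : a ∉ I) (_hb : b ∉ I)
    (_hab : a * b ∈ I) (N : ModuleCat.{u} R) (i : ℕ)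
    (h1 : ∀ x : Ext (ModuleCat.of R (R ⧸ (I.colon {a}))) N i, x = 0)
    (h2 : ∀ x : Ext (ModuleCat.of R (R ⧸ (I ⊔ Ideal.span {a}))) N i, x = 0)
    (x : Ext (ModuleCat.of R (R ⧸ I)) N i) : x = 0 := by
  let K : Ideal R := I.colon {a}
  have haK : K ≤ Submodule.comap (LinearMap.lsmul R R a) I := by
    intro y hy
    rw [Submodule.mem_colon_singleton] at hy
    change a * y ∈ I
    rw [mul_comm]; exact hy
  let f : (R ⧸ K) →ₗ[R] (R ⧸ I) := Submodule.mapQ K I (LinearMap.lsmul R R a) haK
  let g : (R ⧸ I) →ₗ[R] (R ⧸ (I ⊔ Ideal.span {a})) :=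
    Submodule.mapQ _ _ LinearMap.id (fun y hy => Ideal.mem_sup_left hy)
  have hf : Function.Injective f := by
    rw [injective_iff_map_eq_zero]
    intro y hy
    obtain ⟨y, rfl⟩ := Ideal.Quotient.mk_surjective y
    have h1 : Ideal.Quotient.mk I (a * y) = 0 := hy
    rw [Ideal.Quotient.eq_zero_iff_mem] at h1 ⊢
    rw [Submodule.mem_colon_singleton, smul_eq_mul, mul_comm]
    exact h1
  have hg : Function.Surjective g := by
    intro y
    obtain ⟨y, rfl⟩ := Ideal.Quotient.mk_surjective y
    exact ⟨Ideal.Quotient.mk I y, rfl⟩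
  have hfg : Function.Exact f g := by
    intro y
    obtain ⟨y, rfl⟩ := Ideal.Quotient.mk_surjective y
    constructor
    · intro hy
      have h1 : Ideal.Quotient.mk (I ⊔ Ideal.span {a}) y = 0 := hy
      rw [Ideal.Quotient.eq_zero_iff_mem, Submodule.mem_sup] at h1
      obtain ⟨a', ha', b', hb', hab'⟩ := h1
      obtain ⟨c, rfl⟩ := Ideal.mem_span_singleton'.mp hb'
      refine ⟨Ideal.Quotient.mk K c, ?_⟩
      change Ideal.Quotient.mk I (a * c) = Ideal.Quotient.mk I y
      rw [Ideal.Quotient.eq, ← hab']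
      have : a * c - (a' + c * a) = -a' := by ring
      rw [this]
      exact I.neg_mem ha'
    · rintro ⟨z, hz⟩
      obtain ⟨z, rfl⟩ := Ideal.Quotient.mk_surjective z
      rw [← hz]
      change Ideal.Quotient.mk (I ⊔ Ideal.span {a}) (a * z) = 0
      rw [Ideal.Quotient.eq_zero_iff_mem]
      exact Ideal.mem_sup_right (Ideal.mul_mem_right _ _ (Ideal.mem_span_singleton_self a))
  let S : ShortComplex (ModuleCat.{u} R) :=
    ModuleCat.shortComplexOfCompEqZero f g hfg.linearMap_comp_eq_zero
  have hS : S.ShortExact := ModuleCat.shortComplex_shortExact S hfg hf hg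
  obtain ⟨y, hy⟩ := Ext.contravariant_sequence_exact₂ hS N x (h1 _)
  rw [← hy, h2 y, Ext.comp_zero]

/-- The action by an element of `R` is scalar multiplication on `Ext`. -/
theorem act_eq_smul (X : Type u) [AddCommGroup X] [Module R X] (N : ModuleCat.{u} R) (i : ℕ)
    (s : R) (y : Ext (ModuleCat.of R X) N i) :
    (Ext.mk₀ (actHom (R := R) (B := R) X s)).comp y (zero_add i) = s • y := by
  have h1 : actHom (R := R) (B := R) X s = s • 𝟙 (ModuleCat.of R X) := by
    ext x
    rfl
  rw [h1, Ext.mk₀_smul, Ext.smul_comp, Ext.mk₀_id_comp]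

/-- Vanishing of `Ext^i(R/m, N)` for large `i` propagates to all cyclic modules. -/
theorem ext_quot_eq_zero_of_residue [IsNoetherianRing R] [IsLocalRing R] (N : ModuleCat.{u} R)
    [Module.Finite R N] (n : ℕ)
    (h : ∀ i, n ≤ i →
      ∀ x : Ext (ModuleCat.of R (R ⧸ IsLocalRing.maximalIdeal R)) N i, x = 0) (I : Ideal R) :
    ∀ i, n ≤ i → ∀ x : Ext (ModuleCat.of R (R ⧸ I)) N i, x = 0 := by
  induction I using IsNoetherian.induction with
  | hgt I ih =>
    change Ideal R at I
    intro i hi x
    by_cases htop : I = ⊤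
    · subst htop
      have hk : Kills (R := R) (B := R) (R ⧸ (⊤ : Ideal R)) (1 : R) N i :=
        kills_of_smul_eq_zero i (fun x => Subsingleton.elim _ _)
      exact hk.eq_zero_of_isUnit isUnit_one x
    by_cases hp : I.IsPrime
    · by_cases hm : I = IsLocalRing.maximalIdeal R
      · subst hm
        exact h i hi x
      have hlt : I < IsLocalRing.maximalIdeal R :=
        lt_of_le_of_ne (IsLocalRing.le_maximalIdeal hp.ne_top) hm
      obtain ⟨s, hsm, hs⟩ := SetLike.exists_of_lt hlt
      have hgt : I < I ⊔ Ideal.span {s} := by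
        refine lt_of_le_of_ne le_sup_left ?_
        intro heq
        exact hs (heq ▸ (le_sup_right : Ideal.span {s} ≤ I ⊔ Ideal.span {s})
          (Ideal.mem_span_singleton_self s))
      have h0 := ih _ hgt (i + 1) (by omega)
      have hdiv : ∀ z : Ext (ModuleCat.of R (R ⧸ I)) N i, ∃ y, s • y = z := by
        intro z
        obtain ⟨y, hy⟩ := exists_act_eq hp hs N i h0 z
        exact ⟨y, by rw [← act_eq_smul]; exact hy⟩
      haveI : Module.Finite R (Ext (ModuleCat.of R (R ⧸ I)) N i) := inferInstance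
      have htop' : (⊤ : Submodule R (Ext (ModuleCat.of R (R ⧸ I)) N i)) = ⊥ := by
        refine Submodule.eq_bot_of_le_smul_of_le_jacobson_bot (IsLocalRing.maximalIdeal R) ⊤
          Module.Finite.fg_top ?_ ?_
        · intro z _
          obtain ⟨y, rfl⟩ := hdiv z
          exact Submodule.smul_mem_smul hsm trivial
        · exact IsLocalRing.maximalIdeal_le_jacobson _
      have : x ∈ (⊤ : Submodule R (Ext (ModuleCat.of R (R ⧸ I)) N i)) := trivial
      rw [htop'] at this
      exact (Submodule.mem_bot R).mp this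
    · rw [Ideal.isPrime_iff] at hp
      push Not at hp
      obtain ⟨a, b, hab, ha, hb⟩ := hp htop
      have hK : I < I.colon {a} := by
        refine lt_of_le_of_ne ?_ ?_
        · intro y hy
          rw [Submodule.mem_colon_singleton]
          exact I.mul_mem_right _ hy
        · intro heq
          apply hb
          rw [heq, Submodule.mem_colon_singleton, smul_eq_mul, mul_comm]
          exact hab
      have hgt : I < I ⊔ Ideal.span {a} := by
        refine lt_of_le_of_ne le_sup_left ?_
        intro heq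
        exact ha (heq ▸ (le_sup_right : Ideal.span {a} ≤ I ⊔ Ideal.span {a})
          (Ideal.mem_span_singleton_self a))
      exact ext_eq_zero_of_not_prime ha hb hab N i (ih _ hK i hi) (ih _ hgt i hi) x

/-- Finite injective dimension from the residue field. -/
theorem hasInjectiveDimensionLT_of_residue [IsNoetherianRing R] [IsLocalRing R]
    (N : ModuleCat.{u} R) [Module.Finite R N] (n : ℕ)
    (h : ∀ i, n + 1 ≤ i →
      ∀ x : Ext (ModuleCat.of R (R ⧸ IsLocalRing.maximalIdeal R)) N i, x = 0) :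
    HasInjectiveDimensionLT N (n + 1) :=
  hasInjectiveDimensionLT_of_ext_quot n N (fun I => ext_quot_eq_zero_of_residue N (n + 1) h I)

end MP72c78a
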