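import Mathlib

/-!
Local rings with coordinates: elements `x i` generating the maximal ideal and derivations `δ i`
with `δ i (x j) = 1` or `0` according to `i = j` or not.
-/

open IsLocalRing

universe u v
namespace MP72c78a

variable {k : Type v} {B : Type u} [Field k] [CharZero k] [CommRing B] [Algebra k B]
  [IsLocalRing B] [IsNoetherianRing B] {n : ℕ}

/-- A nonzero ideal stable under all coordinate derivations is the unit ideal. -/
theorem eq_top_of_stable (x : Fin n → B) (hx : Ideal.span (Set.range x) = maximalIdeal B)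
    (δ : Fin n → Derivation k B B) (hδ : ∀ i j, δ i (x j) = if i = j then 1 else 0)
    (J : Ideal B) (hJ : J ≠ ⊥) (hst : ∀ i, ∀ b ∈ J, δ i b ∈ J) : J = ⊤ := by
  classical
  by_contra htop
  have hle : J ≤ maximalIdeal B := le_maximalIdeal htop
  have hxm : ∀ i, x i ∈ maximalIdeal B := fun i => hx ▸ Ideal.subset_span ⟨i, rfl⟩
  -- the Euler operator
  let e : Derivation k B B := ∑ i, x i • δ i
  have he : ∀ b, e b = ∑ i, x i * δ i b := by
    intro b
    have h0 := congrFun (map_sum (Derivation.coeFnAddMonoidHom : Derivation k B B →+ _)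
      (fun i => x i • δ i) Finset.univ) b
    rw [Finset.sum_apply] at h0
    exact h0
  have hem : ∀ b, e b ∈ maximalIdeal B := by
    intro b
    rw [he]
    exact Ideal.sum_mem _ (fun i _ => Ideal.mul_mem_right _ _ (hxm i))
  have hex : ∀ j, e (x j) = x j := by
    intro j
    rw [he, Finset.sum_eq_single j]
    · rw [hδ, if_pos rfl, mul_one]
    · intro i _ hij
      rw [hδ, if_neg hij, mul_zero]
    · intro h
      exact absurd (Finset.mem_univ j) h
  have h1 : ∀ a ∈ maximalIdeal B, e a - a ∈ maximalIdeal B ^ 2 := by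
    intro a ha
    rw [← hx] at ha
    induction ha using Submodule.span_induction with
    | mem y hy =>
      obtain ⟨j, rfl⟩ := hy
      rw [hex, sub_self]
      exact Ideal.zero_mem _
    | zero => rw [map_zero, sub_zero]; exact Ideal.zero_mem _
    | add y z _ _ hy hz =>
      have : e (y + z) - (y + z) = (e y - y) + (e z - z) := by rw [map_add]; ring
      rw [this]
      exact Ideal.add_mem _ hy hz
    | smul c y hy' hy =>
      have : e (c • y) - c • y = c * (e y - y) + y * e c := by
        rw [smul_eq_mul, Derivation.leibniz, smul_eq_mul, smul_eq_mul]; ring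
      rw [this]
      refine Ideal.add_mem _ (Ideal.mul_mem_left _ _ hy) ?_
      rw [pow_two]
      refine Ideal.mul_mem_mul ?_ (hem c)
      rw [← hx]; exact hy'
  have h2 : ∀ m : ℕ, ∀ f ∈ maximalIdeal B ^ m, e f - (m : B) * f ∈ maximalIdeal B ^ (m + 1) := by
    intro m
    induction m with
    | zero =>
      intro f _
      rw [Nat.cast_zero, zero_mul, sub_zero, zero_add, pow_one]
      exact hem f
    | succ m ih =>
      intro f hf
      rw [pow_succ] at hf
      induction hf using Submodule.mul_induction_on' with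
      | mem_mul_mem g hg a ha =>
        have h3 : e (g * a) - ((m + 1 : ℕ) : B) * (g * a) =
            a * (e g - (m : B) * g) + g * (e a - a) := by
          rw [Derivation.leibniz, smul_eq_mul, smul_eq_mul]; push_cast; ring
        rw [h3]
        refine Ideal.add_mem _ ?_ ?_
        · rw [mul_comm, pow_succ _ (m + 1)]
          exact Ideal.mul_mem_mul (ih g hg) ha
        · have : (m + 1 + 1) = m + 2 := rfl
          rw [this, pow_add]
          exact Ideal.mul_mem_mul hg (h1 a ha)
      | add y _ z _ hy hz =>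
        have : e (y + z) - ((m + 1 : ℕ) : B) * (y + z) =
            (e y - ((m + 1 : ℕ) : B) * y) + (e z - ((m + 1 : ℕ) : B) * z) := by
          rw [map_add]; ring
        rw [this]
        exact Ideal.add_mem _ hy hz
  have h3 : ∀ m : ℕ, J ≤ maximalIdeal B ^ (m + 1) := by
    intro m
    induction m with
    | zero => rwa [zero_add, pow_one]
    | succ m ih =>
      intro f hf
      have h4 := h2 (m + 1) f (ih hf)
      have h5 : e f ∈ maximalIdeal B ^ (m + 1 + 1) := by
        rw [he]
        refine Ideal.sum_mem _ (fun i _ => ?_)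
        rw [mul_comm, pow_succ _ (m + 1)]
        exact Ideal.mul_mem_mul (ih (hst i f hf)) (hxm i)
      have h6 : ((m + 1 : ℕ) : B) * f ∈ maximalIdeal B ^ (m + 1 + 1) := by
        have : ((m + 1 : ℕ) : B) * f = e f - (e f - ((m + 1 : ℕ) : B) * f) := by ring
        rw [this]
        exact Ideal.sub_mem _ h5 h4
      have hu : IsUnit ((m + 1 : ℕ) : B) := by
        have h7 : ((m + 1 : ℕ) : B) = algebraMap k B ((m + 1 : ℕ) : k) := by rw [map_natCast]
        rw [h7]
        exact (IsUnit.mk0 _ (Nat.cast_ne_zero.mpr (Nat.succ_ne_zero m))).map _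
      obtain ⟨w, hw⟩ := hu.exists_left_inv
      have : f = w * (((m + 1 : ℕ) : B) * f) := by rw [← mul_assoc, hw, one_mul]
      rw [this]
      exact Ideal.mul_mem_left _ _ h6
  apply hJ
  rw [eq_bot_iff, ← Ideal.iInf_pow_eq_bot_of_isLocalRing (maximalIdeal B)
    (maximalIdeal.isMaximal B).ne_top]
  rw [le_iInf_iff]
  intro m
  exact (h3 m).trans (Ideal.pow_le_pow_right (Nat.le_succ m))

/-- The coordinates form a regular sequence. -/
theorem mem_of_mul_mem (x : Fin n → B) (hx : Ideal.span (Set.range x) = maximalIdeal B)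
    (δ : Fin n → Derivation k B B) (hδ : ∀ i j, δ i (x j) = if i = j then 1 else 0)
    (S : Set (Fin n)) (j : Fin n) (hj : j ∉ S) (c : B)
    (hc : x j * c ∈ Ideal.span (x '' S)) : c ∈ Ideal.span (x '' S) := by
  classical
  let I : Ideal B := Ideal.span (x '' S)
  have hxm : ∀ i, x i ∈ maximalIdeal B := fun i => hx ▸ Ideal.subset_span ⟨i, rfl⟩
  have hI : I ≤ maximalIdeal B := by
    rw [Ideal.span_le]
    rintro _ ⟨i, _, rfl⟩
    exact hxm i
  have hst : ∀ b ∈ I, δ j b ∈ I := by
    intro b hb
    induction hb using Submodule.span_induction with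
    | mem y hy =>
      obtain ⟨i, hi, rfl⟩ := hy
      have : j ≠ i := by rintro rfl; exact hj hi
      rw [hδ, if_neg this]
      exact I.zero_mem
    | zero => rw [map_zero]; exact I.zero_mem
    | add y z _ _ hy hz => rw [map_add]; exact I.add_mem hy hz
    | smul a y hy' hy =>
      rw [smul_eq_mul, Derivation.leibniz, smul_eq_mul, smul_eq_mul]
      exact I.add_mem (I.mul_mem_left _ hy) (I.mul_mem_right _ hy')
  have key : ∀ m : ℕ, ∃ w, c - x j ^ m * w ∈ I := by
    intro m
    induction m with
    | zero => exact ⟨c, by rw [pow_zero, one_mul, sub_self]; exact I.zero_mem⟩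
    | succ m ih =>
      obtain ⟨w, hw⟩ := ih
      have h1 : x j ^ (m + 1) * w ∈ I := by
        have : x j ^ (m + 1) * w = x j * c - x j * (c - x j ^ m * w) := by ring
        rw [this]
        exact I.sub_mem hc (I.mul_mem_left _ hw)
      have h2 := hst _ h1
      have h3 : δ j (x j ^ (m + 1) * w) =
          x j ^ (m + 1) * δ j w + ((m + 1 : ℕ) : B) * (x j ^ m * w) := by
        rw [Derivation.leibniz, Derivation.leibniz_pow, hδ, if_pos rfl]
        simp only [smul_eq_mul, nsmul_eq_mul, Nat.add_sub_cancel, mul_one]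
        ring
      rw [h3] at h2
      have hu : IsUnit ((m + 1 : ℕ) : B) := by
        have h7 : ((m + 1 : ℕ) : B) = algebraMap k B ((m + 1 : ℕ) : k) := by rw [map_natCast]
        rw [h7]
        exact (IsUnit.mk0 _ (Nat.cast_ne_zero.mpr (Nat.succ_ne_zero m))).map _
      obtain ⟨t, ht⟩ := hu.exists_left_inv
      refine ⟨- (t * δ j w), ?_⟩
      have h4 : c - x j ^ (m + 1) * (- (t * δ j w)) =
          (c - x j ^ m * w) +
            t * (x j ^ (m + 1) * δ j w + ((m + 1 : ℕ) : B) * (x j ^ m * w)) := by
        have : t * (((m + 1 : ℕ) : B) * (x j ^ m * w)) = x j ^ m * w := by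
          rw [← mul_assoc, ht, one_mul]
        rw [mul_add, this]
        ring
      rw [h4]
      exact I.add_mem hw (I.mul_mem_left _ h2)
  have hkr : (⨅ m : ℕ, (maximalIdeal B ^ m • (⊤ : Submodule B (B ⧸ I)))) = ⊥ :=
    Ideal.iInf_pow_smul_eq_bot_of_isLocalRing _ (maximalIdeal.isMaximal B).ne_top
  have h5 : I.mkQ c ∈ (⨅ m : ℕ, (maximalIdeal B ^ m • (⊤ : Submodule B (B ⧸ I)))) := by
    rw [Submodule.mem_iInf]
    intro m
    obtain ⟨w, hw⟩ := key m
    have h6 : I.mkQ c = x j ^ m • I.mkQ w := by
      rw [← map_smul, smul_eq_mul, ← sub_eq_zero, ← map_sub]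
      exact (Submodule.Quotient.mk_eq_zero I).mpr hw
    rw [h6]
    exact Submodule.smul_mem_smul (Ideal.pow_mem_pow (hxm j) m) trivial
  rw [hkr] at h5
  exact (Submodule.Quotient.mk_eq_zero I).mp h5

end MP72c78a
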