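import Pool.Agent.Lib.MP_72c78a_ag.Gdim

/-!
Local rings of depth at most one.
-/

set_option linter.style.haveILetI false

open CategoryTheory Abelian
open scoped Pointwise

universe u v
namespace MP72c78a

variable {R : Type u} [CommRing R]

/-- The class `Ext¹` vanishes if maps extend. -/
theorem ext_one_eq_zero_of_extend {X Y Z : Type u} [AddCommGroup X] [Module R X]
    [AddCommGroup Y] [Module R Y] [AddCommGroup Z] [Module R Z] (f : X →ₗ[R] Y) (g : Y →ₗ[R] Z)
    (hf : Function.Injective f) (hg : Function.Surjective g) (hfg : Function.Exact f g)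
    (N : ModuleCat.{u} R)
    (hext : ∀ φ : X →ₗ[R] N, ∃ ψ : Y →ₗ[R] N, ψ ∘ₗ f = φ)
    (hY : Subsingleton (Ext (ModuleCat.of R Y) N 1)) :
    Subsingleton (Ext (ModuleCat.of R Z) N 1) := by
  let S : ShortComplex (ModuleCat.{u} R) :=
    ModuleCat.shortComplexOfCompEqZero f g hfg.linearMap_comp_eq_zero
  have hS : S.ShortExact := ModuleCat.shortComplex_shortExact S hfg hf hg
  refine subsingleton_of_forall_eq 0 (fun x => ?_)
  obtain ⟨y, hy⟩ := Ext.contravariant_sequence_exact₃ hS N x (hY.elim _ _) (n₀ := 0) (by norm_num)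
  obtain ⟨φ, rfl⟩ := (Ext.mk₀_bijective _ _).2 y
  obtain ⟨ψ, hψ⟩ := hext φ.hom
  have h1 : φ = S.f ≫ ModuleCat.ofHom ψ := by
    ext z
    exact (LinearMap.congr_fun hψ z).symm
  rw [← hy, h1, ← Ext.mk₀_comp_mk₀]
  exact hS.extClass_comp_assoc _

/-- Higher vanishing for the right hand term. -/
theorem ext_succ_eq_zero {X Y Z : Type u} [AddCommGroup X] [Module R X]
    [AddCommGroup Y] [Module R Y] [AddCommGroup Z] [Module R Z] (f : X →ₗ[R] Y) (g : Y →ₗ[R] Z)
    (hf : Function.Injective f) (hg : Function.Surjective g) (hfg : Function.Exact f g)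
    (N : ModuleCat.{u} R) (i : ℕ)
    (hX : Subsingleton (Ext (ModuleCat.of R X) N i))
    (hY : Subsingleton (Ext (ModuleCat.of R Y) N (i + 1))) :
    Subsingleton (Ext (ModuleCat.of R Z) N (i + 1)) := by
  let S : ShortComplex (ModuleCat.{u} R) :=
    ModuleCat.shortComplexOfCompEqZero f g hfg.linearMap_comp_eq_zero
  have hS : S.ShortExact := ModuleCat.shortComplex_shortExact S hfg hf hg
  refine subsingleton_of_forall_eq 0 (fun x => ?_)
  obtain ⟨y, hy⟩ := Ext.contravariant_sequence_exact₃ hS N x (hY.elim _ _) (n₀ := i)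
    (by omega)
  have : y = 0 := hX.elim _ _
  rw [← hy, this, Ext.comp_zero]

/-- Vanishing for the left hand term. -/
theorem ext_left_eq_zero {X Y Z : Type u} [AddCommGroup X] [Module R X]
    [AddCommGroup Y] [Module R Y] [AddCommGroup Z] [Module R Z] (f : X →ₗ[R] Y) (g : Y →ₗ[R] Z)
    (hf : Function.Injective f) (hg : Function.Surjective g) (hfg : Function.Exact f g)
    (N : ModuleCat.{u} R) (i : ℕ)
    (hY : Subsingleton (Ext (ModuleCat.of R Y) N i))
    (hZ : Subsingleton (Ext (ModuleCat.of R Z) N (i + 1))) :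
    Subsingleton (Ext (ModuleCat.of R X) N i) := by
  let S : ShortComplex (ModuleCat.{u} R) :=
    ModuleCat.shortComplexOfCompEqZero f g hfg.linearMap_comp_eq_zero
  have hS : S.ShortExact := ModuleCat.shortComplex_shortExact S hfg hf hg
  refine subsingleton_of_forall_eq 0 (fun x => ?_)
  obtain ⟨y, hy⟩ := Ext.contravariant_sequence_exact₁ hS N x (n₁ := i + 1) (by omega)
    (hZ.elim _ _)
  have : y = 0 := hY.elim _ _
  rw [← hy, this, Ext.comp_zero]

/-- Maps extend if `Ext¹` of the cokernel vanishes. -/
theorem extend_of_ext_one {X Y Z : Type u} [AddCommGroup X] [Module R X]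
    [AddCommGroup Y] [Module R Y] [AddCommGroup Z] [Module R Z] (f : X →ₗ[R] Y) (g : Y →ₗ[R] Z)
    (hf : Function.Injective f) (hg : Function.Surjective g) (hfg : Function.Exact f g)
    (N : ModuleCat.{u} R) (hZ : Subsingleton (Ext (ModuleCat.of R Z) N 1)) (φ : X →ₗ[R] N) :
    ∃ ψ : Y →ₗ[R] N, ψ ∘ₗ f = φ := by
  let S : ShortComplex (ModuleCat.{u} R) :=
    ModuleCat.shortComplexOfCompEqZero f g hfg.linearMap_comp_eq_zero
  have hS : S.ShortExact := ModuleCat.shortComplex_shortExact S hfg hf hg
  let x₁ : Ext S.X₁ N 0 := Ext.mk₀ (ModuleCat.ofHom φ)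
  obtain ⟨x₂, hx₂⟩ := Ext.contravariant_sequence_exact₁ hS N x₁ (n₁ := 1) (by norm_num)
    (hZ.elim _ _)
  obtain ⟨ψ, rfl⟩ := (Ext.mk₀_bijective _ _).2 x₂
  rw [Ext.mk₀_comp_mk₀] at hx₂
  have h3 := (Ext.mk₀_bijective _ _).1 hx₂
  exact ⟨ψ.hom, congrArg ModuleCat.Hom.hom h3⟩

/-- Over a Noetherian local ring of depth at most one, a finite module `X` with
`Hom(X, R) = 0 = Ext¹(X, R)` vanishes. -/
theorem subsingleton_of_depthLEOne [IsNoetherianRing R] [IsLocalRing R] (hdepth : DepthLEOne R)
    (X : Type u) [AddCommGroup X] [Module R X] [Module.Finite R X]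
    (h0 : Subsingleton (X →ₗ[R] R))
    (h1 : Subsingleton (Ext (ModuleCat.of R X) (ModuleCat.of R R) 1)) : Subsingleton X := by
  by_contra hX
  rw [not_subsingleton_iff_nontrivial] at hX
  obtain ⟨x, hxX, hx⟩ := (IsSMulRegular.subsingleton_linearMap_iff).mp h0
  have hunit : ∀ z ∈ Module.annihilator R X, z ∈ IsLocalRing.maximalIdeal R := by
    intro z hz
    rw [IsLocalRing.mem_maximalIdeal, mem_nonunits_iff]
    intro hu
    obtain ⟨w, hw⟩ := hu.exists_left_inv
    have h1 : (1 : R) ∈ Module.annihilator R X := by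
      rw [← hw]; exact Ideal.mul_mem_left _ _ hz
    obtain ⟨a, ha⟩ := exists_ne (0 : X)
    apply ha
    have := Module.mem_annihilator.mp h1 a
    rwa [one_smul] at this
  -- `Hom(X, R/x) = 0`
  have h2 : Subsingleton (X →ₗ[R] (QuotSMulTop x R)) := by
    refine subsingleton_of_forall_eq 0 (fun φ => ?_)
    let f : R →ₗ[R] R := LinearMap.lsmul R R x
    let g : R →ₗ[R] QuotSMulTop x R := Submodule.mkQ _
    have hf : Function.Injective f := hx
    have hg : Function.Surjective g := Submodule.mkQ_surjective _
    have hfg : Function.Exact f g := by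
      intro y
      constructor
      · intro hy
        have h3 : y ∈ x • (⊤ : Submodule R R) := (Submodule.Quotient.mk_eq_zero _).mp hy
        rw [Submodule.mem_smul_pointwise_iff_exists] at h3
        obtain ⟨z, _, hz⟩ := h3
        exact ⟨z, hz⟩
      · rintro ⟨z, rfl⟩
        change g (x • z) = 0
        exact (Submodule.Quotient.mk_eq_zero _).mpr
          (Submodule.smul_mem_pointwise_smul z x ⊤ trivial)
    let S : ShortComplex (ModuleCat.{u} R) :=
      ModuleCat.shortComplexOfCompEqZero f g hfg.linearMap_comp_eq_zero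
    have hS : S.ShortExact := ModuleCat.shortComplex_shortExact S hfg hf hg
    let x₃ : Ext (ModuleCat.of R X) S.X₃ 0 := Ext.mk₀ (ModuleCat.ofHom φ)
    obtain ⟨x₂, hx₂⟩ := Ext.covariant_sequence_exact₃ _ hS x₃ (n₁ := 1) (by norm_num)
      (h1.elim _ _)
    obtain ⟨ψ, rfl⟩ := (Ext.mk₀_bijective _ _).2 x₂
    rw [Ext.mk₀_comp_mk₀] at hx₂
    have h3 := (Ext.mk₀_bijective _ _).1 hx₂
    have h4 : g ∘ₗ ψ.hom = φ := congrArg ModuleCat.Hom.hom h3
    have h5 : ψ.hom = 0 := h0.elim _ _
    rw [← h4, h5, LinearMap.comp_zero]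
  obtain ⟨y, hyX, hy⟩ := (IsSMulRegular.subsingleton_linearMap_iff).mp h2
  have hxm := hunit x hxX
  have hym := hunit y hyX
  apply hdepth x hxm y hym
  rw [IsLocalRing.isRegular_iff_isWeaklyRegular_of_subset_maximalIdeal (by
    intro r hr
    simp only [List.mem_cons, List.not_mem_nil, or_false] at hr
    rcases hr with rfl | rfl
    · exact hxm
    · exact hym)]
  rw [RingTheory.Sequence.isWeaklyRegular_cons_iff, RingTheory.Sequence.isWeaklyRegular_cons_iff]
  exact ⟨hx, hy, .nil _ _⟩

/-- One step of a totally reflexive resolution over a ring of depth at most one. -/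
theorem totallyReflexive_step [IsNoetherianRing R] [IsLocalRing R] (hdepth : DepthLEOne R)
    {G Z : Type u} [AddCommGroup G] [Module R G] [AddCommGroup Z] [Module R Z] (f : G →ₗ[R] Z)
    (hf : Function.Surjective f) (hG : TotallyReflexive R G)
    (hK : TotallyReflexive R (LinearMap.ker f))
    (hZ : Function.Injective (Module.Dual.eval R Z)) : TotallyReflexive R Z := by
  classical
  let K := LinearMap.ker f
  let ι : K →ₗ[R] G := K.subtype
  have hι : Function.Injective ι := Submodule.injective_subtype _
  have hιf : Function.Exact ι f := LinearMap.exact_subtype_ker_map f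
  haveI := hG.finite
  haveI := hK.finite
  let ιd : Module.Dual R G →ₗ[R] Module.Dual R K := Module.Dual.transpose (R := R) ι
  have hιd : ∀ φ g, ιd φ g = φ (ι g) := fun _ _ => rfl
  have evG : ∀ φ g, Module.Dual.eval R G g φ = φ g := fun _ _ => rfl
  have evK : ∀ φ g, Module.Dual.eval R K g φ = φ g := fun _ _ => rfl
  let Y := LinearMap.range ιd
  haveI : Module.Finite R (Module.Dual R K) := inferInstance
  haveI : Module.Finite R (Module.Dual R G) := inferInstance
  let X := Module.Dual R K ⧸ Y
  -- `X = 0`
  have hX : Subsingleton X := by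
    apply subsingleton_of_depthLEOne hdepth X
    · refine subsingleton_of_forall_eq 0 (fun ξ => ?_)
      obtain ⟨g, hg⟩ := hK.reflexive.2 (ξ ∘ₗ Y.mkQ)
      have h1 : ∀ φ : Module.Dual R G, φ (ι g) = 0 := by
        intro φ
        have h2 := LinearMap.congr_fun hg (ιd φ)
        rw [evK] at h2
        have h3 : Y.mkQ (ιd φ) = 0 := (Submodule.Quotient.mk_eq_zero _).mpr ⟨φ, rfl⟩
        rw [LinearMap.comp_apply, h3, map_zero] at h2
        exact h2
      have h4 : ι g = 0 := by
        apply hG.reflexive.1
        ext φ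
        rw [evG, h1, map_zero]
        rfl
      have h5 : g = 0 := hι (by rw [h4, map_zero])
      rw [h5, map_zero] at hg
      refine LinearMap.ext (fun x => ?_)
      obtain ⟨x, rfl⟩ := Submodule.mkQ_surjective Y x
      exact (LinearMap.congr_fun hg x).symm
    · let jY : ↥Y →ₗ[R] Module.Dual R K := Submodule.subtype Y
      let πY : Module.Dual R K →ₗ[R] X := Submodule.mkQ Y
      have hjπ : Function.Exact jY πY := LinearMap.exact_subtype_mkQ Y
      refine @ext_one_eq_zero_of_extend R _ ↥Y (Module.Dual R K) X _ _ _ _ _ _ jY πY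
        (Submodule.injective_subtype Y)
        (Submodule.mkQ_surjective Y) hjπ _ ?_
        (hK.ext_dual 1 le_rfl)
      intro η
      obtain ⟨g, hg⟩ := hG.reflexive.2 (η ∘ₗ ιd.rangeRestrict)
      have h1 : ∀ φ : Module.Dual R G, φ g = η (ιd.rangeRestrict φ) :=
        fun φ => LinearMap.congr_fun hg φ
      have h2 : f g = 0 := by
        apply hZ
        ext φ
        rw [map_zero]
        change φ (f g) = 0
        have h3 := h1 (φ ∘ₗ f)
        have h4 : ιd.rangeRestrict (φ ∘ₗ f) = 0 := by
          apply Subtype.ext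
          ext x
          change φ (f (ι x)) = 0
          have : f (ι x) = 0 := x.2
          rw [this, map_zero]
        rw [h4, map_zero] at h3
        exact h3
      refine ⟨Module.Dual.eval R K ⟨g, h2⟩, ?_⟩
      ext ⟨y, φ, hφ⟩
      subst hφ
      change (ιd φ) ⟨g, h2⟩ = η ⟨ιd φ, ⟨φ, rfl⟩⟩
      rw [hιd]
      exact h1 φ
  have hsurj : Function.Surjective ιd := by
    intro φ
    have : Y.mkQ φ = 0 := hX.elim _ _
    exact (Submodule.Quotient.mk_eq_zero _).mp this
  have hext : ∀ i, 1 ≤ i → Subsingleton (Ext (ModuleCat.of R Z) (ModuleCat.of R R) i) := by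
    intro i hi
    obtain ⟨i, rfl⟩ := Nat.exists_eq_add_of_le' hi
    rcases Nat.eq_zero_or_pos i with h0 | h0
    · subst h0
      refine ext_one_eq_zero_of_extend ι f hι hf hιf _ ?_ (hG.ext_self 1 le_rfl)
      intro φ
      obtain ⟨ψ, hψ⟩ := hsurj φ
      exact ⟨ψ, hψ⟩
    · exact ext_succ_eq_zero ι f hι hf hιf _ i (hK.ext_self i h0) (hG.ext_self (i + 1) hi)
  let fd : Module.Dual R Z →ₗ[R] Module.Dual R G := Module.Dual.transpose (R := R) f
  have hfd : Function.Injective fd := by
    intro φ ψ h
    ext z
    obtain ⟨g, rfl⟩ := hf z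
    exact LinearMap.congr_fun h g
  have hfdι : Function.Exact fd ιd := by
    intro φ
    constructor
    · intro hφ
      have h1 : LinearMap.ker f ≤ LinearMap.ker φ := by
        intro x hx
        exact LinearMap.congr_fun hφ ⟨x, hx⟩
      refine ⟨(LinearMap.ker f).liftQ φ h1 ∘ₗ (f.quotKerEquivOfSurjective hf).symm.toLinearMap, ?_⟩
      ext g
      have h2 : (f.quotKerEquivOfSurjective hf).symm (f g) = (LinearMap.ker f).mkQ g := by
        rw [LinearEquiv.symm_apply_eq]; rfl
      change (LinearMap.ker f).liftQ φ h1 ((f.quotKerEquivOfSurjective hf).symm (f g)) = φ g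
      rw [h2]
      rfl
    · rintro ⟨ψ, rfl⟩
      ext x
      change ψ (f (ι x)) = 0
      have : f (ι x) = 0 := x.2
      rw [this, map_zero]
  refine ⟨Module.Finite.of_surjective f hf, ⟨hZ, ?_⟩, hext, ?_⟩
  · intro ζ
    obtain ⟨ψ, hψ⟩ := extend_of_ext_one fd ιd hfd hsurj hfdι (ModuleCat.of R R)
      (hK.ext_dual 1 le_rfl) ζ
    obtain ⟨g, hg⟩ := hG.reflexive.2 ψ
    refine ⟨f g, ?_⟩
    rw [← hψ, ← hg]
    rfl
  · intro i hi
    exact ext_left_eq_zero fd ιd hfd hsurj hfdι _ i (hG.ext_dual i hi)
      (hK.ext_dual (i + 1) (by omega))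

/-- Over a ring of depth at most one, torsionless modules of finite G-dimension are totally
reflexive. -/
theorem totallyReflexive_of_gdimLE [IsNoetherianRing R] [IsLocalRing R] (hdepth : DepthLEOne R)
    (n : ℕ) : ∀ (M : Type u) [AddCommGroup M] [Module R M],
      Function.Injective (Module.Dual.eval R M) → GdimLE R n M → TotallyReflexive R M := by
  induction n with
  | zero =>
    intro M _ _ _ h
    exact h
  | succ n ih =>
    intro M _ _ hM h
    obtain ⟨G, _, _, f, hG, hf, hK⟩ := h
    refine totallyReflexive_step hdepth f hf hG (ih _ ?_ hK) hM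
    intro x y hxy
    apply Subtype.ext
    apply hG.reflexive.1
    ext φ
    exact LinearMap.congr_fun hxy (φ ∘ₗ (LinearMap.ker f).subtype)

/-- Differentials generate the dual of a totally reflexive derivation module in depth at most
one. -/
theorem span_evDer_eq_top {k : Type v} [Field k] [Algebra k R] [IsNoetherianRing R]
    [IsLocalRing R] (hdepth : DepthLEOne R) (h : TotallyReflexive R (Derivation k R R)) :
    Submodule.span R (Set.range (evDer k R)) = ⊤ := by
  classical
  haveI := h.finite
  let E := Module.Dual R (Derivation k R R)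
  let E' : Submodule R E := Submodule.span R (Set.range (evDer k R))
  haveI : Module.Finite R E := inferInstance
  let C := E ⧸ E'
  have hC : Subsingleton C := by
    apply subsingleton_of_depthLEOne hdepth C
    · refine subsingleton_of_forall_eq 0 (fun ξ => ?_)
      obtain ⟨D, hD⟩ := h.reflexive.2 (ξ ∘ₗ E'.mkQ)
      have h1 : D = 0 := by
        ext r
        have h2 := LinearMap.congr_fun hD (evDer k R r)
        have h3 : E'.mkQ (evDer k R r) = 0 :=
          (Submodule.Quotient.mk_eq_zero _).mpr (Submodule.subset_span ⟨r, rfl⟩)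
        rw [LinearMap.comp_apply, h3, map_zero] at h2
        exact h2
      rw [h1, map_zero] at hD
      refine LinearMap.ext (fun x => ?_)
      obtain ⟨x, rfl⟩ := Submodule.mkQ_surjective E' x
      exact (LinearMap.congr_fun hD x).symm
    · let jY : ↥E' →ₗ[R] E := Submodule.subtype E'
      let πY : E →ₗ[R] C := Submodule.mkQ E'
      have hjπ : Function.Exact jY πY := LinearMap.exact_subtype_mkQ E'
      refine @ext_one_eq_zero_of_extend R _ ↥E' E C _ _ _ _ _ _ jY πY
        (Submodule.injective_subtype E')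
        (Submodule.mkQ_surjective E') hjπ _ ?_
        (h.ext_dual 1 le_rfl)
      intro η
      have hmem : ∀ r, evDer k R r ∈ E' := fun r => Submodule.subset_span ⟨r, rfl⟩
      let D : Derivation k R R := Derivation.mk'
        { toFun := fun r => η ⟨evDer k R r, hmem r⟩
          map_add' := fun r s => by
            rw [← map_add]
            congr 1
            exact Subtype.ext (map_add _ r s)
          map_smul' := fun c r => by
            have h1 : (⟨evDer k R (c • r), hmem _⟩ : E') =
                (algebraMap k R c) • ⟨evDer k R r, hmem r⟩ := by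
              apply Subtype.ext
              change evDer k R (c • r) = (algebraMap k R c) • evDer k R r
              rw [algebraMap_smul]
              exact (evDer k R).map_smul c r
            rw [h1, map_smul, RingHom.id_apply, algebraMap_smul] }
        (fun a b => by
          have h1 : (⟨evDer k R (a * b), hmem _⟩ : E') =
              a • ⟨evDer k R b, hmem b⟩ + b • ⟨evDer k R a, hmem a⟩ := by
            apply Subtype.ext
            exact (evDer k R).leibniz a b
          change η ⟨evDer k R (a * b), hmem _⟩ = _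
          rw [h1, map_add, map_smul, map_smul]
          rfl)
      refine ⟨Module.Dual.eval R _ D, ?_⟩
      have key : ∀ (x : E) (hx : x ∈ E'), x D = η ⟨x, hx⟩ := by
        intro x hx
        induction hx using Submodule.span_induction with
        | mem x hx =>
          obtain ⟨r, rfl⟩ := hx
          rfl
        | zero =>
          have : (⟨0, Submodule.zero_mem _⟩ : E') = 0 := rfl
          rw [this, map_zero]; rfl
        | add x y hx' hy' hx hy =>
          have h1 : (⟨x + y, Submodule.add_mem _ hx' hy'⟩ : E') = ⟨x, hx'⟩ + ⟨y, hy'⟩ := rfl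
          rw [h1, map_add, LinearMap.add_apply, hx, hy]
        | smul a x hx' hx =>
          have h1 : (⟨a • x, Submodule.smul_mem _ a hx'⟩ : E') = a • ⟨x, hx'⟩ := rfl
          rw [h1, map_smul, LinearMap.smul_apply, hx]
      ext ⟨x, hx⟩
      exact key x hx
  rw [eq_top_iff]
  intro x _
  have : E'.mkQ x = 0 := hC.elim _ _
  exact (Submodule.Quotient.mk_eq_zero _).mp this

/-- Q1 in depth at most one. -/
theorem gorenstein_of_depthLEOne {k : Type v} [Field k] [CharZero k] [Algebra k R]
    [Algebra.EssFiniteType k R] [IsNoetherianRing R] [IsLocalRing R] [IsReduced R]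
    (hdepth : DepthLEOne R) (h : FiniteGdim R (Derivation k R R)) : IsGorensteinLocal R := by
  obtain ⟨n, hn⟩ := h
  have h1 : TotallyReflexive R (Derivation k R R) := by
    refine totallyReflexive_of_gdimLE hdepth n _ ?_ hn
    intro D D' hDD
    ext r
    exact LinearMap.congr_fun hDD (evDer k R r)
  exact gorenstein_of_der h1 (span_evDer_eq_top hdepth h1)

end MP72c78a
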