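import Pool.Agent.Lib.MP_72c78a_ag.Gdim

/-!
Generic freeness of finite modules over reduced Noetherian rings and generic vanishing of `Ext`.
-/

set_option linter.style.haveILetI false

open CategoryTheory Abelian

universe u
namespace MP72c78a

variable {R : Type u} [CommRing R]

/-- The local ring of a reduced Noetherian ring at a minimal prime is a field. -/
theorem isField_of_minimal [IsNoetherianRing R] [IsReduced R] (p : Ideal R) [p.IsPrime]
    (hp : p ∈ minimalPrimes R) : IsField (Localization.AtPrime p) := by
  obtain ⟨t, ht, htp⟩ := exists_kill_minimal p hp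
  rw [IsLocalRing.isField_iff_maximalIdeal_eq, eq_bot_iff]
  intro x hx
  obtain ⟨⟨a, b⟩, hab⟩ := IsLocalization.surj p.primeCompl x
  have h1 : algebraMap R (Localization.AtPrime p) a ∈
      IsLocalRing.maximalIdeal (Localization.AtPrime p) := by
    rw [← hab]; exact Ideal.mul_mem_right _ _ hx
  have h2 : a ∈ p := (IsLocalization.AtPrime.to_map_mem_maximal_iff _ p a).mp h1
  have h3 : algebraMap R (Localization.AtPrime p) a = 0 := by
    rw [IsLocalization.map_eq_zero_iff p.primeCompl]
    exact ⟨⟨t, ht⟩, by rw [mul_comm]; exact (htp a).mpr h2⟩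
  rw [Ideal.mem_bot]
  have h4 : x * algebraMap R (Localization.AtPrime p) b = 0 := hab.trans h3
  exact (IsUnit.mul_left_eq_zero (IsLocalization.map_units _ b)).mp h4

/-- Near a minimal prime a multiple of the identity factors through a free module. -/
theorem exists_factor_free [IsNoetherianRing R] [IsReduced R] (X : Type u) [AddCommGroup X]
    [Module R X] [Module.Finite R X] (p : Ideal R) (hp : p ∈ minimalPrimes R) :
    ∃ s, s ∉ p ∧ ∃ (n : ℕ) (α : X →ₗ[R] (Fin n → R)) (β : (Fin n → R) →ₗ[R] X),
      ∀ x, β (α x) = s • x := by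
  classical
  haveI hpp : p.IsPrime := hp.isPrime
  letI : Field (Localization.AtPrime p) := (isField_of_minimal p hp).toField
  obtain ⟨n, π, hπ⟩ := Module.Finite.exists_fin' R X
  let S := p.primeCompl
  let mkX : X →ₗ[R] LocalizedModule S X := LocalizedModule.mkLinearMap S X
  let mkF : (Fin n → R) →ₗ[R] LocalizedModule S (Fin n → R) :=
    LocalizedModule.mkLinearMap S (Fin n → R)
  let πp : LocalizedModule S (Fin n → R) →ₗ[Localization S] LocalizedModule S X :=
    LocalizedModule.map S π
  have hπp : Function.Surjective πp := LocalizedModule.map_surjective S π hπ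
  have hπmk : ∀ y, πp (mkF y) = mkX (π y) := by
    intro y
    exact LocalizedModule.map_mk S π y 1
  obtain ⟨σ, hσ⟩ := Module.projective_lifting_property πp
    (LinearMap.id : LocalizedModule S X →ₗ[Localization S] LocalizedModule S X) hπp
  let g : X →ₗ[R] LocalizedModule S (Fin n → R) := (σ.restrictScalars R) ∘ₗ mkX
  haveI : Module.FinitePresentation R X := Module.finitePresentation_of_finite R X
  obtain ⟨h, s, hs⟩ := Module.FinitePresentation.exists_lift_of_isLocalizedModule
    S mkF g
  have h1 : mkX ∘ₗ (π ∘ₗ h) = mkX ∘ₗ (s • (LinearMap.id : X →ₗ[R] X)) := by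
    ext x
    have h2 : mkF (h x) = s • g x := LinearMap.congr_fun hs x
    have h3 : πp (g x) = mkX x := LinearMap.congr_fun hσ (mkX x)
    change mkX (π (h x)) = mkX (s • x)
    rw [← hπmk, h2]
    have h4 : πp (s • g x) = s • πp (g x) := by
      change πp ((s : R) • g x) = (s : R) • πp (g x)
      rw [← algebraMap_smul (Localization S) (s : R) (g x), map_smul,
        algebraMap_smul]
    rw [h4, h3]
    exact (map_smul mkX (s : R) x).symm
  obtain ⟨t, ht⟩ := Module.Finite.exists_smul_of_comp_eq_of_isLocalizedModule S mkX _ _ h1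
  refine ⟨(t : R) * s, ?_, n, (t : R) • h, π, ?_⟩
  · intro hmem
    rcases hpp.mem_or_mem hmem with h' | h'
    · exact t.2 h'
    · exact s.2 h'
  · intro x
    have h5 := LinearMap.congr_fun ht x
    change π ((t : R) • h x) = _
    rw [map_smul, mul_smul]
    exact h5

/-- Near a minimal prime `Ext^i(X, R)` vanishes for `i ≥ 1`. -/
theorem exists_kills_generic [IsNoetherianRing R] [IsReduced R] (X : Type u) [AddCommGroup X]
    [Module R X] [Module.Finite R X] (p : Ideal R) (hp : p ∈ minimalPrimes R) :
    ∃ s, s ∉ p ∧ ∀ i, 1 ≤ i → Kills (R := R) (B := R) X s (ModuleCat.of R R) i := by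
  obtain ⟨s, hs, n, α, β, hαβ⟩ := exists_factor_free X p hp
  refine ⟨1 * s, by rwa [one_mul], fun i hi => ?_⟩
  have hk : Kills (R := R) (B := R) (Fin n → R) 1 (ModuleCat.of R R) i := by
    obtain ⟨j, rfl⟩ := Nat.exists_eq_add_of_le' hi
    intro x
    haveI : Projective (ModuleCat.of R (Fin n → R)) := by
      rw [← IsProjective.iff_projective]; infer_instance
    rw [Ext.eq_zero_of_projective x, Ext.comp_zero]
  exact hk.retract α β hαβ

end MP72c78a
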