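import Pool.Agent.Lib.MP_72c78a_ag.Bass
import Pool.Agent.Lib.MP_72c78a_ag.Coord
import Pool.Agent.Lib.MP_72c78a_ag.Generic
import Pool.Agent.Lib.MP_72c78a_ag.DepthOne

/-!
Rings with a finite reflexive regular extension.
-/

set_option linter.style.haveILetI false

open CategoryTheory Abelian IsLocalRing

universe u v
namespace MP72c78a

/-- Derivations of a finite reflexive algebra factor through the double dual. -/
theorem exists_theta_reflexive {k : Type v} {R B : Type u} [Field k] [CommRing R] [Algebra k R]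
    [CommRing B] [Algebra R B] [Algebra k B] [IsScalarTower k R B]
    (hB : Function.Bijective (Module.Dual.eval R B)) (δ : Derivation k B B) :
    ∃ θ : Module.Dual R (Derivation k R R) →ₗ[R] B,
      ∀ r, θ (evDer k R r) = δ (algebraMap R B r) := by
  let δR : Derivation k R B := δ.compAlgebraMap R
  let Ψ : Module.Dual R B →ₗ[R] Derivation k R R :=
    { toFun := fun ρ => ρ.compDer δR
      map_add' := fun ρ ρ' => by ext r; rfl
      map_smul' := fun a ρ => by ext r; rfl }
  let e := LinearEquiv.ofBijective (Module.Dual.eval R B) hB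
  let θ : Module.Dual R (Derivation k R R) →ₗ[R] B :=
    e.symm.toLinearMap ∘ₗ Module.Dual.transpose (R := R) Ψ
  refine ⟨θ, fun r => ?_⟩
  change e.symm _ = _
  rw [LinearEquiv.symm_apply_eq]
  ext ρ
  rfl

/-- The residue field of `R` is a retract of the residue field of a finite local algebra. -/
theorem ext_residue_eq_zero {R B : Type u} [CommRing R] [IsLocalRing R] [CommRing B]
    [Algebra R B] [Module.Finite R B] [IsLocalRing B] (N : ModuleCat.{u} R) (i : ℕ)
    (h : Subsingleton (Ext (ModuleCat.of R (B ⧸ maximalIdeal B)) N i)) :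
    ∀ x : Ext (ModuleCat.of R (R ⧸ maximalIdeal R)) N i, x = 0 := by
  have hint : Algebra.IsIntegral R B := Algebra.IsIntegral.of_finite R B
  have hcomap : (maximalIdeal B).comap (algebraMap R B) = maximalIdeal R := by
    have := Ideal.isMaximal_comap_of_isIntegral_of_isMaximal (R := R) (maximalIdeal B)
    exact IsLocalRing.eq_maximalIdeal this
  letI : Algebra (R ⧸ maximalIdeal R) (B ⧸ maximalIdeal B) :=
    (Ideal.quotientMap (maximalIdeal B) (algebraMap R B) (le_of_eq hcomap.symm)).toAlgebra
  letI : Field (R ⧸ maximalIdeal R) := Ideal.Quotient.field (maximalIdeal R)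
  haveI : IsScalarTower R (R ⧸ maximalIdeal R) (B ⧸ maximalIdeal B) :=
    IsScalarTower.of_algebraMap_eq (fun r => rfl)
  let ι₀ : (R ⧸ maximalIdeal R) →ₗ[R ⧸ maximalIdeal R] (B ⧸ maximalIdeal B) :=
    Algebra.linearMap _ _
  have hι₀ : LinearMap.ker ι₀ = ⊥ := by
    rw [LinearMap.ker_eq_bot]
    exact (Ideal.quotientMap_injective' (by rw [hcomap]) :
      Function.Injective (Ideal.quotientMap (maximalIdeal B) (algebraMap R B)
        (le_of_eq hcomap.symm)))
  obtain ⟨ρ₀, hρ₀⟩ := LinearMap.exists_leftInverse_of_injective ι₀ hι₀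
  let ι : ModuleCat.of R (R ⧸ maximalIdeal R) ⟶ ModuleCat.of R (B ⧸ maximalIdeal B) :=
    ModuleCat.ofHom (ι₀.restrictScalars R)
  let ρ : ModuleCat.of R (B ⧸ maximalIdeal B) ⟶ ModuleCat.of R (R ⧸ maximalIdeal R) :=
    ModuleCat.ofHom (ρ₀.restrictScalars R)
  have hιρ : ι ≫ ρ = 𝟙 _ := by
    apply ModuleCat.hom_ext
    apply LinearMap.ext
    intro x
    exact LinearMap.congr_fun hρ₀ x
  intro x
  have h1 : (Ext.mk₀ ρ).comp x (zero_add i) = 0 := h.elim _ _
  rw [← Ext.mk₀_id_comp x, ← hιρ, ← Ext.mk₀_comp_mk₀, Ext.comp_assoc_of_second_deg_zero, h1,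
    Ext.comp_zero]

/-- Vanishing of `Ext^i_R(B/(x_1, ..., x_j), N)` for `i > j`. -/
theorem ext_coord_eq_zero {k : Type v} {R B : Type u} [Field k] [CharZero k] [CommRing R]
    [CommRing B] [Algebra R B] [Algebra k B] [IsLocalRing B] [IsNoetherianRing B] {n : ℕ}
    (x : Fin n → B) (hx : Ideal.span (Set.range x) = maximalIdeal B)
    (δ : Fin n → Derivation k B B) (hδ : ∀ i j, δ i (x j) = if i = j then 1 else 0)
    (N : ModuleCat.{u} R)
    (hB : ∀ i, 1 ≤ i → Subsingleton (Ext (ModuleCat.of R B) N i)) (j : ℕ) (hj : j ≤ n) :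
    ∀ i, j + 1 ≤ i → Subsingleton (Ext (ModuleCat.of R
      (B ⧸ (Ideal.span (x '' {l | l.val < j}) : Ideal B))) N i) := by
  induction j with
  | zero =>
    intro i hi
    have h0 : (Ideal.span (x '' {l | l.val < 0}) : Ideal B) = ⊥ := by
      have : {l : Fin n | l.val < 0} = ∅ := by ext l; simp
      rw [this, Set.image_empty, Ideal.span_empty]
    let e : B ≃ₗ[B] (B ⧸ (Ideal.span (x '' {l | l.val < 0}) : Ideal B)) :=
      (Submodule.quotEquivOfEqBot _ h0).symm
    exact ext_subsingleton_of_equiv (e.restrictScalars R) N i (hB i (by omega))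
  | succ j ih =>
    intro i hi
    have ih' := ih (by omega)
    let jj : Fin n := ⟨j, by omega⟩
    let I : Ideal B := Ideal.span (x '' {l | l.val < j})
    let I' : Ideal B := Ideal.span (x '' {l | l.val < j + 1})
    have hset : {l : Fin n | l.val < j + 1} = insert jj {l | l.val < j} := by
      ext l
      simp only [Set.mem_ofPred_eq, Set.mem_insert_iff, jj, Fin.ext_iff]
      omega
    have hI' : I' = Ideal.span {x jj} ⊔ I := by
      change Ideal.span (x '' {l | l.val < j + 1}) = _
      rw [hset, Set.image_insert_eq, Ideal.span_insert]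
    let f : (B ⧸ I) →ₗ[R] (B ⧸ I) := (LinearMap.lsmul B (B ⧸ I) (x jj)).restrictScalars R
    let g : (B ⧸ I) →ₗ[R] (B ⧸ I') := (Submodule.mapQ I I' LinearMap.id (by
      intro y hy
      rw [hI']
      exact Ideal.mem_sup_right hy)).restrictScalars R
    have hf : Function.Injective f := by
      rw [injective_iff_map_eq_zero]
      intro y hy
      obtain ⟨y, rfl⟩ := Ideal.Quotient.mk_surjective y
      have h1 : Ideal.Quotient.mk I (x jj * y) = 0 := hy
      rw [Ideal.Quotient.eq_zero_iff_mem] at h1 ⊢
      exact mem_of_mul_mem x hx δ hδ {l | l.val < j} jj (by simp [jj]) y h1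
    have hg : Function.Surjective g := by
      intro y
      obtain ⟨y, rfl⟩ := Ideal.Quotient.mk_surjective y
      exact ⟨Ideal.Quotient.mk I y, rfl⟩
    have hfg : Function.Exact f g := by
      intro y
      obtain ⟨y, rfl⟩ := Ideal.Quotient.mk_surjective y
      constructor
      · intro hy
        have h1 : Ideal.Quotient.mk I' y = 0 := hy
        rw [Ideal.Quotient.eq_zero_iff_mem, hI', Submodule.mem_sup] at h1
        obtain ⟨a, ha, b, hb, hab⟩ := h1
        obtain ⟨c, rfl⟩ := Ideal.mem_span_singleton'.mp ha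
        refine ⟨Ideal.Quotient.mk I c, ?_⟩
        change Ideal.Quotient.mk I (x jj * c) = Ideal.Quotient.mk I y
        rw [Ideal.Quotient.eq, ← hab]
        have : x jj * c - (c * x jj + b) = -b := by ring
        rw [this]
        exact I.neg_mem hb
      · rintro ⟨z, hz⟩
        obtain ⟨z, rfl⟩ := Ideal.Quotient.mk_surjective z
        rw [← hz]
        change Ideal.Quotient.mk I' (x jj * z) = 0
        rw [Ideal.Quotient.eq_zero_iff_mem, hI']
        exact Ideal.mem_sup_left (Ideal.mul_mem_right _ _ (Ideal.mem_span_singleton_self _))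
    obtain ⟨i, rfl⟩ := Nat.exists_eq_add_of_le' (show 1 ≤ i by omega)
    exact ext_succ_eq_zero f g hf hg hfg N i (ih' i (by omega)) (ih' (i + 1) (by omega))

/-- Rings with a finite reflexive regular extension: totally reflexive derivations imply
Gorenstein. -/
theorem gorenstein_of_cover {k : Type v} {R B : Type u} [Field k] [CharZero k] [CommRing R]
    [Algebra k R] [IsNoetherianRing R] [IsLocalRing R] [IsReduced R] [CommRing B] [Algebra R B]
    [Algebra k B] [IsScalarTower k R B] [Module.Finite R B] [IsLocalRing B]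
    (hB : Function.Bijective (Module.Dual.eval R B)) {n : ℕ}
    (x : Fin n → B) (hx : Ideal.span (Set.range x) = maximalIdeal B)
    (δ : Fin n → Derivation k B B) (hδ : ∀ i j, δ i (x j) = if i = j then 1 else 0)
    (h : TotallyReflexive R (Derivation k R R)) : IsGorensteinLocal R := by
  classical
  haveI : IsNoetherianRing B := IsNoetherianRing.of_finite R B
  refine ⟨inferInstance, inferInstance, n, ?_⟩
  let E := Module.Dual R (Derivation k R R)
  let d : Derivation k R E := evDer k R
  let d' : Derivation ℤ R E := d.restrictScalars ℤ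
  have hsub : Subsingleton (Ext (ModuleCat.of R (E →ₗ[R] R)) (ModuleCat.of R R) 1) := by
    let e : Derivation k R R ≃ₗ[R] (E →ₗ[R] R) :=
      LinearEquiv.ofBijective (Module.Dual.eval R (Derivation k R R)) h.reflexive
    exact ext_subsingleton_of_equiv e _ 1 (h.ext_self 1 le_rfl)
  obtain ⟨τ⟩ := exists_divOp d' hsub
  have hE : ∀ j, 1 ≤ j → ∀ y : Ext (ModuleCat.of R E) (ModuleCat.of R R) j, y = 0 :=
    fun j hj y => (h.ext_dual j hj).elim _ _
  -- annihilators
  have hstable : ∀ i l, ∀ b ∈ annExt B (ModuleCat.of R R) i,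
      δ l b ∈ annExt B (ModuleCat.of R R) i := by
    intro i l b hb
    obtain ⟨θ, hθ⟩ := exists_theta_reflexive hB (δ l)
    exact kills_deriv ((δ l).restrictScalars ℤ) θ (fun r => hθ r) (ModuleCat.of R R) τ hE i b hb
  have hne : ∀ i, 1 ≤ i → annExt B (ModuleCat.of R R) i ≠ ⊥ := by
    intro i hi h0
    have h1 : Module.Dual.eval R B 1 ≠ 0 := by
      intro h2
      exact one_ne_zero (hB.1 (h2.trans (map_zero _).symm))
    obtain ⟨ρ, hρ⟩ : ∃ ρ : Module.Dual R B, ρ 1 ≠ 0 := by
      by_contra hcon
      push Not at hcon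
      apply h1
      ext ρ
      exact hcon ρ
    obtain ⟨p, hp, hρp⟩ : ∃ p ∈ minimalPrimes R, ρ 1 ∉ p := by
      by_contra hcon
      push Not at hcon
      have h2 : ρ 1 ∈ sInf (minimalPrimes R) := by
        rw [Submodule.mem_sInf]
        exact hcon
      have h3 : sInf (minimalPrimes R) = (⊥ : Ideal R) := by
        have := Ideal.sInf_minimalPrimes (I := (⊥ : Ideal R))
        rw [this]
        exact nilradical_eq_zero R
      rw [h3] at h2
      exact hρ h2
    obtain ⟨s, hs, hk⟩ := exists_kills_generic B p hp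
    have h2 : algebraMap R B s ∈ annExt B (ModuleCat.of R R) i :=
      kills_algebraMap_iff.mpr (hk i hi)
    rw [h0] at h2
    have h3 : algebraMap R B s = 0 := (Submodule.mem_bot B).mp h2
    have h4 : s * ρ 1 = 0 := by
      rw [← smul_eq_mul, ← map_smul, Algebra.smul_def, h3, zero_mul, map_zero]
    have h5 : s * ρ 1 ∈ p := by rw [h4]; exact p.zero_mem
    rcases hp.isPrime.mem_or_mem h5 with h6 | h6
    · exact hs h6
    · exact hρp h6
  have hExtB : ∀ i, 1 ≤ i → Subsingleton (Ext (ModuleCat.of R B) (ModuleCat.of R R) i) := by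
    intro i hi
    have htop := eq_top_of_stable x hx δ hδ (annExt B (ModuleCat.of R R) i) (hne i hi)
      (fun l b hb => hstable i l b hb)
    have h1 : (1 : B) ∈ annExt B (ModuleCat.of R R) i := by rw [htop]; trivial
    have h2 : Kills (R := R) B (1 : B) (ModuleCat.of R R) i := h1
    exact subsingleton_of_forall_eq 0 (fun y => h2.eq_zero_of_isUnit isUnit_one y)
  have hfin := ext_coord_eq_zero x hx δ hδ (ModuleCat.of R R) hExtB n le_rfl
  have hset : (Ideal.span (x '' {l | l.val < n}) : Ideal B) = maximalIdeal B := by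
    have : {l : Fin n | l.val < n} = Set.univ := by ext l; simp
    rw [this, Set.image_univ, hx]
  rw [hset] at hfin
  have hres : ∀ i, n + 1 ≤ i →
      ∀ y : Ext (ModuleCat.of R (R ⧸ maximalIdeal R)) (ModuleCat.of R R) i, y = 0 :=
    fun i hi => ext_residue_eq_zero (B := B) (ModuleCat.of R R) i (hfin i hi)
  haveI : Module.Finite R (ModuleCat.of R R) := inferInstanceAs (Module.Finite R R)
  exact hasInjectiveDimensionLT_of_residue (ModuleCat.of R R) n hres

end MP72c78a
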