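import Mathlib

/-!
Definitions: totally reflexive modules, finite G-dimension, Gorenstein local rings and the
condition that the depth of a local ring is at most one.
-/

open CategoryTheory Abelian

universe u v
namespace MP72c78a

variable (R : Type u) [CommRing R]

/-- A totally reflexive module `M` over `R`: it is finitely generated, the canonical map
`M → M**` to the double dual is bijective, and `Ext^i(M, R) = Ext^i(M*, R) = 0` for `i ≥ 1`. -/
structure TotallyReflexive (M : Type u) [AddCommGroup M] [Module R M] : Prop where
  finite : Module.Finite R M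
  reflexive : Function.Bijective (Module.Dual.eval R M)
  ext_self : ∀ i, 1 ≤ i → Subsingleton (Ext (ModuleCat.of R M) (ModuleCat.of R R) i)
  ext_dual : ∀ i, 1 ≤ i →
    Subsingleton (Ext (ModuleCat.of R (Module.Dual R M)) (ModuleCat.of R R) i)

/-- `GdimLE R n M`: there is an exact sequence `0 → Gₙ → ⋯ → G₀ → M → 0` with all `Gᵢ`
totally reflexive. -/
def GdimLE : ℕ → ∀ (M : Type u) [AddCommGroup M] [Module R M], Prop
  | 0, M, _, _ => TotallyReflexive R M
  | n + 1, M, _, _ => ∃ (G : Type u) (_ : AddCommGroup G) (_ : Module R G) (f : G →ₗ[R] M),
      TotallyReflexive R G ∧ Function.Surjective f ∧ GdimLE n (LinearMap.ker f)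

/-- Finite G-dimension. -/
def FiniteGdim (M : Type u) [AddCommGroup M] [Module R M] : Prop := ∃ n, GdimLE R n M

/-- A Gorenstein local ring: Noetherian, local, of finite injective dimension over itself. -/
structure IsGorensteinLocal : Prop where
  isNoetherianRing : IsNoetherianRing R
  isLocalRing : IsLocalRing R
  injDim : ∃ n, HasInjectiveDimensionLE (ModuleCat.of R R) n

/-- The depth of the local ring `R` is at most one: the maximal ideal contains no regular
sequence of length two. -/
def DepthLEOne [IsLocalRing R] : Prop :=
  ∀ x ∈ IsLocalRing.maximalIdeal R, ∀ y ∈ IsLocalRing.maximalIdeal R,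
    ¬ RingTheory.Sequence.IsRegular R ([x, y] : List R)

end MP72c78a
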