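import Mathlib

/-!
Definition: the depth of a local ring is at most `n`.
-/

namespace MP72c78a

/-- The depth of the local ring `R` is at most `n`: no sequence of `n + 1` elements of the maximal
ideal is regular on `R`. -/
def DepthLE (R : Type*) [CommRing R] [IsLocalRing R] (n : ℕ) : Prop :=
  ∀ rs : List R, rs.length = n + 1 → (∀ r ∈ rs, r ∈ IsLocalRing.maximalIdeal R) →
    ¬ RingTheory.Sequence.IsRegular R rs

end MP72c78a
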