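import Pool.Agent.Lib.MP_72c78a_ag.DefsDepth
import Pool.Agent.Lib.MP_72c78a_ag.Generic
import Pool.Agent.Lib.MP_72c78a_ag.DepthOne

/-!
Local rings of depth at most two.
-/

set_option linter.style.haveILetI false

open CategoryTheory Abelian
open scoped Pointwise

universe u v
namespace MP72c78a

variable {R : Type u} [CommRing R]

/-- Descending the vanishing of `Ext` to the quotient by a regular element. -/
theorem ext_quotSMulTop_eq_zero (X : Type u) [AddCommGroup X] [Module R X] (N : Type u)
    [AddCommGroup N] [Module R N] (x : R) (hx : IsSMulRegular N x) (i : ℕ)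
    (h0 : Subsingleton (Ext (ModuleCat.of R X) (ModuleCat.of R N) i))
    (h1 : Subsingleton (Ext (ModuleCat.of R X) (ModuleCat.of R N) (i + 1))) :
    Subsingleton (Ext (ModuleCat.of R X) (ModuleCat.of R (QuotSMulTop x N)) i) := by
  refine subsingleton_of_forall_eq 0 (fun y => ?_)
  let f : N →ₗ[R] N := LinearMap.lsmul R N x
  let g : N →ₗ[R] QuotSMulTop x N := Submodule.mkQ _
  have hf : Function.Injective f := hx
  have hg : Function.Surjective g := Submodule.mkQ_surjective _
  have hfg : Function.Exact f g := by
    intro y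
    constructor
    · intro hy
      have h3 : y ∈ x • (⊤ : Submodule R N) := (Submodule.Quotient.mk_eq_zero _).mp hy
      rw [Submodule.mem_smul_pointwise_iff_exists] at h3
      obtain ⟨z, _, hz⟩ := h3
      exact ⟨z, hz⟩
    · rintro ⟨z, rfl⟩
      change g (x • z) = 0
      exact (Submodule.Quotient.mk_eq_zero _).mpr
        (Submodule.smul_mem_pointwise_smul z x ⊤ trivial)
  let S : ShortComplex (ModuleCat.{u} R) :=
    ModuleCat.shortComplexOfCompEqZero f g hfg.linearMap_comp_eq_zero
  have hS : S.ShortExact := ModuleCat.shortComplex_shortExact S hfg hf hg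
  obtain ⟨x₂, hx₂⟩ := Ext.covariant_sequence_exact₃ _ hS y (n₁ := i + 1) rfl (h1.elim _ _)
  have : x₂ = 0 := h0.elim _ _
  rw [← hx₂, this, Ext.zero_comp]

/-- A regular sequence in the annihilator of `X` from the vanishing of `Ext^i(X, N)`, `i ≤ n`. -/
theorem exists_regular_seq [IsNoetherianRing R] (X : Type u) [AddCommGroup X] [Module R X]
    [Module.Finite R X] (n : ℕ) : ∀ (N : Type u) [AddCommGroup N] [Module R N]
      [Module.Finite R N], (∀ i, i ≤ n →
        Subsingleton (Ext (ModuleCat.of R X) (ModuleCat.of R N) i)) →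
      ∃ rs : List R, rs.length = n + 1 ∧ (∀ r ∈ rs, r ∈ Module.annihilator R X) ∧
        RingTheory.Sequence.IsWeaklyRegular N rs := by
  induction n with
  | zero =>
    intro N _ _ _ h
    have h0 := h 0 le_rfl
    have h1 : Subsingleton (X →ₗ[R] N) := by
      refine ⟨fun φ ψ => ?_⟩
      have h2 : Ext.mk₀ (ModuleCat.ofHom φ) = Ext.mk₀ (ModuleCat.ofHom ψ) := h0.elim _ _
      have h3 := (Ext.mk₀_bijective _ _).1 h2
      exact congrArg ModuleCat.Hom.hom h3
    obtain ⟨x, hxX, hx⟩ := (IsSMulRegular.subsingleton_linearMap_iff).mp h1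
    refine ⟨[x], rfl, ?_, ?_⟩
    · intro r hr
      simp only [List.mem_cons, List.not_mem_nil, or_false] at hr
      rw [hr]; exact hxX
    · rw [RingTheory.Sequence.isWeaklyRegular_cons_iff]
      exact ⟨hx, .nil _ _⟩
  | succ n ih =>
    intro N _ _ _ h
    have h0 := h 0 (by omega)
    have h1 : Subsingleton (X →ₗ[R] N) := by
      refine ⟨fun φ ψ => ?_⟩
      have h2 : Ext.mk₀ (ModuleCat.ofHom φ) = Ext.mk₀ (ModuleCat.ofHom ψ) := h0.elim _ _
      have h3 := (Ext.mk₀_bijective _ _).1 h2
      exact congrArg ModuleCat.Hom.hom h3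
    obtain ⟨x, hxX, hx⟩ := (IsSMulRegular.subsingleton_linearMap_iff).mp h1
    obtain ⟨rs, hlen, hann, hreg⟩ := ih (QuotSMulTop x N) (fun i hi =>
      ext_quotSMulTop_eq_zero X N x hx i (h i (by omega)) (h (i + 1) (by omega)))
    refine ⟨x :: rs, by simp [hlen], ?_, ?_⟩
    · intro r hr
      rcases List.mem_cons.mp hr with rfl | hr
      · exact hxX
      · exact hann r hr
    · rw [RingTheory.Sequence.isWeaklyRegular_cons_iff]
      exact ⟨hx, hreg⟩

/-- Over a local ring of depth at most `n`, a finite module `X` with `Ext^i(X, R) = 0` for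
`i ≤ n` vanishes. -/
theorem subsingleton_of_depthLE [IsNoetherianRing R] [IsLocalRing R] {n : ℕ}
    (hdepth : DepthLE R n) (X : Type u) [AddCommGroup X] [Module R X] [Module.Finite R X]
    (h : ∀ i, i ≤ n → Subsingleton (Ext (ModuleCat.of R X) (ModuleCat.of R R) i)) :
    Subsingleton X := by
  by_contra hX
  rw [not_subsingleton_iff_nontrivial] at hX
  obtain ⟨rs, hlen, hann, hreg⟩ := exists_regular_seq X n R h
  have hunit : ∀ z ∈ Module.annihilator R X, z ∈ IsLocalRing.maximalIdeal R := by
    intro z hz
    rw [IsLocalRing.mem_maximalIdeal, mem_nonunits_iff]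
    intro hu
    obtain ⟨w, hw⟩ := hu.exists_left_inv
    have h1 : (1 : R) ∈ Module.annihilator R X := by
      rw [← hw]; exact Ideal.mul_mem_left _ _ hz
    obtain ⟨a, ha⟩ := exists_ne (0 : X)
    apply ha
    have := Module.mem_annihilator.mp h1 a
    rwa [one_smul] at this
  apply hdepth rs hlen (fun r hr => hunit r (hann r hr))
  rwa [IsLocalRing.isRegular_iff_isWeaklyRegular_of_subset_maximalIdeal
    (fun r hr => hunit r (hann r hr))]

/-- Near a minimal prime a submodule is a retract up to a scalar. -/
theorem exists_retract [IsNoetherianRing R] [IsReduced R] {G : Type u} [AddCommGroup G]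
    [Module R G] [Module.Finite R G] (K : Submodule R G) (p : Ideal R)
    (hp : p ∈ minimalPrimes R) :
    ∃ s, s ∉ p ∧ ∃ ρ : G →ₗ[R] G, (∀ g, ρ g ∈ K) ∧ ∀ x ∈ K, ρ x = s • x := by
  obtain ⟨s, hs, n, α, β, hαβ⟩ := exists_factor_free (G ⧸ K) p hp
  obtain ⟨β', hβ'⟩ := Module.projective_lifting_property K.mkQ β (Submodule.mkQ_surjective K)
  refine ⟨s, hs, s • LinearMap.id - β' ∘ₗ α ∘ₗ K.mkQ, ?_, ?_⟩
  · intro g
    rw [← Submodule.Quotient.mk_eq_zero K, ← Submodule.mkQ_apply, LinearMap.sub_apply, map_sub]
    have h1 : K.mkQ ((β' ∘ₗ α ∘ₗ K.mkQ) g) = β (α (K.mkQ g)) :=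
      LinearMap.congr_fun hβ' _
    rw [h1, hαβ, LinearMap.smul_apply, map_smul]
    exact sub_self _
  · intro x hx
    have h1 : K.mkQ x = 0 := (Submodule.Quotient.mk_eq_zero K).mpr hx
    rw [LinearMap.sub_apply, LinearMap.comp_apply, LinearMap.comp_apply, h1, map_zero, map_zero,
      sub_zero]
    rfl

/-- Elements lying in all minimal primes vanish in a reduced ring. -/
theorem eq_zero_of_forall_minimal [IsReduced R] (r : R) (h : ∀ p ∈ minimalPrimes R, r ∈ p) :
    r = 0 := by
  have h2 : r ∈ sInf (minimalPrimes R) := by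
    rw [Submodule.mem_sInf]
    exact h
  have h3 : sInf (minimalPrimes R) = (⊥ : Ideal R) := by
    have := Ideal.sInf_minimalPrimes (I := (⊥ : Ideal R))
    rw [this]
    exact nilradical_eq_zero R
  rw [h3] at h2
  exact h2

/-- Kernels of maps from reflexive to torsionless modules are reflexive over reduced rings. -/
theorem ker_reflexive [IsNoetherianRing R] [IsReduced R] {G Z : Type u} [AddCommGroup G]
    [Module R G] [AddCommGroup Z] [Module R Z] [Module.Finite R G] (f : G →ₗ[R] Z)
    (hG : Function.Bijective (Module.Dual.eval R G))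
    (hZ : Function.Injective (Module.Dual.eval R Z)) :
    Function.Bijective (Module.Dual.eval R (LinearMap.ker f)) := by
  let K := LinearMap.ker f
  have evG : ∀ φ g, Module.Dual.eval R G g φ = φ g := fun _ _ => rfl
  have evK : ∀ φ g, Module.Dual.eval R K g φ = φ g := fun _ _ => rfl
  constructor
  · intro x y hxy
    apply Subtype.ext
    apply hG.1
    ext φ
    exact LinearMap.congr_fun hxy (φ ∘ₗ K.subtype)
  · intro κ
    obtain ⟨g, hg⟩ := hG.2 (κ ∘ₗ Module.Dual.transpose (R := R) K.subtype)
    have hg' : ∀ φ : Module.Dual R G, φ g = κ (φ ∘ₗ K.subtype) :=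
      fun φ => LinearMap.congr_fun hg φ
    have hgK : f g = 0 := by
      apply hZ
      ext φ
      rw [map_zero]
      change φ (f g) = 0
      have h1 := hg' (φ ∘ₗ f)
      have h2 : (φ ∘ₗ f) ∘ₗ K.subtype = 0 := by
        ext x
        change φ (f x) = 0
        have : f x = 0 := x.2
        rw [this, map_zero]
      rw [h2, map_zero] at h1
      exact h1
    refine ⟨⟨g, hgK⟩, ?_⟩
    ext φ
    rw [evK, ← sub_eq_zero]
    apply eq_zero_of_forall_minimal
    intro p hp
    obtain ⟨s, hs, ρ, hρK, hρ⟩ := exists_retract K p hp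
    let ψ : Module.Dual R G := φ ∘ₗ LinearMap.codRestrict K ρ hρK
    have h1 : ψ ∘ₗ K.subtype = s • φ := by
      ext x
      change φ ⟨ρ x, _⟩ = s • φ x
      rw [← map_smul]
      congr 1
      exact Subtype.ext (hρ x x.2)
    have h2 := hg' ψ
    rw [h1, map_smul] at h2
    have h3 : ψ g = s • φ ⟨g, hgK⟩ := by
      rw [← map_smul]
      change φ ⟨ρ g, _⟩ = _
      congr 1
      exact Subtype.ext (hρ g hgK)
    rw [h3] at h2
    have h4 : s * (φ ⟨g, hgK⟩ - κ φ) = 0 := by
      rw [mul_sub, ← smul_eq_mul, ← smul_eq_mul, h2, sub_self]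
    have h5 : s * (φ ⟨g, hgK⟩ - κ φ) ∈ p := by rw [h4]; exact p.zero_mem
    exact (hp.isPrime.mem_or_mem h5).resolve_left hs

/-- A finitely generated derivation module over a reduced Noetherian ring is reflexive. -/
theorem der_reflexive {k : Type v} [Field k] [Algebra k R] [IsNoetherianRing R] [IsReduced R]
    [Module.Finite R (Derivation k R R)] :
    Function.Bijective (Module.Dual.eval R (Derivation k R R)) := by
  classical
  let M := Derivation k R R
  constructor
  · intro D D' hDD
    ext r
    exact LinearMap.congr_fun hDD (evDer k R r)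
  · intro ν
    let D : Derivation k R R := Derivation.mk'
      { toFun := fun r => ν (evDer k R r)
        map_add' := fun r s => by rw [map_add, map_add]
        map_smul' := fun c r => by
          have h1 : evDer k R (c • r) = (algebraMap k R c) • evDer k R r := by
            rw [algebraMap_smul]
            exact (evDer k R).map_smul c r
          rw [h1, map_smul, RingHom.id_apply, algebraMap_smul] }
      (fun a b => by
        change ν (evDer k R (a * b)) = _
        rw [(evDer k R).leibniz, map_add, map_smul, map_smul]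
        rfl)
    have hD : ∀ r, ν (evDer k R r) = D r := fun _ => rfl
    refine ⟨D, ?_⟩
    -- finitely many evaluations generate all of them
    let E' : Submodule R (Module.Dual R M) := Submodule.span R (Set.range (evDer k R))
    obtain ⟨S, hS⟩ := (IsNoetherian.noetherian E' : E'.FG)
    have hvan : ∀ x ∈ E', Module.Dual.eval R M D x = ν x := by
      intro x hx
      induction hx using Submodule.span_induction with
      | mem x hx =>
        obtain ⟨r, rfl⟩ := hx
        exact (hD r).symm
      | zero => rw [map_zero, map_zero]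
      | add x y _ _ hx hy => rw [map_add, map_add, hx, hy]
      | smul a x _ hx => rw [map_smul, map_smul, hx]
    let Φ : M →ₗ[R] (S → R) := LinearMap.pi (fun x => (x : Module.Dual R M))
    have hΦ : Function.Injective Φ := by
      rw [injective_iff_map_eq_zero]
      intro m hm
      have h1 : ∀ x ∈ E', x m = 0 := by
        intro x hx
        rw [← hS] at hx
        induction hx using Submodule.span_induction with
        | mem x hx => exact congrFun hm ⟨x, hx⟩
        | zero => rfl
        | add x y _ _ hx hy => rw [LinearMap.add_apply, hx, hy, add_zero]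
        | smul a x _ hx => rw [LinearMap.smul_apply, hx, smul_zero]
      ext r
      exact h1 _ (Submodule.subset_span ⟨r, rfl⟩)
    let e := LinearEquiv.ofInjective Φ hΦ
    ext lam
    rw [← sub_eq_zero]
    apply eq_zero_of_forall_minimal
    intro p hp
    obtain ⟨s, hs, ρ, hρK, hρ⟩ := exists_retract (LinearMap.range Φ) p hp
    -- `s • lam` is a combination of the evaluations
    let χ : (S → R) →ₗ[R] R :=
      lam ∘ₗ e.symm.toLinearMap ∘ₗ LinearMap.codRestrict (LinearMap.range Φ) ρ hρK
    have h1 : s • lam = ∑ x : S, χ (Pi.single x 1) • (x : Module.Dual R M) := by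
      ext m
      have h2 : χ (Φ m) = s • lam m := by
        have h3 : LinearMap.codRestrict (LinearMap.range Φ) ρ hρK (Φ m) = e (s • m) := by
          apply Subtype.ext
          change ρ (Φ m) = Φ (s • m)
          rw [hρ _ ⟨m, rfl⟩, map_smul]
        change lam (e.symm (LinearMap.codRestrict (LinearMap.range Φ) ρ hρK (Φ m))) = _
        rw [h3, e.symm_apply_apply, map_smul]
      rw [LinearMap.smul_apply, ← h2]
      have h4 : Φ m = ∑ x : S, (x : Module.Dual R M) m • (Pi.single x (1 : R) : S → R) := by
        ext y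
        rw [Finset.sum_apply, Finset.sum_eq_single y]
        · simp [Φ]
        · intro x _ hxy
          simp [Ne.symm hxy]
        · intro h
          exact absurd (Finset.mem_univ y) h
      rw [h4, map_sum, LinearMap.sum_apply]
      refine Finset.sum_congr rfl (fun x _ => ?_)
      rw [map_smul, LinearMap.smul_apply, smul_eq_mul, smul_eq_mul, mul_comm]
    have h2 : s • lam ∈ E' := by
      rw [h1]
      refine Submodule.sum_mem _ (fun x _ => Submodule.smul_mem _ _ ?_)
      rw [← hS]
      exact Submodule.subset_span x.2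
    have h3 := hvan _ h2
    rw [map_smul, map_smul] at h3
    have h4 : s * (Module.Dual.eval R M D lam - ν lam) = 0 := by
      rw [mul_sub, ← smul_eq_mul, ← smul_eq_mul, h3, sub_self]
    have h5 : s * (Module.Dual.eval R M D lam - ν lam) ∈ p := by rw [h4]; exact p.zero_mem
    exact (hp.isPrime.mem_or_mem h5).resolve_left hs

end MP72c78a
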