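import Mathlib

/-!
Divergence operators on `Hom(E, N)`.

`R` is a commutative ring, `E` an `R`-module with a derivation `d : R → E`.  A divergence
operator on an `R`-module `N` is an additive map `τ : Hom(E, N) → N` such that
`τ (r ξ) = r τ ξ + ξ (d r)`.  We prove that divergence operators can be pushed along
cosyzygies `0 → N → I → N' → 0` when `Ext¹(E, N) = 0`.
-/

open CategoryTheory Abelian

universe u

namespace MP72c78a

section Tw

variable {R : Type u} [CommRing R]
variable {E N I : Type u} [AddCommGroup E] [Module R E] [AddCommGroup N] [Module R N]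
  [AddCommGroup I] [Module R I]

/-- A divergence operator. -/
structure DivOp (d : Derivation ℤ R E) (N : Type u) [AddCommGroup N] [Module R N] where
  toFun : (E →ₗ[R] N) →+ N
  map_smul' : ∀ (r : R) (ξ : E →ₗ[R] N), toFun (r • ξ) = r • toFun ξ + ξ (d r)

/-- Twisted module `I × Hom(E, N)` with `r (s, η) = (r s + f (η (d r)), r η)`. -/
def Tw (_d : Derivation ℤ R E) (_f : N →ₗ[R] I) : Type u := I × (E →ₗ[R] N)

namespace Tw

variable (d : Derivation ℤ R E) (f : N →ₗ[R] I)

instance : AddCommGroup (Tw d f) := inferInstanceAs (AddCommGroup (I × (E →ₗ[R] N)))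

/-- constructor -/
def mk (s : I) (η : E →ₗ[R] N) : Tw d f := (s, η)

variable {d f}

/-- first component -/
def fst (x : Tw d f) : I := Prod.fst x
/-- second component -/
def snd (x : Tw d f) : E →ₗ[R] N := Prod.snd x

@[ext] theorem ext {x y : Tw d f} (h1 : x.fst = y.fst) (h2 : x.snd = y.snd) : x = y :=
  Prod.ext h1 h2

@[simp] theorem fst_mk (s : I) (η : E →ₗ[R] N) : (mk d f s η).fst = s := rfl
@[simp] theorem snd_mk (s : I) (η : E →ₗ[R] N) : (mk d f s η).snd = η := rfl
@[simp] theorem fst_add (x y : Tw d f) : (x + y).fst = x.fst + y.fst := rfl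
@[simp] theorem snd_add (x y : Tw d f) : (x + y).snd = x.snd + y.snd := rfl
@[simp] theorem fst_zero : (0 : Tw d f).fst = 0 := rfl
@[simp] theorem snd_zero : (0 : Tw d f).snd = 0 := rfl

instance : SMul R (Tw d f) := ⟨fun r x => mk d f (r • x.fst + f (x.snd (d r))) (r • x.snd)⟩

@[simp] theorem fst_smul (r : R) (x : Tw d f) : (r • x).fst = r • x.fst + f (x.snd (d r)) := rfl
@[simp] theorem snd_smul (r : R) (x : Tw d f) : (r • x).snd = r • x.snd := rfl

instance : Module R (Tw d f) where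
  one_smul x := by ext <;> simp
  mul_smul r s x := by
    ext
    · simp only [fst_smul, snd_smul, Derivation.leibniz, map_add, map_smul, smul_add,
        LinearMap.smul_apply, mul_smul]
      abel
    · simp [mul_smul]
  smul_zero r := by ext <;> simp
  smul_add r x y := by
    ext
    · simp only [fst_smul, fst_add, snd_add, smul_add, LinearMap.add_apply, map_add]
      abel
    · simp
  add_smul r s x := by
    ext
    · simp only [fst_smul, fst_add, map_add, add_smul]
      abel
    · simp [add_smul]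
  zero_smul x := by ext <;> simp

end Tw

/-- Extending a divergence operator to an injective overmodule. -/
theorem DivOp.exists_extend {d : Derivation ℤ R E} (τ : DivOp d N) (f : N →ₗ[R] I)
    (hf : Function.Injective f) (hI : Module.Injective R I) :
    ∃ τ' : DivOp d I, ∀ η : E →ₗ[R] N, τ'.toFun (f ∘ₗ η) = f (τ.toFun η) := by
  classical
  -- the inclusion `Tw f → Tw id`
  let j : Tw d f →ₗ[R] Tw d (LinearMap.id : I →ₗ[R] I) :=
    { toFun := fun x => Tw.mk d _ x.fst (f ∘ₗ x.snd)
      map_add' := fun x y => by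
        ext <;> simp
      map_smul' := fun r x => by
        ext <;> simp }
  have hj : Function.Injective j := by
    intro x y hxy
    have h1 : x.fst = y.fst := congrArg (fun z : Tw d (LinearMap.id : I →ₗ[R] I) => z.fst) hxy
    have h2 : f ∘ₗ x.snd = f ∘ₗ y.snd :=
      congrArg (fun z : Tw d (LinearMap.id : I →ₗ[R] I) => z.snd) hxy
    refine Tw.ext h1 ?_
    ext e
    exact hf (by simpa using LinearMap.congr_fun h2 e)
  let ρ : Tw d f →ₗ[R] I :=
    { toFun := fun x => x.fst - f (τ.toFun x.snd)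
      map_add' := fun x y => by
        simp only [Tw.fst_add, Tw.snd_add, map_add]
        abel
      map_smul' := fun r x => by
        simp only [Tw.fst_smul, Tw.snd_smul, τ.map_smul', map_add, map_smul, smul_sub,
          RingHom.id_apply]
        abel }
  obtain ⟨g, hg⟩ := hI.out j hj ρ
  have hg1 : ∀ s : I, g (Tw.mk d _ s 0) = s := by
    intro s
    have := hg (Tw.mk d f s 0)
    have h2 : j (Tw.mk d f s 0) = Tw.mk d _ s 0 := by
      ext <;> simp [j]
    rw [h2] at this
    rw [this]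
    simp [ρ]
  have hg2 : ∀ η : E →ₗ[R] N, g (Tw.mk d _ 0 (f ∘ₗ η)) = - f (τ.toFun η) := by
    intro η
    have := hg (Tw.mk d f 0 η)
    have h2 : j (Tw.mk d f 0 η) = Tw.mk d _ 0 (f ∘ₗ η) := by
      ext <;> simp [j]
    rw [h2] at this
    rw [this]
    simp [ρ]
  refine ⟨{ toFun := ⟨⟨fun ξ => - g (Tw.mk d _ 0 ξ), ?_⟩, ?_⟩, map_smul' := ?_ }, ?_⟩
  · have : Tw.mk d (LinearMap.id : I →ₗ[R] I) 0 0 = 0 := rfl
    simp [this]
  · intro ξ ζ
    have : Tw.mk d (LinearMap.id : I →ₗ[R] I) 0 (ξ + ζ) = Tw.mk d _ 0 ξ + Tw.mk d _ 0 ζ := by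
      ext <;> simp
    simp only [this, map_add]
    abel
  · intro r ξ
    have h1 : r • Tw.mk d (LinearMap.id : I →ₗ[R] I) 0 ξ
        = Tw.mk d _ (ξ (d r)) 0 + Tw.mk d _ 0 (r • ξ) := by
      ext <;> simp
    have h2 := congrArg g h1
    rw [map_smul, map_add, hg1] at h2
    change - g (Tw.mk d _ 0 (r • ξ)) = r • (- g (Tw.mk d _ 0 ξ)) + ξ (d r)
    rw [smul_neg, h2]
    abel
  · intro η
    change - g (Tw.mk d _ 0 (f ∘ₗ η)) = f (τ.toFun η)
    rw [hg2, neg_neg]

/-- Pushing a divergence operator to a quotient, provided that maps lift. -/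
theorem DivOp.exists_push {d : Derivation ℤ R E} {N' : Type u} [AddCommGroup N'] [Module R N']
    (τ : DivOp d N) (τ' : DivOp d I) (f : N →ₗ[R] I) (g : I →ₗ[R] N')
    (hf : Function.Injective f) (hfg : Function.Exact f g)
    (hlift : ∀ ξ : E →ₗ[R] N', ∃ η : E →ₗ[R] I, g ∘ₗ η = ξ)
    (hcomp : ∀ η : E →ₗ[R] N, τ'.toFun (f ∘ₗ η) = f (τ.toFun η)) :
    ∃ τ'' : DivOp d N', ∀ η : E →ₗ[R] I, τ''.toFun (g ∘ₗ η) = g (τ'.toFun η) := by
  classical
  choose l hl using hlift
  -- well-definedness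
  have hwd : ∀ η η' : E →ₗ[R] I, g ∘ₗ η = g ∘ₗ η' → g (τ'.toFun η) = g (τ'.toFun η') := by
    intro η η' h
    have h0 : ∀ e, (η - η') e ∈ LinearMap.range f := by
      intro e
      rw [LinearMap.mem_range, ← Set.mem_range, ← hfg]
      have := LinearMap.congr_fun h e
      simp only [LinearMap.comp_apply] at this
      simp [this]
    let e' := LinearEquiv.ofInjective f hf
    let ζ : E →ₗ[R] N := e'.symm.toLinearMap ∘ₗ (LinearMap.codRestrict _ (η - η') h0)
    have hζ : f ∘ₗ ζ = η - η' := by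
      ext e
      have : e' (e'.symm (LinearMap.codRestrict _ (η - η') h0 e))
          = LinearMap.codRestrict _ (η - η') h0 e := e'.apply_symm_apply _
      have h2 := congrArg Subtype.val this
      exact h2
    have h3 : τ'.toFun (η - η') = f (τ.toFun ζ) := by rw [← hζ, hcomp]
    have h4 : g (τ'.toFun (η - η')) = 0 := by
      rw [h3]; exact hfg.apply_apply_eq_zero _
    rw [map_sub, map_sub, sub_eq_zero] at h4
    exact h4
  refine ⟨{ toFun := ⟨⟨fun ξ => g (τ'.toFun (l ξ)), ?_⟩, ?_⟩, map_smul' := ?_ }, ?_⟩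
  · have := hwd (l 0) 0 (by rw [hl]; simp)
    rw [this]; simp
  · intro ξ ζ
    have := hwd (l (ξ + ζ)) (l ξ + l ζ) (by rw [hl, LinearMap.comp_add, hl, hl])
    change g (τ'.toFun (l (ξ + ζ))) = _
    rw [this, map_add, map_add]
  · intro r ξ
    have := hwd (l (r • ξ)) (r • l ξ) (by rw [hl, LinearMap.comp_smul, hl])
    change g (τ'.toFun (l (r • ξ))) = r • g (τ'.toFun (l ξ)) + ξ (d r)
    rw [this, τ'.map_smul', map_add, map_smul]
    congr 1
    exact LinearMap.congr_fun (hl ξ) (d r)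
  · intro η
    change g (τ'.toFun (l (g ∘ₗ η))) = _
    exact hwd _ _ (hl _)

end Tw

/-! ### The induced operators on `Hom(B, N)` -/

section Conn

variable {R : Type u} [CommRing R]
variable {E N : Type u} [AddCommGroup E] [Module R E] [AddCommGroup N] [Module R N]
variable {B : Type u} [CommRing B] [Algebra R B]

/-- The map `ω ↦ φ (θ(ω) b)`. -/
def arcHom (θ : E →ₗ[R] B) (φ : B →ₗ[R] N) (b : B) : E →ₗ[R] N :=
  φ ∘ₗ (LinearMap.mulRight R b) ∘ₗ θ

@[simp] theorem arcHom_apply (θ : E →ₗ[R] B) (φ : B →ₗ[R] N) (b : B) (e : E) :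
    arcHom θ φ b e = φ (θ e * b) := rfl

/-- The operator `(∂ φ)(b) = τ(ω ↦ φ(θ(ω) b)) - φ(δ b)` on `Hom(B, N)`. -/
def DivOp.conn {d : Derivation ℤ R E} (τ : DivOp d N) (δ : Derivation ℤ B B) (θ : E →ₗ[R] B)
    (hθ : ∀ r, θ (d r) = δ (algebraMap R B r)) : (B →ₗ[R] N) →+ (B →ₗ[R] N) where
  toFun φ :=
    { toFun := fun b => τ.toFun (arcHom θ φ b) - φ (δ b)
      map_add' := fun b c => by
        have : arcHom θ φ (b + c) = arcHom θ φ b + arcHom θ φ c := by
          ext e; simp [mul_add]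
        rw [this, map_add, map_add, map_add]
        abel
      map_smul' := fun r b => by
        have h1 : arcHom θ φ (r • b) = r • arcHom θ φ b := by
          ext e; simp
        have h2 : δ (r • b) = r • δ b + θ (d r) * b := by
          rw [Algebra.smul_def r b, Derivation.leibniz, hθ, Algebra.smul_def r (δ b)]
          simp only [smul_eq_mul]
          ring
        rw [h1, h2, τ.map_smul', map_add, map_smul, arcHom_apply, RingHom.id_apply, smul_sub]
        abel }
  map_zero' := by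
    ext b
    have : arcHom θ (0 : B →ₗ[R] N) b = 0 := by ext; simp
    simp [this]
  map_add' φ ψ := by
    ext b
    have : arcHom θ (φ + ψ) b = arcHom θ φ b + arcHom θ ψ b := by ext; simp
    simp only [LinearMap.coe_mk, AddHom.coe_mk, this, map_add, LinearMap.add_apply]
    abel

theorem DivOp.conn_apply {d : Derivation ℤ R E} (τ : DivOp d N) (δ : Derivation ℤ B B)
    (θ : E →ₗ[R] B) (hθ : ∀ r, θ (d r) = δ (algebraMap R B r)) (φ : B →ₗ[R] N) (b : B) :
    τ.conn δ θ hθ φ b = τ.toFun (arcHom θ φ b) - φ (δ b) := rfl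

/-- Leibniz rule. -/
theorem DivOp.conn_mul {d : Derivation ℤ R E} (τ : DivOp d N) (δ : Derivation ℤ B B)
    (θ : E →ₗ[R] B) (hθ : ∀ r, θ (d r) = δ (algebraMap R B r)) (φ : B →ₗ[R] N) (c : B) :
    τ.conn δ θ hθ (φ ∘ₗ LinearMap.mulLeft R c) =
      (τ.conn δ θ hθ φ) ∘ₗ LinearMap.mulLeft R c + φ ∘ₗ LinearMap.mulLeft R (δ c) := by
  ext b
  have h1 : arcHom θ (φ ∘ₗ LinearMap.mulLeft R c) b = arcHom θ φ (c * b) := by
    ext e
    simp only [arcHom_apply, LinearMap.comp_apply, LinearMap.mulLeft_apply]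
    congr 1; ring
  simp only [DivOp.conn_apply, LinearMap.add_apply, LinearMap.comp_apply, h1,
    LinearMap.mulLeft_apply, Derivation.leibniz, smul_eq_mul, map_add]
  rw [mul_comm b (δ c)]
  abel

/-- Naturality in `N`. -/
theorem DivOp.conn_comp {d : Derivation ℤ R E} {N' : Type u} [AddCommGroup N'] [Module R N']
    (τ : DivOp d N) (τ' : DivOp d N') (g : N →ₗ[R] N')
    (hg : ∀ η : E →ₗ[R] N, τ'.toFun (g ∘ₗ η) = g (τ.toFun η))
    (δ : Derivation ℤ B B)
    (θ : E →ₗ[R] B) (hθ : ∀ r, θ (d r) = δ (algebraMap R B r)) (φ : B →ₗ[R] N) :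
    τ'.conn δ θ hθ (g ∘ₗ φ) = g ∘ₗ (τ.conn δ θ hθ φ) := by
  ext b
  have h1 : arcHom θ (g ∘ₗ φ) b = g ∘ₗ arcHom θ φ b := rfl
  simp [DivOp.conn_apply, h1, hg]

end Conn

end MP72c78a
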