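import Pool.Agent.Lib.MP_72c78a_ag.DivOp

/-!
The action of a finite algebra on `Ext`, and the operators induced on `Ext^i_R(B, N)` by a
divergence operator.
-/

open CategoryTheory Abelian

universe u

namespace MP72c78a

section Act

variable {R : Type u} [CommRing R] {B : Type u} [CommRing B] [Algebra R B]

/-- multiplication by `b` as a morphism of `R`-modules. -/
def actHom (X : Type u) [AddCommGroup X] [Module R X] [Module B X] [IsScalarTower R B X] (b : B) :
    ModuleCat.of R X ⟶ ModuleCat.of R X :=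
  ModuleCat.ofHom ((LinearMap.lsmul B X b).restrictScalars R)

/-- `b` acts as zero on `Ext^i_R(X, N)`. -/
def Kills (X : Type u) [AddCommGroup X] [Module R X] [Module B X] [IsScalarTower R B X] (b : B)
    (N : ModuleCat.{u} R) (i : ℕ) : Prop :=
  ∀ x : Ext (ModuleCat.of R X) N i, (Ext.mk₀ (actHom X b)).comp x (zero_add i) = 0

variable {X : Type u} [AddCommGroup X] [Module R X] [Module B X] [IsScalarTower R B X]
variable {Y : Type u} [AddCommGroup Y] [Module R Y] [Module B Y] [IsScalarTower R B Y]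
variable {N : ModuleCat.{u} R}

theorem actHom_mul (b c : B) : actHom (R := R) X (b * c) = actHom X b ≫ actHom X c := by
  ext x
  simp [actHom, mul_smul, smul_comm b c]

theorem actHom_add (b c : B) : actHom (R := R) X (b + c) = actHom X b + actHom X c := by
  ext x
  simp [actHom, add_smul]

theorem actHom_one : actHom (R := R) X (1 : B) = 𝟙 _ := by
  ext x
  simp [actHom]

theorem actHom_zero : actHom (R := R) X (0 : B) = 0 := by
  ext x
  simp [actHom]

theorem Kills.mul_left {b : B} {i : ℕ} (h : Kills (R := R) X b N i) (c : B) :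
    Kills (R := R) X (c * b) N i := by
  intro x
  rw [actHom_mul, ← Ext.mk₀_comp_mk₀, Ext.comp_assoc_of_second_deg_zero, h x, Ext.comp_zero]

theorem Kills.mul_right {b : B} {i : ℕ} (h : Kills (R := R) X b N i) (c : B) :
    Kills (R := R) X (b * c) N i := by
  rw [mul_comm]; exact h.mul_left c

theorem Kills.add {b c : B} {i : ℕ} (h : Kills (R := R) X b N i) (h' : Kills (R := R) X c N i) :
    Kills (R := R) X (b + c) N i := by
  intro x
  rw [actHom_add, Ext.mk₀_add, Ext.add_comp, h x, h' x, add_zero]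

theorem kills_zero (i : ℕ) : Kills (R := R) X (0 : B) N i := by
  intro x
  rw [actHom_zero, Ext.mk₀_zero, Ext.zero_comp]

theorem Kills.congr {b c : B} {i : ℕ} (h : Kills (R := R) X b N i)
    (hbc : ∀ x : X, b • x = c • x) : Kills (R := R) X c N i := by
  have : actHom (R := R) X b = actHom (R := R) X c := by
    ext x
    exact hbc x
  intro x
  rw [← this]
  exact h x

theorem kills_of_smul_eq_zero {b : B} (i : ℕ) (hb : ∀ x : X, b • x = 0) :
    Kills (R := R) X b N i :=
  (kills_zero (R := R) (X := X) (B := B) i).congr (fun x => by rw [hb x, zero_smul])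

theorem Kills.eq_zero_of_isUnit {b : B} {i : ℕ} (h : Kills (R := R) X b N i) (hb : IsUnit b)
    (x : Ext (ModuleCat.of R X) N i) : x = 0 := by
  obtain ⟨c, hc⟩ := hb.exists_left_inv
  have h1 := h.mul_left c
  rw [hc] at h1
  have := h1 x
  rwa [actHom_one, Ext.mk₀_id_comp] at this

/-- comparison between the actions of `R` and of `B`. -/
theorem kills_algebraMap_iff {r : R} {i : ℕ} :
    Kills (R := R) X (algebraMap R B r) N i ↔ Kills (R := R) (B := R) X r N i := by
  have : actHom (R := R) X (algebraMap R B r) = actHom (R := R) (B := R) X r := by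
    ext x
    simp [actHom]
  simp only [Kills, this]

/-- Retraction trick. -/
theorem Kills.retract {u c : B} {i : ℕ} (h : Kills (R := R) Y u N i)
    (α : X →ₗ[B] Y) (β : Y →ₗ[B] X) (hc : ∀ x, β (α x) = c • x) :
    Kills (R := R) X (u * c) N i := by
  intro x
  let α' : ModuleCat.of R X ⟶ ModuleCat.of R Y := ModuleCat.ofHom (α.restrictScalars R)
  let β' : ModuleCat.of R Y ⟶ ModuleCat.of R X := ModuleCat.ofHom (β.restrictScalars R)
  have h1 : actHom (R := R) X (u * c) = α' ≫ actHom (R := R) Y u ≫ β' := by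
    ext x
    simp [actHom, α', β', mul_smul, hc]
  rw [h1, ← Ext.mk₀_comp_mk₀, ← Ext.mk₀_comp_mk₀, Ext.comp_assoc_of_second_deg_zero,
    Ext.comp_assoc_of_second_deg_zero, h, Ext.comp_zero]

/-- Long exact sequence: right hand term. -/
theorem Kills.right_of_exact {X₁ X₂ X₃ : Type u}
    [AddCommGroup X₁] [Module R X₁] [Module B X₁] [IsScalarTower R B X₁]
    [AddCommGroup X₂] [Module R X₂] [Module B X₂] [IsScalarTower R B X₂]
    [AddCommGroup X₃] [Module R X₃] [Module B X₃] [IsScalarTower R B X₃]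
    (f : X₁ →ₗ[B] X₂) (g : X₂ →ₗ[B] X₃) (hf : Function.Injective f) (hg : Function.Surjective g)
    (hfg : Function.Exact f g) {u v : B} {i : ℕ} (hu : Kills (R := R) X₁ u N i)
    (hv : Kills (R := R) X₂ v N (i + 1)) : Kills (R := R) X₃ (u * v) N (i + 1) := by
  let S : ShortComplex (ModuleCat.{u} R) :=
    ModuleCat.shortComplexOfCompEqZero (f.restrictScalars R) (g.restrictScalars R) (by
      ext x; exact hfg.apply_apply_eq_zero x)
  have hS : S.ShortExact := ModuleCat.shortComplex_shortExact S hfg hf hg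
  intro x
  -- `v • x` comes from the connecting map
  have h1 : (Ext.mk₀ S.g).comp ((Ext.mk₀ (actHom (R := R) X₃ v)).comp x (zero_add _))
      (zero_add _) = 0 := by
    have h2 : S.g ≫ actHom (R := R) X₃ v = actHom (R := R) X₂ v ≫ S.g := by
      ext y
      change v • g y = g (v • y)
      rw [map_smul]
    have e1 : (Ext.mk₀ S.g).comp ((Ext.mk₀ (actHom (R := R) X₃ v)).comp x (zero_add _))
      (zero_add _) = (Ext.mk₀ (S.g ≫ actHom (R := R) X₃ v)).comp x (zero_add _) := by
      rw [← Ext.mk₀_comp_mk₀, Ext.comp_assoc_of_second_deg_zero]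
    rw [e1, h2, ← Ext.mk₀_comp_mk₀, Ext.comp_assoc_of_second_deg_zero]
    exact hv _
  obtain ⟨y, hy⟩ := Ext.contravariant_sequence_exact₃ hS N _ h1 (add_comm 1 i)
  -- apply `u`
  let φ : S ⟶ S :=
    { τ₁ := actHom (R := R) X₁ u
      τ₂ := actHom (R := R) X₂ u
      τ₃ := actHom (R := R) X₃ u
      comm₁₂ := by
        ext y
        change f (u • y) = u • f y
        rw [map_smul]
      comm₂₃ := by
        ext y
        change g (u • y) = u • g y
        rw [map_smul] }
  have h3 := ShortComplex.ShortExact.extClass_naturality hS hS φ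
  have h4 : (Ext.mk₀ (actHom (R := R) X₃ u)).comp
      (hS.extClass.comp y (add_comm 1 i)) (zero_add _) = 0 := by
    have e2 : (Ext.mk₀ (actHom (R := R) X₃ u)).comp
      (hS.extClass.comp y (add_comm 1 i)) (zero_add _) =
      ((Ext.mk₀ φ.τ₃).comp hS.extClass (zero_add 1)).comp y (add_comm 1 i) := by
      rw [Ext.comp_assoc _ _ _ (zero_add 1) (add_comm 1 i) (by omega)]
    rw [e2, ← h3, Ext.comp_assoc_of_second_deg_zero]
    have e3 := hu y
    have e4 : (Ext.mk₀ φ.τ₁).comp y (zero_add i) = 0 := e3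
    rw [e4, Ext.comp_zero]
  rw [actHom_mul, ← Ext.mk₀_comp_mk₀, Ext.comp_assoc_of_second_deg_zero, ← hy]
  exact h4

end Act

/-- Descending an additive endomorphism along a surjection. -/
theorem exists_descend {A C : Type*} [AddCommGroup A] [AddCommGroup C] (e : A →+ C)
    (he : Function.Surjective e) (D : A →+ A) (hker : ∀ a, e a = 0 → e (D a) = 0) :
    ∃ D' : C →+ C, ∀ a, D' (e a) = e (D a) := by
  refine ⟨(e.liftOfSurjective he) ⟨e.comp D, ?_⟩, ?_⟩
  · intro a ha
    exact hker a ha
  · intro a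
    exact AddMonoidHom.liftOfRightInverse_comp_apply e _ _ ⟨e.comp D, _⟩ a

section Conn

variable {R : Type u} [CommRing R] {B : Type u} [CommRing B] [Algebra R B]
variable {E : Type u} [AddCommGroup E] [Module R E] {d : Derivation ℤ R E}

/-- `b` acting on `Ext^i_R(B, N)`. -/
noncomputable def bact {N : ModuleCat.{u} R} {i : ℕ} (b : B) (x : Ext (ModuleCat.of R B) N i) :
    Ext (ModuleCat.of R B) N i :=
  (Ext.mk₀ (actHom (R := R) B b)).comp x (zero_add i)

theorem bact_comp {N N' : ModuleCat.{u} R} {i j k : ℕ} (b : B) (x : Ext (ModuleCat.of R B) N i)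
    (y : Ext N N' j) (h : i + j = k) : bact b (x.comp y h) = (bact b x).comp y h := by
  subst h
  unfold bact
  rw [Ext.comp_assoc _ _ _ (zero_add i) rfl (by omega)]

/-- The induced operator on `Ext^i_R(B, N)`. -/
theorem exists_conn_ext (δ : Derivation ℤ B B) (θ : E →ₗ[R] B)
    (hθ : ∀ r, θ (d r) = δ (algebraMap R B r)) (i : ℕ) :
    ∀ (N : ModuleCat.{u} R) (_ : DivOp d N)
      (_ : ∀ j, 1 ≤ j → ∀ x : Ext (ModuleCat.of R E) N j, x = 0),
      ∃ D : Ext (ModuleCat.of R B) N i →+ Ext (ModuleCat.of R B) N i,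
        ∀ (b : B) (x : Ext (ModuleCat.of R B) N i), D (bact b x) = bact b (D x) + bact (δ b) x := by
  induction i with
  | zero =>
    intro N τ hE
    let e : Ext (ModuleCat.of R B) N 0 ≃+ (B →ₗ[R] N) :=
      Ext.addEquiv₀.trans ModuleCat.homAddEquiv
    have he : ∀ (b : B) (x : Ext (ModuleCat.of R B) N 0),
        e (bact b x) = e x ∘ₗ LinearMap.mulLeft R b := by
      intro b x
      obtain ⟨φ, rfl⟩ := e.symm.surjective x
      have h1 : e.symm φ = Ext.mk₀ (ModuleCat.ofHom φ) := rfl
      rw [AddEquiv.apply_symm_apply, ← AddEquiv.eq_symm_apply]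
      unfold bact
      rw [h1, Ext.mk₀_comp_mk₀]
      rfl
    refine ⟨(e.symm.toAddMonoidHom.comp (τ.conn δ θ hθ)).comp e.toAddMonoidHom, ?_⟩
    intro b x
    apply e.injective
    rw [map_add, he, he]
    simp only [AddEquiv.toAddMonoidHom_eq_coe, AddMonoidHom.coe_comp, AddMonoidHom.coe_coe,
      Function.comp_apply, AddEquiv.apply_symm_apply, he]
    rw [DivOp.conn_mul]
  | succ i ih =>
    intro N τ hE
    let ⟨J, _, f, _⟩ := EnoughInjectives.presentation N
    have hJ : Module.Injective R J := Module.injective_module_of_injective_object R J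
    have injf : Function.Injective f.hom := (ModuleCat.mono_iff_injective f).mp ‹_›
    let N' : ModuleCat.{u} R := ModuleCat.of R (J ⧸ LinearMap.range f.hom)
    let g : J →ₗ[R] N' := (LinearMap.range f.hom).mkQ
    have hfg : Function.Exact f.hom g := f.hom.exact_map_mkQ_range
    have hg : Function.Surjective g := Submodule.mkQ_surjective _
    let S : ShortComplex (ModuleCat.{u} R) :=
      ModuleCat.shortComplexOfCompEqZero f.hom g hfg.linearMap_comp_eq_zero
    have hS : S.ShortExact := ModuleCat.shortComplex_shortExact S hfg injf hg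
    have hinj : Injective S.X₂ := ‹Injective J›
    -- lifting property
    have hlift : ∀ ξ : E →ₗ[R] N', ∃ η : E →ₗ[R] J, g ∘ₗ η = ξ := by
      intro ξ
      let x₃ : Ext (ModuleCat.of R E) S.X₃ 0 := Ext.mk₀ (ModuleCat.ofHom ξ)
      obtain ⟨x₂, hx₂⟩ := Ext.covariant_sequence_exact₃ _ hS x₃ (n₁ := 1) (by norm_num)
        (hE 1 le_rfl _)
      obtain ⟨φ, rfl⟩ := (Ext.mk₀_bijective _ _).2 x₂
      refine ⟨φ.hom, ?_⟩
      rw [Ext.mk₀_comp_mk₀] at hx₂
      have := (Ext.mk₀_bijective _ _).1 hx₂
      have h2 := congrArg ModuleCat.Hom.hom this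
      exact h2
    obtain ⟨τ', hτ'⟩ := τ.exists_extend f.hom injf hJ
    obtain ⟨τ'', hτ''⟩ := τ.exists_push τ' f.hom g injf hfg hlift hτ'
    -- vanishing of Ext for `N'`
    have hE' : ∀ j, 1 ≤ j → ∀ x : Ext (ModuleCat.of R E) N' j, x = 0 := by
      intro j hj x
      obtain ⟨x₂, hx₂⟩ := Ext.covariant_sequence_exact₃ _ hS x (n₁ := j + 1) rfl
        (hE (j + 1) (by omega) _)
      obtain ⟨j, rfl⟩ := Nat.exists_eq_add_of_le' hj
      rw [← hx₂, Ext.eq_zero_of_injective x₂, Ext.zero_comp]
    -- the connecting map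
    let c : Ext (ModuleCat.of R B) N' i →+ Ext (ModuleCat.of R B) N (i + 1) :=
      hS.extClass.postcomp (ModuleCat.of R B) (rfl : i + 1 = i + 1)
    have hc : ∀ x, c x = x.comp hS.extClass rfl := fun x => rfl
    have hcs : Function.Surjective c := fun x =>
      Ext.covariant_sequence_exact₁ (ModuleCat.of R B) hS x (Ext.eq_zero_of_injective _) rfl
    have hcb : ∀ (b : B) x, c (bact b x) = bact b (c x) := by
      intro b x
      rw [hc, hc, ← bact_comp]
    -- an operator on `Ext^i(B, N')` preserving the kernel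
    have key : ∃ D : Ext (ModuleCat.of R B) N' i →+ Ext (ModuleCat.of R B) N' i,
        (∀ (b : B) (x : Ext (ModuleCat.of R B) N' i),
          D (bact b x) = bact b (D x) + bact (δ b) x) ∧ (∀ x, c x = 0 → c (D x) = 0) := by
      rcases Nat.eq_zero_or_pos i with hi | hi
      · subst hi
        let e : Ext (ModuleCat.of R B) N' 0 ≃+ (B →ₗ[R] N') :=
          Ext.addEquiv₀.trans ModuleCat.homAddEquiv
        have he : ∀ (b : B) (x : Ext (ModuleCat.of R B) N' 0),
            e (bact b x) = e x ∘ₗ LinearMap.mulLeft R b := by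
          intro b x
          obtain ⟨φ, rfl⟩ := e.symm.surjective x
          have h1 : e.symm φ = Ext.mk₀ (ModuleCat.ofHom φ) := rfl
          rw [AddEquiv.apply_symm_apply, ← AddEquiv.eq_symm_apply]
          unfold bact
          rw [h1, Ext.mk₀_comp_mk₀]
          rfl
        refine ⟨(e.symm.toAddMonoidHom.comp (τ''.conn δ θ hθ)).comp e.toAddMonoidHom, ?_, ?_⟩
        · intro b x
          apply e.injective
          rw [map_add, he, he]
          simp only [AddEquiv.toAddMonoidHom_eq_coe, AddMonoidHom.coe_comp, AddMonoidHom.coe_coe,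
            Function.comp_apply, AddEquiv.apply_symm_apply, he]
          rw [DivOp.conn_mul]
        · intro x hx
          rw [hc] at hx
          obtain ⟨x₂, hx₂⟩ := Ext.covariant_sequence_exact₃ _ hS x rfl hx
          obtain ⟨φ, rfl⟩ := (Ext.mk₀_bijective _ _).2 x₂
          have hx3 : e x = g ∘ₗ φ.hom := by
            rw [← hx₂, Ext.mk₀_comp_mk₀]
            have : ∀ ψ : ModuleCat.of R B ⟶ N', e (Ext.mk₀ ψ) = ψ.hom := by
              intro ψ
              rw [← AddEquiv.eq_symm_apply]
              rfl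
            rw [this]
            rfl
          have h4 : ((e.symm.toAddMonoidHom.comp (τ''.conn δ θ hθ)).comp e.toAddMonoidHom) x =
              e.symm (g ∘ₗ (τ'.conn δ θ hθ φ.hom)) := by
            simp only [AddEquiv.toAddMonoidHom_eq_coe, AddMonoidHom.coe_comp,
              AddMonoidHom.coe_coe, Function.comp_apply]
            rw [hx3, τ'.conn_comp τ'' g hτ'' δ θ hθ]
          rw [h4]
          have h5 : e.symm (g ∘ₗ (τ'.conn δ θ hθ φ.hom)) =
              (Ext.mk₀ (ModuleCat.ofHom (τ'.conn δ θ hθ φ.hom))).comp (Ext.mk₀ S.g)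
                (zero_add 0) := by
            rw [Ext.mk₀_comp_mk₀]
            rfl
          rw [h5, hc, Ext.comp_assoc_of_second_deg_zero, hS.comp_extClass, Ext.comp_zero]
      · obtain ⟨D, hD⟩ := ih N' τ'' hE'
        refine ⟨D, hD, ?_⟩
        intro x hx
        rw [hc] at hx
        obtain ⟨x₂, hx₂⟩ := Ext.covariant_sequence_exact₃ _ hS x rfl hx
        obtain ⟨i, rfl⟩ := Nat.exists_eq_add_of_le' hi
        have : x = 0 := by rw [← hx₂, Ext.eq_zero_of_injective x₂, Ext.zero_comp]
        rw [this, map_zero, map_zero]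
    obtain ⟨D, hD, hker⟩ := key
    obtain ⟨D', hD'⟩ := exists_descend c hcs D hker
    refine ⟨D', ?_⟩
    intro b x
    obtain ⟨y, rfl⟩ := hcs x
    rw [← hcb, hD', hD, map_add, hcb, hcb, hD']

/-- The annihilator of `Ext^i_R(B, N)` in `B` is stable under `δ`. -/
theorem kills_deriv (δ : Derivation ℤ B B) (θ : E →ₗ[R] B)
    (hθ : ∀ r, θ (d r) = δ (algebraMap R B r)) (N : ModuleCat.{u} R) (τ : DivOp d N)
    (hE : ∀ j, 1 ≤ j → ∀ x : Ext (ModuleCat.of R E) N j, x = 0) (i : ℕ) (b : B)
    (hb : Kills (R := R) B b N i) : Kills (R := R) B (δ b) N i := by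
  obtain ⟨D, hD⟩ := exists_conn_ext δ θ hθ i N τ hE
  intro x
  have h1 : bact b x = 0 := hb x
  have h2 : bact b (D x) = 0 := hb (D x)
  have h3 := hD b x
  rw [h1, map_zero, h2, zero_add] at h3
  exact h3.symm

/-- The annihilator of `Ext^i_R(B, N)` in `B`. -/
def annExt (B : Type u) [CommRing B] [Algebra R B] (N : ModuleCat.{u} R) (i : ℕ) : Ideal B where
  carrier := {b | Kills (R := R) B b N i}
  add_mem' := fun h h' => h.add h'
  zero_mem' := kills_zero i
  smul_mem' := fun c _ h => h.mul_left c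

theorem mem_annExt {N : ModuleCat.{u} R} {i : ℕ} {b : B} :
    b ∈ annExt B N i ↔ Kills (R := R) B b N i := Iff.rfl

end Conn

end MP72c78a
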