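import Pool.Agent.Lib.MP_72c78a_ag.Arc

/-!
The main theorem: vanishing of `Ext^i_R(E, R)` together with a divergence operator on `R` forces
finite injective dimension.
-/

set_option linter.style.haveILetI false

open CategoryTheory Abelian Algebra

universe u v
namespace MP72c78a

/-- A prime directly below `q` avoiding `f`. -/
theorem exists_saturated_below {R : Type u} [CommRing R] [IsNoetherianRing R] (q : Ideal R)
    [q.IsPrime] (hq : q ∉ minimalPrimes R) (f : R) (hf : ∀ p ∈ minimalPrimes R, f ∉ p) :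
    ∃ p : Ideal R, p.IsPrime ∧ p < q ∧ f ∉ p ∧
      ∀ r : Ideal R, r.IsPrime → p < r → r < q → False := by
  classical
  obtain ⟨p₀, hp₀, hp₀q⟩ := Ideal.exists_minimalPrimes_le (bot_le : ⊥ ≤ q)
  have hne : p₀ ≠ q := by
    rintro rfl
    exact hq hp₀
  let S : Set (Ideal R) := {p | p.IsPrime ∧ p < q ∧ f ∉ p}
  have hS : S.Nonempty := ⟨p₀, hp₀.isPrime, lt_of_le_of_ne hp₀q hne, hf p₀ hp₀⟩
  obtain ⟨p, ⟨hp, hpq, hfp⟩, hmax⟩ := set_has_maximal_iff_noetherian.mpr
    (inferInstance : IsNoetherian R R) S hS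
  refine ⟨p, hp, hpq, hfp, ?_⟩
  intro r hr hpr hrq
  have hmax' : ∀ r' : Ideal R, r'.IsPrime → p < r' → r' < q → f ∈ r' := by
    intro r' hr' h1 h2
    by_contra hfr
    exact hmax r' ⟨hr', h2, hfr⟩ h1
  -- pass to the domain `A = R/p`
  let A := R ⧸ p
  let mk := Ideal.Quotient.mk p
  have hmk : Function.Surjective mk := Ideal.Quotient.mk_surjective
  have hker : RingHom.ker mk = p := Ideal.mk_ker
  let f' : A := mk f
  have hf' : f' ≠ 0 := fun h => hfp (Ideal.Quotient.eq_zero_iff_mem.mp h)
  let q' : Ideal A := q.map mk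
  let r' : Ideal A := r.map mk
  haveI hq' : q'.IsPrime := Ideal.map_isPrime_of_surjective hmk (by rw [hker]; exact hpq.le)
  haveI hr' : r'.IsPrime := Ideal.map_isPrime_of_surjective hmk (by rw [hker]; exact hpr.le)
  have hcq : q'.comap mk = q := by
    rw [Ideal.comap_map_of_surjective _ hmk, ← RingHom.ker_eq_comap_bot, hker]
    exact sup_eq_left.mpr hpq.le
  have hcr : r'.comap mk = r := by
    rw [Ideal.comap_map_of_surjective _ hmk, ← RingHom.ker_eq_comap_bot, hker]
    exact sup_eq_left.mpr hpr.le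
  have hrq' : r' < q' := by
    refine lt_of_le_of_ne (Ideal.map_mono hrq.le) ?_
    intro h
    rw [← hcq, ← hcr, h] at hrq
    exact lt_irrefl _ hrq
  have hr0 : (⊥ : Ideal A) < r' := by
    rw [bot_lt_iff_ne_bot]
    intro h
    rw [← hcr, h, ← RingHom.ker_eq_comap_bot, hker] at hpr
    exact lt_irrefl _ hpr
  -- heights
  have hr1 : 1 ≤ r'.height := by
    have := Ideal.height_add_one_le_of_lt_of_isPrime hr0
    simpa using this
  have hq2 : 2 ≤ q'.height := by
    have := Ideal.height_add_one_le_of_lt_of_isPrime hrq'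
    refine le_trans ?_ this
    calc (2 : ℕ∞) = 1 + 1 := by norm_num
      _ ≤ r'.height + 1 := by gcongr
  have hfin : ((Ideal.span {f'}).minimalPrimes).Finite :=
    (Ideal.span {f'}).finite_minimalPrimes_of_isNoetherianRing A
  have hnot : ¬ ((q' : Set A) ⊆ ⋃ P ∈ (Ideal.span {f'}).minimalPrimes, (P : Set A)) := by
    intro h
    obtain ⟨P, hP, hqP⟩ := (Ideal.subset_union_prime_finite hfin ⊥ ⊥ (f := fun P : Ideal A => P)
      (fun P hP _ _ => hP.isPrime) (I := q')).mp h
    have h1 := Ideal.height_le_one_of_isPrincipal_of_mem_minimalPrimes (Ideal.span {f'}) P hP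
    have h2 := Ideal.height_mono hqP
    have h3 : (2 : ℕ∞) ≤ 1 := hq2.trans (h2.trans h1)
    exact absurd h3 (by decide)
  rw [Set.not_subset] at hnot
  obtain ⟨y, hyq, hy⟩ := hnot
  simp only [Set.mem_iUnion, not_exists, SetLike.mem_coe] at hy
  -- a minimal prime over `y` inside `q'`
  obtain ⟨P, hP, hPq⟩ := Ideal.exists_minimalPrimes_le
    ((Ideal.span_singleton_le_iff_mem q').mpr hyq)
  haveI hPp : P.IsPrime := hP.isPrime
  have hP1 := Ideal.height_le_one_of_isPrincipal_of_mem_minimalPrimes (Ideal.span {y}) P hP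
  have hyP : y ∈ P := hP.1.2 (Ideal.mem_span_singleton_self y)
  have hy0 : y ≠ 0 := by
    rintro rfl
    have hfr : f' ∈ r' := by
      have := hmax' r hr hpr hrq
      exact Ideal.mem_map_of_mem _ this
    obtain ⟨P', hP', _⟩ := Ideal.exists_minimalPrimes_le
      ((Ideal.span_singleton_le_iff_mem r').mpr hfr)
    exact hy P' hP' P'.zero_mem
  have hP0 : (⊥ : Ideal A) < P := by
    rw [bot_lt_iff_ne_bot]
    rintro rfl
    exact hy0 hyP
  have hPq' : P < q' := by
    refine lt_of_le_of_ne hPq ?_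
    rintro rfl
    have h3 : (2 : ℕ∞) ≤ 1 := hq2.trans hP1
    exact absurd h3 (by decide)
  have hfP : f' ∈ P := by
    haveI : (P.comap mk).IsPrime := Ideal.comap_isPrime mk P
    have h1 : p < P.comap mk := by
      have hle : p ≤ P.comap mk := by
        have := Ideal.comap_mono (f := mk) (bot_le : ⊥ ≤ P)
        rwa [← RingHom.ker_eq_comap_bot, hker] at this
      refine lt_of_le_of_ne hle ?_
      intro h
      have h2 : P = (P.comap mk).map mk := (Ideal.map_comap_of_surjective mk hmk P).symm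
      rw [← h] at h2
      have h3 : Ideal.map mk p = ⊥ := Ideal.map_quotient_self p
      rw [h3] at h2
      exact hP0.ne h2.symm
    have h2 : P.comap mk < q := by
      rw [← hcq]
      refine lt_of_le_of_ne (Ideal.comap_mono hPq) ?_
      intro h
      have h3 : P = q' := by
        rw [← Ideal.map_comap_of_surjective mk hmk P, h,
          Ideal.map_comap_of_surjective mk hmk q']
      exact hPq'.ne h3
    exact hmax' _ inferInstance h1 h2
  obtain ⟨P', hP', hP'P⟩ := Ideal.exists_minimalPrimes_le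
    ((Ideal.span_singleton_le_iff_mem P).mpr hfP)
  haveI hPp' : P'.IsPrime := hP'.isPrime
  have hP'0 : (⊥ : Ideal A) < P' := by
    rw [bot_lt_iff_ne_bot]
    rintro rfl
    exact hf' (hP'.1.2 (Ideal.mem_span_singleton_self f'))
  have heq : P' = P := by
    by_contra hne
    have hlt : P' < P := lt_of_le_of_ne hP'P hne
    have h1 := Ideal.height_add_one_le_of_lt_of_isPrime hP'0
    have h2 := Ideal.height_add_one_le_of_lt_of_isPrime hlt
    have h3 : (2 : ℕ∞) ≤ 1 := by
      calc (2 : ℕ∞) = 0 + 1 + 1 := by norm_num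
        _ ≤ (⊥ : Ideal A).height + 1 + 1 := by gcongr; exact zero_le
        _ ≤ P'.height + 1 := by gcongr
        _ ≤ P.height := h2
        _ ≤ 1 := hP1
    exact absurd h3 (by decide)
  exact hy P' hP' (heq ▸ hyP)

/-- Minimal primes of a reduced Noetherian ring. -/
theorem exists_kill_minimal {R : Type u} [CommRing R] [IsNoetherianRing R] [IsReduced R]
    (p : Ideal R) (hp : p ∈ minimalPrimes R) : ∃ t, t ∉ p ∧ ∀ x, x * t = 0 ↔ x ∈ p := by
  have h0 : ((⊥ : Ideal R).colon {(1 : R)}) = ⊥ := by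
    ext x
    rw [Submodule.mem_colon_singleton]
    simp
  have h1 : p ∈ ((⊥ : Ideal R).colon {(1 : R)}).minimalPrimes := by
    rw [h0]; exact hp
  obtain ⟨t, ht⟩ := Submodule.exists_eq_colon_of_mem_minimalPrimes h1
  have h2 : ∀ x, x ∈ p ↔ x * t = 0 := by
    intro x
    rw [ht, Submodule.mem_colon_singleton]
    rfl
  refine ⟨t, ?_, fun x => (h2 x).symm⟩
  intro h
  have h3 : t * t = 0 := (h2 t).mp h
  have h4 : t = 0 := by
    have : IsNilpotent t := ⟨2, by rw [pow_two]; exact h3⟩
    exact this.eq_zero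
  have h5 : (1 : R) ∈ p := by rw [h2, h4, mul_zero]
  exact hp.isPrime.ne_top ((Ideal.eq_top_iff_one p).mpr h5)

/-- Base case of the induction. -/
theorem kills_minimal {R : Type u} [CommRing R] [IsNoetherianRing R] [IsReduced R]
    (p : Ideal R) (hp : p ∈ minimalPrimes R) (i : ℕ) (hi : 1 ≤ i) :
    ∃ s, s ∉ p ∧ Kills (R := R) (B := R) (R ⧸ p) s (ModuleCat.of R R) i := by
  obtain ⟨t, ht, htp⟩ := exists_kill_minimal p hp
  refine ⟨1 * t, by rwa [one_mul], ?_⟩
  have hR : Kills (R := R) (B := R) R 1 (ModuleCat.of R R) i := by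
    obtain ⟨j, rfl⟩ := Nat.exists_eq_add_of_le' hi
    intro x
    haveI : Projective (ModuleCat.of R R) := by
      rw [← IsProjective.iff_projective]; infer_instance
    rw [Ext.eq_zero_of_projective x, Ext.comp_zero]
  let α : (R ⧸ p) →ₗ[R] R := Submodule.liftQ p (LinearMap.lsmul R R t) (by
    intro x hx
    have : x * t = 0 := (htp x).mpr hx
    change t * x = 0
    rw [mul_comm]; exact this)
  refine hR.retract α p.mkQ ?_
  intro x
  obtain ⟨x, rfl⟩ := Ideal.Quotient.mk_surjective x
  rfl

/-- The factorisation of a derivation through `E`. -/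
theorem exists_theta {k : Type v} {R E : Type u} [Field k] [CommRing R] [Algebra k R]
    [AddCommGroup E] [Module R E] [Module k E] [IsScalarTower k R E]
    (d : Derivation k R E) (hd : Submodule.span R (Set.range d) = ⊤) (f : R)
    (hf : ∀ ω : Ω[R⁄k], d.liftKaehlerDifferential ω = 0 → f • ω = 0)
    {B : Type u} [CommRing B] [IsDomain B] [Algebra R B] [Algebra k B] [IsScalarTower k R B]
    (hfB : algebraMap R B f ≠ 0) (δ : Derivation k B B) :
    ∃ θ : E →ₗ[R] B, ∀ r, θ (d r) = δ (algebraMap R B r) := by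
  classical
  let l : Ω[R⁄k] →ₗ[R] E := d.liftKaehlerDifferential
  have hl : Function.Surjective l := by
    rw [← LinearMap.range_eq_top, ← top_le_iff, ← hd, Submodule.span_le]
    rintro _ ⟨r, rfl⟩
    exact ⟨KaehlerDifferential.D k R r, d.liftKaehlerDifferential_comp_D r⟩
  let δR : Derivation k R B := δ.compAlgebraMap R
  let m : Ω[R⁄k] →ₗ[R] B := δR.liftKaehlerDifferential
  have hker : LinearMap.ker l ≤ LinearMap.ker m := by
    intro ω hω
    rw [LinearMap.mem_ker] at hω ⊢
    have h1 := hf ω hω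
    have h2 : f • m ω = 0 := by rw [← map_smul, h1, map_zero]
    rw [Algebra.smul_def] at h2
    exact (mul_eq_zero.mp h2).resolve_left hfB
  let e := l.quotKerEquivOfSurjective hl
  let θ : E →ₗ[R] B := (LinearMap.ker l).liftQ m hker ∘ₗ e.symm.toLinearMap
  refine ⟨θ, fun r => ?_⟩
  have h1 : e.symm (d r) = (LinearMap.ker l).mkQ (KaehlerDifferential.D k R r) := by
    rw [LinearEquiv.symm_apply_eq]
    change d r = l (KaehlerDifferential.D k R r)
    exact (d.liftKaehlerDifferential_comp_D r).symm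
  change (LinearMap.ker l).liftQ m hker (e.symm (d r)) = _
  rw [h1]
  change m (KaehlerDifferential.D k R r) = _
  exact δR.liftKaehlerDifferential_comp_D r

/-- All primes. -/
theorem kills_all {k : Type v} {R E : Type u} [Field k] [CharZero k] [CommRing R] [Algebra k R]
    [Algebra.EssFiniteType k R] [IsNoetherianRing R] [IsReduced R]
    [AddCommGroup E] [Module R E] [Module k E] [IsScalarTower k R E]
    (d : Derivation k R E) (hd : Submodule.span R (Set.range d) = ⊤) (f : R)
    (hfm : ∀ p ∈ minimalPrimes R, f ∉ p)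
    (hf : ∀ ω : Ω[R⁄k], d.liftKaehlerDifferential ω = 0 → f • ω = 0)
    (d' : Derivation ℤ R E) (hdd : ∀ r, d' r = d r)
    (τ : DivOp d' R) (hE : ∀ j, 1 ≤ j → ∀ x : Ext (ModuleCat.of R E) (ModuleCat.of R R) j, x = 0)
    (n : ℕ) :
    ∀ q : Ideal R, q.IsPrime → q.height ≤ n → ∀ i, n + 1 ≤ i →
      ∃ s, s ∉ q ∧ Kills (R := R) (B := R) (R ⧸ q) s (ModuleCat.of R R) i := by
  induction n with
  | zero =>
    intro q hq hh i hi
    have h0 : q.height = 0 := by simpa using hh
    exact kills_minimal q (Ideal.height_eq_zero_iff.mp h0) i hi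
  | succ n ih =>
    intro q hq hh i hi
    by_cases hmin : q ∈ minimalPrimes R
    · exact kills_minimal q hmin i (by omega)
    obtain ⟨p, hp, hpq, hfp, hsat⟩ := exists_saturated_below q hmin f hfm
    obtain ⟨i, rfl⟩ := Nat.exists_eq_add_of_le' (show 1 ≤ i by omega)
    have hph : p.height ≤ n := by
      have h1 := Ideal.height_add_one_le_of_lt_of_isPrime hpq
      have h2 : p.height + 1 ≤ (n : ℕ∞) + 1 := h1.trans (by exact_mod_cast hh)
      exact (ENat.add_le_add_iff_right (by decide)).mp h2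
    have h0 := ih p hp hph i (by omega)
    have h1 := ih p hp hph (i + 1) (by omega)
    obtain ⟨B, _, _, _, _, hdom, hic, hfin, hker, hbir⟩ := exists_normalization k R p
    haveI : Algebra.IsIntegral R B := Algebra.IsIntegral.of_finite R B
    haveI : IsNoetherianRing B := IsNoetherianRing.of_finite R B
    obtain ⟨n', hn'0, hn'p, hn'q⟩ :=
      Ideal.exists_ideal_over_prime_of_isIntegral_of_isPrime (S := B) q (⊥ : Ideal B) (by
        rw [← RingHom.ker_eq_comap_bot, hker]; exact hpq.le)
    haveI : IsDiscreteValuationRing (Localization.AtPrime n') :=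
      isDVR_of_saturated p q hpq hsat hker n' hn'q
    haveI : Algebra.EssFiniteType k B := Algebra.EssFiniteType.comp k R B
    obtain ⟨δ, z, hz, hδz⟩ := exists_deriv k B n'
    have hfB : algebraMap R B f ≠ 0 := by
      intro h
      apply hfp
      rw [← hker]; exact h
    obtain ⟨θ, hθ⟩ := exists_theta d hd f hf hfB δ
    have hchar : ∀ e : ℕ, e ≠ 0 → (e : B) ∉ n' := by
      intro e he h
      have hu : IsUnit (e : B) := by
        have : (e : B) = algebraMap k B (e : k) := by rw [map_natCast]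
        rw [this]
        exact (IsUnit.mk0 (e : k) (Nat.cast_ne_zero.mpr he)).map _
      exact hn'p.ne_top (Ideal.eq_top_of_isUnit_mem _ h hu)
    exact kills_step (ModuleCat.of R R) τ hE p q hker n' hn'q hbir (δ.restrictScalars ℤ) θ
      (fun r => by rw [hdd, hθ]; rfl) ⟨z, hz, hδz⟩ hchar i h0 h1

/-- Finite injective dimension. -/
theorem main_injDim {k : Type v} {R E : Type u} [Field k] [CharZero k] [CommRing R] [Algebra k R]
    [Algebra.EssFiniteType k R] [IsNoetherianRing R] [IsReduced R]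
    [AddCommGroup E] [Module R E] [Module k E] [IsScalarTower k R E]
    (d : Derivation k R E) (hd : Submodule.span R (Set.range d) = ⊤) (f : R)
    (hfm : ∀ p ∈ minimalPrimes R, f ∉ p)
    (hf : ∀ ω : Ω[R⁄k], d.liftKaehlerDifferential ω = 0 → f • ω = 0)
    (d' : Derivation ℤ R E) (hdd : ∀ r, d' r = d r)
    (τ : DivOp d' R) (hE : ∀ j, 1 ≤ j → ∀ x : Ext (ModuleCat.of R E) (ModuleCat.of R R) j, x = 0)
    (n : ℕ) (hn : ∀ q : Ideal R, q.IsPrime → q.height ≤ n) :
    HasInjectiveDimensionLT (ModuleCat.of R R) (n + 1) :=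
  hasInjectiveDimensionLT_of_kills _ n (fun q hq i hi =>
    kills_all d hd f hfm hf d' hdd τ hE n q hq (hn q hq) i hi)

end MP72c78a
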