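import Pool.Agent.Lib.MP_72c78a_ag.Defs
import Pool.Agent.Lib.MP_72c78a_ag.Main

/-!
Totally reflexive modules, G-dimension, Gorenstein rings and the case of depth at most one.
-/

set_option linter.style.haveILetI false

open CategoryTheory Abelian Algebra

universe u v
namespace MP72c78a

variable (R : Type u) [CommRing R]

variable {R}

/-- Ext is insensitive to linear isomorphisms in the first variable. -/
theorem ext_subsingleton_of_equiv {M M' : Type u} [AddCommGroup M] [Module R M]
    [AddCommGroup M'] [Module R M'] (e : M ≃ₗ[R] M') (N : ModuleCat.{u} R) (i : ℕ)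
    (h : Subsingleton (Ext (ModuleCat.of R M) N i)) :
    Subsingleton (Ext (ModuleCat.of R M') N i) := by
  refine ⟨fun x y => ?_⟩
  let f : ModuleCat.of R M ⟶ ModuleCat.of R M' := ModuleCat.ofHom e.toLinearMap
  let g : ModuleCat.of R M' ⟶ ModuleCat.of R M := ModuleCat.ofHom e.symm.toLinearMap
  have hgf : g ≫ f = 𝟙 _ := by
    ext x
    simp [f, g]
  have key : ∀ z : Ext (ModuleCat.of R M') N i,
      z = (Ext.mk₀ g).comp ((Ext.mk₀ f).comp z (zero_add i)) (zero_add i) := by
    intro z
    rw [← Ext.comp_assoc_of_second_deg_zero, Ext.mk₀_comp_mk₀, hgf, Ext.mk₀_id_comp]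
  rw [key x, key y]
  congr 1
  exact h.elim _ _

/-- A divergence operator from the vanishing of `Ext¹(Hom(E, R), R)`. -/
theorem exists_divOp {E : Type u} [AddCommGroup E] [Module R E] (d : Derivation ℤ R E)
    (h : Subsingleton (Ext (ModuleCat.of R (E →ₗ[R] R)) (ModuleCat.of R R) 1)) :
    Nonempty (DivOp d R) := by
  let id' : R →ₗ[R] R := LinearMap.id
  let f : R →ₗ[R] Tw d id' :=
    { toFun := fun s => Tw.mk d id' s 0
      map_add' := fun s t => by ext <;> simp
      map_smul' := fun r s => by ext <;> simp }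
  let g : Tw d id' →ₗ[R] (E →ₗ[R] R) :=
    { toFun := fun x => x.snd
      map_add' := fun x y => rfl
      map_smul' := fun r x => rfl }
  have hf : Function.Injective f := by
    intro s t hst
    exact congrArg (fun z : Tw d id' => z.fst) hst
  have hg : Function.Surjective g := fun ξ => ⟨Tw.mk d id' 0 ξ, rfl⟩
  have hfg : Function.Exact f g := by
    intro x
    constructor
    · intro hx
      refine ⟨x.fst, ?_⟩
      have hx' : x.snd = 0 := hx
      ext
      · rfl
      · simp [f, hx']
    · rintro ⟨s, rfl⟩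
      rfl
  let S : ShortComplex (ModuleCat.{u} R) :=
    ModuleCat.shortComplexOfCompEqZero f g hfg.linearMap_comp_eq_zero
  have hS : S.ShortExact := ModuleCat.shortComplex_shortExact S hfg hf hg
  let x₃ : Ext S.X₃ S.X₃ 0 := Ext.mk₀ (𝟙 _)
  obtain ⟨x₂, hx₂⟩ := Ext.covariant_sequence_exact₃ S.X₃ hS x₃ (n₁ := 1) (by norm_num)
    (h.elim _ _)
  obtain ⟨σ, rfl⟩ := (Ext.mk₀_bijective _ _).2 x₂
  rw [Ext.mk₀_comp_mk₀] at hx₂
  have h3 := (Ext.mk₀_bijective _ _).1 hx₂
  have h4 := congrArg ModuleCat.Hom.hom h3
  let s : (E →ₗ[R] R) →ₗ[R] Tw d id' := σ.hom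
  have hs : ∀ ξ, (s ξ).snd = ξ := fun ξ => LinearMap.congr_fun h4 ξ
  refine ⟨{ toFun := ⟨⟨fun ξ => (s ξ).fst, ?_⟩, ?_⟩, map_smul' := ?_ }⟩
  · rw [map_zero]; rfl
  · intro ξ ζ
    change (s (ξ + ζ)).fst = (s ξ).fst + (s ζ).fst
    rw [map_add]; rfl
  · intro r ξ
    change (s (r • ξ)).fst = r • (s ξ).fst + ξ (d r)
    rw [map_smul, Tw.fst_smul, hs]
    rfl

/-- Kähler differentials totally reflexive implies Gorenstein. -/
theorem gorenstein_of_omega {k : Type v} [Field k] [CharZero k] [Algebra k R]
    [Algebra.EssFiniteType k R] [IsNoetherianRing R] [IsLocalRing R] [IsReduced R]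
    (h : TotallyReflexive R (Ω[R⁄k])) : IsGorensteinLocal R := by
  refine ⟨inferInstance, inferInstance, ?_⟩
  let d : Derivation k R (Ω[R⁄k]) := KaehlerDifferential.D k R
  let d' : Derivation ℤ R (Ω[R⁄k]) := d.restrictScalars ℤ
  obtain ⟨τ⟩ := exists_divOp d' (h.ext_dual 1 le_rfl)
  obtain ⟨n, hn⟩ : ∃ n : ℕ, (IsLocalRing.maximalIdeal R).height = n := by
    have := Ideal.height_ne_top_of_isPrime (I := IsLocalRing.maximalIdeal R)
    exact ENat.ne_top_iff_exists.mp this |>.imp fun n hn => hn.symm
  refine ⟨n, ?_⟩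
  refine main_injDim d (KaehlerDifferential.span_range_derivation k R) 1 ?_ ?_ d'
    (fun _ => rfl) τ (fun j hj x => (h.ext_self j hj).elim _ _) n ?_
  · intro p hp h1
    exact hp.isPrime.ne_top ((Ideal.eq_top_iff_one p).mpr h1)
  · intro ω hω
    have : d.liftKaehlerDifferential = LinearMap.id := Derivation.liftKaehlerDifferential_D k R
    rw [this] at hω
    rw [one_smul]; exact hω
  · intro q hq
    rw [← hn]
    exact Ideal.height_mono (IsLocalRing.le_maximalIdeal hq.ne_top)

/-! ### Generic torsion -/

/-- Elements killed by all functionals are locally torsion at minimal primes. -/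
theorem exists_notMem_smul_eq_zero [IsNoetherianRing R] [IsReduced R] {W : Type u}
    [AddCommGroup W] [Module R W] [Module.Finite R W] (p : Ideal R) (hp : p ∈ minimalPrimes R)
    (ω : W) (hω : ∀ ξ : W →ₗ[R] R, ξ ω = 0) : ∃ s, s ∉ p ∧ s • ω = 0 := by
  classical
  haveI hpp : p.IsPrime := hp.isPrime
  obtain ⟨t, ht, htp⟩ := exists_kill_minimal p hp
  by_contra hcon
  push Not at hcon
  let A := R ⧸ p
  let F := FractionRing A
  -- the module `W/pW` modulo torsion: use the localisation at `p`
  let Wp := LocalizedModule p.primeCompl W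
  let Rp := Localization.AtPrime p
  haveI hfield : IsField Rp := by
    rw [IsLocalRing.isField_iff_maximalIdeal_eq, eq_bot_iff]
    intro x hx
    obtain ⟨⟨a, b⟩, hab⟩ := IsLocalization.surj p.primeCompl x
    have h1 : algebraMap R Rp a ∈ IsLocalRing.maximalIdeal Rp := by
      rw [← hab]; exact Ideal.mul_mem_right _ _ hx
    have h2 : a ∈ p := (IsLocalization.AtPrime.to_map_mem_maximal_iff Rp p a).mp h1
    have h3 : algebraMap R Rp a = 0 := by
      rw [IsLocalization.map_eq_zero_iff p.primeCompl]
      exact ⟨⟨t, ht⟩, by rw [mul_comm]; exact (htp a).mpr h2⟩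
    rw [Ideal.mem_bot]
    have h4 : x * algebraMap R Rp b = 0 := hab.trans h3
    exact (IsUnit.mul_left_eq_zero (IsLocalization.map_units Rp b)).mp h4
  letI : Field Rp := hfield.toField
  let mkW : W →ₗ[R] Wp := LocalizedModule.mkLinearMap p.primeCompl W
  have hne : mkW ω ≠ 0 := by
    intro h
    rw [IsLocalizedModule.eq_zero_iff p.primeCompl mkW] at h
    obtain ⟨c, hc⟩ := h
    exact hcon c c.2 hc
  obtain ⟨l, hl⟩ := Module.Projective.exists_dual_ne_zero Rp hne
  let l' : W →ₗ[R] Rp := (l.restrictScalars R) ∘ₗ mkW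
  haveI : Module.FinitePresentation R W := Module.finitePresentation_of_finite R W
  obtain ⟨h, s, hs⟩ := Module.FinitePresentation.exists_lift_of_isLocalizedModule
    p.primeCompl (Algebra.linearMap R Rp) l'
  have h1 := LinearMap.congr_fun hs ω
  have h2 : algebraMap R Rp (h ω) = s • l (mkW ω) := h1
  rw [hω h, map_zero] at h2
  have h3 : algebraMap R Rp s * l (mkW ω) = 0 := by
    rw [h2, Submonoid.smul_def, Algebra.smul_def]
  exact hl ((IsUnit.mul_right_eq_zero (IsLocalization.map_units Rp s)).mp h3)

/-- A generic element killing everything killed by all functionals. -/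
theorem exists_generic_kill [IsNoetherianRing R] [IsReduced R] (W : Type u)
    [AddCommGroup W] [Module R W] [Module.Finite R W] :
    ∃ f : R, (∀ p ∈ minimalPrimes R, f ∉ p) ∧
      ∀ ω : W, (∀ ξ : W →ₗ[R] R, ξ ω = 0) → f • ω = 0 := by
  classical
  let K : Submodule R W := ⨅ ξ : W →ₗ[R] R, LinearMap.ker ξ
  have hK : ∀ ω, ω ∈ K ↔ ∀ ξ : W →ₗ[R] R, ξ ω = 0 := by
    intro ω
    simp [K, Submodule.mem_iInf]
  have hfin : (minimalPrimes R).Finite := minimalPrimes.finite_of_isNoetherianRing R
  have hann : ∀ p ∈ minimalPrimes R, ∃ s, s ∉ p ∧ ∀ ω ∈ K, s • ω = 0 := by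
    intro p hp
    haveI : p.IsPrime := hp.isPrime
    obtain ⟨S, hS⟩ := (IsNoetherian.noetherian K : K.FG)
    have hpt : ∀ ω ∈ K, ∃ s, s ∉ p ∧ s • ω = 0 := fun ω hω =>
      exists_notMem_smul_eq_zero p hp ω ((hK ω).mp hω)
    choose! g hg hg' using hpt
    refine ⟨∏ z ∈ S, g z, ?_, ?_⟩
    · rw [Ideal.IsPrime.prod_mem_iff]
      push Not
      intro z hz
      exact hg z (hS ▸ Submodule.subset_span hz)
    · intro ω hω
      rw [← hS] at hω
      induction hω using Submodule.span_induction with
      | mem x hx =>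
        rw [← Finset.mul_prod_erase S g hx, mul_comm, mul_smul,
          hg' x (hS ▸ Submodule.subset_span hx), smul_zero]
      | zero => exact smul_zero _
      | add x y _ _ hx hy => rw [smul_add, hx, hy, add_zero]
      | smul a x _ hx => rw [smul_comm, hx, smul_zero]
  let I : Ideal R := Module.annihilator R K
  have hI : ∀ p ∈ minimalPrimes R, ¬ I ≤ p := by
    intro p hp hle
    obtain ⟨s, hs, hsK⟩ := hann p hp
    apply hs
    apply hle
    rw [Module.mem_annihilator]
    rintro ⟨ω, hω⟩
    exact Subtype.ext (hsK ω hω)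
  have hnot : ¬ ((I : Set R) ⊆ ⋃ P ∈ minimalPrimes R, (P : Set R)) := by
    intro h
    obtain ⟨P, hP, hqP⟩ := (Ideal.subset_union_prime_finite hfin ⊥ ⊥ (f := fun P : Ideal R => P)
      (fun P hP _ _ => hP.isPrime) (I := I)).mp h
    exact hI P hP hqP
  rw [Set.not_subset] at hnot
  obtain ⟨f, hfI, hf⟩ := hnot
  simp only [Set.mem_iUnion, not_exists, SetLike.mem_coe] at hf
  refine ⟨f, hf, ?_⟩
  intro ω hω
  have h1 := Module.mem_annihilator.mp hfI ⟨ω, (hK ω).mpr hω⟩
  exact congrArg Subtype.val h1

/-! ### The module of derivations -/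

/-- The evaluation derivation `r ↦ (D ↦ D r)` into the dual of the derivation module. -/
def evDer (k : Type v) (R : Type u) [CommRing k] [CommRing R] [Algebra k R] :
    Derivation k R (Module.Dual R (Derivation k R R)) :=
  Derivation.mk'
    { toFun := fun r =>
        { toFun := fun D => D r
          map_add' := fun D D' => rfl
          map_smul' := fun a D => rfl }
      map_add' := fun r s => by
        ext D; exact map_add D r s
      map_smul' := fun c r => by
        ext D
        change D (c • r) = c • D r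
        exact D.map_smul c r }
    (fun a b => by
      ext D
      exact D.leibniz a b)

theorem evDer_apply (k : Type v) (R : Type u) [CommRing k] [CommRing R] [Algebra k R] (r : R)
    (D : Derivation k R R) : evDer k R r D = D r := rfl

/-- Gorenstein from total reflexivity of the derivation module when differentials generate
its dual. -/
theorem gorenstein_of_der {k : Type v} [Field k] [CharZero k] [Algebra k R]
    [Algebra.EssFiniteType k R] [IsNoetherianRing R] [IsLocalRing R] [IsReduced R]
    (h : TotallyReflexive R (Derivation k R R))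
    (hspan : Submodule.span R (Set.range (evDer k R)) = ⊤) : IsGorensteinLocal R := by
  refine ⟨inferInstance, inferInstance, ?_⟩
  let E := Module.Dual R (Derivation k R R)
  let d : Derivation k R E := evDer k R
  let d' : Derivation ℤ R E := d.restrictScalars ℤ
  have hsub : Subsingleton (Ext (ModuleCat.of R (E →ₗ[R] R)) (ModuleCat.of R R) 1) := by
    let e : Derivation k R R ≃ₗ[R] (E →ₗ[R] R) :=
      LinearEquiv.ofBijective (Module.Dual.eval R (Derivation k R R)) h.reflexive
    exact ext_subsingleton_of_equiv e _ 1 (h.ext_self 1 le_rfl)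
  obtain ⟨τ⟩ := exists_divOp d' hsub
  obtain ⟨n, hn⟩ : ∃ n : ℕ, (IsLocalRing.maximalIdeal R).height = n := by
    have := Ideal.height_ne_top_of_isPrime (I := IsLocalRing.maximalIdeal R)
    exact ENat.ne_top_iff_exists.mp this |>.imp fun n hn => hn.symm
  obtain ⟨f, hfm, hf⟩ := exists_generic_kill (R := R) (Ω[R⁄k])
  refine ⟨n, ?_⟩
  refine main_injDim d hspan f hfm ?_ d'
    (fun _ => rfl) τ (fun j hj x => (h.ext_dual j hj).elim _ _) n ?_
  · intro ω hω
    apply hf
    intro ξ
    -- `ξ` corresponds to a derivation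
    let D : Derivation k R R := ξ.compDer (KaehlerDifferential.D k R)
    have h1 : ∀ w : Ω[R⁄k], (d.liftKaehlerDifferential w) D = ξ w := by
      intro w
      have hmem : w ∈ Submodule.span R (Set.range (KaehlerDifferential.D k R)) := by
        rw [KaehlerDifferential.span_range_derivation]; trivial
      induction hmem using Submodule.span_induction with
      | mem x hx =>
        obtain ⟨z, rfl⟩ := hx
        rw [Derivation.liftKaehlerDifferential_comp_D]
        rfl
      | zero => rw [map_zero, map_zero]; rfl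
      | add x y _ _ hx hy => rw [map_add, LinearMap.add_apply, hx, hy, map_add]
      | smul a x _ hx => rw [map_smul, LinearMap.smul_apply, hx, map_smul]
    rw [← h1, hω]
    rfl
  · intro q hq
    rw [← hn]
    exact Ideal.height_mono (IsLocalRing.le_maximalIdeal hq.ne_top)

end MP72c78a
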