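import Pool.Agent.Lib.MP_72c78a_ag.DepthTwo

/-!
Reflexive modules of finite G-dimension over reduced local rings of depth at most two are totally
reflexive.
-/

set_option linter.style.haveILetI false

open CategoryTheory Abelian

universe u v
namespace MP72c78a

variable {R : Type u} [CommRing R]

/-- One step of a totally reflexive resolution over a ring of depth at most two. -/
theorem totallyReflexive_step_two [IsNoetherianRing R] [IsLocalRing R] (hdepth : DepthLE R 2)
    {G Z : Type u} [AddCommGroup G] [Module R G] [AddCommGroup Z] [Module R Z] (f : G →ₗ[R] Z)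
    (hf : Function.Surjective f) (hG : TotallyReflexive R G)
    (hK : TotallyReflexive R (LinearMap.ker f))
    (hZ : Function.Bijective (Module.Dual.eval R Z)) : TotallyReflexive R Z := by
  classical
  let K := LinearMap.ker f
  let ι : K →ₗ[R] G := K.subtype
  have hι : Function.Injective ι := Submodule.injective_subtype _
  have hιf : Function.Exact ι f := LinearMap.exact_subtype_ker_map f
  haveI := hG.finite
  haveI := hK.finite
  let ιd : Module.Dual R G →ₗ[R] Module.Dual R K := Module.Dual.transpose (R := R) ι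
  have hιd : ∀ φ g, ιd φ g = φ (ι g) := fun _ _ => rfl
  have evG : ∀ φ g, Module.Dual.eval R G g φ = φ g := fun _ _ => rfl
  have evK : ∀ φ g, Module.Dual.eval R K g φ = φ g := fun _ _ => rfl
  let Y := LinearMap.range ιd
  haveI : Module.Finite R (Module.Dual R K) := inferInstance
  haveI : Module.Finite R (Module.Dual R G) := inferInstance
  let X := Module.Dual R K ⧸ Y
  let fd : Module.Dual R Z →ₗ[R] Module.Dual R G := Module.Dual.transpose (R := R) f
  have hfd : Function.Injective fd := by
    intro φ ψ h
    ext z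
    obtain ⟨g, rfl⟩ := hf z
    exact LinearMap.congr_fun h g
  have hfdι : Function.Exact fd ιd := by
    intro φ
    constructor
    · intro hφ
      have h1 : LinearMap.ker f ≤ LinearMap.ker φ := by
        intro x hx
        exact LinearMap.congr_fun hφ ⟨x, hx⟩
      refine ⟨(LinearMap.ker f).liftQ φ h1 ∘ₗ (f.quotKerEquivOfSurjective hf).symm.toLinearMap, ?_⟩
      ext g
      have h2 : (f.quotKerEquivOfSurjective hf).symm (f g) = (LinearMap.ker f).mkQ g := by
        rw [LinearEquiv.symm_apply_eq]; rfl
      change (LinearMap.ker f).liftQ φ h1 ((f.quotKerEquivOfSurjective hf).symm (f g)) = φ g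
      rw [h2]
      rfl
    · rintro ⟨ψ, rfl⟩
      ext x
      change ψ (f (ι x)) = 0
      have : f (ι x) = 0 := x.2
      rw [this, map_zero]
  have hfdr : Function.Exact fd ιd.rangeRestrict := by
    intro φ
    rw [← hfdι φ]
    constructor
    · intro h
      exact congrArg Subtype.val h
    · intro h
      exact Subtype.ext h
  -- `X = 0`
  have hX0 : Subsingleton (X →ₗ[R] R) := by
    refine subsingleton_of_forall_eq 0 (fun ξ => ?_)
    obtain ⟨g, hg⟩ := hK.reflexive.2 (ξ ∘ₗ Y.mkQ)
    have h1 : ∀ φ : Module.Dual R G, φ (ι g) = 0 := by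
      intro φ
      have h2 := LinearMap.congr_fun hg (ιd φ)
      rw [evK] at h2
      have h3 : Y.mkQ (ιd φ) = 0 := (Submodule.Quotient.mk_eq_zero _).mpr ⟨φ, rfl⟩
      rw [LinearMap.comp_apply, h3, map_zero] at h2
      exact h2
    have h4 : ι g = 0 := by
      apply hG.reflexive.1
      ext φ
      rw [evG, h1, map_zero]
      rfl
    have h5 : g = 0 := hι (by rw [h4, map_zero])
    rw [h5, map_zero] at hg
    refine LinearMap.ext (fun x => ?_)
    obtain ⟨x, rfl⟩ := Submodule.mkQ_surjective Y x
    exact (LinearMap.congr_fun hg x).symm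
  have hX1 : Subsingleton (Ext (ModuleCat.of R X) (ModuleCat.of R R) 1) := by
    let jY : ↥Y →ₗ[R] Module.Dual R K := Submodule.subtype Y
    let πY : Module.Dual R K →ₗ[R] X := Submodule.mkQ Y
    have hjπ : Function.Exact jY πY := LinearMap.exact_subtype_mkQ Y
    refine @ext_one_eq_zero_of_extend R _ ↥Y (Module.Dual R K) X _ _ _ _ _ _ jY πY
      (Submodule.injective_subtype Y)
      (Submodule.mkQ_surjective Y) hjπ _ ?_
      (hK.ext_dual 1 le_rfl)
    intro η
    obtain ⟨g, hg⟩ := hG.reflexive.2 (η ∘ₗ ιd.rangeRestrict)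
    have h1 : ∀ φ : Module.Dual R G, φ g = η (ιd.rangeRestrict φ) :=
      fun φ => LinearMap.congr_fun hg φ
    have h2 : f g = 0 := by
      apply hZ.1
      ext φ
      rw [map_zero]
      change φ (f g) = 0
      have h3 := h1 (φ ∘ₗ f)
      have h4 : ιd.rangeRestrict (φ ∘ₗ f) = 0 := by
        apply Subtype.ext
        ext x
        change φ (f (ι x)) = 0
        have : f (ι x) = 0 := x.2
        rw [this, map_zero]
      rw [h4, map_zero] at h3
      exact h3
    refine ⟨Module.Dual.eval R K ⟨g, h2⟩, ?_⟩
    ext ⟨y, φ, hφ⟩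
    subst hφ
    change (ιd φ) ⟨g, h2⟩ = η ⟨ιd φ, ⟨φ, rfl⟩⟩
    rw [hιd]
    exact h1 φ
  have hY1 : Subsingleton (Ext (ModuleCat.of R ↥Y) (ModuleCat.of R R) 1) := by
    refine ext_one_eq_zero_of_extend fd ιd.rangeRestrict hfd
      (LinearMap.surjective_rangeRestrict ιd) hfdr (ModuleCat.of R R) ?_ (hG.ext_dual 1 le_rfl)
    intro ζ
    obtain ⟨z, hz⟩ := hZ.2 ζ
    obtain ⟨g, rfl⟩ := hf z
    refine ⟨Module.Dual.eval R G g, ?_⟩
    rw [← hz]
    rfl
  have hX2 : Subsingleton (Ext (ModuleCat.of R X) (ModuleCat.of R R) 2) := by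
    let jY : ↥Y →ₗ[R] Module.Dual R K := Submodule.subtype Y
    let πY : Module.Dual R K →ₗ[R] X := Submodule.mkQ Y
    have hjπ : Function.Exact jY πY := LinearMap.exact_subtype_mkQ Y
    exact @ext_succ_eq_zero R _ ↥Y (Module.Dual R K) X _ _ _ _ _ _ jY πY
      (Submodule.injective_subtype Y) (Submodule.mkQ_surjective Y) hjπ (ModuleCat.of R R) 1 hY1
      (hK.ext_dual 2 (by norm_num))
  have hX : Subsingleton X := by
    apply subsingleton_of_depthLE hdepth X
    intro i hi
    interval_cases i
    · refine ⟨fun x y => ?_⟩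
      obtain ⟨φ, rfl⟩ := (Ext.mk₀_bijective _ _).2 x
      obtain ⟨ψ, rfl⟩ := (Ext.mk₀_bijective _ _).2 y
      congr 1
      apply ModuleCat.hom_ext
      exact hX0.elim _ _
    · exact hX1
    · exact hX2
  have hsurj : Function.Surjective ιd := by
    intro φ
    have : Y.mkQ φ = 0 := hX.elim _ _
    exact (Submodule.Quotient.mk_eq_zero _).mp this
  have hext : ∀ i, 1 ≤ i → Subsingleton (Ext (ModuleCat.of R Z) (ModuleCat.of R R) i) := by
    intro i hi
    obtain ⟨i, rfl⟩ := Nat.exists_eq_add_of_le' hi
    rcases Nat.eq_zero_or_pos i with h0 | h0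
    · subst h0
      refine ext_one_eq_zero_of_extend ι f hι hf hιf _ ?_ (hG.ext_self 1 le_rfl)
      intro φ
      obtain ⟨ψ, hψ⟩ := hsurj φ
      exact ⟨ψ, hψ⟩
    · exact ext_succ_eq_zero ι f hι hf hιf _ i (hK.ext_self i h0) (hG.ext_self (i + 1) hi)
  refine ⟨Module.Finite.of_surjective f hf, hZ, hext, ?_⟩
  intro i hi
  exact ext_left_eq_zero fd ιd hfd hsurj hfdι _ i (hG.ext_dual i hi)
    (hK.ext_dual (i + 1) (by omega))

/-- Over a reduced ring of depth at most two, reflexive modules of finite G-dimension are totally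
reflexive. -/
theorem totallyReflexive_of_gdimLE_two [IsNoetherianRing R] [IsLocalRing R] [IsReduced R]
    (hdepth : DepthLE R 2) (n : ℕ) : ∀ (M : Type u) [AddCommGroup M] [Module R M],
      Function.Bijective (Module.Dual.eval R M) → GdimLE R n M → TotallyReflexive R M := by
  induction n with
  | zero =>
    intro M _ _ _ h
    exact h
  | succ n ih =>
    intro M _ _ hM h
    obtain ⟨G, _, _, f, hG, hf, hK⟩ := h
    haveI := hG.finite
    exact totallyReflexive_step_two hdepth f hf hG
      (ih _ (ker_reflexive f hG.reflexive hM.1) hK) hM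

/-- Modules of finite G-dimension are finitely generated. -/
theorem finite_of_gdimLE (n : ℕ) : ∀ (M : Type u) [AddCommGroup M] [Module R M],
    GdimLE R n M → Module.Finite R M := by
  induction n with
  | zero =>
    intro M _ _ h
    exact TotallyReflexive.finite h
  | succ n _ =>
    intro M _ _ h
    obtain ⟨G, _, _, f, hG, hf, _⟩ := h
    haveI := hG.finite
    exact Module.Finite.of_surjective f hf

/-- The derivation module in depth at most two. -/
theorem der_totallyReflexive {k : Type v} [Field k] [Algebra k R] [IsNoetherianRing R]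
    [IsLocalRing R] [IsReduced R] (hdepth : DepthLE R 2)
    (h : FiniteGdim R (Derivation k R R)) : TotallyReflexive R (Derivation k R R) := by
  obtain ⟨n, hn⟩ := h
  haveI := finite_of_gdimLE n _ hn
  exact totallyReflexive_of_gdimLE_two hdepth n _ der_reflexive hn

end MP72c78a
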