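import Pool.Agent.Lib.MP_72c78a_ag.ExtOp

/-!
Finite injective dimension from local annihilation of `Ext^i(R/q, N)` at `q`.
-/

open CategoryTheory Abelian

universe u

namespace MP72c78a

variable {R : Type u} [CommRing R]

/-- If for `i ≥ n` and every prime `q` some `s ∉ q` kills `Ext^i(R/q, N)`, then
`Ext^i(R/I, N) = 0` for all ideals `I` and all `i ≥ n`. -/
theorem ext_quot_eq_zero [IsNoetherianRing R] (N : ModuleCat.{u} R) (n : ℕ)
    (h : ∀ q : Ideal R, q.IsPrime → ∀ i, n ≤ i → ∃ s, s ∉ q ∧
      Kills (R := R) (B := R) (R ⧸ q) s N i) (I : Ideal R) :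
    ∀ i, n ≤ i → ∀ x : Ext (ModuleCat.of R (R ⧸ I)) N i, x = 0 := by
  induction I using IsNoetherian.induction with
  | hgt I ih =>
    change Ideal R at I
    intro i hi x
    by_cases htop : I = ⊤
    · subst htop
      have hk : Kills (R := R) (B := R) (R ⧸ (⊤ : Ideal R)) (1 : R) N i :=
        kills_of_smul_eq_zero i (fun x => Subsingleton.elim _ _)
      exact hk.eq_zero_of_isUnit isUnit_one x
    by_cases hp : I.IsPrime
    · -- prime case
      obtain ⟨s, hs, hk⟩ := h I hp i hi
      have hgt : I < I ⊔ Ideal.span {s} := by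
        refine lt_of_le_of_ne le_sup_left ?_
        intro heq
        exact hs (heq ▸ (le_sup_right : Ideal.span {s} ≤ I ⊔ Ideal.span {s})
          (Ideal.mem_span_singleton_self s))
      have h0 := ih _ hgt (i + 1) (by omega)
      let f : (R ⧸ I) →ₗ[R] (R ⧸ I) := LinearMap.lsmul R (R ⧸ I) s
      let g : (R ⧸ I) →ₗ[R] (R ⧸ (I ⊔ Ideal.span {s})) :=
        Submodule.mapQ _ _ LinearMap.id (fun y hy => Ideal.mem_sup_left hy)
      have hf : Function.Injective f := by
        rw [injective_iff_map_eq_zero]
        intro y hy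
        obtain ⟨y, rfl⟩ := Ideal.Quotient.mk_surjective y
        have h1 : Ideal.Quotient.mk I (s * y) = 0 := hy
        rw [Ideal.Quotient.eq_zero_iff_mem] at h1 ⊢
        exact (hp.mem_or_mem h1).resolve_left hs
      have hg : Function.Surjective g := by
        intro y
        obtain ⟨y, rfl⟩ := Ideal.Quotient.mk_surjective y
        exact ⟨Ideal.Quotient.mk I y, rfl⟩
      have hfg : Function.Exact f g := by
        intro y
        obtain ⟨y, rfl⟩ := Ideal.Quotient.mk_surjective y
        constructor
        · intro hy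
          have h1 : Ideal.Quotient.mk (I ⊔ Ideal.span {s}) y = 0 := hy
          rw [Ideal.Quotient.eq_zero_iff_mem, Submodule.mem_sup] at h1
          obtain ⟨a, ha, b, hb, hab⟩ := h1
          obtain ⟨c, rfl⟩ := Ideal.mem_span_singleton'.mp hb
          refine ⟨Ideal.Quotient.mk I c, ?_⟩
          change Ideal.Quotient.mk I (s * c) = Ideal.Quotient.mk I y
          rw [Ideal.Quotient.eq, ← hab]
          have : s * c - (a + c * s) = -a := by ring
          rw [this]
          exact I.neg_mem ha
        · rintro ⟨z, hz⟩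
          obtain ⟨z, rfl⟩ := Ideal.Quotient.mk_surjective z
          rw [← hz]
          change Ideal.Quotient.mk (I ⊔ Ideal.span {s}) (s * z) = 0
          rw [Ideal.Quotient.eq_zero_iff_mem]
          exact Ideal.mem_sup_right (Ideal.mul_mem_right _ _ (Ideal.mem_span_singleton_self s))
      let S : ShortComplex (ModuleCat.{u} R) :=
        ModuleCat.shortComplexOfCompEqZero f g hfg.linearMap_comp_eq_zero
      have hS : S.ShortExact := ModuleCat.shortComplex_shortExact S hfg hf hg
      obtain ⟨y, hy⟩ := Ext.contravariant_sequence_exact₁ hS N x (add_comm 1 i) (h0 _)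
      have h2 := hk y
      have h3 : actHom (R := R) (B := R) (R ⧸ I) s = S.f := rfl
      rw [h3] at h2
      rw [← hy, h2]
    · -- non-prime case
      rw [Ideal.isPrime_iff] at hp
      push Not at hp
      obtain ⟨a, b, hab, ha, hb⟩ := hp htop
      let K : Ideal R := I.colon {a}
      have hK : I < K := by
        refine lt_of_le_of_ne ?_ ?_
        · intro y hy
          rw [Submodule.mem_colon_singleton]
          exact I.mul_mem_right _ hy
        · intro heq
          apply hb
          rw [heq, Submodule.mem_colon_singleton, smul_eq_mul, mul_comm]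
          exact hab
      have hgt : I < I ⊔ Ideal.span {a} := by
        refine lt_of_le_of_ne le_sup_left ?_
        intro heq
        exact ha (heq ▸ (le_sup_right : Ideal.span {a} ≤ I ⊔ Ideal.span {a})
          (Ideal.mem_span_singleton_self a))
      have h1 := ih _ hK i hi
      have h2 := ih _ hgt i hi
      have haK : K ≤ Submodule.comap (LinearMap.lsmul R R a) I := by
        intro y hy
        rw [Submodule.mem_colon_singleton] at hy
        change a * y ∈ I
        rw [mul_comm]; exact hy
      let f : (R ⧸ K) →ₗ[R] (R ⧸ I) := Submodule.mapQ K I (LinearMap.lsmul R R a) haK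
      let g : (R ⧸ I) →ₗ[R] (R ⧸ (I ⊔ Ideal.span {a})) :=
        Submodule.mapQ _ _ LinearMap.id (fun y hy => Ideal.mem_sup_left hy)
      have hf : Function.Injective f := by
        rw [injective_iff_map_eq_zero]
        intro y hy
        obtain ⟨y, rfl⟩ := Ideal.Quotient.mk_surjective y
        have h1 : Ideal.Quotient.mk I (a * y) = 0 := hy
        rw [Ideal.Quotient.eq_zero_iff_mem] at h1 ⊢
        rw [Submodule.mem_colon_singleton, smul_eq_mul, mul_comm]
        exact h1
      have hg : Function.Surjective g := by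
        intro y
        obtain ⟨y, rfl⟩ := Ideal.Quotient.mk_surjective y
        exact ⟨Ideal.Quotient.mk I y, rfl⟩
      have hfg : Function.Exact f g := by
        intro y
        obtain ⟨y, rfl⟩ := Ideal.Quotient.mk_surjective y
        constructor
        · intro hy
          have h1 : Ideal.Quotient.mk (I ⊔ Ideal.span {a}) y = 0 := hy
          rw [Ideal.Quotient.eq_zero_iff_mem, Submodule.mem_sup] at h1
          obtain ⟨a', ha', b', hb', hab'⟩ := h1
          obtain ⟨c, rfl⟩ := Ideal.mem_span_singleton'.mp hb'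
          refine ⟨Ideal.Quotient.mk K c, ?_⟩
          change Ideal.Quotient.mk I (a * c) = Ideal.Quotient.mk I y
          rw [Ideal.Quotient.eq, ← hab']
          have : a * c - (a' + c * a) = -a' := by ring
          rw [this]
          exact I.neg_mem ha'
        · rintro ⟨z, hz⟩
          obtain ⟨z, rfl⟩ := Ideal.Quotient.mk_surjective z
          rw [← hz]
          change Ideal.Quotient.mk (I ⊔ Ideal.span {a}) (a * z) = 0
          rw [Ideal.Quotient.eq_zero_iff_mem]
          exact Ideal.mem_sup_right (Ideal.mul_mem_right _ _ (Ideal.mem_span_singleton_self a))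
      let S : ShortComplex (ModuleCat.{u} R) :=
        ModuleCat.shortComplexOfCompEqZero f g hfg.linearMap_comp_eq_zero
      have hS : S.ShortExact := ModuleCat.shortComplex_shortExact S hfg hf hg
      obtain ⟨y, hy⟩ := Ext.contravariant_sequence_exact₂ hS N x (h1 _)
      rw [← hy, h2 y, Ext.comp_zero]

/-- Baer type criterion for finite injective dimension. -/
theorem hasInjectiveDimensionLT_of_ext_quot (n : ℕ) :
    ∀ (N : ModuleCat.{u} R) (_ : ∀ (I : Ideal R) (i : ℕ), n + 1 ≤ i →
      ∀ x : Ext (ModuleCat.of R (R ⧸ I)) N i, x = 0), HasInjectiveDimensionLT N (n + 1) := by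
  induction n with
  | zero =>
    intro N h
    rw [zero_add, ← injective_iff_hasInjectiveDimensionLT_one,
      ← Module.injective_iff_injective_object R N, ← Module.Baer.iff_injective]
    intro I g
    let f₁ : I →ₗ[R] R := I.subtype
    let g₁ : R →ₗ[R] (R ⧸ I) := I.mkQ
    have hfg : Function.Exact f₁ g₁ := LinearMap.exact_subtype_mkQ I
    let S : ShortComplex (ModuleCat.{u} R) :=
        ModuleCat.shortComplexOfCompEqZero f₁ g₁ hfg.linearMap_comp_eq_zero
    have hS : S.ShortExact :=
      ModuleCat.shortComplex_shortExact S hfg (Submodule.injective_subtype I)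
        (Submodule.mkQ_surjective I)
    let x₁ : Ext S.X₁ N 0 := Ext.mk₀ (ModuleCat.ofHom g)
    obtain ⟨x₂, hx₂⟩ := Ext.contravariant_sequence_exact₁ hS N x₁ (n₁ := 1) (by norm_num)
      (h I 1 le_rfl _)
    obtain ⟨φ, rfl⟩ := (Ext.mk₀_bijective _ _).2 x₂
    rw [Ext.mk₀_comp_mk₀] at hx₂
    have h3 := (Ext.mk₀_bijective _ _).1 hx₂
    have h4 := congrArg ModuleCat.Hom.hom h3
    refine ⟨φ.hom, fun x hx => ?_⟩
    exact LinearMap.congr_fun h4 ⟨x, hx⟩
  | succ n ih =>
    intro N h
    let ⟨J, _, f, _⟩ := EnoughInjectives.presentation N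
    have injf : Function.Injective f.hom := (ModuleCat.mono_iff_injective f).mp ‹_›
    let N' : ModuleCat.{u} R := ModuleCat.of R (J ⧸ LinearMap.range f.hom)
    let g : J →ₗ[R] N' := (LinearMap.range f.hom).mkQ
    have hfg : Function.Exact f.hom g := f.hom.exact_map_mkQ_range
    have hg : Function.Surjective g := Submodule.mkQ_surjective _
    let S : ShortComplex (ModuleCat.{u} R) :=
      ModuleCat.shortComplexOfCompEqZero f.hom g hfg.linearMap_comp_eq_zero
    have hS : S.ShortExact := ModuleCat.shortComplex_shortExact S hfg injf hg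
    have hinj : Injective S.X₂ := ‹Injective J›
    have h' : ∀ (I : Ideal R) (i : ℕ), n + 1 ≤ i →
      ∀ x : Ext (ModuleCat.of R (R ⧸ I)) N' i, x = 0 := by
      intro I i hi x
      obtain ⟨x₂, hx₂⟩ := Ext.covariant_sequence_exact₃ _ hS x (n₁ := i + 1) rfl
        (h I (i + 1) (by omega) _)
      obtain ⟨i, rfl⟩ := Nat.exists_eq_add_of_le' (show 1 ≤ i by omega)
      rw [← hx₂, Ext.eq_zero_of_injective x₂, Ext.zero_comp]
    have := ih N' h'
    exact (hS.hasInjectiveDimensionLT_X₃_iff n hinj).mp this

/-- Main criterion. -/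
theorem hasInjectiveDimensionLT_of_kills [IsNoetherianRing R] (N : ModuleCat.{u} R) (n : ℕ)
    (h : ∀ q : Ideal R, q.IsPrime → ∀ i, n + 1 ≤ i → ∃ s, s ∉ q ∧
      Kills (R := R) (B := R) (R ⧸ q) s N i) : HasInjectiveDimensionLT N (n + 1) :=
  hasInjectiveDimensionLT_of_ext_quot n N (fun I => ext_quot_eq_zero N (n + 1) h I)

end MP72c78a
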