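import Mathlib

/-!
Finiteness of normalisation for domains essentially of finite type over a field of
characteristic zero.
-/

set_option linter.style.haveILetI false

open Algebra

universe u v
namespace MP72c78a

/-- Finiteness of the integral closure for domains of finite type over a field of characteristic
zero. -/
theorem integralClosure_finite_of_finiteType (k : Type v) (A : Type u) [Field k] [CharZero k]
    [CommRing A] [IsDomain A] [Algebra k A] [Algebra.FiniteType k A] (F : Type u) [Field F]
    [Algebra A F] [IsFractionRing A F] :
    (Subalgebra.toSubmodule (integralClosure A F)).FG := by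
  classical
  obtain ⟨s, g, hinj, hfin⟩ := exists_finite_inj_algHom_of_fg k A
  let P := MvPolynomial (Fin s) k
  letI : Algebra P A := g.toRingHom.toAlgebra
  haveI : Module.Finite P A := hfin
  haveI : FaithfulSMul P A := (faithfulSMul_iff_algebraMap_injective _ _).mpr hinj
  letI : Algebra P F := ((algebraMap A F).comp (algebraMap P A)).toAlgebra
  haveI : IsScalarTower P A F := IsScalarTower.of_algebraMap_eq (fun _ => rfl)
  haveI : FaithfulSMul P F := (faithfulSMul_iff_algebraMap_injective _ _).mpr
    ((IsFractionRing.injective A F).comp hinj)
  let K := FractionRing P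
  letI : Algebra K F := FractionRing.liftAlgebra P F
  haveI : IsScalarTower P K F := FractionRing.isScalarTower_liftAlgebra _ _
  haveI : Algebra.IsIntegral P A := Algebra.IsIntegral.of_finite P A
  haveI : FiniteDimensional K F := .of_isLocalization P A (nonZeroDivisors P)
  haveI : CharZero K := charZero_of_injective_algebraMap (R := k)
    (A := K) ((algebraMap P K).comp (algebraMap k P)).injective
  haveI : Module.Finite P (integralClosure P F) := IsIntegralClosure.finite P K F _
  have hfg : (Subalgebra.toSubmodule (integralClosure P F)).FG :=
    Module.Finite.iff_fg.mp ‹_›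
  obtain ⟨T, hT⟩ := hfg
  refine ⟨T, ?_⟩
  apply le_antisymm
  · rw [Submodule.span_le]
    intro x hx
    have h1 : x ∈ Subalgebra.toSubmodule (integralClosure P F) := hT ▸ Submodule.subset_span hx
    have h2 : IsIntegral P x := h1
    exact h2.tower_top
  · intro x hx
    have h1 : IsIntegral A x := hx
    have h2 : IsIntegral P x := isIntegral_trans x h1
    have h3 : x ∈ Submodule.span P (T : Set F) := by rw [hT]; exact h2
    exact Submodule.span_le_restrictScalars P A _ h3

theorem integralClosure_finite_aux (k : Type v) (A₀ A : Type u) [Field k] [CharZero k]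
    [CommRing A₀] [IsDomain A₀] [Algebra k A₀] [Algebra.FiniteType k A₀]
    [CommRing A] [IsDomain A] [Algebra A₀ A] (M : Submonoid A₀) [IsLocalization M A]
    (hinj₀ : Function.Injective (algebraMap A₀ A))
    (F : Type u) [Field F]
    [Algebra A F] [IsFractionRing A F] [Algebra A₀ F] [IsScalarTower A₀ A F] :
    (Subalgebra.toSubmodule (integralClosure A F)).FG := by
  classical
  have hmap : ∀ a : A₀, algebraMap A₀ F a = algebraMap A F (algebraMap A₀ A a) :=
    fun a => IsScalarTower.algebraMap_apply A₀ A F a
  haveI : IsFractionRing A₀ F := by
    have hinj : Function.Injective (algebraMap A₀ F) := by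
      intro a b hab
      rw [hmap, hmap] at hab
      exact hinj₀ (IsFractionRing.injective A F hab)
    haveI : FaithfulSMul A₀ F := (faithfulSMul_iff_algebraMap_injective _ _).mpr hinj
    apply IsFractionRing.of_field
    intro z
    obtain ⟨x, y, hy, rfl⟩ := IsFractionRing.div_surjective (A := A) z
    obtain ⟨⟨x', s⟩, hx⟩ := IsLocalization.surj M x
    obtain ⟨⟨y', t⟩, hyt⟩ := IsLocalization.surj M y
    have hs : algebraMap A₀ A s ≠ 0 := (IsLocalization.map_units A s).ne_zero
    have ht : algebraMap A₀ A t ≠ 0 := (IsLocalization.map_units A t).ne_zero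
    have hy0 : y ≠ 0 := nonZeroDivisors.ne_zero hy
    refine ⟨x' * t, y' * s, ?_⟩
    rw [hmap, hmap, map_mul (algebraMap A₀ A), map_mul (algebraMap A₀ A)]
    simp only at hx hyt
    rw [← hx, ← hyt]
    have hs' : algebraMap A F (algebraMap A₀ A s) ≠ 0 := by
      simpa using hs
    have ht' : algebraMap A F (algebraMap A₀ A t) ≠ 0 := by
      simpa using ht
    have hy' : algebraMap A F y ≠ 0 := by
      simpa using hy0
    simp only [map_mul]
    field_simp
  have hfg := integralClosure_finite_of_finiteType k A₀ F
  obtain ⟨T, hT⟩ := hfg
  refine ⟨T, ?_⟩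
  apply le_antisymm
  · rw [Submodule.span_le]
    intro x hx
    have h1 : x ∈ Subalgebra.toSubmodule (integralClosure A₀ F) := hT ▸ Submodule.subset_span hx
    have h2 : IsIntegral A₀ x := h1
    exact h2.tower_top
  · intro x hx
    have h1 : IsIntegral A x := hx
    obtain ⟨m, hm⟩ := IsIntegral.exists_multiple_integral_of_isLocalization M x h1
    have h3 : m • x ∈ Submodule.span A₀ (T : Set F) := by rw [hT]; exact hm
    have h4 : m • x ∈ Submodule.span A (T : Set F) := Submodule.span_le_restrictScalars A₀ A _ h3
    obtain ⟨u, hu⟩ := IsLocalization.map_units A m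
    have h5 : x = ((u⁻¹ : Aˣ) : A) • (m • x) := by
      have : (m • x : F) = (u : A) • x := by
        rw [hu, Submonoid.smul_def, algebraMap_smul]
      rw [this, smul_smul, Units.inv_mul, one_smul]
    rw [h5]
    exact Submodule.smul_mem _ _ h4

/-- Finiteness of the integral closure for domains essentially of finite type over a field of
characteristic zero. -/
theorem integralClosure_finite (k : Type v) (A : Type u) [Field k] [CharZero k]
    [CommRing A] [IsDomain A] [Algebra k A] [Algebra.EssFiniteType k A] (F : Type u) [Field F]
    [Algebra A F] [IsFractionRing A F] :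
    (Subalgebra.toSubmodule (integralClosure A F)).FG :=
  integralClosure_finite_aux k (Algebra.EssFiniteType.subalgebra k A) A
    (Algebra.EssFiniteType.submonoid k A) Subtype.val_injective F

end MP72c78a
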