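import Pool.Agent.Lib.MP_72c78a_ag.InjDim

/-!
The inductive step: from a prime `p` to a prime `q` directly above it.
-/

open CategoryTheory Abelian

universe u

namespace MP72c78a

/-- Clearing denominators of a functional on a finite module. -/
theorem exists_clear {A : Type*} [CommRing A] [IsDomain A] {F : Type*} [Field F] [Algebra A F]
    [IsFractionRing A F] {M : Type*} [AddCommGroup M] [Module A M] [Module.Finite A M]
    (l : M →ₗ[A] F) : ∃ (c : A) (ρ : M →ₗ[A] A), c ≠ 0 ∧
      ∀ m, algebraMap A F (ρ m) = c • l m := by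
  classical
  obtain ⟨s, hs⟩ := (Module.Finite.fg_top : (⊤ : Submodule A M).FG)
  obtain ⟨c, hc⟩ := IsLocalization.exist_integer_multiples_of_finset (nonZeroDivisors A)
    (s.image l)
  have hmem : ∀ m, ((c : A) • l) m ∈ LinearMap.range (Algebra.linearMap A F) := by
    intro m
    have hm : m ∈ Submodule.span A (s : Set M) := by rw [hs]; trivial
    induction hm using Submodule.span_induction with
    | mem x hx =>
      obtain ⟨a, ha⟩ := hc (l x) (Finset.mem_image_of_mem _ hx)
      exact ⟨a, ha⟩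
    | zero => simp
    | add x y _ _ hx hy => rw [map_add]; exact add_mem hx hy
    | smul a x _ hx => rw [map_smul]; exact Submodule.smul_mem _ _ hx
  have hinj : Function.Injective (Algebra.linearMap A F) := IsFractionRing.injective A F
  let e := LinearEquiv.ofInjective (Algebra.linearMap A F) hinj
  refine ⟨c, e.symm.toLinearMap ∘ₗ LinearMap.codRestrict _ ((c : A) • l) hmem,
    nonZeroDivisors.ne_zero c.2, ?_⟩
  intro m
  have : e (e.symm (LinearMap.codRestrict _ ((c : A) • l) hmem m)) =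
    LinearMap.codRestrict _ ((c : A) • l) hmem m := e.apply_symm_apply _
  exact congrArg Subtype.val this

/-- A nonzero ideal stable under a suitable derivation is not contained in `n`. -/
theorem not_le_of_stable {B : Type*} [CommRing B] [IsDomain B] (n : Ideal B) [n.IsPrime]
    [IsDiscreteValuationRing (Localization.AtPrime n)] (δ : Derivation ℤ B B)
    (hδ : ∃ z ∈ n, δ z ∉ n) (hchar : ∀ e : ℕ, e ≠ 0 → (e : B) ∉ n)
    (J : Ideal B) (hJ : J ≠ ⊥) (hst : ∀ x ∈ J, δ x ∈ J) : ¬ J ≤ n := by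
  intro hle
  let Bn := Localization.AtPrime n
  have hinj : Function.Injective (algebraMap B Bn) :=
    IsLocalization.injective Bn n.primeCompl_le_nonZeroDivisors
  obtain ⟨ϖ, hϖ⟩ := IsDiscreteValuationRing.exists_irreducible Bn
  -- choose the uniformiser in `B`
  obtain ⟨⟨π, t⟩, hπ⟩ := IsLocalization.surj n.primeCompl ϖ
  have hunit : IsUnit (algebraMap B Bn t) := IsLocalization.map_units Bn t
  have hπirr : Irreducible (algebraMap B Bn π) := by
    rw [← hπ]
    exact (irreducible_mul_isUnit hunit).mpr hϖ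
  have hmax : IsLocalRing.maximalIdeal Bn = Ideal.span {algebraMap B Bn π} :=
    hπirr.maximalIdeal_eq
  have hmem : ∀ z : B, z ∈ n ↔ algebraMap B Bn z ∈ IsLocalRing.maximalIdeal Bn := by
    intro z
    exact (IsLocalization.AtPrime.to_map_mem_maximal_iff Bn n z).symm
  have hπn : π ∈ n := by
    rw [hmem, hmax]; exact Ideal.mem_span_singleton_self _
  have hJn : Ideal.map (algebraMap B Bn) J ≠ ⊥ := by
    intro h
    apply hJ
    rw [Ideal.map_eq_bot_iff_of_injective hinj] at h
    exact h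
  obtain ⟨e, he⟩ := IsDiscreteValuationRing.ideal_eq_span_pow_irreducible hJn hπirr
  have h1 : algebraMap B Bn (π ^ e) ∈ Ideal.map (algebraMap B Bn) J := by
    rw [he, map_pow]; exact Ideal.mem_span_singleton_self _
  obtain ⟨⟨⟨j, hj⟩, t'⟩, hjt⟩ := (IsLocalization.mem_map_algebraMap_iff n.primeCompl Bn).mp h1
  have hx : π ^ e * (t' : B) = j := hinj (by rw [map_mul]; exact hjt)
  have hxJ : π ^ e * (t' : B) ∈ J := hx ▸ hj
  have ht' : (t' : B) ∉ n := t'.2
  -- e ≥ 1
  have he1 : e ≠ 0 := by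
    rintro rfl
    rw [pow_zero, one_mul] at hxJ
    exact ht' (hle hxJ)
  obtain ⟨m, rfl⟩ := Nat.exists_eq_succ_of_ne_zero he1
  have h2 := hst _ hxJ
  have h3 : algebraMap B Bn (δ (π ^ (m + 1) * (t' : B))) ∈
      Ideal.span {algebraMap B Bn π ^ (m + 1)} := by
    rw [← he]; exact Ideal.mem_map_of_mem _ h2
  rw [Ideal.mem_span_singleton'] at h3
  obtain ⟨w, hw⟩ := h3
  have h4 : δ (π ^ (m + 1) * (t' : B)) =
      π ^ (m + 1) * δ t' + (t' : B) * (((m + 1 : ℕ) : B) * π ^ m * δ π) := by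
    rw [Derivation.leibniz, Derivation.leibniz_pow]
    simp only [smul_eq_mul, nsmul_eq_mul, Nat.add_sub_cancel]
    ring
  rw [h4] at hw
  have hπ0 : (algebraMap B Bn π) ≠ 0 := hπirr.ne_zero
  have h5 : algebraMap B Bn ((t' : B) * ((m + 1 : ℕ) : B) * δ π) =
      algebraMap B Bn π * (w - algebraMap B Bn (δ t')) := by
    apply mul_left_cancel₀ (pow_ne_zero m hπ0)
    have : algebraMap B Bn π ^ m * (algebraMap B Bn π * (w - algebraMap B Bn (δ t'))) =
      w * algebraMap B Bn π ^ (m + 1) - algebraMap B Bn (π ^ (m + 1) * δ t') := by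
      rw [map_mul, map_pow]; ring
    rw [this, hw, ← map_pow, ← map_mul, ← map_sub]
    congr 1
    ring
  have h6 : (t' : B) * ((m + 1 : ℕ) : B) * δ π ∈ n := by
    rw [hmem, h5, hmax]
    exact Ideal.mul_mem_right _ _ (Ideal.mem_span_singleton_self _)
  have h7 : δ π ∈ n := by
    rcases Ideal.IsPrime.mem_or_mem ‹_› h6 with h | h
    · rcases Ideal.IsPrime.mem_or_mem ‹_› h with h | h
      · exact absurd h ht'
      · exact absurd h (hchar _ (Nat.succ_ne_zero m))
    · exact h
  obtain ⟨z, hz, hδz⟩ := hδ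
  have h8 : algebraMap B Bn z ∈ Ideal.span {algebraMap B Bn π} := by
    rw [← hmax, ← hmem]; exact hz
  rw [Ideal.mem_span_singleton'] at h8
  obtain ⟨w, hw⟩ := h8
  obtain ⟨⟨w', s⟩, hws⟩ := IsLocalization.surj n.primeCompl w
  have h9 : w' * π = z * s := by
    apply hinj
    rw [map_mul, map_mul, ← hws, ← hw]
    ring
  have h10 := congrArg δ h9
  rw [Derivation.leibniz, Derivation.leibniz] at h10
  simp only [smul_eq_mul] at h10
  have h11 : (s : B) * δ z ∈ n := by
    have : (s : B) * δ z = w' * δ π + π * δ w' - z * δ s := by rw [h10]; ring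
    rw [this]
    exact n.sub_mem (n.add_mem (n.mul_mem_left _ h7) (n.mul_mem_right _ hπn))
      (n.mul_mem_right _ hz)
  rcases Ideal.IsPrime.mem_or_mem ‹_› h11 with h | h
  · exact s.2 h
  · exact hδz h

/-- In a localised DVR, `n` is locally principal. -/
theorem exists_uniformizer {B : Type*} [CommRing B] [IsDomain B] [IsNoetherianRing B]
    (n : Ideal B) [n.IsPrime]
    [IsDiscreteValuationRing (Localization.AtPrime n)] :
    ∃ π ∈ n, π ≠ 0 ∧ ∃ s, s ∉ n ∧ ∀ z ∈ n, ∃ w, s * z = π * w := by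
  classical
  let Bn := Localization.AtPrime n
  have hinj : Function.Injective (algebraMap B Bn) :=
    IsLocalization.injective Bn n.primeCompl_le_nonZeroDivisors
  obtain ⟨ϖ, hϖ⟩ := IsDiscreteValuationRing.exists_irreducible Bn
  obtain ⟨⟨π, t⟩, hπ⟩ := IsLocalization.surj n.primeCompl ϖ
  have hunit : IsUnit (algebraMap B Bn t) := IsLocalization.map_units Bn t
  have hπirr : Irreducible (algebraMap B Bn π) := by
    rw [← hπ]
    exact (irreducible_mul_isUnit hunit).mpr hϖ
  have hmax : IsLocalRing.maximalIdeal Bn = Ideal.span {algebraMap B Bn π} :=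
    hπirr.maximalIdeal_eq
  have hmem : ∀ z : B, z ∈ n ↔ algebraMap B Bn z ∈ IsLocalRing.maximalIdeal Bn := by
    intro z
    exact (IsLocalization.AtPrime.to_map_mem_maximal_iff Bn n z).symm
  have hπn : π ∈ n := by
    rw [hmem, hmax]; exact Ideal.mem_span_singleton_self _
  have hπ0 : π ≠ 0 := by
    rintro rfl
    exact hπirr.ne_zero (map_zero _)
  refine ⟨π, hπn, hπ0, ?_⟩
  have hpt : ∀ z ∈ n, ∃ s, s ∉ n ∧ ∃ w, s * z = π * w := by
    intro z hz
    have h8 : algebraMap B Bn z ∈ Ideal.span {algebraMap B Bn π} := by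
      rw [← hmax, ← hmem]; exact hz
    rw [Ideal.mem_span_singleton'] at h8
    obtain ⟨w, hw⟩ := h8
    obtain ⟨⟨w', s⟩, hws⟩ := IsLocalization.surj n.primeCompl w
    refine ⟨s, s.2, w', ?_⟩
    apply hinj
    rw [map_mul, map_mul, ← hws, ← hw]
    ring
  obtain ⟨S, hS⟩ := (IsNoetherian.noetherian n : n.FG)
  choose! f hf hf' using hpt
  refine ⟨∏ z ∈ S, f z, ?_, ?_⟩
  · rw [Ideal.IsPrime.prod_mem_iff]
    push Not
    intro z hz
    exact hf z (hS ▸ Submodule.subset_span hz)
  · intro z hz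
    rw [← hS] at hz
    induction hz using Submodule.span_induction with
    | mem x hx =>
      obtain ⟨w, hw⟩ := hf' x (hS ▸ Submodule.subset_span hx)
      refine ⟨w * ∏ z ∈ S.erase x, f z, ?_⟩
      rw [← Finset.mul_prod_erase S f hx]
      linear_combination (∏ z ∈ S.erase x, f z) * hw
    | zero => exact ⟨0, by ring⟩
    | add x y _ _ hx hy =>
      obtain ⟨w, hw⟩ := hx
      obtain ⟨w', hw'⟩ := hy
      exact ⟨w + w', by rw [mul_add, mul_add, hw, hw']⟩
    | smul a x _ hx =>
      obtain ⟨w, hw⟩ := hx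
      refine ⟨a * w, ?_⟩
      rw [smul_eq_mul]
      linear_combination a * hw

section Step

variable {R : Type u} [CommRing R] {B : Type u} [CommRing B] [Algebra R B]
variable {E : Type u} [AddCommGroup E] [Module R E] {d : Derivation ℤ R E}

/-- The inductive step. -/
theorem kills_step [IsDomain B] [IsNoetherianRing B] [Module.Finite R B]
    (N : ModuleCat.{u} R) (τ : DivOp d N)
    (hE : ∀ j, 1 ≤ j → ∀ x : Ext (ModuleCat.of R E) N j, x = 0)
    (p q : Ideal R) [p.IsPrime] [q.IsPrime]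
    (hker : RingHom.ker (algebraMap R B) = p) (n : Ideal B) [n.IsPrime]
    [IsDiscreteValuationRing (Localization.AtPrime n)]
    (hnq : n.comap (algebraMap R B) = q)
    (hbir : ∃ c, c ∉ p ∧ ∀ b : B, ∃ r : R, c • b = algebraMap R B r)
    (δ : Derivation ℤ B B) (θ : E →ₗ[R] B) (hθ : ∀ r, θ (d r) = δ (algebraMap R B r))
    (hδ : ∃ z ∈ n, δ z ∉ n) (hchar : ∀ e : ℕ, e ≠ 0 → (e : B) ∉ n) (i : ℕ)
    (h0 : ∃ s, s ∉ p ∧ Kills (R := R) (B := R) (R ⧸ p) s N i)
    (h1 : ∃ s, s ∉ p ∧ Kills (R := R) (B := R) (R ⧸ p) s N (i + 1)) :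
    ∃ s, s ∉ q ∧ Kills (R := R) (B := R) (R ⧸ q) s N (i + 1) := by
  classical
  -- the map `R/p → B`
  let ι : (R ⧸ p) →ₗ[R] B :=
    Submodule.liftQ p (Algebra.linearMap R B) (by
      intro x hx
      rw [← hker] at hx
      exact hx)
  have hι : ∀ r : R, ι (Ideal.Quotient.mk p r) = algebraMap R B r := fun r => rfl
  have hιinj : Function.Injective ι := by
    rw [injective_iff_map_eq_zero]
    intro y hy
    obtain ⟨y, rfl⟩ := Ideal.Quotient.mk_surjective y
    rw [hι] at hy
    rw [Ideal.Quotient.eq_zero_iff_mem, ← hker]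
    exact hy
  obtain ⟨c, hc, hcb⟩ := hbir
  have hψ : ∃ ψ : B →ₗ[R] (R ⧸ p), ∀ b, ι (ψ b) = c • b := by
    let e := LinearEquiv.ofInjective ι hιinj
    have hmem : ∀ b, (c • (LinearMap.id : B →ₗ[R] B)) b ∈ LinearMap.range ι := by
      intro b
      obtain ⟨r, hr⟩ := hcb b
      exact ⟨Ideal.Quotient.mk p r, by rw [hι, ← hr]; rfl⟩
    refine ⟨e.symm.toLinearMap ∘ₗ LinearMap.codRestrict _ _ hmem, fun b => ?_⟩
    have : e (e.symm (LinearMap.codRestrict _ _ hmem b)) = LinearMap.codRestrict _ _ hmem b :=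
      e.apply_symm_apply _
    exact congrArg Subtype.val this
  obtain ⟨ψ, hψ⟩ := hψ
  -- annihilators
  have hann : ∀ j, (∃ s, s ∉ p ∧ Kills (R := R) (B := R) (R ⧸ p) s N j) →
      ∃ u, u ∉ n ∧ Kills (R := R) B u N j := by
    rintro j ⟨s, hs, hk⟩
    have hk1 : Kills (R := R) (B := R) B (s * c) N j := hk.retract ψ ι hψ
    have hk2 : Kills (R := R) B (algebraMap R B (s * c)) N j := kills_algebraMap_iff.mpr hk1
    have hne : algebraMap R B (s * c) ≠ 0 := by
      intro h
      have : s * c ∈ p := by rw [← hker]; exact h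
      rcases Ideal.IsPrime.mem_or_mem ‹_› this with h | h
      · exact hs h
      · exact hc h
    have hJ : annExt B N j ≠ ⊥ := by
      intro h
      have : algebraMap R B (s * c) ∈ annExt B N j := hk2
      rw [h] at this
      exact hne (by simpa using this)
    have hle := not_le_of_stable n δ hδ hchar (annExt B N j) hJ
      (fun x hx => kills_deriv δ θ hθ N τ hE j x hx)
    obtain ⟨u, hu, hun⟩ := SetLike.not_le_iff_exists.mp hle
    exact ⟨u, hun, hu⟩
  obtain ⟨u, hu, hku⟩ := hann i h0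
  obtain ⟨v, hv, hkv⟩ := hann (i + 1) h1
  obtain ⟨π, hπn, hπ0, s, hs, hsπ⟩ := exists_uniformizer n
  -- `B/πB`
  have hk3 : Kills (R := R) (B ⧸ Ideal.span {π}) (u * v) N (i + 1) := by
    refine Kills.right_of_exact (LinearMap.lsmul B B π) (Ideal.span {π}).mkQ ?_ ?_ ?_ hku hkv
    · intro x y hxy
      exact mul_left_cancel₀ hπ0 hxy
    · exact Submodule.mkQ_surjective _
    · intro y
      constructor
      · intro hy
        have h1 : Ideal.Quotient.mk (Ideal.span {π}) y = 0 := hy
        rw [Ideal.Quotient.eq_zero_iff_mem, Ideal.mem_span_singleton'] at h1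
        obtain ⟨a, ha⟩ := h1
        exact ⟨a, by rw [← ha]; exact mul_comm _ _⟩
      · rintro ⟨z, rfl⟩
        change Ideal.Quotient.mk (Ideal.span {π}) (π * z) = 0
        rw [Ideal.Quotient.eq_zero_iff_mem]
        exact Ideal.mul_mem_right _ _ (Ideal.mem_span_singleton_self π)
  -- `B/n`
  have hα : n ≤ Submodule.comap (LinearMap.lsmul B B s) (Ideal.span {π}) := by
    intro z hz
    obtain ⟨w, hw⟩ := hsπ z hz
    change s * z ∈ Ideal.span {π}
    rw [hw]
    exact Ideal.mul_mem_right _ _ (Ideal.mem_span_singleton_self π)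
  let α : (B ⧸ n) →ₗ[B] (B ⧸ Ideal.span {π}) := Submodule.mapQ n _ (LinearMap.lsmul B B s) hα
  let β : (B ⧸ Ideal.span {π}) →ₗ[B] (B ⧸ n) := Submodule.mapQ _ n LinearMap.id (by
    intro z hz
    change z ∈ n
    have : Ideal.span {π} ≤ n := (Ideal.span_singleton_le_iff_mem n).mpr hπn
    exact this hz)
  have hk4 : Kills (R := R) (B ⧸ n) (u * v * s) N (i + 1) := by
    refine hk3.retract α β ?_
    intro x
    obtain ⟨x, rfl⟩ := Ideal.Quotient.mk_surjective x
    rfl
  have hnot : u * v * s ∉ n := by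
    intro h
    rcases Ideal.IsPrime.mem_or_mem ‹_› h with h | h
    · rcases Ideal.IsPrime.mem_or_mem ‹_› h with h | h
      · exact hu h
      · exact hv h
    · exact hs h
  -- descend to an element of `R ∖ q`
  have hnq' : ∀ r : R, algebraMap R B r ∈ n ↔ r ∈ q := by
    intro r; rw [← hnq]; rfl
  have hint : Algebra.IsIntegral R B := Algebra.IsIntegral.of_finite R B
  obtain ⟨w, r, hr, hwr⟩ : ∃ (w : B) (r : R), r ∉ q ∧ u * v * s * w - algebraMap R B r ∈ n := by
    letI : Algebra (R ⧸ q) (B ⧸ n) :=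
      (Ideal.quotientMap n (algebraMap R B) (le_of_eq hnq.symm)).toAlgebra
    have hq0 : ∀ r : R, algebraMap (R ⧸ q) (B ⧸ n) (Ideal.Quotient.mk q r) =
      Ideal.Quotient.mk n (algebraMap R B r) := fun r => rfl
    have hx0 : Ideal.Quotient.mk n (u * v * s) ≠ 0 := by
      rw [Ne, Ideal.Quotient.eq_zero_iff_mem]; exact hnot
    have hxi : IsIntegral (R ⧸ q) (Ideal.Quotient.mk n (u * v * s)) := by
      obtain ⟨P, hP, hP0⟩ := hint.isIntegral (u * v * s)
      refine ⟨P.map (Ideal.Quotient.mk q), hP.map _, ?_⟩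
      rw [Polynomial.eval₂_map]
      have : (algebraMap (R ⧸ q) (B ⧸ n)).comp (Ideal.Quotient.mk q) =
        (Ideal.Quotient.mk n).comp (algebraMap R B) := RingHom.ext hq0
      rw [this, ← Polynomial.hom_eval₂, hP0, map_zero]
    have := Ideal.comap_ne_bot_of_integral_mem hx0 (Ideal.mem_span_singleton_self _) hxi
    obtain ⟨r, hr, hr0⟩ := Submodule.exists_mem_ne_zero_of_ne_bot this
    obtain ⟨r, rfl⟩ := Ideal.Quotient.mk_surjective r
    rw [Ideal.mem_comap, Ideal.mem_span_singleton'] at hr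
    obtain ⟨w, hw⟩ := hr
    obtain ⟨w, rfl⟩ := Ideal.Quotient.mk_surjective w
    refine ⟨w, r, ?_, ?_⟩
    · intro h
      exact hr0 (Ideal.Quotient.eq_zero_iff_mem.mpr h)
    · rw [← Ideal.Quotient.eq, ← hq0, ← hw, mul_comm, map_mul]
  have hk5 : Kills (R := R) (B ⧸ n) (algebraMap R B r) N (i + 1) := by
    refine (hk4.mul_right w).congr ?_
    intro x
    obtain ⟨x, rfl⟩ := Ideal.Quotient.mk_surjective x
    change Ideal.Quotient.mk n (u * v * s * w * x) = Ideal.Quotient.mk n (algebraMap R B r * x)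
    rw [Ideal.Quotient.eq, ← sub_mul]
    exact n.mul_mem_right _ hwr
  have hk6 : Kills (R := R) (B := R) (B ⧸ n) r N (i + 1) := kills_algebraMap_iff.mp hk5
  -- retraction `B/n → R/q`
  obtain ⟨ρ, c', hc', hρ⟩ : ∃ (ρ : (B ⧸ n) →ₗ[R] (R ⧸ q)) (c' : R), c' ∉ q ∧
      ρ 1 = Ideal.Quotient.mk q c' := by
    letI : Algebra (R ⧸ q) (B ⧸ n) :=
      (Ideal.quotientMap n (algebraMap R B) (le_of_eq hnq.symm)).toAlgebra
    have hq0 : ∀ r : R, algebraMap (R ⧸ q) (B ⧸ n) (Ideal.Quotient.mk q r) =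
      Ideal.Quotient.mk n (algebraMap R B r) := fun r => rfl
    haveI : IsScalarTower R (R ⧸ q) (B ⧸ n) := IsScalarTower.of_algebraMap_eq (fun r => rfl)
    haveI : Module.Finite R (B ⧸ n) :=
      Module.Finite.of_surjective (n.mkQ.restrictScalars R) (Submodule.mkQ_surjective n)
    haveI : Module.Finite (R ⧸ q) (B ⧸ n) := Module.Finite.of_restrictScalars_finite R _ _
    have hinj : Function.Injective (algebraMap (R ⧸ q) (B ⧸ n)) :=
      Ideal.quotientMap_injective' (by rw [hnq])
    let K := FractionRing (R ⧸ q)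
    let L := FractionRing (B ⧸ n)
    haveI : FaithfulSMul (R ⧸ q) (B ⧸ n) := (faithfulSMul_iff_algebraMap_injective _ _).mpr hinj
    letI : Algebra K L := FractionRing.liftAlgebra (R ⧸ q) L
    haveI : IsScalarTower (R ⧸ q) K L := FractionRing.isScalarTower_liftAlgebra _ _
    obtain ⟨f, hf⟩ : ∃ f : L →ₗ[K] K, f 1 = 1 := by
      have h1 : Function.Injective (Algebra.linearMap K L) := (algebraMap K L).injective
      obtain ⟨g, hg⟩ := LinearMap.exists_leftInverse_of_injective (Algebra.linearMap K L)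
        (LinearMap.ker_eq_bot.mpr h1)
      refine ⟨g, ?_⟩
      have := LinearMap.congr_fun hg 1
      simpa using this
    let l : (B ⧸ n) →ₗ[R ⧸ q] K :=
      (f.restrictScalars (R ⧸ q)) ∘ₗ (IsScalarTower.toAlgHom (R ⧸ q) (B ⧸ n) L).toLinearMap
    obtain ⟨a, ρ, ha, hρ⟩ := exists_clear l
    obtain ⟨c', rfl⟩ := Ideal.Quotient.mk_surjective a
    refine ⟨ρ.restrictScalars R, c', ?_, ?_⟩
    · intro h
      exact ha (Ideal.Quotient.eq_zero_iff_mem.mpr h)
    · apply IsFractionRing.injective (R ⧸ q) K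
      have h2 := hρ 1
      have h3 : l 1 = 1 := by
        simp [l, hf]
      rw [h3, Algebra.smul_def, mul_one] at h2
      exact h2
  refine ⟨r * c', ?_, ?_⟩
  · intro h
    rcases Ideal.IsPrime.mem_or_mem ‹_› h with h | h
    · exact hr h
    · exact hc' h
  · let ιq : (R ⧸ q) →ₗ[R] (B ⧸ n) :=
      Submodule.liftQ q ((n.mkQ.restrictScalars R) ∘ₗ Algebra.linearMap R B) (by
        intro x hx
        change Ideal.Quotient.mk n (algebraMap R B x) = 0
        rw [Ideal.Quotient.eq_zero_iff_mem, hnq']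
        exact hx)
    refine hk6.retract ιq ρ ?_
    intro x
    obtain ⟨x, rfl⟩ := Ideal.Quotient.mk_surjective x
    have h1 : ιq (Ideal.Quotient.mk q x) = x • (1 : B ⧸ n) := by
      change Ideal.Quotient.mk n (algebraMap R B x) = _
      rw [Algebra.smul_def, mul_one]
      rfl
    rw [h1, map_smul, hρ]
    change Ideal.Quotient.mk q (x * c') = Ideal.Quotient.mk q (c' * x)
    rw [mul_comm]

end Step

end MP72c78a
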