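import Pool.Agent.Lib.MP_72c78a_ag.Norm
import Pool.Agent.Lib.MP_72c78a_ag.Step

/-!
The normalisation `B` of `R/p` and its discrete valuation rings.
-/

set_option linter.style.haveILetI false

open Algebra

universe u v
namespace MP72c78a

/-- The normalisation of `R/p`. -/
theorem exists_normalization (k : Type v) (R : Type u) [Field k] [CharZero k] [CommRing R]
    [Algebra k R] [Algebra.EssFiniteType k R] (p : Ideal R) [p.IsPrime] :
    ∃ (B : Type u) (_ : CommRing B) (_ : Algebra R B) (_ : Algebra k B)
      (_ : IsScalarTower k R B), IsDomain B ∧ IsIntegrallyClosed B ∧ Module.Finite R B ∧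
      RingHom.ker (algebraMap R B) = p ∧
      ∃ c, c ∉ p ∧ ∀ b : B, ∃ r : R, c • b = algebraMap R B r := by
  classical
  let A := R ⧸ p
  let F := FractionRing A
  haveI : Algebra.EssFiniteType k A := Algebra.EssFiniteType.comp k R A
  have hfg := integralClosure_finite k A F
  let B := integralClosure A F
  haveI : Module.Finite A B := Module.Finite.iff_fg.mpr hfg
  haveI : IsIntegrallyClosed B := integralClosure.isIntegrallyClosedOfFiniteExtension (R := A) F
  haveI : IsScalarTower R A B := IsScalarTower.of_algebraMap_eq (fun _ => rfl)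
  haveI : IsScalarTower k R B := IsScalarTower.of_algebraMap_eq (fun _ => rfl)
  haveI : Module.Finite R A := Module.Finite.of_surjective p.mkQ (Submodule.mkQ_surjective p)
  haveI : Module.Finite R B := Module.Finite.trans A B
  have hmap : ∀ r : R, algebraMap R B r = algebraMap A B (Ideal.Quotient.mk p r) := fun _ => rfl
  have hinjA : Function.Injective (algebraMap A B) := by
    intro a b hab
    have := congrArg (algebraMap B F) hab
    rw [← IsScalarTower.algebraMap_apply, ← IsScalarTower.algebraMap_apply] at this
    exact IsFractionRing.injective A F this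
  refine ⟨B, inferInstance, inferInstance, inferInstance, inferInstance, inferInstance,
    inferInstance, inferInstance, ?_, ?_⟩
  · ext r
    rw [RingHom.mem_ker, hmap, map_eq_zero_iff _ hinjA, Ideal.Quotient.eq_zero_iff_mem]
  · let l : B →ₗ[A] F := (IsScalarTower.toAlgHom A B F).toLinearMap
    obtain ⟨a, ρ, ha, hρ⟩ := exists_clear (A := A) (F := F) l
    obtain ⟨c, rfl⟩ := Ideal.Quotient.mk_surjective a
    refine ⟨c, fun h => ha (Ideal.Quotient.eq_zero_iff_mem.mpr h), fun b => ?_⟩
    obtain ⟨r, hr⟩ := Ideal.Quotient.mk_surjective (ρ b)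
    refine ⟨r, ?_⟩
    rw [hmap, hr]
    apply FaithfulSMul.algebraMap_injective B F
    rw [← IsScalarTower.algebraMap_apply, hρ b]
    have h1 : (c • b : B) = algebraMap A B (Ideal.Quotient.mk p c) * b := by
      rw [Algebra.smul_def]; rfl
    rw [h1, map_mul, ← IsScalarTower.algebraMap_apply, Algebra.smul_def]
    rfl

/-- Localisations of the normalisation at primes directly above zero. -/
theorem isDVR_of_saturated {R B : Type u} [CommRing R] [IsNoetherianRing R] [CommRing B]
    [IsDomain B]
    [IsIntegrallyClosed B] [Algebra R B] [Module.Finite R B] (p q : Ideal R) [p.IsPrime]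
    [q.IsPrime] (hpq : p < q) (hsat : ∀ r : Ideal R, r.IsPrime → p < r → r < q → False)
    (hker : RingHom.ker (algebraMap R B) = p) (n : Ideal B) [n.IsPrime]
    (hnq : n.comap (algebraMap R B) = q) :
    IsDiscreteValuationRing (Localization.AtPrime n) := by
  classical
  haveI : Algebra.IsIntegral R B := Algebra.IsIntegral.of_finite R B
  haveI : IsNoetherianRing B := IsNoetherianRing.of_finite R B
  let Bn := Localization.AtPrime n
  haveI : IsNoetherianRing Bn := IsLocalization.isNoetherianRing n.primeCompl Bn inferInstance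
  haveI : IsIntegrallyClosed Bn :=
    isIntegrallyClosed_of_isLocalization Bn n.primeCompl n.primeCompl_le_nonZeroDivisors
  have hinj : Function.Injective (algebraMap B Bn) :=
    IsLocalization.injective Bn n.primeCompl_le_nonZeroDivisors
  have hn0 : n ≠ ⊥ := by
    rintro rfl
    rw [← RingHom.ker_eq_comap_bot, hker] at hnq
    exact hpq.ne hnq
  have hbot : p ≤ (⊥ : Ideal B).comap (algebraMap R B) := by
    rw [← RingHom.ker_eq_comap_bot, hker]
  have hnf : ¬ IsField Bn := by
    intro hf
    rw [IsLocalRing.isField_iff_maximalIdeal_eq] at hf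
    obtain ⟨x, hx, hx0⟩ := Submodule.exists_mem_ne_zero_of_ne_bot hn0
    have : algebraMap B Bn x ∈ IsLocalRing.maximalIdeal Bn :=
      (IsLocalization.AtPrime.to_map_mem_maximal_iff Bn n x).mpr hx
    rw [hf, Ideal.mem_bot, map_eq_zero_iff _ hinj] at this
    exact hx0 this
  have htfae : IsDiscreteValuationRing Bn ↔
      (IsIntegrallyClosed Bn ∧ ∃! P : Ideal Bn, P ≠ ⊥ ∧ P.IsPrime) :=
    (IsDiscreteValuationRing.TFAE Bn hnf).out 0 3
  refine htfae.mpr ⟨inferInstance, ?_⟩
  refine ⟨IsLocalRing.maximalIdeal Bn, ⟨?_, inferInstance⟩, ?_⟩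
  · exact IsLocalRing.isField_iff_maximalIdeal_eq.not.mp hnf
  · rintro P ⟨hP0, hP⟩
    let P' := P.comap (algebraMap B Bn)
    haveI : P'.IsPrime := Ideal.comap_isPrime _ P
    have hPmap : P'.map (algebraMap B Bn) = P := IsLocalization.map_comap n.primeCompl Bn P
    have hP'0 : P' ≠ ⊥ := by
      intro h
      apply hP0
      rw [← hPmap, h, Ideal.map_bot]
    have hP'n : P' ≤ n := by
      intro x hx
      have h1 : algebraMap B Bn x ∈ IsLocalRing.maximalIdeal Bn :=
        IsLocalRing.le_maximalIdeal hP.ne_top hx
      exact (IsLocalization.AtPrime.to_map_mem_maximal_iff Bn n x).mp h1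
    have hlt : (⊥ : Ideal B).comap (algebraMap R B) < P'.comap (algebraMap R B) :=
      Ideal.IsIntegral.comap_lt_comap (bot_lt_iff_ne_bot.mpr hP'0)
    rw [← RingHom.ker_eq_comap_bot, hker] at hlt
    haveI : (P'.comap (algebraMap R B)).IsPrime := Ideal.comap_isPrime _ P'
    have hle : P'.comap (algebraMap R B) ≤ q := hnq ▸ Ideal.comap_mono hP'n
    have heq : P' = n := by
      by_contra hne
      have hlt2 : P' < n := lt_of_le_of_ne hP'n hne
      have := Ideal.IsIntegral.comap_lt_comap (R := R) hlt2
      rw [hnq] at this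
      exact hsat _ inferInstance hlt this
    rw [← hPmap, heq]
    exact Localization.AtPrime.map_eq_maximalIdeal

end MP72c78a
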