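import Pool.Agent.Lib.MP_72c78a_ag.Gdim

/-!
Vanishing of `Ext` for a torsion quotient of the module of differentials.
-/

set_option linter.style.haveILetI false

open CategoryTheory Abelian Algebra

universe u v
namespace MP72c78a

/-- Uniform annihilation of a finitely generated torsion submodule. -/
theorem exists_uniform_kill {R : Type u} [CommRing R] [IsNoetherianRing R] {W : Type u}
    [AddCommGroup W] [Module R W] [Module.Finite R W] (T : Submodule R W)
    (hT : T ≤ Submodule.torsion R W) : ∃ f ∈ nonZeroDivisors R, ∀ w ∈ T, f • w = 0 := by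
  classical
  obtain ⟨S, hS⟩ := (IsNoetherian.noetherian T : T.FG)
  have hpt : ∀ w ∈ S, ∃ a : R, a ∈ nonZeroDivisors R ∧ a • w = 0 := by
    intro w hw
    have h1 : w ∈ T := hS ▸ Submodule.subset_span hw
    obtain ⟨a, ha⟩ := (Submodule.mem_torsion_iff w).mp (hT h1)
    exact ⟨a, a.2, ha⟩
  choose! a ha ha' using hpt
  refine ⟨∏ w ∈ S, a w, prod_mem (fun w hw => ha w hw), ?_⟩
  intro w hw
  rw [← hS] at hw
  induction hw using Submodule.span_induction with
  | mem x hx =>
    rw [← Finset.prod_erase_mul S a hx, mul_smul, ha' x hx, smul_zero]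
  | zero => exact smul_zero _
  | add x y _ _ hx hy => rw [smul_add, hx, hy, add_zero]
  | smul c x _ hx => rw [smul_comm, hx, smul_zero]

/-- The main vanishing theorem for a quotient of `Ω[R⁄k]` by a torsion submodule. -/
theorem gorenstein_of_quotient {k : Type v} {R : Type u} [Field k] [CharZero k] [CommRing R]
    [Algebra k R] [Algebra.EssFiniteType k R] [IsLocalRing R] [IsReduced R]
    (T : Submodule R (Ω[R⁄k])) (hT : T ≤ Submodule.torsion R (Ω[R⁄k]))
    (hE : ∀ i, 1 ≤ i → Subsingleton
      (Ext (ModuleCat.of R (Ω[R⁄k] ⧸ T)) (ModuleCat.of R R) i))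
    (hD : Subsingleton (Ext (ModuleCat.of R (Derivation k R R)) (ModuleCat.of R R) 1)) :
    IsGorensteinLocal R := by
  haveI : IsNoetherianRing R := Algebra.EssFiniteType.isNoetherianRing k R
  refine ⟨inferInstance, inferInstance, ?_⟩
  obtain ⟨f, hf, hfT⟩ := exists_uniform_kill T hT
  let E := Ω[R⁄k] ⧸ T
  let d : Derivation k R E := T.mkQ.compDer (KaehlerDifferential.D k R)
  let d' : Derivation ℤ R E := d.restrictScalars ℤ
  have hlift : ∀ w, d.liftKaehlerDifferential w = T.mkQ w := by
    intro w
    have h1 : d.liftKaehlerDifferential = T.mkQ := by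
      apply Derivation.liftKaehlerDifferential_unique
      rw [Derivation.liftKaehlerDifferential_comp]
    rw [h1]
  have hspan : Submodule.span R (Set.range d) = ⊤ := by
    have h1 : Set.range d = T.mkQ '' (Set.range (KaehlerDifferential.D k R)) := by
      rw [← Set.range_comp]; rfl
    rw [h1, Submodule.span_image, KaehlerDifferential.span_range_derivation, Submodule.map_top,
      Submodule.range_mkQ]
  have hkill : ∀ ξ : Ω[R⁄k] →ₗ[R] R, T ≤ LinearMap.ker ξ := by
    intro ξ w hw
    have h1 : f * ξ w = 0 := by
      have := congrArg ξ (hfT w hw)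
      rwa [map_smul, map_zero] at this
    rw [LinearMap.mem_ker]
    exact (mul_left_mem_nonZeroDivisors_eq_zero_iff hf).mp h1
  let e : Derivation k R R ≃ₗ[R] (E →ₗ[R] R) :=
    LinearEquiv.ofLinearMap
      { toFun := fun D => T.liftQ D.liftKaehlerDifferential (hkill _)
        map_add' := fun D D' => by
          apply Submodule.linearMap_qext
          apply Derivation.liftKaehlerDifferential_unique
          ext r
          simp
        map_smul' := fun a D => by
          apply Submodule.linearMap_qext
          apply Derivation.liftKaehlerDifferential_unique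
          ext r
          simp }
      { toFun := fun ξ => ξ.compDer d
        map_add' := fun ξ ξ' => by ext r; rfl
        map_smul' := fun a ξ => by ext r; rfl }
      (by
        ext ξ : 1
        apply Submodule.linearMap_qext
        apply Derivation.liftKaehlerDifferential_unique
        ext r
        simp [d]
        rfl)
      (by
        ext D r
        change D.liftKaehlerDifferential (KaehlerDifferential.D k R r) = D r
        exact D.liftKaehlerDifferential_comp_D r)
  have hsub : Subsingleton (Ext (ModuleCat.of R (E →ₗ[R] R)) (ModuleCat.of R R) 1) :=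
    ext_subsingleton_of_equiv e _ 1 hD
  obtain ⟨τ⟩ := exists_divOp d' hsub
  obtain ⟨n, hn⟩ : ∃ n : ℕ, (IsLocalRing.maximalIdeal R).height = n := by
    have := Ideal.height_ne_top_of_isPrime (I := IsLocalRing.maximalIdeal R)
    exact ENat.ne_top_iff_exists.mp this |>.imp fun n hn => hn.symm
  refine ⟨n, ?_⟩
  refine main_injDim d hspan f ?_ ?_ d'
    (fun _ => rfl) τ (fun j hj x => (hE j hj).elim _ _) n ?_
  · intro p hp h1
    exact notMem_nonZeroDivisors_of_mem_mem_minimalPrimes h1 hp hf
  · intro ω hω
    rw [hlift] at hω
    exact hfT ω ((Submodule.Quotient.mk_eq_zero T).mp hω)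
  · intro q hq
    rw [← hn]
    exact Ideal.height_mono (IsLocalRing.le_maximalIdeal hq.ne_top)

end MP72c78a
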