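import Pool.Agent.Lib.MP_72c78a_ag.Generic

/-!
Normal finite algebras over reduced Noetherian rings are reflexive modules.
-/

set_option linter.style.haveILetI false

open CategoryTheory Abelian

universe u
namespace MP72c78a

/-- In a reduced ring, an element killed by a minimal prime `p` and by some `s ∉ p` is zero. -/
theorem eq_zero_of_kill {R : Type u} [CommRing R] [IsReduced R] (p : Ideal R)
    (hp : p ∈ minimalPrimes R) {r s : R} (hs : s ∉ p) (hr : ∀ a ∈ p, a * r = 0)
    (hsr : s * r = 0) : r = 0 := by
  by_contra hne
  obtain ⟨q, hq, hrq⟩ : ∃ q ∈ minimalPrimes R, r ∉ q := by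
    by_contra hcon
    push Not at hcon
    have h2 : r ∈ sInf (minimalPrimes R) := by
      rw [Submodule.mem_sInf]
      exact hcon
    have h3 : sInf (minimalPrimes R) = (⊥ : Ideal R) := by
      have := Ideal.sInf_minimalPrimes (I := (⊥ : Ideal R))
      rw [this]
      exact nilradical_eq_zero R
    rw [h3] at h2
    exact hne h2
  have hpq : p ≤ q := by
    intro a ha
    have h1 : a * r ∈ q := by rw [hr a ha]; exact q.zero_mem
    exact (hq.isPrime.mem_or_mem h1).resolve_right hrq
  have hqp : q ≤ p := hq.2 ⟨hp.isPrime, bot_le⟩ hpq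
  have h1 : s * r ∈ p := by rw [hsr]; exact p.zero_mem
  rcases hp.isPrime.mem_or_mem h1 with h | h
  · exact hs h
  · exact hrq (hpq h)

/-- A finite algebra which is an integrally closed domain and whose kernel is a minimal prime is
reflexive as a module. -/
theorem bijective_eval_of_normal {R B : Type u} [CommRing R] [IsNoetherianRing R] [IsReduced R]
    [CommRing B] [IsDomain B] [IsIntegrallyClosed B] [Algebra R B] [Module.Finite R B]
    (hker : RingHom.ker (algebraMap R B) ∈ minimalPrimes R) :
    Function.Bijective (Module.Dual.eval R B) := by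
  classical
  haveI : IsNoetherianRing B := IsNoetherianRing.of_finite R B
  obtain ⟨s, hs, n, α, β, hαβ⟩ := exists_factor_free B _ hker
  let a : Fin n → Module.Dual R B := fun i => LinearMap.proj i ∘ₗ α
  let c : Fin n → B := fun i => β (Pi.single i 1)
  have hsum : ∀ b : B, s • b = ∑ i, a i b • c i := by
    intro b
    rw [← hαβ]
    have h1 : α b = ∑ i, a i b • (Pi.single i (1 : R) : Fin n → R) := by
      ext j
      rw [Finset.sum_apply, Finset.sum_eq_single j]
      · simp [a]
      · intro i _ hij
        simp [Ne.symm hij]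
      · intro h
        exact absurd (Finset.mem_univ j) h
    conv_lhs => rw [h1]
    rw [map_sum]
    simp only [map_smul]
    rfl
  have hsB : algebraMap R B s ≠ 0 := hs
  have hev : ∀ (b : B) (φ : Module.Dual R B), Module.Dual.eval R B b φ = φ b := fun _ _ => rfl
  have hcancel : ∀ b b' : B, s • b = s • b' → b = b' := by
    intro b b' h
    rw [Algebra.smul_def, Algebra.smul_def] at h
    exact mul_left_cancel₀ hsB h
  have hinj : Function.Injective (Module.Dual.eval R B) := by
    rw [injective_iff_map_eq_zero]
    intro b hb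
    apply hcancel
    rw [hsum, smul_zero]
    refine Finset.sum_eq_zero (fun i _ => ?_)
    have : a i b = 0 := by rw [← hev, hb]; rfl
    rw [this, zero_smul]
  refine ⟨hinj, ?_⟩
  have hdual : ∀ φ : Module.Dual R B, s • φ = ∑ i, φ (c i) • a i := by
    intro φ
    ext b
    rw [LinearMap.smul_apply, ← map_smul, hsum, map_sum, LinearMap.sum_apply]
    refine Finset.sum_congr rfl (fun i _ => ?_)
    rw [map_smul, LinearMap.smul_apply, smul_eq_mul, smul_eq_mul, mul_comm]
  have hgen : ∀ μ : Module.Dual R (Module.Dual R B),
      s • μ = Module.Dual.eval R B (∑ i, μ (a i) • c i) := by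
    intro μ
    ext φ
    rw [LinearMap.smul_apply, ← map_smul, hdual, map_sum, hev, map_sum]
    refine Finset.sum_congr rfl (fun i _ => ?_)
    rw [map_smul, map_smul, smul_eq_mul, smul_eq_mul, mul_comm]
  intro lam
  let b : B := ∑ i, lam (a i) • c i
  have hb : s • lam = Module.Dual.eval R B b := hgen lam
  -- multiplication by `lam` on the dual
  let P : Module.Dual R B →ₗ[R] Module.Dual R B :=
    { toFun := fun φ =>
        { toFun := fun x => lam (φ ∘ₗ LinearMap.mulLeft R x)
          map_add' := fun x y => by
            rw [← map_add]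
            congr 1
            ext z
            simp [add_mul]
          map_smul' := fun r x => by
            rw [RingHom.id_apply, ← map_smul]
            congr 1
            ext z
            simp }
      map_add' := fun φ ψ => by
        ext x
        change lam ((φ + ψ) ∘ₗ LinearMap.mulLeft R x) = _
        rw [LinearMap.add_comp, map_add]
        rfl
      map_smul' := fun r φ => by
        ext x
        change lam ((r • φ) ∘ₗ LinearMap.mulLeft R x) = _
        rw [LinearMap.smul_comp, map_smul]
        rfl }
  have hP : ∀ φ x, P φ x = lam (φ ∘ₗ LinearMap.mulLeft R x) := fun _ _ => rfl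
  have hsP : ∀ φ x, s • P φ x = φ (x * b) := by
    intro φ x
    rw [hP, ← LinearMap.smul_apply, hb, hev]
    rfl
  have hsPm : ∀ (m : ℕ) (φ : Module.Dual R B) (x : B), s ^ m • (P ^ m) φ x = φ (x * b ^ m) := by
    intro m
    induction m with
    | zero => intro φ x; simp
    | succ m ih =>
      intro φ x
      have h1 : (P ^ (m + 1)) φ = (P ^ m) (P φ) := by rw [pow_succ]; rfl
      rw [h1, pow_succ', mul_smul, ih, hsP, pow_succ]
      congr 1
      ring
  let μ : ℕ → Module.Dual R (Module.Dual R B) := fun m =>
    Module.Dual.eval R B 1 ∘ₗ (P ^ m)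
  have hμ : ∀ m φ, μ m φ = (P ^ m) φ 1 := fun _ _ => rfl
  have hsμ : ∀ m, s ^ m • μ m = Module.Dual.eval R B (b ^ m) := by
    intro m
    ext φ
    rw [LinearMap.smul_apply, hμ, hsPm, one_mul, hev]
  let w : ℕ → B := fun m => ∑ i, μ m (a i) • c i
  have hw : ∀ m, s ^ m • w m = s • b ^ m := by
    intro m
    apply hinj
    rw [map_smul, ← hgen, smul_comm, hsμ, map_smul]
  -- pass to the fraction field
  let L := FractionRing B
  let sL : L := algebraMap B L (algebraMap R B s)
  have hsL : sL ≠ 0 := by
    intro h
    exact hsB ((map_eq_zero_iff _ (IsFractionRing.injective B L)).mp h)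
  let z : L := algebraMap B L b / sL
  have hz : ∀ m, sL * z ^ m = algebraMap B L (w m) := by
    intro m
    have h1 := congrArg (algebraMap B L) (hw m)
    rw [Algebra.smul_def, Algebra.smul_def, map_mul, map_mul, map_pow, map_pow, map_pow] at h1
    change sL ^ m * _ = sL * _ at h1
    change sL * (algebraMap B L b / sL) ^ m = _
    rw [div_pow, mul_div_assoc', ← h1, mul_div_assoc, mul_comm, div_mul_cancel₀ _ (pow_ne_zero m hsL)]
  let N : Submodule B L := Submodule.span B (Set.range (fun m : ℕ => z ^ m))
  have hNle : N ≤ Submodule.span B {sL⁻¹} := by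
    rw [Submodule.span_le]
    rintro _ ⟨m, rfl⟩
    rw [SetLike.mem_coe, Submodule.mem_span_singleton]
    refine ⟨w m, ?_⟩
    rw [Algebra.smul_def, ← hz m, mul_comm sL, mul_assoc, mul_inv_cancel₀ hsL, mul_one]
  have hNfg : N.FG := by
    haveI : Module.Finite B (Submodule.span B {sL⁻¹}) :=
      Module.Finite.iff_fg.mpr (Submodule.fg_span (Set.finite_singleton _))
    haveI : IsNoetherian B (Submodule.span B {sL⁻¹}) := isNoetherian_of_isNoetherianRing_of_finite _ _
    exact Submodule.FG.of_le (Submodule.fg_span (Set.finite_singleton _)) hNle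
  have hNne : N ≠ ⊥ := by
    intro h
    have h1 : (1 : L) ∈ N := Submodule.subset_span ⟨0, pow_zero z⟩
    rw [h] at h1
    exact one_ne_zero ((Submodule.mem_bot B).mp h1)
  have hNz : ∀ y ∈ N, z • y ∈ N := by
    intro y hy
    induction hy using Submodule.span_induction with
    | mem y hy =>
      obtain ⟨m, rfl⟩ := hy
      exact Submodule.subset_span ⟨m + 1, by simp [pow_succ']⟩
    | zero => rw [smul_zero]; exact N.zero_mem
    | add y y' _ _ hy hy' => rw [smul_add]; exact N.add_mem hy hy'
    | smul r y _ hy => rw [smul_comm]; exact N.smul_mem r hy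
  have hzint : IsIntegral B z := isIntegral_of_smul_mem_submodule N hNne hNfg z hNz
  obtain ⟨e, he⟩ := IsIntegrallyClosed.isIntegral_iff.mp hzint
  have hbe : b = s • e := by
    apply IsFractionRing.injective B L
    rw [Algebra.smul_def, map_mul, he]
    change algebraMap B L b = sL * (algebraMap B L b / sL)
    rw [mul_div_cancel₀ _ hsL]
  refine ⟨e, ?_⟩
  ext φ
  rw [hev, ← sub_eq_zero]
  apply eq_zero_of_kill _ hker hs
  · intro r hr
    have h1 : r • φ = 0 := by
      ext y
      rw [LinearMap.smul_apply, ← map_smul, Algebra.smul_def,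
        show algebraMap R B r = 0 from hr, zero_mul, map_zero]
      rfl
    have h2 : r • e = 0 := by
      rw [Algebra.smul_def, show algebraMap R B r = 0 from hr, zero_mul]
    rw [mul_sub, ← smul_eq_mul, ← smul_eq_mul, ← map_smul, ← map_smul, h1, h2, map_zero, map_zero,
      sub_zero]
  · have h1 := LinearMap.congr_fun hb φ
    rw [LinearMap.smul_apply, hev, hbe, map_smul, smul_eq_mul, smul_eq_mul] at h1
    rw [mul_sub, h1, sub_self]

end MP72c78a
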