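import Pool.Agent.Lib.MP_72c78a_ag.Cover
import Pool.Agent.Lib.MP_72c78a_ag.Reflexive
import Pool.Agent.Lib.MP_72c78a_ag.GdimTwo

/-!
# Q1 for rings one of whose branches is finitely covered by a smooth germ

`R` is a reduced Noetherian local algebra over a field `k` of characteristic zero (no finiteness
condition over `k`, so complete rings are included), `p` is a minimal prime of `R`, and `B` is a
normal local domain, finite over `R` with kernel `p`, which has coordinates: elements `x i`
generating the maximal ideal and `k`-derivations `δ i` with `δ i (x j) = 1` or `0` according to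
`i = j` or not. If `Der_k(R)` is totally reflexive, or if the depth of `R` is at most two and
`Der_k(R)` has finite G-dimension, then `R` is Gorenstein.
-/

universe u v

open MP72c78a

theorem Pool.Agent.Lib.MP_72c78a_ag.SmoothBranchCover.result
    {k : Type v} {R B : Type u} [Field k] [CharZero k] [CommRing R] [Algebra k R]
    [IsNoetherianRing R] [IsLocalRing R] [IsReduced R]
    [CommRing B] [IsDomain B] [IsIntegrallyClosed B] [IsLocalRing B]
    [Algebra R B] [Algebra k B] [IsScalarTower k R B] [Module.Finite R B]
    (hker : RingHom.ker (algebraMap R B) ∈ minimalPrimes R)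
    {n : ℕ} (x : Fin n → B) (hx : Ideal.span (Set.range x) = IsLocalRing.maximalIdeal B)
    (δ : Fin n → Derivation k B B) (hδ : ∀ i j, δ i (x j) = if i = j then 1 else 0)
    (h : TotallyReflexive R (Derivation k R R) ∨
      (DepthLE R 2 ∧ FiniteGdim R (Derivation k R R))) :
    IsGorensteinLocal R := by
  have h' : TotallyReflexive R (Derivation k R R) := by
    rcases h with h | ⟨h1, h2⟩
    · exact h
    · exact der_totallyReflexive h1 h2
  exact gorenstein_of_cover (bijective_eval_of_normal hker) x hx δ hδ h'
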