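import Mathlib

/-!
Extension of derivations along etale algebras, and traces of derivatives.
-/

set_option linter.style.haveILetI false

open TensorProduct

universe u v
namespace MP72c78a

/-- Derivations extend along formally etale algebras. -/
theorem exists_deriv_extend {k : Type v} {A B N : Type u} [CommRing k] [CommRing A] [CommRing B]
    [Algebra k A] [Algebra k B] [Algebra A B] [IsScalarTower k A B] [Algebra.FormallyEtale A B]
    [AddCommGroup N] [Module B N] [Module A N] [Module k N] [IsScalarTower A B N]
    [IsScalarTower k A N] [IsScalarTower k B N] (δ : Derivation k A N) :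
    ∃ D : Derivation k B N, ∀ a, D (algebraMap A B a) = δ a := by
  let e := KaehlerDifferential.tensorKaehlerEquivOfFormallyEtale k A B
  let f : B ⊗[A] (Ω[A⁄k]) →ₗ[B] N := LinearMap.liftBaseChange B δ.liftKaehlerDifferential
  let g : Ω[B⁄k] →ₗ[B] N := f ∘ₗ e.symm.toLinearMap
  refine ⟨g.compDer (KaehlerDifferential.D k B), fun a => ?_⟩
  change f (e.symm (KaehlerDifferential.D k B (algebraMap A B a))) = δ a
  rw [KaehlerDifferential.tensorKaehlerEquivOfFormallyEtale_symm_D_algebraMap]
  simp [f]

/-- Two derivations which agree on `A` agree on a formally unramified `A`-algebra. -/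
theorem deriv_ext {k : Type v} {A B N : Type u} [CommRing k] [CommRing A] [CommRing B]
    [Algebra k A] [Algebra k B] [Algebra A B] [IsScalarTower k A B]
    [Algebra.FormallyUnramified A B]
    [AddCommGroup N] [Module B N] [Module k N] [IsScalarTower k B N] (D D' : Derivation k B N)
    (h : ∀ a, D (algebraMap A B a) = D' (algebraMap A B a)) : D = D' := by
  rw [← sub_eq_zero]
  set D₀ := D - D' with hD₀
  have h0 : ∀ a, D₀ (algebraMap A B a) = 0 := fun a => by
    rw [hD₀, Derivation.sub_apply, h, sub_self]
  letI : Module A N := Module.compHom N (algebraMap A B)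
  haveI : IsScalarTower A B N := IsScalarTower.of_algebraMap_smul (fun _ _ => rfl)
  let D₁ : Derivation A B N := Derivation.mk'
    { toFun := D₀
      map_add' := map_add D₀
      map_smul' := fun a b => by
        rw [RingHom.id_apply, Algebra.smul_def, Derivation.leibniz, h0, smul_zero, add_zero,
          algebraMap_smul] } (fun a b => D₀.leibniz a b)
  have h1 : D₁ = 0 := by
    have hsub : Subsingleton (Ω[B⁄A]) := inferInstance
    have h2 : D₁.liftKaehlerDifferential = 0 := by
      apply LinearMap.ext
      intro x
      have hx : x = 0 := hsub.elim _ _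
      rw [hx, map_zero, map_zero]
    rw [← Derivation.liftKaehlerDifferential_comp D₁, h2]
    ext; rfl
  ext b
  exact Derivation.congr_fun h1 b

/-- Traces of derivatives. -/
theorem trace_deriv {k F L : Type*} [CommRing k] [Field F] [Field L] [Algebra k F] [Algebra k L]
    [Algebra F L] [FiniteDimensional F L] (dF : Derivation k F F) (dL : Derivation k L L)
    (h : ∀ a, dL (algebraMap F L a) = algebraMap F L (dF a)) (z : L) :
    Algebra.trace F L (dL z) = dF (Algebra.trace F L z) := by
  classical
  let b := Module.Free.chooseBasis F L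
  haveI : Fintype (Module.Free.ChooseBasisIndex F L) := inferInstance
  let A := Algebra.leftMulMatrix b z
  let A' := Algebra.leftMulMatrix b (dL z)
  let Γ : Matrix (Module.Free.ChooseBasisIndex F L) (Module.Free.ChooseBasisIndex F L) F :=
    Matrix.of fun i j => b.repr (dL (b j)) i
  have hA : ∀ (w : L) j, w * b j = ∑ i, Algebra.leftMulMatrix b w i j • b i := by
    intro w j
    conv_lhs => rw [← b.sum_repr (w * b j)]
    refine Finset.sum_congr rfl (fun i _ => ?_)
    rw [Algebra.leftMulMatrix_eq_repr_mul]
  have hΓ : ∀ j, dL (b j) = ∑ i, Γ i j • b i := by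
    intro j
    exact (b.sum_repr (dL (b j))).symm
  have key : A' = A.map dF + Γ * A - A * Γ := by
    ext m j
    have h1 : dL (z * b j) = dL z * b j + z * dL (b j) := by
      rw [Derivation.leibniz, smul_eq_mul, smul_eq_mul]; ring
    have h2 : dL (z * b j) = ∑ i, (dF (A i j)) • b i + ∑ i, (Γ * A) i j • b i := by
      rw [hA z j, map_sum, ← Finset.sum_add_distrib]
      have h3 : ∀ i, dL (A i j • b i) = dF (A i j) • b i + ∑ l, (Γ l i * A i j) • b l := by
        intro i
        rw [Algebra.smul_def, Derivation.leibniz, h, hΓ, smul_eq_mul, smul_eq_mul,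
          Algebra.smul_def (dF (A i j)), add_comm, mul_comm (b i)]
        congr 1
        rw [Finset.mul_sum]
        refine Finset.sum_congr rfl (fun l _ => ?_)
        rw [mul_comm (Γ l i), mul_smul, Algebra.smul_def (A i j)]
      rw [Finset.sum_congr rfl (fun i _ => h3 i), Finset.sum_add_distrib,
        Finset.sum_add_distrib, Finset.sum_comm]
      congr 1
      refine Finset.sum_congr rfl (fun l _ => ?_)
      rw [Matrix.mul_apply, Finset.sum_smul]
    have h4 : z * dL (b j) = ∑ i, (A * Γ) i j • b i := by
      rw [hΓ j, Finset.mul_sum]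
      have h5 : ∀ i, z * Γ i j • b i = ∑ l, (A l i * Γ i j) • b l := by
        intro i
        rw [mul_smul_comm, hA z i, Finset.smul_sum]
        refine Finset.sum_congr rfl (fun l _ => ?_)
        rw [smul_smul, mul_comm]
      rw [Finset.sum_congr rfl (fun i _ => h5 i), Finset.sum_comm]
      refine Finset.sum_congr rfl (fun l _ => ?_)
      rw [Matrix.mul_apply, Finset.sum_smul]
    have h6 : ∑ i, A' i j • b i + ∑ i, (A * Γ) i j • b i =
        ∑ i, (dF (A i j)) • b i + ∑ i, (Γ * A) i j • b i := by
      rw [← h2, h1, h4, ← hA (dL z) j]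
    have h7 := congrArg (fun y => b.repr y m) h6
    simp only [map_add, map_sum, map_smul, Module.Basis.repr_self, Finsupp.add_apply,
      Finsupp.smul_single, smul_eq_mul, mul_one, Finsupp.finsetSum_apply, Finsupp.single_apply,
      Finset.sum_ite_eq', Finset.mem_univ, if_true] at h7
    simp only [Matrix.sub_apply, Matrix.add_apply, Matrix.map_apply]
    rw [eq_sub_iff_add_eq, h7]
  rw [Algebra.trace_eq_matrix_trace b, Algebra.trace_eq_matrix_trace b]
  change Matrix.trace A' = dF (Matrix.trace A)
  rw [key, Matrix.trace_sub, Matrix.trace_add, Matrix.trace_mul_comm Γ A, add_sub_cancel_right]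
  simp [Matrix.trace]

end MP72c78a
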