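import Pool.Agent.Lib.MP_72c78a_ag.SurfA
import Pool.Agent.Lib.MP_72c78a_ag.Step

/-!
Local analysis at a height one prime of a normal surface.
-/

set_option linter.style.haveILetI false
set_option linter.unusedSectionVars false
set_option linter.unusedVariables false

universe u v
namespace MP72c78a

section Loc

variable {R L : Type u} [CommRing R] [IsDomain R] [Field L] [Algebra R L] [IsFractionRing R L]

/-- `z` lies in the localisation of `R` at `P`. -/
def InLoc (P : Ideal R) (z : L) : Prop :=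
  ∃ s, s ∉ P ∧ ∃ r, algebraMap R L s * z = algebraMap R L r

theorem inLoc_algebraMap {P : Ideal R} (hP : P.IsPrime) (r : R) :
    InLoc P (algebraMap R L r) :=
  ⟨1, hP.one_notMem, r, by rw [map_one, one_mul]⟩

theorem InLoc.add {P : Ideal R} (hP : P.IsPrime) {y z : L} (hy : InLoc P y) (hz : InLoc P z) :
    InLoc P (y + z) := by
  obtain ⟨s, hs, r, hr⟩ := hy
  obtain ⟨s', hs', r', hr'⟩ := hz
  refine ⟨s * s', fun h => (hP.mem_or_mem h).elim hs hs', s' * r + s * r', ?_⟩
  rw [map_mul, map_add, map_mul, map_mul, ← hr, ← hr']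
  ring

theorem InLoc.mul {P : Ideal R} (hP : P.IsPrime) {y z : L} (hy : InLoc P y) (hz : InLoc P z) :
    InLoc P (y * z) := by
  obtain ⟨s, hs, r, hr⟩ := hy
  obtain ⟨s', hs', r', hr'⟩ := hz
  refine ⟨s * s', fun h => (hP.mem_or_mem h).elim hs hs', r * r', ?_⟩
  rw [map_mul, map_mul, ← hr, ← hr']
  ring

theorem InLoc.neg {P : Ideal R} {y : L} (hy : InLoc P y) : InLoc P (-y) := by
  obtain ⟨s, hs, r, hr⟩ := hy
  exact ⟨s, hs, -r, by rw [map_neg, ← hr]; ring⟩

theorem InLoc.sub {P : Ideal R} (hP : P.IsPrime) {y z : L} (hy : InLoc P y) (hz : InLoc P z) :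
    InLoc P (y - z) := by
  rw [sub_eq_add_neg]
  exact hy.add hP hz.neg

theorem InLoc.pow {P : Ideal R} (hP : P.IsPrime) {y : L} (hy : InLoc P y) (n : ℕ) :
    InLoc P (y ^ n) := by
  induction n with
  | zero => rw [pow_zero, ← map_one (algebraMap R L)]; exact inLoc_algebraMap hP 1
  | succ n ih => rw [pow_succ]; exact ih.mul hP hy

/-- inverses of elements outside `P`. -/
theorem inLoc_inv {P : Ideal R} (hP : P.IsPrime) {s : R} (hs : s ∉ P) :
    InLoc P (algebraMap R L s)⁻¹ := by
  refine ⟨s, hs, 1, ?_⟩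
  have : algebraMap R L s ≠ 0 := by
    intro h
    rw [map_eq_zero_iff _ (IsFractionRing.injective R L)] at h
    exact hs (h ▸ P.zero_mem)
  rw [mul_inv_cancel₀ this, map_one]

/-- A good uniformiser. -/
theorem exists_irreducible_uniformizer (P : Ideal R) [P.IsPrime]
    [IsDiscreteValuationRing (Localization.AtPrime P)] :
    ∃ ρ ∈ P, ρ ≠ 0 ∧ Irreducible (algebraMap R (Localization.AtPrime P) ρ) := by
  let Rp := Localization.AtPrime P
  obtain ⟨ϖ, hϖ⟩ := IsDiscreteValuationRing.exists_irreducible Rp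
  obtain ⟨⟨π, t⟩, hπ⟩ := IsLocalization.surj P.primeCompl ϖ
  have hunit : IsUnit (algebraMap R Rp t) := IsLocalization.map_units Rp t
  have hirr : Irreducible (algebraMap R Rp π) := by
    rw [← hπ]
    exact (irreducible_mul_isUnit hunit).mpr hϖ
  refine ⟨π, ?_, ?_, hirr⟩
  · rw [← IsLocalization.AtPrime.to_map_mem_maximal_iff Rp P π]
    exact hirr.not_isUnit
  · rintro rfl
    rw [map_zero] at hirr
    exact hirr.ne_zero rfl

/-- decomposition of elements of `R`. -/
theorem exists_decomp (P : Ideal R) [P.IsPrime]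
    [IsDiscreteValuationRing (Localization.AtPrime P)] {ρ : R}
    (hρ : Irreducible (algebraMap R (Localization.AtPrime P) ρ)) {a : R} (ha : a ≠ 0) :
    ∃ (n : ℕ) (s r : R), s ∉ P ∧ r ∉ P ∧ s * a = r * ρ ^ n := by
  let Rp := Localization.AtPrime P
  have hinj : Function.Injective (algebraMap R Rp) :=
    IsLocalization.injective Rp P.primeCompl_le_nonZeroDivisors
  have ha' : algebraMap R Rp a ≠ 0 := fun h => ha (hinj (by rw [h, map_zero]))
  obtain ⟨n, u, hu⟩ := IsDiscreteValuationRing.eq_unit_mul_pow_irreducible ha' hρ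
  obtain ⟨⟨r, s⟩, hrs⟩ := IsLocalization.surj P.primeCompl (u : Rp)
  refine ⟨n, s, r, s.2, ?_, ?_⟩
  · have h1 : IsUnit (algebraMap R Rp r) := by
      rw [← hrs]
      exact u.isUnit.mul (IsLocalization.map_units Rp s)
    intro hr
    rw [← IsLocalization.AtPrime.to_map_mem_maximal_iff Rp P r] at hr
    exact hr h1
  · apply hinj
    rw [map_mul, map_mul, map_pow, hu]
    simp only at hrs
    rw [← hrs]
    ring

/-- An element of minimal valuation. -/
theorem exists_min (P : Ideal R) [P.IsPrime]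
    [IsDiscreteValuationRing (Localization.AtPrime P)] (T : Set R) (hT : ∃ t ∈ T, t ≠ 0) :
    ∃ t ∈ T, t ≠ 0 ∧ ∀ t' ∈ T, InLoc P (algebraMap R L t' / algebraMap R L t) := by
  classical
  obtain ⟨ρ, hρP, hρ0, hρ⟩ := exists_irreducible_uniformizer P
  let p : ℕ → Prop := fun n => ∃ t ∈ T, t ≠ 0 ∧ ∃ s r : R, s ∉ P ∧ r ∉ P ∧ s * t = r * ρ ^ n
  have hp : ∃ n, p n := by
    obtain ⟨t, ht, ht0⟩ := hT
    obtain ⟨n, s, r, hs, hr, h⟩ := exists_decomp P hρ ht0
    exact ⟨n, t, ht, ht0, s, r, hs, hr, h⟩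
  obtain ⟨t, ht, ht0, s, r, hs, hr, h⟩ := Nat.find_spec hp
  have hP : P.IsPrime := inferInstance
  have hinj := IsFractionRing.injective R L
  have h0 : ∀ a : R, a ≠ 0 → algebraMap R L a ≠ 0 := fun a ha h => ha (hinj (by rw [h, map_zero]))
  refine ⟨t, ht, ht0, fun t' ht' => ?_⟩
  by_cases ht'0 : t' = 0
  · rw [ht'0, map_zero, zero_div, ← map_zero (algebraMap R L)]
    exact inLoc_algebraMap hP 0
  obtain ⟨n', s', r', hs', hr', h'⟩ := exists_decomp P hρ ht'0
  have hle : Nat.find hp ≤ n' := Nat.find_min' hp ⟨t', ht', ht'0, s', r', hs', hr', h'⟩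
  obtain ⟨m, hm⟩ := Nat.exists_eq_add_of_le hle
  have hs0 : s ≠ 0 := fun e => hs (e ▸ P.zero_mem)
  have hs'0 : s' ≠ 0 := fun e => hs' (e ▸ P.zero_mem)
  have hr0 : r ≠ 0 := fun e => hr (e ▸ P.zero_mem)
  have e1 := congrArg (algebraMap R L) h
  have e2 := congrArg (algebraMap R L) h'
  rw [hm, pow_add] at e2
  simp only [map_mul, map_pow] at e1 e2
  have e3 : algebraMap R L t' / algebraMap R L t =
      algebraMap R L (s * r' * ρ ^ m) * (algebraMap R L s')⁻¹ * (algebraMap R L r)⁻¹ := by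
    have hρ' : algebraMap R L ρ ≠ 0 := h0 _ hρ0
    have a1 := h0 _ hs0
    have a2 := h0 _ hs'0
    have a3 := h0 _ hr0
    have a4 := h0 _ ht0
    have a5 : (algebraMap R L ρ) ^ Nat.find hp ≠ 0 := pow_ne_zero _ hρ'
    rw [map_mul, map_mul, map_pow]
    rw [div_eq_iff a4]
    field_simp
    apply mul_left_cancel₀ a5
    linear_combination (algebraMap R L r * (algebraMap R L ρ) ^ Nat.find hp) * e2 -
      (algebraMap R L r' * algebraMap R L ρ ^ m * (algebraMap R L ρ) ^ Nat.find hp) * e1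
  rw [e3]
  exact ((inLoc_algebraMap hP _).mul hP (inLoc_inv hP hs')).mul hP (inLoc_inv hP hr)

/-- A good uniformiser, together with a common denominator. -/
theorem exists_uniformizer' [IsNoetherianRing R] (P : Ideal R) [P.IsPrime]
    [IsDiscreteValuationRing (Localization.AtPrime P)] :
    ∃ ρ ∈ P, ρ ≠ 0 ∧ Irreducible (algebraMap R (Localization.AtPrime P) ρ) ∧
      ∃ s, s ∉ P ∧ ∀ z ∈ P, ∃ w, s * z = ρ * w := by
  obtain ⟨ρ, hρP, hρ0, s, hs, h⟩ := exists_uniformizer P
  refine ⟨ρ, hρP, hρ0, ?_, s, hs, h⟩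
  let Rp := Localization.AtPrime P
  have hinj : Function.Injective (algebraMap R Rp) :=
    IsLocalization.injective Rp P.primeCompl_le_nonZeroDivisors
  rw [IsDiscreteValuationRing.irreducible_iff_uniformizer]
  apply le_antisymm
  · rw [← Localization.AtPrime.map_eq_maximalIdeal, Ideal.map_le_iff_le_comap]
    intro z hz
    obtain ⟨w, hw⟩ := h z hz
    rw [Ideal.mem_comap, Ideal.mem_span_singleton]
    have hu : IsUnit (algebraMap R Rp s) :=
      IsLocalization.map_units Rp (⟨s, hs⟩ : P.primeCompl)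
    rw [← hu.dvd_mul_left, ← map_mul, hw, map_mul]
    exact Dvd.intro _ rfl
  · rw [Ideal.span_singleton_le_iff_mem]
    exact (IsLocalization.AtPrime.to_map_mem_maximal_iff Rp P ρ).mpr hρP

end Loc

section Der

variable {k : Type v} {R L : Type u} [Field k] [CharZero k] [CommRing R] [IsDomain R]
  [Algebra k R] [Field L] [Algebra R L] [IsFractionRing R L] [Algebra k L] [IsScalarTower k R L]

theorem exists_dExt (D : Derivation k R R) :
    ∃ D' : Derivation k L L, ∀ r, D' (algebraMap R L r) = algebraMap R L (D r) := by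
  haveI : Algebra.FormallyEtale R L := Algebra.FormallyEtale.of_isLocalization (nonZeroDivisors R)
  obtain ⟨D', hD'⟩ := exists_deriv_extend (A := R) (B := L) (N := L)
    ((Algebra.linearMap R L).compDer D)
  exact ⟨D', fun r => hD' r⟩

variable (L) in
/-- The extension of a derivation of `R` to its fraction field. -/
noncomputable def dExt (D : Derivation k R R) : Derivation k L L :=
  Classical.choose (exists_dExt (L := L) D)

@[simp] theorem dExt_algebraMap (D : Derivation k R R) (r : R) :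
    dExt L D (algebraMap R L r) = algebraMap R L (D r) :=
  Classical.choose_spec (exists_dExt (L := L) D) r

theorem InLoc.dExt {P : Ideal R} (hP : P.IsPrime) {z : L} (hz : InLoc P z)
    (D : Derivation k R R) : InLoc P (dExt L D z) := by
  obtain ⟨s, hs, r, hr⟩ := hz
  refine ⟨s * s, fun h => (hP.mem_or_mem h).elim hs hs, s * D r - D s * r, ?_⟩
  have h1 := congrArg (MP72c78a.dExt L D) hr
  rw [Derivation.leibniz, dExt_algebraMap, dExt_algebraMap, smul_eq_mul, smul_eq_mul] at h1
  rw [map_mul, map_sub, map_mul, map_mul, ← hr]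
  linear_combination (algebraMap R L s) * h1

/-- The determinant of two derivations. -/
def det2 (x : Fin 2 → R) (D D' : Derivation k R R) : R :=
  D (x 0) * D' (x 1) - D (x 1) * D' (x 0)

/-- Division of a derivation. -/
theorem exists_div_deriv (D : Derivation k R R) (a b : R) (hb : b ≠ 0)
    (h : ∀ r, ∃ w, a * D r = b * w) :
    ∃ D' : Derivation k R R, ∀ r, b * D' r = a * D r := by
  choose w hw using h
  refine ⟨Derivation.mk' { toFun := w, map_add' := ?_, map_smul' := ?_ } ?_, fun r => (hw r).symm⟩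
  · intro r r'
    apply mul_left_cancel₀ hb
    rw [← hw, map_add, mul_add, mul_add, hw, hw]
  · intro c r
    apply mul_left_cancel₀ hb
    rw [← hw, Derivation.map_smul, RingHom.id_apply, mul_smul_comm, mul_smul_comm, hw]
  · intro r r'
    apply mul_left_cancel₀ hb
    change b * w (r * r') = b * (r • w r' + r' • w r)
    rw [← hw, Derivation.leibniz, smul_eq_mul, smul_eq_mul, smul_eq_mul, smul_eq_mul]
    linear_combination r * hw r' + r' * hw r

/-- In characteristic zero a height one prime is moved by some derivation. -/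
theorem exists_apply_notMem [IsNoetherianRing R] (P : Ideal R) [P.IsPrime]
    {ρ : R} (hρP : ρ ∈ P) (hρ0 : ρ ≠ 0) {s : R} (hs : s ∉ P) (hsP : ∀ z ∈ P, ∃ w, s * z = ρ * w)
    (x : Fin 2 → R) (D1 D2 : Derivation k R R) (h0 : det2 x D1 D2 ≠ 0)
    (hmin : ∀ D D' : Derivation k R R,
      InLoc P (algebraMap R L (det2 x D D') / algebraMap R L (det2 x D1 D2)))
    (H3 : ∀ D : Derivation k R R, (∀ p ∈ P, D p ∈ P) → D (x 0) ∈ P → D (x 1) ∈ P → ∀ r, D r ∈ P)
    (H4 : ∃ e : Fin 2 → R, (e 0 ∉ P ∨ e 1 ∉ P) ∧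
      ∀ D : Derivation k R R, (∀ p ∈ P, D p ∈ P) → e 0 * D (x 0) + e 1 * D (x 1) ∈ P) :
    ∃ D : Derivation k R R, D ρ ∉ P := by
  by_contra hcon
  push Not at hcon
  have hP : P.IsPrime := inferInstance
  have hinj := IsFractionRing.injective R L
  have hstab : ∀ D : Derivation k R R, ∀ p ∈ P, D p ∈ P := by
    intro D z hz
    obtain ⟨w, hw⟩ := hsP z hz
    have h1 := congrArg D hw
    rw [Derivation.leibniz, Derivation.leibniz] at h1
    simp only [smul_eq_mul] at h1
    have h2 : s * D z ∈ P := by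
      have : s * D z = ρ * D w + w * D ρ - z * D s := by rw [← h1]; ring
      rw [this]
      exact P.sub_mem (P.add_mem (P.mul_mem_right _ hρP) (P.mul_mem_left _ (hcon D)))
        (P.mul_mem_right _ hz)
    exact (hP.mem_or_mem h2).resolve_left hs
  -- no derivation with values in `P` divides the determinant
  have key : ∀ (D D' : Derivation k R R) (a : R), (∀ r, D r ∈ P) → a ∉ P →
      det2 x D D' = a * det2 x D1 D2 → False := by
    intro D D' a hD ha hdet
    obtain ⟨D'', hD''⟩ := exists_div_deriv D s ρ hρ0 (fun r => hsP _ (hD r))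
    have h1 : ρ * det2 x D'' D' = s * a * det2 x D1 D2 := by
      rw [mul_assoc, ← hdet]
      unfold det2
      linear_combination D' (x 1) * hD'' (x 0) - D' (x 0) * hD'' (x 1)
    obtain ⟨t, ht, r, hr⟩ := hmin D'' D'
    have hd : algebraMap R L (det2 x D1 D2) ≠ 0 := fun e => h0 (hinj (by rw [e, map_zero]))
    rw [mul_div_assoc', div_eq_iff hd, ← map_mul, ← map_mul] at hr
    have h2 := hinj hr
    have h3 : t * (s * a) = ρ * r := by
      apply mul_right_cancel₀ h0
      linear_combination ρ * h2 - t * h1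
    have h4 : t * (s * a) ∈ P := h3 ▸ P.mul_mem_right _ hρP
    rcases hP.mem_or_mem h4 with h | h
    · exact ht h
    · rcases hP.mem_or_mem h with h | h
      · exact hs h
      · exact ha h
  obtain ⟨e, he, heD⟩ := H4
  have heD' : ∀ D : Derivation k R R, e 0 * D (x 0) + e 1 * D (x 1) ∈ P := fun D => heD D (hstab D)
  rcases he with he | he
  · -- kill `x 1`
    let D : Derivation k R R := D2 (x 1) • D1 - D1 (x 1) • D2
    have hD : ∀ r, D r = D2 (x 1) * D1 r - D1 (x 1) * D2 r := fun r => rfl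
    have hDx1 : D (x 1) = 0 := by rw [hD]; ring
    have hDx0 : D (x 0) ∈ P := by
      have h1 := heD' D
      rw [hDx1, mul_zero, add_zero] at h1
      exact (hP.mem_or_mem h1).resolve_left he
    have hDP : ∀ r, D r ∈ P := H3 D (hstab D) hDx0 (by rw [hDx1]; exact P.zero_mem)
    by_cases c1 : D2 (x 1) ∈ P
    · by_cases c2 : D1 (x 1) ∈ P
      · have h1 : D1 (x 0) ∈ P := by
          have h2 := heD' D1
          have h3 : e 0 * D1 (x 0) ∈ P := by
            have : e 0 * D1 (x 0) = (e 0 * D1 (x 0) + e 1 * D1 (x 1)) - e 1 * D1 (x 1) := by ring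
            rw [this]
            exact P.sub_mem h2 (P.mul_mem_left _ c2)
          exact (hP.mem_or_mem h3).resolve_left he
        exact key D1 D2 1 (H3 D1 (hstab D1) h1 c2) hP.one_notMem (by rw [one_mul])
      · refine key D D1 (D1 (x 1)) hDP c2 ?_
        unfold det2
        rw [hD, hD]
        ring
    · refine key D D2 (D2 (x 1)) hDP c1 ?_
      unfold det2
      rw [hD, hD]
      ring
  · let D : Derivation k R R := D2 (x 0) • D1 - D1 (x 0) • D2
    have hD : ∀ r, D r = D2 (x 0) * D1 r - D1 (x 0) * D2 r := fun r => rfl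
    have hDx0 : D (x 0) = 0 := by rw [hD]; ring
    have hDx1 : D (x 1) ∈ P := by
      have h1 := heD' D
      rw [hDx0, mul_zero, zero_add] at h1
      exact (hP.mem_or_mem h1).resolve_left he
    have hDP : ∀ r, D r ∈ P := H3 D (hstab D) (by rw [hDx0]; exact P.zero_mem) hDx1
    by_cases c1 : D2 (x 0) ∈ P
    · by_cases c2 : D1 (x 0) ∈ P
      · have h1 : D1 (x 1) ∈ P := by
          have h2 := heD' D1
          have h3 : e 1 * D1 (x 1) ∈ P := by
            have : e 1 * D1 (x 1) = (e 0 * D1 (x 0) + e 1 * D1 (x 1)) - e 0 * D1 (x 0) := by ring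
            rw [this]
            exact P.sub_mem h2 (P.mul_mem_left _ c2)
          exact (hP.mem_or_mem h3).resolve_left he
        exact key D1 D2 1 (H3 D1 (hstab D1) c2 h1) hP.one_notMem (by rw [one_mul])
      · refine key D D1 (D1 (x 0)) hDP c2 ?_
        unfold det2
        rw [hD, hD]
        ring
    · refine key D D2 (D2 (x 0)) hDP c1 ?_
      unfold det2
      rw [hD, hD]
      ring

theorem natCast_sub_notMem (k : Type v) {R : Type u} [Field k] [CharZero k] [CommRing R]
    [Algebra k R] {P : Ideal R} (hP : P.IsPrime) {m n : ℕ} (h : (m : R) - n ∈ P) :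
    m = n := by
  by_contra hne
  have hz : ((m : k) - n) ≠ 0 := by
    intro e
    apply hne
    exact_mod_cast sub_eq_zero.mp e
  have h1 : algebraMap k R ((m : k) - n) ∈ P := by
    rw [map_sub, map_natCast, map_natCast]; exact h
  exact hP.ne_top (Ideal.eq_top_of_isUnit_mem P h1 ((IsUnit.mk0 _ hz).map (algebraMap k R)))

/-- An element whose logarithmic derivatives are integral at `P` is a unit at `P`. -/
theorem unit_of_dlog [IsNoetherianRing R] (P : Ideal R) [P.IsPrime]
    [IsDiscreteValuationRing (Localization.AtPrime P)] {ρ : R} (hρP : ρ ∈ P) (hρ0 : ρ ≠ 0)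
    (hρ : Irreducible (algebraMap R (Localization.AtPrime P) ρ))
    (D : Derivation k R R) (hD : D ρ ∉ P) (g : L) (hg : g ≠ 0)
    (hdlog : InLoc P (dExt L D g / g)) : InLoc P g ∧ InLoc P g⁻¹ := by
  have hP : P.IsPrime := inferInstance
  have hinj := IsFractionRing.injective R L
  have h0 : ∀ a : R, a ≠ 0 → algebraMap R L a ≠ 0 := fun a ha h => ha (hinj (by rw [h, map_zero]))
  obtain ⟨a, b, hb, hab⟩ := IsFractionRing.div_surjective (A := R) g
  have hb0 : b ≠ 0 := nonZeroDivisors.ne_zero hb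
  have ha0 : a ≠ 0 := by
    rintro rfl
    rw [map_zero, zero_div] at hab
    exact hg hab.symm
  obtain ⟨m, s, r, hs, hr, e1⟩ := exists_decomp P hρ ha0
  obtain ⟨n, s', r', hs', hr', e2⟩ := exists_decomp P hρ hb0
  have hs0 := h0 s (fun e => hs (e ▸ P.zero_mem))
  have hr0 := h0 r (fun e => hr (e ▸ P.zero_mem))
  have hs'0 := h0 s' (fun e => hs' (e ▸ P.zero_mem))
  have hr'0 := h0 r' (fun e => hr' (e ▸ P.zero_mem))
  have hρL := h0 ρ hρ0
  have haL := h0 a ha0
  have hbL := h0 b hb0
  set ρL := algebraMap R L ρ with hρLdef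
  let u : L := algebraMap R L r * (algebraMap R L s)⁻¹ * (algebraMap R L s' * (algebraMap R L r')⁻¹)
  have hu : InLoc P u :=
    ((inLoc_algebraMap hP r).mul hP (inLoc_inv hP hs)).mul hP
      ((inLoc_algebraMap hP s').mul hP (inLoc_inv hP hr'))
  have hu' : InLoc P u⁻¹ := by
    have : u⁻¹ = algebraMap R L s * (algebraMap R L r)⁻¹ *
        (algebraMap R L r' * (algebraMap R L s')⁻¹) := by
      simp only [u]
      field_simp
    rw [this]
    exact ((inLoc_algebraMap hP s).mul hP (inLoc_inv hP hr)).mul hP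
      ((inLoc_algebraMap hP r').mul hP (inLoc_inv hP hs'))
  have hu0 : u ≠ 0 := by
    simp only [u]
    exact mul_ne_zero (mul_ne_zero hr0 (inv_ne_zero hs0)) (mul_ne_zero hs'0 (inv_ne_zero hr'0))
  have e1' := congrArg (algebraMap R L) e1
  have e2' := congrArg (algebraMap R L) e2
  simp only [map_mul, map_pow] at e1' e2'
  have hgu : g * ρL ^ n = u * ρL ^ m := by
    rw [← hab]
    have hA : algebraMap R L a = algebraMap R L r * (algebraMap R L s)⁻¹ * ρL ^ m := by
      field_simp
      linear_combination e1'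
    have hB : ρL ^ n = algebraMap R L b * (algebraMap R L s' * (algebraMap R L r')⁻¹) := by
      field_simp
      linear_combination -e2'
    rw [hA, hB]
    simp only [u]
    field_simp
  -- logarithmic derivative
  set DL := dExt L D with hDL
  have hd1 := congrArg DL hgu
  rw [Derivation.leibniz, Derivation.leibniz, Derivation.leibniz_pow, Derivation.leibniz_pow,
    hρLdef, dExt_algebraMap, ← hρLdef] at hd1
  simp only [smul_eq_mul, nsmul_eq_mul] at hd1
  have hkey : InLoc P (((m : L) - n) * (algebraMap R L (D ρ) / ρL)) := by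
    have h1 : ((m : L) - n) * (algebraMap R L (D ρ) / ρL) = DL g / g - DL u * u⁻¹ := by
      have hpm : ∀ j : ℕ, (j : L) * ρL ^ (j - 1) * ρL = (j : L) * ρL ^ j := by
        intro j
        cases j with
        | zero => simp
        | succ j => rw [Nat.add_sub_cancel, pow_succ]; ring
      have hρn : ρL ^ n ≠ 0 := pow_ne_zero _ hρL
      have hρm : ρL ^ m ≠ 0 := pow_ne_zero _ hρL
      field_simp
      apply mul_left_cancel₀ hρn
      linear_combination (-ρL * u) * hd1 + (ρL * DL u + (m : L) * algebraMap R L (D ρ) * u) * hgu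
        + (g * u * algebraMap R L (D ρ)) * hpm n - (u ^ 2 * algebraMap R L (D ρ)) * hpm m
    rw [h1]
    exact hdlog.sub hP ((hu.dExt hP D).mul hP hu')
  obtain ⟨t, ht, w, hw⟩ := hkey
  have hmn : m = n := by
    apply natCast_sub_notMem k hP
    have h1 : t * (((m : R) - n) * D ρ) = ρ * w := by
      apply hinj
      rw [map_mul, map_mul, map_mul, map_sub, map_natCast, map_natCast, ← hw, ← hρLdef]
      field_simp
    have h2 : t * (((m : R) - n) * D ρ) ∈ P := h1 ▸ P.mul_mem_right _ hρP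
    rcases hP.mem_or_mem h2 with h | h
    · exact absurd h ht
    · exact (hP.mem_or_mem h).resolve_right hD
  have hgu' : g = u := by
    rw [hmn] at hgu
    exact mul_right_cancel₀ (pow_ne_zero _ hρL) hgu
  rw [hgu']
  exact ⟨hu, hu'⟩

/-- The local structure of the codifferent at a height one prime. -/
theorem local_main [IsNoetherianRing R] (P : Ideal R) [P.IsPrime]
    [IsDiscreteValuationRing (Localization.AtPrime P)] (x : Fin 2 → R)
    (hdet : ∃ D D' : Derivation k R R, det2 x D D' ≠ 0)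
    (H3 : ∀ D : Derivation k R R, (∀ p ∈ P, D p ∈ P) → D (x 0) ∈ P → D (x 1) ∈ P → ∀ r, D r ∈ P)
    (H4 : ∃ e : Fin 2 → R, (e 0 ∉ P ∨ e 1 ∉ P) ∧
      ∀ D : Derivation k R R, (∀ p ∈ P, D p ∈ P) → e 0 * D (x 0) + e 1 * D (x 1) ∈ P)
    (K : Submodule R L) (hK0 : ∃ c ∈ K, c ≠ 0)
    (hKb : ∃ t : R, t ≠ 0 ∧ ∀ c ∈ K, ∃ r, algebraMap R L t * c = algebraMap R L r)
    (dv : Derivation k R R → L)
    (hdv : ∀ D D1 D2 : Derivation k R R, algebraMap R L (D (det2 x D1 D2)) =
      algebraMap R L (det2 x ⁅D, D1⁆ D2 + det2 x D1 ⁅D, D2⁆) +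
        dv D * algebraMap R L (det2 x D1 D2))
    (hKst : ∀ (D : Derivation k R R), ∀ c ∈ K, dExt L D c + dv D * c ∈ K) :
    ∃ (D1 D2 : Derivation k R R) (h : L), det2 x D1 D2 ≠ 0 ∧ h ∈ K ∧ h ≠ 0 ∧
      (∀ D D' : Derivation k R R,
        InLoc P (algebraMap R L (det2 x D D') / algebraMap R L (det2 x D1 D2))) ∧
      (∀ c ∈ K, InLoc P (c / h)) ∧ InLoc P (h * algebraMap R L (det2 x D1 D2)) ∧
      InLoc P (h * algebraMap R L (det2 x D1 D2))⁻¹ := by
  have hP : P.IsPrime := inferInstance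
  have hinj := IsFractionRing.injective R L
  have h0 : ∀ a : R, a ≠ 0 → algebraMap R L a ≠ 0 := fun a ha h => ha (hinj (by rw [h, map_zero]))
  obtain ⟨ρ, hρP, hρ0, hρ, s, hs, hsP⟩ := exists_uniformizer' P
  -- minimal determinant
  obtain ⟨_, ⟨D1, D2, rfl⟩, hd0, hmin⟩ := exists_min (L := L) P
    {z : R | ∃ D D' : Derivation k R R, det2 x D D' = z} (by
      obtain ⟨D, D', h⟩ := hdet
      exact ⟨_, ⟨D, D', rfl⟩, h⟩)
  have hmin' : ∀ D D' : Derivation k R R,
      InLoc P (algebraMap R L (det2 x D D') / algebraMap R L (det2 x D1 D2)) :=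
    fun D D' => hmin _ ⟨D, D', rfl⟩
  -- minimal element of `K`
  obtain ⟨t, ht0, htK⟩ := hKb
  obtain ⟨r₀, ⟨h, hhK, hr₀⟩, hr₀0, hminK⟩ := exists_min (L := L) P
    {z : R | ∃ c ∈ K, algebraMap R L t * c = algebraMap R L z} (by
      obtain ⟨c, hc, hc0⟩ := hK0
      obtain ⟨r, hr⟩ := htK c hc
      refine ⟨r, ⟨c, hc, hr⟩, ?_⟩
      rintro rfl
      rw [map_zero] at hr
      exact mul_ne_zero (h0 t ht0) hc0 hr)
  have hh0 : h ≠ 0 := by
    rintro rfl
    rw [mul_zero] at hr₀
    exact h0 r₀ hr₀0 hr₀.symm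
  have htL := h0 t ht0
  have hminK' : ∀ c ∈ K, InLoc P (c / h) := by
    intro c hc
    obtain ⟨r, hr⟩ := htK c hc
    have h1 := hminK r ⟨c, hc, hr⟩
    rw [← hr, ← hr₀, mul_div_mul_left _ _ htL] at h1
    exact h1
  have hdL := h0 _ hd0
  set d := algebraMap R L (det2 x D1 D2) with hd
  obtain ⟨D, hDρ⟩ := exists_apply_notMem P hρP hρ0 hs hsP x D1 D2 hd0 hmin' H3 H4
  have hdlog : InLoc P (dExt L D (h * d) / (h * d)) := by
    have h1 : dExt L D (h * d) / (h * d) = (dExt L D h + dv D * h) / h +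
        (algebraMap R L (det2 x ⁅D, D1⁆ D2) / d + algebraMap R L (det2 x D1 ⁅D, D2⁆) / d) := by
      have h2 := hdv D D1 D2
      rw [← hd, map_add] at h2
      rw [Derivation.leibniz, hd, dExt_algebraMap, h2, ← hd]
      simp only [smul_eq_mul]
      field_simp
      ring
    rw [h1]
    exact (hminK' _ (hKst D h hhK)).add hP ((hmin' _ _).add hP (hmin' _ _))
  obtain ⟨h1, h2⟩ := unit_of_dlog P hρP hρ0 hρ D hDρ (h * d) (mul_ne_zero hh0 hdL) hdlog
  exact ⟨D1, D2, h, hd0, hhK, hh0, hmin', hminK', h1, h2⟩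

end Der

end MP72c78a
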