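import Pool.Agent.Lib.MP_72c78a_ag.SurfB
import Pool.Agent.Lib.MP_72c78a_ag.NormB
import Pool.Agent.Lib.MP_72c78a_ag.Coord
import Pool.Agent.Lib.MP_72c78a_ag.Reflexive

/-!
Colon primes and discrete valuation rings.
-/

set_option linter.style.haveILetI false
set_option linter.unusedSectionVars false
set_option linter.unusedVariables false

universe u v
namespace MP72c78a

/-- Maximal colon ideals are prime. -/
theorem exists_colon_prime {R V : Type u} [CommRing R] [IsNoetherianRing R] [AddCommGroup V]
    [Module R V] (N : Submodule R V) (z : V) (hz : z ∉ N) :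
    ∃ r : R, r • z ∉ N ∧ ∃ P : Ideal R, P.IsPrime ∧ ∀ a, a ∈ P ↔ a • (r • z) ∈ N := by
  let I : R → Ideal R := fun r => N.comap (LinearMap.toSpanSingleton R V (r • z))
  have hI : ∀ r a, a ∈ I r ↔ a • (r • z) ∈ N := fun r a => by
    simp only [I, Submodule.mem_comap, LinearMap.toSpanSingleton_apply]
  obtain ⟨P, ⟨r, hr, rfl⟩, hmax⟩ := set_has_maximal_iff_noetherian.mpr
    (inferInstanceAs (IsNoetherian R R)) {P : Ideal R | ∃ r, r • z ∉ N ∧ I r = P}
    ⟨I 1, 1, by rwa [one_smul], rfl⟩
  refine ⟨r, hr, I r, ⟨?_, ?_⟩, hI r⟩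
  · intro h
    have h1 : (1 : R) ∈ I r := by rw [h]; trivial
    rw [hI, one_smul] at h1
    exact hr h1
  · intro a b hab
    by_contra hcon
    push Not at hcon
    obtain ⟨ha, hb⟩ := hcon
    rw [hI] at hb
    have hle : I r ≤ I (b * r) := by
      intro c hc
      rw [hI] at hc ⊢
      rw [mul_smul, smul_comm c b]
      exact N.smul_mem b hc
    have h1 := hmax (I (b * r)) ⟨b * r, by rwa [mul_smul], rfl⟩
    have h2 : I (b * r) ≤ I r := by
      by_contra h
      exact h1 (lt_of_le_not_ge hle h)
    apply ha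
    apply h2
    rw [hI, mul_smul, smul_smul]
    rw [hI, mul_smul] at hab
    rw [mul_smul]
    exact hab

/-- The colon primes of a normal domain are discrete valuation rings. -/
theorem isDVR_of_colon {R L : Type u} [CommRing R] [IsDomain R] [IsNoetherianRing R]
    [IsIntegrallyClosed R] [Field L] [Algebra R L] [IsFractionRing R L] (z : L)
    (hz : ∀ r, algebraMap R L r ≠ z) (P : Ideal R) [P.IsPrime]
    (hP : ∀ a, a ∈ P ↔ ∃ r, algebraMap R L a * z = algebraMap R L r) :
    IsDiscreteValuationRing (Localization.AtPrime P) := by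
  have hPp : P.IsPrime := inferInstance
  have hinj := IsFractionRing.injective R L
  -- `P ≠ ⊥`
  have hP0 : P ≠ ⊥ := by
    intro h
    obtain ⟨a, b, hb, hab⟩ := IsFractionRing.div_surjective (A := R) z
    have hb0 : algebraMap R L b ≠ 0 := fun e =>
      nonZeroDivisors.ne_zero hb (hinj (by rw [e, map_zero]))
    have h1 : b ∈ P := (hP b).mpr ⟨a, by rw [← hab, mul_div_cancel₀ _ hb0]⟩
    rw [h, Ideal.mem_bot] at h1
    exact nonZeroDivisors.ne_zero hb h1
  -- some `p₀ ∈ P` with `p₀ z = u ∉ P`
  obtain ⟨p₀, hp₀, u, hu, hpu⟩ : ∃ p₀ ∈ P, ∃ u, u ∉ P ∧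
      algebraMap R L p₀ * z = algebraMap R L u := by
    by_contra hcon
    push Not at hcon
    let N : Submodule R L := Submodule.map (Algebra.linearMap R L) P
    have hNfg : N.FG := (IsNoetherian.noetherian P).map _
    have hNne : N ≠ ⊥ := by
      obtain ⟨p, hp, hp0⟩ := Submodule.exists_mem_ne_zero_of_ne_bot hP0
      intro h
      have h1 : algebraMap R L p ∈ N := ⟨p, hp, rfl⟩
      rw [h, Submodule.mem_bot] at h1
      exact hp0 (hinj (by rw [h1, map_zero]))
    have hNz : ∀ y ∈ N, z • y ∈ N := by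
      rintro _ ⟨p, hp, rfl⟩
      obtain ⟨r, hr⟩ := (hP p).mp hp
      have hrP : r ∈ P := by
        by_contra h
        exact hcon p hp r h hr
      refine ⟨r, hrP, ?_⟩
      rw [smul_eq_mul, mul_comm]
      exact hr.symm
    have hzint : IsIntegral R z := isIntegral_of_smul_mem_submodule N hNne hNfg z hNz
    obtain ⟨e, he⟩ := IsIntegrallyClosed.isIntegral_iff.mp hzint
    exact hz e he
  let Rp := Localization.AtPrime P
  haveI : IsNoetherianRing Rp := IsLocalization.isNoetherianRing P.primeCompl Rp inferInstance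
  have hinjp : Function.Injective (algebraMap R Rp) :=
    IsLocalization.injective Rp P.primeCompl_le_nonZeroDivisors
  have hnf : ¬ IsField Rp := by
    intro hf
    rw [IsLocalRing.isField_iff_maximalIdeal_eq] at hf
    obtain ⟨x, hx, hx0⟩ := Submodule.exists_mem_ne_zero_of_ne_bot hP0
    have : algebraMap R Rp x ∈ IsLocalRing.maximalIdeal Rp :=
      (IsLocalization.AtPrime.to_map_mem_maximal_iff Rp P x).mpr hx
    rw [hf, Ideal.mem_bot, map_eq_zero_iff _ hinjp] at this
    exact hx0 this
  have htfae : IsDiscreteValuationRing Rp ↔ (IsLocalRing.maximalIdeal Rp).IsPrincipal :=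
    (IsDiscreteValuationRing.TFAE Rp hnf).out 0 4
  refine htfae.mpr ⟨algebraMap R Rp p₀, ?_⟩
  apply le_antisymm
  · rw [← Localization.AtPrime.map_eq_maximalIdeal, Ideal.map_le_iff_le_comap]
    intro p hp
    obtain ⟨r, hr⟩ := (hP p).mp hp
    have h1 : u * p = p₀ * r := by
      apply hinj
      rw [map_mul, map_mul, ← hpu, ← hr]
      ring
    rw [Ideal.mem_comap]
    change _ ∈ Ideal.span _
    rw [Ideal.mem_span_singleton]
    have huu : IsUnit (algebraMap R Rp u) :=
      IsLocalization.map_units Rp (⟨u, hu⟩ : P.primeCompl)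
    rw [← huu.dvd_mul_left, ← map_mul, h1, map_mul]
    exact Dvd.intro _ rfl
  · change Ideal.span _ ≤ _
    rw [Ideal.span_singleton_le_iff_mem]
    exact (IsLocalization.AtPrime.to_map_mem_maximal_iff Rp P p₀).mpr hp₀

/-- Nonzero primes contained in a prime with discrete valuation localisation. -/
theorem eq_of_le_of_isDVR {S : Type u} [CommRing S] [IsDomain S] (P Q : Ideal S) [P.IsPrime]
    [Q.IsPrime] [IsDiscreteValuationRing (Localization.AtPrime Q)] (hP : P ≠ ⊥) (hPQ : P ≤ Q) :
    P = Q := by
  let Sq := Localization.AtPrime Q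
  have hinjp : Function.Injective (algebraMap S Sq) :=
    IsLocalization.injective Sq Q.primeCompl_le_nonZeroDivisors
  have hdisj : Disjoint (Q.primeCompl : Set S) (P : Set S) := by
    rw [Set.disjoint_left]
    intro a ha haP
    exact ha (hPQ haP)
  have hprime : (P.map (algebraMap S Sq)).IsPrime :=
    IsLocalization.isPrime_of_isPrime_disjoint Q.primeCompl Sq P inferInstance hdisj
  have hcomap : (P.map (algebraMap S Sq)).comap (algebraMap S Sq) = P :=
    IsLocalization.comap_map_of_isPrime_disjoint Q.primeCompl Sq inferInstance hdisj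
  have hne : P.map (algebraMap S Sq) ≠ ⊥ := by
    intro h
    rw [Ideal.map_eq_bot_iff_of_injective hinjp] at h
    exact hP h
  have hmax : P.map (algebraMap S Sq) = IsLocalRing.maximalIdeal Sq :=
    IsLocalRing.eq_maximalIdeal (hprime.isMaximal hne)
  rw [← hcomap, hmax]
  exact IsLocalization.AtPrime.comap_maximalIdeal Sq Q

end MP72c78a
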