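import Pool.Agent.Lib.MP_72c78a_ag.SurfC

/-!
Derivations of a finite extension of a ring with coordinates.
-/

set_option linter.style.haveILetI false
set_option linter.unusedSectionVars false
set_option linter.unusedVariables false

open IsLocalRing

universe u v
namespace MP72c78a

section Basic

variable {k : Type v} {S R : Type u} [Field k] [CharZero k]
  [CommRing S] [IsDomain S] [IsNoetherianRing S] [Algebra k S]
  [CommRing R] [IsDomain R] [IsIntegrallyClosed R] [Algebra S R] [FaithfulSMul S R]
  [Module.Finite S R] [Algebra k R] [IsScalarTower k S R]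

/-- The chain rule for derivations of `R` on elements of `S`. -/
theorem deriv_coord (x : Fin 2 → S) (δ : Fin 2 → Derivation k S S)
    (hδ : ∀ i j, δ i (x j) = if i = j then 1 else 0)
    (hδ' : ∀ D : Derivation k S S, (∀ i, D (x i) = 0) → D = 0) (D : Derivation k R R) (s : S) :
    D (algebraMap S R s) = D (algebraMap S R (x 0)) * algebraMap S R (δ 0 s) +
      D (algebraMap S R (x 1)) * algebraMap S R (δ 1 s) := by
  have hinj : Function.Injective (algebraMap S R) := FaithfulSMul.algebraMap_injective S R
  have hker : RingHom.ker (algebraMap S R) ∈ minimalPrimes S := by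
    rw [(RingHom.injective_iff_ker_eq_bot _).mp hinj, IsDomain.minimalPrimes_eq_singleton_bot]
    rfl
  have hbij := bijective_eval_of_normal hker
  rw [← sub_eq_zero]
  apply (injective_iff_map_eq_zero _).mp hbij.1
  ext φ
  change φ (D (algebraMap S R s) - _) = 0
  let Δ : Derivation k S S := Derivation.mk'
    { toFun := fun s => φ (D (algebraMap S R s) - (D (algebraMap S R (x 0)) *
        algebraMap S R (δ 0 s) + D (algebraMap S R (x 1)) * algebraMap S R (δ 1 s)))
      map_add' := fun s t => by
        rw [← map_add]
        congr 1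
        simp only [map_add]
        ring
      map_smul' := fun c s => by
        have h1 : algebraMap S R (c • s) = c • algebraMap S R s := by
          rw [Algebra.algebraMap_eq_smul_one, Algebra.algebraMap_eq_smul_one, smul_assoc]
        have h2 : ∀ i, algebraMap S R (δ i (c • s)) = c • algebraMap S R (δ i s) := by
          intro i
          rw [Derivation.map_smul, Algebra.algebraMap_eq_smul_one,
            Algebra.algebraMap_eq_smul_one, smul_assoc]
        rw [h1, h2, h2, Derivation.map_smul, mul_smul_comm, mul_smul_comm, ← smul_add, ← smul_sub,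
          RingHom.id_apply]
        have h3 : ∀ y : R, c • y = (algebraMap k S c) • y := fun y => by
          rw [algebraMap_smul]
        rw [h3, map_smul, algebraMap_smul] } (by
      intro a b
      change φ _ = a • φ _ + b • φ _
      rw [← map_smul, ← map_smul, ← map_add]
      congr 1
      simp only [map_mul, Derivation.leibniz, smul_eq_mul, map_add, Algebra.smul_def]
      ring)
  have hΔ : Δ = 0 := by
    apply hδ'
    intro i
    change φ (D (algebraMap S R (x i)) - (D (algebraMap S R (x 0)) *
        algebraMap S R (δ 0 (x i)) + D (algebraMap S R (x 1)) * algebraMap S R (δ 1 (x i)))) = 0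
    rw [hδ, hδ]
    fin_cases i <;> simp
  exact Derivation.congr_fun hΔ s

/-- Derivations preserving `P` and mapping `S` to `P` map `R` to `P`. -/
theorem deriv_mem_of_integral (P : Ideal R) [P.IsPrime] (D : Derivation k R R)
    (hDP : ∀ p ∈ P, D p ∈ P) (hDS : ∀ s : S, D (algebraMap S R s) ∈ P) (b : R) : D b ∈ P := by
  classical
  have hP : P.IsPrime := inferInstance
  haveI : Algebra.IsIntegral S R := Algebra.IsIntegral.of_finite S R
  -- derivative of a polynomial expression
  have hpoly : ∀ f : Polynomial S, D (Polynomial.aeval b f) -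
      Polynomial.aeval b (Polynomial.derivative f) * D b ∈ P := by
    intro f
    induction f using Polynomial.induction_on' with
    | add f g hf hg =>
      have : D (Polynomial.aeval b (f + g)) -
          Polynomial.aeval b (Polynomial.derivative (f + g)) * D b =
          (D (Polynomial.aeval b f) - Polynomial.aeval b (Polynomial.derivative f) * D b) +
          (D (Polynomial.aeval b g) - Polynomial.aeval b (Polynomial.derivative g) * D b) := by
        simp only [map_add]
        ring
      rw [this]
      exact P.add_mem hf hg
    | monomial n a =>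
      rw [Polynomial.aeval_monomial, Polynomial.derivative_monomial, Polynomial.aeval_monomial,
        Derivation.leibniz, Derivation.leibniz_pow, map_mul, map_natCast]
      simp only [smul_eq_mul, nsmul_eq_mul]
      have : algebraMap S R a * ((n : R) * (b ^ (n - 1) * D b)) +
          b ^ n * D (algebraMap S R a) - algebraMap S R a * (n : R) * b ^ (n - 1) * D b =
          b ^ n * D (algebraMap S R a) := by ring
      rw [this]
      exact P.mul_mem_left _ (hDS a)
  -- a polynomial of minimal degree
  let Q : ℕ → Prop := fun n => ∃ f : Polynomial S, f.natDegree = n ∧ f ≠ 0 ∧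
    algebraMap S R f.leadingCoeff ∉ P ∧ Polynomial.aeval b f ∈ P
  have hQ : ∃ n, Q n := by
    obtain ⟨f, hf, hfb⟩ := Algebra.IsIntegral.isIntegral (R := S) b
    refine ⟨_, f, rfl, hf.ne_zero, ?_, ?_⟩
    · rw [hf.leadingCoeff, map_one]
      exact hP.one_notMem
    · rw [Polynomial.aeval_def, hfb]
      exact P.zero_mem
  obtain ⟨f, hfn, hf0, hflc, hfb⟩ := Nat.find_spec hQ
  have hdeg : f.natDegree ≠ 0 := by
    intro h
    rw [Polynomial.eq_C_of_natDegree_eq_zero h, Polynomial.aeval_C] at hfb
    apply hflc
    rw [Polynomial.leadingCoeff, h]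
    exact hfb
  haveI : CharZero S := charZero_of_injective_algebraMap (algebraMap k S).injective
  have hder : Polynomial.aeval b (Polynomial.derivative f) ∉ P := by
    intro hmem
    have hnd : (Polynomial.derivative f).natDegree = f.natDegree - 1 :=
      Polynomial.natDegree_derivative f
    have hlt : (Polynomial.derivative f).natDegree < Nat.find hQ := by
      rw [hnd, ← hfn]
      omega
    refine Nat.find_min hQ hlt ⟨_, rfl, ?_, ?_, hmem⟩
    · intro h
      exact hdeg (Polynomial.derivative_eq_zero.mp h)
    · have h1 : (Polynomial.derivative f).leadingCoeff = f.leadingCoeff * (f.natDegree : S) := by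
        rw [Polynomial.leadingCoeff, hnd, Polynomial.coeff_derivative, Polynomial.leadingCoeff,
          Nat.sub_add_cancel (Nat.one_le_iff_ne_zero.mpr hdeg)]
        have : ((f.natDegree - 1 : ℕ) : S) + 1 = (f.natDegree : S) := by
          have h2 : f.natDegree - 1 + 1 = f.natDegree :=
            Nat.sub_add_cancel (Nat.one_le_iff_ne_zero.mpr hdeg)
          exact_mod_cast congrArg (Nat.cast (R := S)) h2
        rw [this]
      rw [h1, map_mul, map_natCast]
      intro h
      rcases hP.mem_or_mem h with h | h
      · exact hflc h
      · have h3 : ((f.natDegree : R) - ((0 : ℕ) : R)) ∈ P := by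
          rw [Nat.cast_zero, sub_zero]; exact h
        exact hdeg (natCast_sub_notMem k hP h3)
  have h1 := hpoly f
  have h2 : Polynomial.aeval b (Polynomial.derivative f) * D b ∈ P := by
    have : Polynomial.aeval b (Polynomial.derivative f) * D b = D (Polynomial.aeval b f) -
      (D (Polynomial.aeval b f) - Polynomial.aeval b (Polynomial.derivative f) * D b) := by ring
    rw [this]
    exact P.sub_mem (hDP _ hfb) h1
  exact (hP.mem_or_mem h2).resolve_left hder

/-- `H4`. -/
theorem exists_relation [IsLocalRing S] (x : Fin 2 → S)
    (hx : Ideal.span (Set.range x) = maximalIdeal S) (δ : Fin 2 → Derivation k S S)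
    (hδ : ∀ i j, δ i (x j) = if i = j then 1 else 0)
    (hδ' : ∀ D : Derivation k S S, (∀ i, D (x i) = 0) → D = 0)
    (P : Ideal R) [P.IsPrime] (hP0 : P ≠ ⊥) :
    ∃ e : Fin 2 → R, (e 0 ∉ P ∨ e 1 ∉ P) ∧ ∀ D : Derivation k R R, (∀ p ∈ P, D p ∈ P) →
      e 0 * D (algebraMap S R (x 0)) + e 1 * D (algebraMap S R (x 1)) ∈ P := by
  haveI : Algebra.IsIntegral S R := Algebra.IsIntegral.of_finite S R
  let p : Ideal S := P.comap (algebraMap S R)
  haveI : p.IsPrime := Ideal.comap_isPrime _ P
  have hp0 : p ≠ ⊥ := Ideal.IsIntegral.comap_ne_bot S hP0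
  obtain ⟨s, hs, hs'⟩ : ∃ s ∈ p, ∃ i, δ i s ∉ p := by
    by_contra hcon
    push Not at hcon
    exact (Ideal.comap_isPrime (algebraMap S R) P).ne_top
      (eq_top_of_stable x hx δ hδ p hp0 (fun i s hs => hcon s hs i))
  refine ⟨fun i => algebraMap S R (δ i s), ?_, ?_⟩
  · obtain ⟨i, hi⟩ := hs'
    have hi' : algebraMap S R (δ i s) ∉ P := hi
    fin_cases i
    · exact Or.inl hi'
    · exact Or.inr hi'
  · intro D hD
    have h1 := hD _ (show algebraMap S R s ∈ P from hs)
    rw [deriv_coord x δ hδ hδ' D s] at h1
    have : algebraMap S R (δ 0 s) * D (algebraMap S R (x 0)) +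
        algebraMap S R (δ 1 s) * D (algebraMap S R (x 1)) =
        D (algebraMap S R (x 0)) * algebraMap S R (δ 0 s) +
      D (algebraMap S R (x 1)) * algebraMap S R (δ 1 s) := by ring
    rw [this]
    exact h1

end Basic

end MP72c78a
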