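import Pool.Agent.Lib.MP_72c78a_ag.SurfD

/-!
The codifferent of a finite extension of a ring with coordinates.
-/

set_option linter.style.haveILetI false
set_option linter.unusedSectionVars false
set_option linter.unusedVariables false

open IsLocalRing

universe u v
namespace MP72c78a

section Fld

variable {k : Type v} {S R F L : Type u} [Field k] [CharZero k]
  [CommRing S] [IsDomain S] [IsNoetherianRing S] [IsIntegrallyClosed S] [Algebra k S]
  [CommRing R] [IsDomain R] [IsIntegrallyClosed R] [Algebra S R] [FaithfulSMul S R]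
  [Module.Finite S R] [Algebra k R] [IsScalarTower k S R]
  [Field F] [Algebra S F] [IsFractionRing S F] [Field L] [Algebra R L] [IsFractionRing R L]
  [Algebra S L] [IsScalarTower S R L] [Algebra F L] [IsScalarTower S F L]
  [FiniteDimensional F L] [Algebra k F] [Algebra k L] [IsScalarTower k S F]
  [IsScalarTower k R L] [IsScalarTower k F L]

/-- Extension of a derivation of `S` to the fraction fields. -/
theorem exists_extend_fields (δ : Derivation k S S) :
    ∃ (dF : Derivation k F F) (dL : Derivation k L L),
      (∀ s, dF (algebraMap S F s) = algebraMap S F (δ s)) ∧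
      (∀ a, dL (algebraMap F L a) = algebraMap F L (dF a)) := by
  haveI : Algebra.FormallyEtale S F := Algebra.FormallyEtale.of_isLocalization (nonZeroDivisors S)
  haveI : CharZero F := charZero_of_injective_algebraMap (algebraMap k F).injective
  haveI : Algebra.FormallyEtale F L := Algebra.FormallyEtale.of_isSeparable F L
  obtain ⟨dF, hdF⟩ := exists_deriv_extend (A := S) (B := F) (N := F)
    ((Algebra.linearMap S F).compDer δ)
  obtain ⟨dL, hdL⟩ := exists_deriv_extend (A := F) (B := L) (N := L)
    ((Algebra.linearMap F L).compDer dF)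
  exact ⟨dF, dL, fun s => hdF s, fun a => hdL a⟩

variable (F) in
include F in
/-- Expansion of a derivation in partial derivatives. -/
theorem dExt_expand (x : Fin 2 → S) (δ : Fin 2 → Derivation k S S)
    (hδ : ∀ i j, δ i (x j) = if i = j then 1 else 0)
    (hδ' : ∀ D : Derivation k S S, (∀ i, D (x i) = 0) → D = 0)
    (dL : Fin 2 → Derivation k L L)
    (hdL : ∀ i s, dL i (algebraMap S L s) = algebraMap S L (δ i s))
    (D : Derivation k R R) (z : L) :
    dExt L D z = algebraMap R L (D (algebraMap S R (x 0))) * dL 0 z +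
      algebraMap R L (D (algebraMap S R (x 1))) * dL 1 z := by
  haveI : Algebra.FormallyUnramified S F :=
    Algebra.FormallyUnramified.of_isLocalization (nonZeroDivisors S)
  haveI : CharZero F := charZero_of_injective_algebraMap (algebraMap k F).injective
  haveI : Algebra.FormallyUnramified F L := Algebra.FormallyUnramified.of_isSeparable F L
  haveI : Algebra.FormallyUnramified S L := Algebra.FormallyUnramified.comp S F L
  haveI : IsScalarTower k S L := by
    refine IsScalarTower.of_algebraMap_eq (fun c => ?_)
    rw [IsScalarTower.algebraMap_apply S R L, ← IsScalarTower.algebraMap_apply k S R,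
      ← IsScalarTower.algebraMap_apply k R L]
  have h := deriv_ext (A := S) (dExt L D)
    (algebraMap R L (D (algebraMap S R (x 0))) • dL 0 +
      algebraMap R L (D (algebraMap S R (x 1))) • dL 1) (fun s => by
      rw [IsScalarTower.algebraMap_apply S R L, dExt_algebraMap, deriv_coord x δ hδ hδ' D s,
        ← IsScalarTower.algebraMap_apply S R L]
      change _ = algebraMap R L (D (algebraMap S R (x 0))) * dL 0 (algebraMap S L s) +
        algebraMap R L (D (algebraMap S R (x 1))) * dL 1 (algebraMap S L s)
      rw [hdL, hdL, map_add, map_mul, map_mul, ← IsScalarTower.algebraMap_apply S R L,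
        ← IsScalarTower.algebraMap_apply S R L])
  exact Derivation.congr_fun h z

/-- The divergence of a derivation. -/
noncomputable def dvg (x : Fin 2 → R) (dL : Fin 2 → Derivation k L L) (D : Derivation k R R) : L :=
  dL 0 (algebraMap R L (D (x 0))) + dL 1 (algebraMap R L (D (x 1)))

theorem dvg_det (x : Fin 2 → R) (dL : Fin 2 → Derivation k L L)
    (hexp : ∀ (D : Derivation k R R) (z : L), dExt L D z =
      algebraMap R L (D (x 0)) * dL 0 z + algebraMap R L (D (x 1)) * dL 1 z)
    (D D1 D2 : Derivation k R R) : algebraMap R L (D (det2 x D1 D2)) =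
      algebraMap R L (det2 x ⁅D, D1⁆ D2 + det2 x D1 ⁅D, D2⁆) +
        dvg x dL D * algebraMap R L (det2 x D1 D2) := by
  have h1 : ∀ (E : Derivation k R R) (j : Fin 2), algebraMap R L (E (D (x j))) =
      algebraMap R L (E (x 0)) * dL 0 (algebraMap R L (D (x j))) +
      algebraMap R L (E (x 1)) * dL 1 (algebraMap R L (D (x j))) := by
    intro E j
    rw [← hexp, dExt_algebraMap]
  unfold det2 dvg
  simp only [Derivation.commutator_apply, map_sub, Derivation.leibniz, smul_eq_mul, map_add,
    map_mul, h1 D1, h1 D2]
  ring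

/-- Stability of submodules of the codifferent type. -/
theorem dvg_identity (x : Fin 2 → R) (dL : Fin 2 → Derivation k L L)
    (hexp : ∀ (D : Derivation k R R) (z : L), dExt L D z =
      algebraMap R L (D (x 0)) * dL 0 z + algebraMap R L (D (x 1)) * dL 1 z)
    (D : Derivation k R R) (c : L) (r : R) :
    (dExt L D c + dvg x dL D * c) * algebraMap R L r =
      dL 0 (c * algebraMap R L (r * D (x 0))) + dL 1 (c * algebraMap R L (r * D (x 1))) -
        c * algebraMap R L (D r) := by
  have h1 : dExt L D (algebraMap R L r) = algebraMap R L (D r) := dExt_algebraMap D r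
  rw [← h1, hexp, hexp]
  unfold dvg
  simp only [map_mul, Derivation.leibniz, smul_eq_mul]
  ring

variable (S F) in
/-- The codifferent. -/
def codiff (R L : Type u) [CommRing R] [Algebra S R] [Field L] [Algebra R L] [Algebra S L]
    [IsScalarTower S R L] [Algebra F L] [IsScalarTower S F L] : Submodule R L where
  carrier := {c | ∀ r : R, ∃ s : S, Algebra.trace F L (c * algebraMap R L r) = algebraMap S F s}
  zero_mem' := fun r => ⟨0, by rw [zero_mul, map_zero, map_zero]⟩
  add_mem' := fun {a b} ha hb r => by
    obtain ⟨s, hs⟩ := ha r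
    obtain ⟨t, ht⟩ := hb r
    exact ⟨s + t, by rw [add_mul, map_add, hs, ht, map_add]⟩
  smul_mem' := fun a c hc r => by
    obtain ⟨s, hs⟩ := hc (a * r)
    refine ⟨s, ?_⟩
    rw [← hs, map_mul (algebraMap R L), Algebra.smul_def]
    congr 1
    ring

theorem mem_codiff {c : L} : c ∈ codiff S F R L ↔
    ∀ r : R, ∃ s : S, Algebra.trace F L (c * algebraMap R L r) = algebraMap S F s := Iff.rfl

theorem codiff_stable (x : Fin 2 → R) (δ : Fin 2 → Derivation k S S)
    (dF : Fin 2 → Derivation k F F) (dL : Fin 2 → Derivation k L L)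
    (hdF : ∀ i s, dF i (algebraMap S F s) = algebraMap S F (δ i s))
    (hdL : ∀ i a, dL i (algebraMap F L a) = algebraMap F L (dF i a))
    (hexp : ∀ (D : Derivation k R R) (z : L), dExt L D z =
      algebraMap R L (D (x 0)) * dL 0 z + algebraMap R L (D (x 1)) * dL 1 z)
    (D : Derivation k R R) (c : L) (hc : c ∈ codiff S F R L) :
    dExt L D c + dvg x dL D * c ∈ codiff S F R L := by
  intro r
  rw [dvg_identity x dL hexp D c r]
  obtain ⟨s0, h0⟩ := hc (r * D (x 0))
  obtain ⟨s1, h1⟩ := hc (r * D (x 1))
  obtain ⟨s2, h2⟩ := hc (D r)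
  refine ⟨δ 0 s0 + δ 1 s1 - s2, ?_⟩
  rw [map_sub, map_add, trace_deriv (dF 0) (dL 0) (hdL 0), trace_deriv (dF 1) (dL 1) (hdL 1), h0,
    h1, h2, hdF, hdF, map_sub, map_add]

theorem one_mem_codiff : (1 : L) ∈ codiff S F R L := by
  intro r
  haveI : Algebra.IsIntegral S R := Algebra.IsIntegral.of_finite S R
  rw [one_mul]
  have h1 : IsIntegral S (algebraMap R L r) := (Algebra.IsIntegral.isIntegral r).algebraMap
  obtain ⟨s, hs⟩ := IsIntegrallyClosed.isIntegral_iff.mp
    (Algebra.isIntegral_trace (R := S) (L := F) (F := L) h1)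
  exact ⟨s, hs.symm⟩

theorem codiff_bounded [CharZero F] : ∃ t : R, t ≠ 0 ∧
    ∀ c ∈ codiff S F R L, ∃ r, algebraMap R L t * c = algebraMap R L r := by
  classical
  obtain ⟨T, b, hb⟩ := FiniteDimensional.exists_is_basis_integral S F L
  -- `b x ∈ R`
  have hbR : ∀ i, ∃ r : R, algebraMap R L r = b i := by
    intro i
    have h1 : IsIntegral R (b i) := (hb i).tower_top
    exact IsIntegrallyClosed.isIntegral_iff.mp h1
  have hnd : (Algebra.traceForm F L).Nondegenerate := traceForm_nondegenerate F L
  let b' := (Algebra.traceForm F L).dualBasis hnd b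
  obtain ⟨t, ht⟩ := IsLocalization.exist_integer_multiples_of_finset (nonZeroDivisors R)
    (Finset.univ.image b')
  refine ⟨t, nonZeroDivisors.ne_zero t.2, ?_⟩
  intro c hc
  have h1 : ∀ i, ∃ r : R, algebraMap R L t * (b'.repr c i • b' i) = algebraMap R L r := by
    intro i
    obtain ⟨r, hr⟩ := hbR i
    obtain ⟨s, hs⟩ := hc r
    obtain ⟨r', hr'⟩ := ht (b' i) (Finset.mem_image_of_mem _ (Finset.mem_univ i))
    refine ⟨algebraMap S R s * r', ?_⟩
    have h2 : b'.repr c i = algebraMap S F s := by
      rw [LinearMap.BilinForm.dualBasis_repr_apply, Algebra.traceForm_apply, ← hr, hs]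
    rw [h2, Algebra.smul_def, ← IsScalarTower.algebraMap_apply S F L, map_mul, hr',
      ← IsScalarTower.algebraMap_apply S R L, Algebra.smul_def (t : R)]
    ring
  choose r hr using h1
  refine ⟨∑ i, r i, ?_⟩
  conv_lhs => rw [← b'.sum_repr c]
  rw [Finset.mul_sum, map_sum]
  exact Finset.sum_congr rfl (fun i _ => hr i)

end Fld

end MP72c78a
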