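import Pool.Agent.Lib.MP_72c78a_ag.SurfE

/-!
The duality between the codifferent and the determinants of derivations.
-/

set_option linter.style.haveILetI false
set_option linter.unusedSectionVars false
set_option linter.unusedVariables false

open IsLocalRing

universe u v
namespace MP72c78a

section Fld

variable {k : Type v} {S R F L : Type u} [Field k] [CharZero k]
  [CommRing S] [IsDomain S] [IsNoetherianRing S] [IsIntegrallyClosed S] [Algebra k S]
  [CommRing R] [IsDomain R] [IsIntegrallyClosed R] [Algebra S R] [FaithfulSMul S R]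
  [Module.Finite S R] [Algebra k R] [IsScalarTower k S R]
  [Field F] [Algebra S F] [IsFractionRing S F] [Field L] [Algebra R L] [IsFractionRing R L]
  [Algebra S L] [IsScalarTower S R L] [Algebra F L] [IsScalarTower S F L]
  [FiniteDimensional F L] [Algebra k F] [Algebra k L] [IsScalarTower k S F]
  [IsScalarTower k R L] [IsScalarTower k F L]

theorem exists_restrict (d : Derivation k L L)
    (h : ∀ r : R, ∃ r' : R, d (algebraMap R L r) = algebraMap R L r') :
    ∃ D : Derivation k R R, ∀ r, algebraMap R L (D r) = d (algebraMap R L r) := by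
  choose w hw using h
  have hinj := IsFractionRing.injective R L
  refine ⟨Derivation.mk' { toFun := w, map_add' := ?_, map_smul' := ?_ } ?_, fun r => (hw r).symm⟩
  · intro r r'
    apply hinj
    rw [← hw, map_add, map_add, map_add, hw, hw]
  · intro c r
    apply hinj
    have h1 : ∀ y : R, algebraMap R L (c • y) = c • algebraMap R L y := fun y => by
      rw [Algebra.algebraMap_eq_smul_one, Algebra.algebraMap_eq_smul_one, smul_assoc]
    rw [← hw, h1, Derivation.map_smul, RingHom.id_apply, h1, hw]
  · intro r r'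
    apply hinj
    change algebraMap R L (w (r * r')) = algebraMap R L (r * w r' + r' * w r)
    rw [← hw, map_mul, Derivation.leibniz, hw, hw, map_add, map_mul, map_mul, smul_eq_mul,
      smul_eq_mul]

theorem exists_multiple (δ : Derivation k S S) (d : Derivation k L L)
    (hd : ∀ s, d (algebraMap S L s) = algebraMap S L (δ s)) :
    ∃ h : R, h ≠ 0 ∧ ∃ D : Derivation k R R, ∀ r, algebraMap R L (D r) =
      algebraMap R L h * d (algebraMap R L r) := by
  classical
  obtain ⟨T, hT⟩ := (Module.Finite.fg_top : (⊤ : Submodule S R).FG)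
  obtain ⟨h, hh⟩ := IsLocalization.exist_integer_multiples_of_finset (nonZeroDivisors R)
    (T.image (fun t => d (algebraMap R L t)))
  have key : ∀ r : R, ∃ r' : R, ((algebraMap R L (h : R)) • d) (algebraMap R L r) =
      algebraMap R L r' := by
    intro r
    have hr : r ∈ Submodule.span S (T : Set R) := by rw [hT]; trivial
    change ∃ r' : R, algebraMap R L (h : R) * d (algebraMap R L r) = algebraMap R L r'
    induction hr using Submodule.span_induction with
    | mem t ht =>
      obtain ⟨r', hr'⟩ := hh _ (Finset.mem_image_of_mem (fun t => d (algebraMap R L t)) ht)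
      refine ⟨r', ?_⟩
      rw [hr', ← Algebra.smul_def]
    | zero => exact ⟨0, by rw [map_zero, map_zero, mul_zero]⟩
    | add a b _ _ ha hb =>
      obtain ⟨a', ha'⟩ := ha
      obtain ⟨b', hb'⟩ := hb
      exact ⟨a' + b', by rw [map_add, map_add, mul_add, ha', hb', map_add]⟩
    | smul s a _ ha =>
      obtain ⟨a', ha'⟩ := ha
      refine ⟨h * (algebraMap S R (δ s) * a) + algebraMap S R s * a', ?_⟩
      have h1 : algebraMap R L (s • a) = algebraMap S L s * algebraMap R L a := by
        rw [Algebra.smul_def, map_mul, ← IsScalarTower.algebraMap_apply S R L]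
      rw [h1, Derivation.leibniz, hd, smul_eq_mul, smul_eq_mul, map_add, map_mul, map_mul, map_mul,
        ← IsScalarTower.algebraMap_apply S R L, ← IsScalarTower.algebraMap_apply S R L, ← ha']
      ring
  obtain ⟨D, hD⟩ := exists_restrict _ key
  exact ⟨h, nonZeroDivisors.ne_zero h.2, D, hD⟩

theorem exists_det_ne_zero (x : Fin 2 → S) (δ : Fin 2 → Derivation k S S)
    (hδ : ∀ i j, δ i (x j) = if i = j then 1 else 0) (dL : Fin 2 → Derivation k L L)
    (hdL : ∀ i s, dL i (algebraMap S L s) = algebraMap S L (δ i s)) :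
    ∃ D D' : Derivation k R R, det2 (fun i => algebraMap S R (x i)) D D' ≠ 0 := by
  have hinj := IsFractionRing.injective R L
  obtain ⟨h0, h00, D0, hD0⟩ := exists_multiple (R := R) (δ 0) (dL 0) (hdL 0)
  obtain ⟨h1, h10, D1, hD1⟩ := exists_multiple (R := R) (δ 1) (dL 1) (hdL 1)
  have e : ∀ (h : R) (i : Fin 2) (D : Derivation k R R)
      (hD : ∀ r, algebraMap R L (D r) = algebraMap R L h * dL i (algebraMap R L r)) (j : Fin 2),
      D (algebraMap S R (x j)) = if i = j then h else 0 := by
    intro h i D hD j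
    apply hinj
    rw [hD, ← IsScalarTower.algebraMap_apply S R L, hdL, hδ]
    split_ifs
    · rw [map_one, mul_one]
    · rw [map_zero, mul_zero, map_zero]
  refine ⟨D0, D1, ?_⟩
  unfold det2
  rw [e h0 0 D0 hD0, e h0 0 D0 hD0, e h1 1 D1 hD1, e h1 1 D1 hD1]
  simp [h00, h10]

section Main

variable [IsLocalRing S] (x : Fin 2 → S)
    (hx : Ideal.span (Set.range x) = maximalIdeal S) (δ : Fin 2 → Derivation k S S)
    (hδ : ∀ i j, δ i (x j) = if i = j then 1 else 0)
    (hδ' : ∀ D : Derivation k S S, (∀ i, D (x i) = 0) → D = 0)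

include hx hδ hδ'

/-- The local theorem for the codifferent. -/
theorem codiff_local (P : Ideal R) [P.IsPrime] (hP0 : P ≠ ⊥)
    [IsDiscreteValuationRing (Localization.AtPrime P)] :
    ∃ (D1 D2 : Derivation k R R) (h : L), det2 (fun i => algebraMap S R (x i)) D1 D2 ≠ 0 ∧
      h ∈ codiff S F R L ∧ h ≠ 0 ∧
      (∀ D D' : Derivation k R R,
        InLoc P (algebraMap R L (det2 (fun i => algebraMap S R (x i)) D D') /
          algebraMap R L (det2 (fun i => algebraMap S R (x i)) D1 D2))) ∧
      (∀ c ∈ codiff S F R L, InLoc P (c / h)) ∧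
      InLoc P (h * algebraMap R L (det2 (fun i => algebraMap S R (x i)) D1 D2)) ∧
      InLoc P (h * algebraMap R L (det2 (fun i => algebraMap S R (x i)) D1 D2))⁻¹ := by
  haveI : IsNoetherianRing R := IsNoetherianRing.of_finite S R
  haveI : CharZero F := charZero_of_injective_algebraMap (algebraMap k F).injective
  choose dF dL hdF hdL using fun i => exists_extend_fields (F := F) (L := L) (δ i)
  have hdL' : ∀ i s, dL i (algebraMap S L s) = algebraMap S L (δ i s) := by
    intro i s
    rw [IsScalarTower.algebraMap_apply S F L, hdL, hdF, ← IsScalarTower.algebraMap_apply S F L]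
  have hexp := dExt_expand (R := R) F x δ hδ hδ' dL hdL'
  exact local_main P (fun i => algebraMap S R (x i)) (exists_det_ne_zero x δ hδ dL hdL')
    (fun D hDP h0 h1 => deriv_mem_of_integral (S := S) P D hDP (fun s => by
      rw [deriv_coord x δ hδ hδ' D s]
      exact P.add_mem (P.mul_mem_right _ h0) (P.mul_mem_right _ h1)))
    (exists_relation x hx δ hδ hδ' P hP0) (codiff S F R L) ⟨1, one_mem_codiff, one_ne_zero⟩
    codiff_bounded (dvg (fun i => algebraMap S R (x i)) dL)
    (dvg_det (fun i => algebraMap S R (x i)) dL hexp)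
    (codiff_stable (fun i => algebraMap S R (x i)) δ dF dL hdF hdL hexp)

theorem ne_bot_of_colon (z : L) (N : Submodule R L) (hN : (1 : L) ∈ N) (P : Ideal R)
    (hP : ∀ a, a ∈ P ↔ a • z ∈ N) : P ≠ ⊥ := by
  intro h
  have hinj := IsFractionRing.injective R L
  obtain ⟨a, b, hb, hab⟩ := IsFractionRing.div_surjective (A := R) z
  have hb0 : algebraMap R L b ≠ 0 := fun e =>
    nonZeroDivisors.ne_zero hb (hinj (by rw [e, map_zero]))
  have h1 : b ∈ P := by
    rw [hP, Algebra.smul_def, ← hab, mul_div_cancel₀ _ hb0]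
    have := N.smul_mem a hN
    rwa [Algebra.smul_def, mul_one] at this
  rw [h, Ideal.mem_bot] at h1
  exact nonZeroDivisors.ne_zero hb h1

/-- First duality statement. -/
theorem codiff_mul_det (c : L) (hc : c ∈ codiff S F R L) (D D' : Derivation k R R) :
    ∃ r : R, c * algebraMap R L (det2 (fun i => algebraMap S R (x i)) D D') =
      algebraMap R L r := by
  haveI : IsNoetherianRing R := IsNoetherianRing.of_finite S R
  by_contra hcon
  push Not at hcon
  let N : Submodule R L := LinearMap.range (Algebra.linearMap R L)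
  have hN : ∀ z : L, z ∈ N ↔ ∃ r, z = algebraMap R L r := fun z =>
    ⟨fun ⟨r, hr⟩ => ⟨r, hr.symm⟩, fun ⟨r, hr⟩ => ⟨r, hr.symm⟩⟩
  set z := c * algebraMap R L (det2 (fun i => algebraMap S R (x i)) D D') with hz
  obtain ⟨r, hr, P, hP, hPa⟩ := exists_colon_prime N z (fun h => by
    obtain ⟨r, hr⟩ := (hN z).mp h
    exact hcon r hr)
  haveI := hP
  haveI := isDVR_of_colon (r • z) (fun r' hr' => hr ((hN _).mpr ⟨r', hr'.symm⟩)) P (fun a => by
    rw [hPa, hN, ← Algebra.smul_def])
  have hP0 : P ≠ ⊥ := ne_bot_of_colon x hx δ hδ hδ' (r • z) N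
    ((hN _).mpr ⟨1, (map_one _).symm⟩) P hPa
  obtain ⟨D1, D2, h, hd0, hh, hh0, h1, h2, h3, h4⟩ := codiff_local (F := F) (L := L) x hx δ hδ hδ' P hP0
  have hd0' : algebraMap R L (det2 (fun i => algebraMap S R (x i)) D1 D2) ≠ 0 := fun e =>
    hd0 (IsFractionRing.injective R L (by rw [e, map_zero]))
  have hin : InLoc P (r • z) := by
    have e : r • z = algebraMap R L r * ((c / h) *
      ((algebraMap R L (det2 (fun i => algebraMap S R (x i)) D D') /
        algebraMap R L (det2 (fun i => algebraMap S R (x i)) D1 D2)) *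
        (h * algebraMap R L (det2 (fun i => algebraMap S R (x i)) D1 D2)))) := by
      rw [Algebra.smul_def, hz]
      field_simp
    rw [e]
    exact (inLoc_algebraMap hP r).mul hP ((h2 c hc).mul hP ((h1 D D').mul hP h3))
  obtain ⟨s, hs, r', hr'⟩ := hin
  apply hs
  rw [hPa, hN]
  exact ⟨r', by rw [Algebra.smul_def]; exact hr'⟩

/-- Second duality statement. -/
theorem mem_codiff_of_mul_det (z : L) (hz : ∀ D D' : Derivation k R R,
    ∃ r : R, z * algebraMap R L (det2 (fun i => algebraMap S R (x i)) D D') =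
      algebraMap R L r) : z ∈ codiff S F R L := by
  haveI : IsNoetherianRing R := IsNoetherianRing.of_finite S R
  haveI : Algebra.IsIntegral S R := Algebra.IsIntegral.of_finite S R
  by_contra hcon
  obtain ⟨r, hr, P, hP, hPa⟩ := exists_colon_prime (codiff S F R L) z hcon
  haveI := hP
  have hP0 : P ≠ ⊥ := ne_bot_of_colon x hx δ hδ hδ' (r • z) (codiff S F R L)
    one_mem_codiff P hPa
  let q : Ideal S := P.comap (algebraMap S R)
  haveI : q.IsPrime := Ideal.comap_isPrime _ P
  have hq0 : q ≠ ⊥ := Ideal.IsIntegral.comap_ne_bot S hP0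
  -- a height one prime of `S` containing `q`
  obtain ⟨Q, hQ, hqQ, hQdvr⟩ : ∃ (Q : Ideal S) (_ : Q.IsPrime), q ≤ Q ∧
      IsDiscreteValuationRing (Localization.AtPrime Q) := by
    rw [mem_codiff] at hr
    push Not at hr
    obtain ⟨r₀, hr₀⟩ := hr
    let N : Submodule S F := LinearMap.range (Algebra.linearMap S F)
    have hN : ∀ y : F, y ∈ N ↔ ∃ s, y = algebraMap S F s := fun y =>
      ⟨fun ⟨s, hs⟩ => ⟨s, hs.symm⟩, fun ⟨s, hs⟩ => ⟨s, hs.symm⟩⟩
    set y := Algebra.trace F L (r • z * algebraMap R L r₀) with hy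
    obtain ⟨s, hs, Q, hQ, hQa⟩ := exists_colon_prime N y (fun h => by
      obtain ⟨s, hs⟩ := (hN y).mp h
      exact hr₀ s hs)
    haveI := hQ
    refine ⟨Q, hQ, ?_, ?_⟩
    · intro a ha
      have ha' : algebraMap S R a ∈ P := ha
      rw [hPa] at ha'
      obtain ⟨t, ht⟩ := ha' r₀
      rw [hQa, smul_comm]
      apply N.smul_mem
      rw [hN]
      refine ⟨t, ?_⟩
      rw [← ht, hy, Algebra.smul_def (algebraMap S R a), ← IsScalarTower.algebraMap_apply S R L,
        mul_assoc, ← Algebra.smul_def a, ← algebraMap_smul F a (r • z * algebraMap R L r₀),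
        map_smul, algebraMap_smul]
    · exact isDVR_of_colon (s • y) (fun s' hs' => hs ((hN _).mpr ⟨s', hs'.symm⟩)) Q (fun a => by
        rw [hQa, hN, ← Algebra.smul_def])
  have hqeq : q = Q := eq_of_le_of_isDVR q Q hq0 hqQ
  have hinj : Function.Injective (algebraMap S R) := FaithfulSMul.algebraMap_injective S R
  haveI : IsDiscreteValuationRing (Localization.AtPrime P) := by
    refine isDVR_of_saturated (R := S) ⊥ q (bot_lt_iff_ne_bot.mpr hq0) ?_
      ((RingHom.injective_iff_ker_eq_bot _).mp hinj) P rfl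
    intro p hp h1 h2
    haveI := hp
    have := eq_of_le_of_isDVR p Q (bot_lt_iff_ne_bot.mp h1) (h2.le.trans hqQ)
    rw [this, ← hqeq] at h2
    exact lt_irrefl _ h2
  obtain ⟨D1, D2, h, hd0, hh, hh0, h1, h2, h3, h4⟩ := codiff_local (F := F) (L := L) x hx δ hδ hδ' P hP0
  have hd0' : algebraMap R L (det2 (fun i => algebraMap S R (x i)) D1 D2) ≠ 0 := fun e =>
    hd0 (IsFractionRing.injective R L (by rw [e, map_zero]))
  obtain ⟨r1, hr1⟩ := hz D1 D2
  have hin : InLoc P (r • z / h) := by
    have e : r • z / h = algebraMap R L (r * r1) *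
        (h * algebraMap R L (det2 (fun i => algebraMap S R (x i)) D1 D2))⁻¹ := by
      rw [Algebra.smul_def, map_mul, ← hr1]
      field_simp
    rw [e]
    exact (inLoc_algebraMap hP _).mul hP h4
  obtain ⟨s, hs, w, hw⟩ := hin
  apply hs
  rw [hPa]
  have e : s • r • z = w • h := by
    rw [Algebra.smul_def s, Algebra.smul_def w, ← hw]
    field_simp
  rw [e]
  exact Submodule.smul_mem _ _ hh

end Main

end Fld

end MP72c78a
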