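import Pool.Agent.Lib.MP_72c78a_ag.SurfX

/-!
Normal surface singularities: the swap argument.
-/

set_option linter.style.haveILetI false
set_option linter.unusedSectionVars false
set_option linter.unusedVariables false

open CategoryTheory Abelian IsLocalRing

universe u v
namespace MP72c78a

section InjDimS

variable {k : Type v} {S : Type u} [Field k] [CharZero k]
  [CommRing S] [IsNoetherianRing S] [IsLocalRing S] [Algebra k S]

/-- A local ring with two coordinates has injective dimension at most two. -/
theorem ext_coord_ring (x : Fin 2 → S)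
    (hx : Ideal.span (Set.range x) = maximalIdeal S) (δ : Fin 2 → Derivation k S S)
    (hδ : ∀ i j, δ i (x j) = if i = j then 1 else 0)
    (X : Type u) [AddCommGroup X] [Module S X] (i : ℕ) (hi : 3 ≤ i) :
    Subsingleton (Ext (ModuleCat.of S X) (ModuleCat.of S S) i) := by
  have hfin := ext_coord_eq_zero (R := S) x hx δ hδ (ModuleCat.of S S)
    (fun i hi => ext_projective_eq_zero S _ i hi) 2 le_rfl
  have hset : (Ideal.span (x '' {l | l.val < 2}) : Ideal S) = maximalIdeal S := by
    have : {l : Fin 2 | l.val < 2} = Set.univ := Set.eq_univ_of_forall (fun l => l.isLt)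
    rw [this, Set.image_univ, hx]
  rw [hset] at hfin
  haveI : Module.Finite S (ModuleCat.of S S) := inferInstanceAs (Module.Finite S S)
  haveI : HasInjectiveDimensionLT (ModuleCat.of S S) 3 :=
    hasInjectiveDimensionLT_of_residue (ModuleCat.of S S) 2
      (fun i hi x => (hfin i hi).elim _ _)
  exact HasInjectiveDimensionLT.subsingleton (ModuleCat.of S S) 3 i hi _

end InjDimS

section Fin

variable {S R : Type u} [CommRing S] [IsDomain S] [IsNoetherianRing S]
  [CommRing R] [IsDomain R] [IsIntegrallyClosed R] [Algebra S R] [FaithfulSMul S R]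
  [Module.Finite S R]

theorem ext_free_eq_zero
    (h3 : ∀ (X : Type u) [AddCommGroup X] [Module S X], ∀ i, 3 ≤ i →
      Subsingleton (Ext (ModuleCat.of S X) (ModuleCat.of S S) i)) (n j : ℕ) (hj : 1 ≤ j) :
    Subsingleton (Ext (ModuleCat.of S (Fin n → R)) (ModuleCat.of S S) j) := by
  classical
  have hinj : Function.Injective (algebraMap S R) := FaithfulSMul.algebraMap_injective S R
  have hker : RingHom.ker (algebraMap S R) ∈ minimalPrimes S := by
    rw [(RingHom.injective_iff_ker_eq_bot _).mp hinj, IsDomain.minimalPrimes_eq_singleton_bot]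
    rfl
  have hbij := bijective_eval_of_normal hker
  let e1 : R ≃ₗ[S] Module.Dual S (Module.Dual S R) := LinearEquiv.ofBijective _ hbij
  let e2 : (Fin n → R) ≃ₗ[S] (Fin n → Module.Dual S (Module.Dual S R)) :=
    LinearEquiv.piCongrRight (fun _ => e1)
  let e3 : (Fin n → Module.Dual S (Module.Dual S R)) ≃ₗ[S]
      Module.Dual S (Fin n → Module.Dual S R) :=
    LinearMap.lsum S (fun _ => Module.Dual S R) S
  exact ext_subsingleton_of_equiv (e2.trans e3).symm _ j (ext_dual_eq_zero h3 _ j hj)

end Fin

section Fld

variable {k : Type v} {S R F L : Type u} [Field k] [CharZero k]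
  [CommRing S] [IsDomain S] [IsNoetherianRing S] [IsIntegrallyClosed S] [Algebra k S]
  [CommRing R] [IsDomain R] [IsIntegrallyClosed R] [Algebra S R] [FaithfulSMul S R]
  [Module.Finite S R] [Algebra k R] [IsScalarTower k S R]
  [Field F] [Algebra S F] [IsFractionRing S F] [Field L] [Algebra R L] [IsFractionRing R L]
  [Algebra S L] [IsScalarTower S R L] [Algebra F L] [IsScalarTower S F L]
  [FiniteDimensional F L] [Algebra k F] [Algebra k L] [IsScalarTower k S F]
  [IsScalarTower k R L] [IsScalarTower k F L]
  [IsLocalRing S] (x : Fin 2 → S)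
    (hx : Ideal.span (Set.range x) = maximalIdeal S) (δ : Fin 2 → Derivation k S S)
    (hδ : ∀ i j, δ i (x j) = if i = j then 1 else 0)
    (hδ' : ∀ D : Derivation k S S, (∀ i, D (x i) = 0) → D = 0)

include hδ hδ' in
/-- A derivation of `R` killing the coordinates vanishes. -/
theorem deriv_eq_zero (D : Derivation k R R) (h0 : D (algebraMap S R (x 0)) = 0)
    (h1 : D (algebraMap S R (x 1)) = 0) : D = 0 := by
  haveI : (⊥ : Ideal R).IsPrime := Ideal.isPrime_bot
  have h := deriv_mem_of_integral (S := S) (⊥ : Ideal R) D
    (fun p hp => by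
      rw [(Submodule.mem_bot R).mp hp, map_zero]
      exact Submodule.zero_mem _)
    (fun s => by
      rw [deriv_coord x δ hδ hδ' D s, h0, h1, zero_mul, zero_mul, add_zero]
      exact Submodule.zero_mem _)
  ext r
  exact (Submodule.mem_bot R).mp (h r)

include hδ hδ' in
/-- Cramer's rule. -/
theorem cramer (D D1 D2 : Derivation k R R) :
    det2 (fun i => algebraMap S R (x i)) D1 D2 • D =
      det2 (fun i => algebraMap S R (x i)) D D2 • D1 +
        det2 (fun i => algebraMap S R (x i)) D1 D • D2 := by
  rw [← sub_eq_zero]
  apply deriv_eq_zero x δ hδ hδ'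
  · simp only [det2, Derivation.sub_apply, Derivation.add_apply, Derivation.smul_apply,
      smul_eq_mul]
    ring
  · simp only [det2, Derivation.sub_apply, Derivation.add_apply, Derivation.smul_apply,
      smul_eq_mul]
    ring

include hx hδ hδ' in
/-- The contraction `[c, D] = c det(D, -)`. -/
theorem exists_bracket (c : L) (hc : c ∈ codiff S F R L) (D : Derivation k R R) :
    ∃ w : Module.Dual R (Derivation k R R), ∀ D', algebraMap R L (w D') =
      c * algebraMap R L (det2 (fun i => algebraMap S R (x i)) D D') := by
  choose w hw using codiff_mul_det (F := F) x hx δ hδ hδ' c hc D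
  refine ⟨{ toFun := w, map_add' := ?_, map_smul' := ?_ }, fun D' => (hw D').symm⟩
  · intro D' D''
    apply IsFractionRing.injective R L
    rw [← hw, map_add, ← hw, ← hw, ← mul_add, ← map_add]
    congr 2
    simp only [det2, Derivation.add_apply]
    ring
  · intro a D'
    apply IsFractionRing.injective R L
    rw [← hw, RingHom.id_apply, smul_eq_mul, map_mul, ← hw, mul_left_comm, ← map_mul]
    congr 2
    simp only [det2, Derivation.smul_apply, smul_eq_mul]
    ring

include hx hδ hδ' in
/-- The wedge product of two elements of the dual. -/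
theorem exists_wedge {D1 D2 : Derivation k R R}
    (hD : det2 (fun i => algebraMap S R (x i)) D1 D2 ≠ 0)
    (w : Module.Dual R (Derivation k R R)) :
    ∃ ψ : Module.Dual R (Derivation k R R) →ₗ[R] codiff S F R L, ∀ w',
      ((ψ w' : codiff S F R L) : L) *
        algebraMap R L (det2 (fun i => algebraMap S R (x i)) D1 D2) =
      algebraMap R L (w D1 * w' D2 - w D2 * w' D1) := by
  have hDL : algebraMap R L (det2 (fun i => algebraMap S R (x i)) D1 D2) ≠ 0 := fun e =>
    hD (IsFractionRing.injective R L (by rw [e, map_zero]))
  have key : ∀ w' : Module.Dual R (Derivation k R R),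
      algebraMap R L (w D1 * w' D2 - w D2 * w' D1) /
        algebraMap R L (det2 (fun i => algebraMap S R (x i)) D1 D2) ∈ codiff S F R L := by
    intro w'
    apply mem_codiff_of_mul_det x hx δ hδ hδ'
    intro D D'
    refine ⟨w D * w' D' - w D' * w' D, ?_⟩
    rw [div_mul_eq_mul_div, div_eq_iff hDL, ← map_mul, ← map_mul]
    congr 1
    -- clear the determinant
    apply mul_left_cancel₀ hD
    have e : ∀ (v : Module.Dual R (Derivation k R R)) (D : Derivation k R R),
        det2 (fun i => algebraMap S R (x i)) D1 D2 * v D =
        det2 (fun i => algebraMap S R (x i)) D D2 * v D1 +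
        det2 (fun i => algebraMap S R (x i)) D1 D * v D2 := by
      intro v D
      have h := congrArg v (cramer x δ hδ hδ' D D1 D2)
      rw [map_add, map_smul, map_smul, map_smul] at h
      exact h
    have e1 := e w D
    have e2 := e w D'
    have e3 := e w' D
    have e4 := e w' D'
    set d := det2 (fun i => algebraMap S R (x i)) D1 D2 with hd
    have e5 : d * (det2 (fun i => algebraMap S R (x i)) D D') =
        det2 (fun i => algebraMap S R (x i)) D D2 * det2 (fun i => algebraMap S R (x i)) D1 D' -
        det2 (fun i => algebraMap S R (x i)) D' D2 * det2 (fun i => algebraMap S R (x i)) D1 D := by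
      rw [hd]
      simp only [det2]
      ring
    linear_combination (w D1 * w' D2 - w D2 * w' D1) * e5 - (d * w' D') * e1 + (d * w' D) * e2
      + (det2 (fun i => algebraMap S R (x i)) D' D2 * w D1 +
        det2 (fun i => algebraMap S R (x i)) D1 D' * w D2) * e3
      - (det2 (fun i => algebraMap S R (x i)) D D2 * w D1 +
        det2 (fun i => algebraMap S R (x i)) D1 D * w D2) * e4
  refine ⟨{ toFun := fun w' => ⟨_, key w'⟩, map_add' := ?_, map_smul' := ?_ }, ?_⟩
  · intro a b
    apply Subtype.ext
    simp only [Submodule.coe_add, LinearMap.add_apply]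
    rw [← add_div, ← map_add]
    congr 2
    ring
  · intro r a
    apply Subtype.ext
    simp only [Submodule.coe_smul, RingHom.id_apply, LinearMap.smul_apply, smul_eq_mul]
    rw [Algebra.smul_def, mul_div_assoc', ← map_mul]
    congr 2
    ring
  · intro w'
    change algebraMap R L (w D1 * w' D2 - w D2 * w' D1) /
        algebraMap R L (det2 (fun i => algebraMap S R (x i)) D1 D2) *
        algebraMap R L (det2 (fun i => algebraMap S R (x i)) D1 D2) = _
    rw [div_mul_cancel₀ _ hDL]

end Fld

end MP72c78a
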