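import Pool.Agent.Lib.MP_72c78a_ag.SurfM

/-!
Normal surface singularities: conclusion.
-/

set_option linter.style.haveILetI false
set_option linter.unusedSectionVars false
set_option linter.unusedVariables false

open CategoryTheory Abelian IsLocalRing

universe u v
namespace MP72c78a

section Fld

variable {k : Type v} {S R F L : Type u} [Field k] [CharZero k]
  [CommRing S] [IsDomain S] [IsNoetherianRing S] [IsIntegrallyClosed S] [Algebra k S]
  [CommRing R] [IsDomain R] [IsIntegrallyClosed R] [Algebra S R] [FaithfulSMul S R]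
  [Module.Finite S R] [Algebra k R] [IsScalarTower k S R]
  [Field F] [Algebra S F] [IsFractionRing S F] [Field L] [Algebra R L] [IsFractionRing R L]
  [Algebra S L] [IsScalarTower S R L] [Algebra F L] [IsScalarTower S F L]
  [FiniteDimensional F L] [Algebra k F] [Algebra k L] [IsScalarTower k S F]
  [IsScalarTower k R L] [IsScalarTower k F L]
  [IsLocalRing S] (x : Fin 2 → S)
    (hx : Ideal.span (Set.range x) = maximalIdeal S) (δ : Fin 2 → Derivation k S S)
    (hδ : ∀ i j, δ i (x j) = if i = j then 1 else 0)
    (hδ' : ∀ D : Derivation k S S, (∀ i, D (x i) = 0) → D = 0)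

include hx hδ in
/-- Vanishing of `Ext` with values in the codifferent. -/
theorem ext_codiff (X : Type u) [AddCommGroup X] [Module R X] [Module.Finite R X] (i : ℕ)
    (hi : 3 ≤ i) :
    Subsingleton (Ext (ModuleCat.of R X) (ModuleCat.of R (codiff S F R L)) i) := by
  haveI : CharZero F := charZero_of_injective_algebraMap (algebraMap k F).injective
  letI : Module S X := Module.compHom X (algebraMap S R)
  haveI : IsScalarTower S R X := IsScalarTower.of_algebraMap_smul (fun _ _ => rfl)
  exact ext_codiff_eq_zero (ext_free_eq_zero (ext_coord_ring x hx δ hδ)) i (by omega) X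
    (fun j hj => ext_coord_ring x hx δ hδ X j (by omega))

theorem codiff_finite [CharZero F] : Module.Finite R (codiff S F R L) := by
  haveI : IsNoetherianRing R := IsNoetherianRing.of_finite S R
  obtain ⟨t, ht0, ht⟩ := codiff_bounded (S := S) (R := R) (F := F) (L := L)
  have htL : algebraMap R L t ≠ 0 := fun e => ht0 (IsFractionRing.injective R L (by rw [e, map_zero]))
  choose r hr using fun c : codiff S F R L => ht c c.2
  let f : codiff S F R L →ₗ[R] R :=
    { toFun := r
      map_add' := fun a b => by
        apply IsFractionRing.injective R L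
        rw [← hr, map_add, ← hr, ← hr, Submodule.coe_add, mul_add]
      map_smul' := fun s a => by
        apply IsFractionRing.injective R L
        rw [← hr, RingHom.id_apply, smul_eq_mul, map_mul, ← hr, Submodule.coe_smul,
          Algebra.smul_def]
        ring }
  refine Module.Finite.of_injective f (fun a b hab => ?_)
  apply Subtype.ext
  apply mul_left_cancel₀ htL
  rw [hr, hr]
  exact congrArg (algebraMap R L) hab

include hx hδ hδ' in
/-- The dual of the derivations is generated by contractions. -/
theorem exists_bracket_notMem [IsLocalRing R] (hM : TotallyReflexive R (Derivation k R R)) :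
    ∃ b ∈ codiff S F R L, ∃ D : Derivation k R R, ∃ w : Module.Dual R (Derivation k R R),
      w ∉ (maximalIdeal R) • (⊤ : Submodule R (Module.Dual R (Derivation k R R))) ∧
      ∀ D', algebraMap R L (w D') =
        b * algebraMap R L (det2 (fun i => algebraMap S R (x i)) D D') := by
  classical
  haveI : IsNoetherianRing R := IsNoetherianRing.of_finite S R
  haveI : CharZero F := charZero_of_injective_algebraMap (algebraMap k F).injective
  haveI := hM.finite
  have hinj := IsFractionRing.injective R L
  choose dF dL hdF hdL using fun i => exists_extend_fields (F := F) (L := L) (δ i)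
  have hdL' : ∀ i s, dL i (algebraMap S L s) = algebraMap S L (δ i s) := by
    intro i s
    rw [IsScalarTower.algebraMap_apply S F L, hdL, hdF, ← IsScalarTower.algebraMap_apply S F L]
  obtain ⟨D1, D2, hD⟩ := exists_det_ne_zero (R := R) x δ hδ dL hdL'
  have hDL : algebraMap R L (det2 (fun i => algebraMap S R (x i)) D1 D2) ≠ 0 := fun e =>
    hD (hinj (by rw [e, map_zero]))
  by_contra hcon
  push Not at hcon
  let E := Module.Dual R (Derivation k R R)
  let N : ModuleCat.{u} R := ModuleCat.of R (codiff S F R L)
  have hN : ∀ (X : Type u) [AddCommGroup X] [Module R X], TotallyReflexive R X →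
      Subsingleton (Ext (ModuleCat.of R X) N 1) := fun X _ _ hX =>
    ext_one_of_ext_three N (fun Y _ _ hY => ext_codiff x hx δ hδ Y 3 le_rfl) X hX
  obtain ⟨n, π, hπ⟩ := Module.Finite.exists_fin' R (Derivation k R R)
  -- every functional is a sum of brackets
  have hall : ∀ w : E, w ∈ (maximalIdeal R) • (⊤ : Submodule R E) := by
    intro w
    obtain ⟨ψ, hψ⟩ := exists_wedge (F := F) (L := L) x hx δ hδ hδ' hD w
    obtain ⟨c, hc⟩ := exists_rep N hN hM π hπ ψ
    choose br hbr using fun j : Fin n => exists_bracket (F := F) (L := L) x hx δ hδ hδ'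
      (((c j : codiff S F R L)) : L) (c j).2 (π (Pi.single j 1))
    have hw : w = - ∑ j, br j := by
      apply LinearMap.ext
      intro D'
      obtain ⟨w', hw'⟩ := exists_bracket (F := F) (L := L) x hx δ hδ hδ' 1 one_mem_codiff D'
      simp only [one_mul] at hw'
      have hw'' : ∀ D'', w' D'' = det2 (fun i => algebraMap S R (x i)) D' D'' :=
        fun D'' => hinj (hw' D'')
      -- first computation
      have e1 : ((ψ w' : codiff S F R L) : L) = algebraMap R L (w D') := by
        apply mul_right_cancel₀ hDL
        rw [hψ, ← map_mul]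
        congr 1
        rw [hw'', hw'']
        have h := congrArg w (cramer x δ hδ hδ' D' D1 D2)
        rw [map_add, map_smul, map_smul, map_smul] at h
        simp only [smul_eq_mul] at h
        rw [mul_comm (w D'), h]
        simp only [det2]
        ring
      -- second computation
      have e2 : ((ψ w' : codiff S F R L) : L) =
          ∑ j, algebraMap R L (w' (π (Pi.single j 1))) * ((c j : codiff S F R L) : L) := by
        rw [hc w']
        change (((∑ j, w' (π (Pi.single j 1)) • (c j : codiff S F R L)) : codiff S F R L) : L) = _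
        rw [Submodule.coe_sum]
        refine Finset.sum_congr rfl (fun j _ => ?_)
        rw [Submodule.coe_smul, Algebra.smul_def]
      apply hinj
      rw [← e1, e2, LinearMap.neg_apply, LinearMap.sum_apply, map_neg, map_sum,
        ← Finset.sum_neg_distrib]
      refine Finset.sum_congr rfl (fun j _ => ?_)
      rw [hbr, hw'', ← mul_neg, ← map_neg, mul_comm]
      congr 2
      simp only [det2]
      ring
    rw [hw]
    refine Submodule.neg_mem _ (Submodule.sum_mem _ (fun j _ => ?_))
    by_contra h
    obtain ⟨D', hD'⟩ := hcon _ (c j).2 (π (Pi.single j 1)) (br j) h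
    exact hD' (hbr j D')
  -- Nakayama
  have hE0 : (⊤ : Submodule R E) = ⊥ := by
    apply Submodule.eq_bot_of_le_smul_of_le_jacobson_bot (maximalIdeal R) ⊤ Module.Finite.fg_top
      (fun w _ => hall w)
    rw [IsLocalRing.jacobson_eq_maximalIdeal ⊥ bot_ne_top]
  obtain ⟨w', hw'⟩ := exists_bracket (F := F) (L := L) x hx δ hδ hδ' 1 one_mem_codiff D1
  have h1 : w' = 0 := by
    have : w' ∈ (⊤ : Submodule R E) := trivial
    rw [hE0] at this
    exact (Submodule.mem_bot R).mp this
  have h2 := hw' D2
  rw [h1, one_mul, LinearMap.zero_apply, map_zero] at h2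
  exact hDL h2.symm

include hx hδ hδ' in
/-- The codifferent is principal. -/
theorem codiff_principal [IsLocalRing R] (hM : TotallyReflexive R (Derivation k R R)) :
    ∃ b : codiff S F R L, (⊤ : Submodule R (codiff S F R L)) = Submodule.span R {b} := by
  classical
  haveI : IsNoetherianRing R := IsNoetherianRing.of_finite S R
  haveI : CharZero F := charZero_of_injective_algebraMap (algebraMap k F).injective
  haveI := codiff_finite (S := S) (R := R) (F := F) (L := L)
  have hinj := IsFractionRing.injective R L
  obtain ⟨b, hb, D0, w0, hw0, hbw⟩ := exists_bracket_notMem (F := F) (L := L) x hx δ hδ hδ' hM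
  let N : ModuleCat.{u} R := ModuleCat.of R (codiff S F R L)
  have hN : ∀ (X : Type u) [AddCommGroup X] [Module R X], TotallyReflexive R X →
      Subsingleton (Ext (ModuleCat.of R X) N 1) := fun X _ _ hX =>
    ext_one_of_ext_three N (fun Y _ _ hY => ext_codiff x hx δ hδ Y 3 le_rfl) X hX
  let E := Module.Dual R (Derivation k R R)
  have hE : TotallyReflexive R E := hM.dual
  haveI := hE.finite
  obtain ⟨n, π, hπ⟩ := Module.Finite.exists_fin' R E
  -- a functional on `E / m E`
  let I : Ideal R := maximalIdeal R
  letI : Field (R ⧸ I) := Ideal.Quotient.field I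
  have hne : (Submodule.Quotient.mk w0 : E ⧸ (I • (⊤ : Submodule R E))) ≠ 0 := by
    intro h
    exact hw0 ((Submodule.Quotient.mk_eq_zero _).mp h)
  obtain ⟨lam, hlam⟩ := Module.Projective.exists_dual_ne_zero (R ⧸ I) hne
  let q : E → E ⧸ (I • (⊤ : Submodule R E)) := Submodule.Quotient.mk
  have hlamq : ∀ v : Fin n → R, lam (q (π v)) =
      ∑ j, Ideal.Quotient.mk I (v j) * lam (q (π (Pi.single j 1))) := by
    intro v
    have h2 : v = ∑ j, v j • (Pi.single j (1 : R) : Fin n → R) := by
      ext i
      rw [Finset.sum_apply, Finset.sum_eq_single i]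
      · simp
      · intro j _ hij
        simp [Ne.symm hij]
      · intro h
        exact absurd (Finset.mem_univ i) h
    conv_lhs => rw [h2]
    change lam ((I • (⊤ : Submodule R E)).mkQ (π (∑ j, v j • (Pi.single j (1 : R) : Fin n → R)))) = _
    rw [map_sum, map_sum, map_sum]
    refine Finset.sum_congr rfl (fun j _ => ?_)
    rw [map_smul, map_smul]
    have h3 : v j • (I • (⊤ : Submodule R E)).mkQ (π (Pi.single j 1)) =
        (Ideal.Quotient.mk I (v j)) • (I • (⊤ : Submodule R E)).mkQ (π (Pi.single j 1)) := rfl
    rw [h3, map_smul, smul_eq_mul]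
    rfl
  choose ℓ hℓ using fun j : Fin n => Ideal.Quotient.mk_surjective (lam (q (π (Pi.single j 1))))
  have hlamq' : ∀ v : Fin n → R, lam (q (π v)) = Ideal.Quotient.mk I (∑ j, v j * ℓ j) := by
    intro v
    rw [hlamq, map_sum]
    refine Finset.sum_congr rfl (fun j _ => ?_)
    rw [map_mul, hℓ]
  obtain ⟨v, hv⟩ := hπ w0
  set u := ∑ j, v j * ℓ j with hu
  have huI : IsUnit u := by
    by_contra h
    have h1 : u ∈ I := (mem_maximalIdeal u).mpr h
    apply hlam
    have h2 := hlamq' v
    rw [hv] at h2
    change lam (q w0) = 0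
    rw [h2]
    exact Ideal.Quotient.eq_zero_iff_mem.mpr h1
  refine ⟨⟨b, hb⟩, ?_⟩
  apply le_antisymm _ le_top
  apply Submodule.le_of_le_smul_of_le_jacobson_bot (I := I) Module.Finite.fg_top
    (by rw [IsLocalRing.jacobson_eq_maximalIdeal ⊥ bot_ne_top])
  intro a _
  obtain ⟨wa, hwa⟩ := exists_bracket (F := F) (L := L) x hx δ hδ hδ' (a : L) a.2 D0
  obtain ⟨v', hv'⟩ := hπ wa
  let α : Fin n → N := fun j => v j • a - v' j • (⟨b, hb⟩ : codiff S F R L)
  have hα : ∀ μ : Module.Dual R E, ∑ j, μ (π (Pi.single j 1)) • α j = 0 := by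
    intro μ
    obtain ⟨D', rfl⟩ := hM.reflexive.2 μ
    have hsum : ∀ (v : Fin n → R) (a : codiff S F R L),
        ∑ j, (π (Pi.single j 1)) D' • (v j • a) = (π v) D' • a := by
      intro v a
      have h2 : v = ∑ j, v j • (Pi.single j (1 : R) : Fin n → R) := by
        ext i
        rw [Finset.sum_apply, Finset.sum_eq_single i]
        · simp
        · intro j _ hij
          simp [Ne.symm hij]
        · intro h
          exact absurd (Finset.mem_univ i) h
      conv_rhs => rw [h2]
      rw [map_sum, LinearMap.sum_apply, Finset.sum_smul]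
      refine Finset.sum_congr rfl (fun j _ => ?_)
      rw [map_smul, LinearMap.smul_apply, smul_smul, smul_eq_mul, mul_comm]
    have h1 : ∑ j, (Module.Dual.eval R (Derivation k R R) D') (π (Pi.single j 1)) • α j =
        w0 D' • a - wa D' • (⟨b, hb⟩ : codiff S F R L) := by
      rw [← hv, ← hv', ← hsum v a, ← hsum v' ⟨b, hb⟩, ← Finset.sum_sub_distrib]
      refine Finset.sum_congr rfl (fun j _ => ?_)
      exact smul_sub _ _ _
    rw [h1]
    apply Subtype.ext
    rw [Submodule.coe_sub, Submodule.coe_smul, Submodule.coe_smul, Algebra.smul_def,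
      Algebra.smul_def, hbw, hwa]
    change _ = (0 : L)
    ring
  obtain ⟨p, z, β, hz, hαz⟩ := exists_relations N hN hE π hπ α hα
  -- apply the functional
  have h1 : ∑ j, ℓ j • α j = u • a - (∑ j, v' j * ℓ j) • (⟨b, hb⟩ : codiff S F R L) := by
    rw [hu, Finset.sum_smul, Finset.sum_smul, ← Finset.sum_sub_distrib]
    refine Finset.sum_congr rfl (fun j _ => ?_)
    change ℓ j • (v j • a - v' j • (⟨b, hb⟩ : codiff S F R L)) = _
    rw [smul_sub, smul_smul, smul_smul, mul_comm (ℓ j), mul_comm (ℓ j)]
  have h2 : ∑ j, ℓ j • α j ∈ I • (⊤ : Submodule R (codiff S F R L)) := by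
    have h3 : ∑ j, ℓ j • α j = ∑ l, (∑ j, z l j * ℓ j) • (β l : codiff S F R L) := by
      have h4 : ∀ j, ℓ j • α j = ∑ l, (z l j * ℓ j) • (β l : codiff S F R L) := by
        intro j
        rw [hαz j]
        change ℓ j • (∑ l, z l j • (β l : codiff S F R L)) = _
        rw [Finset.smul_sum]
        refine Finset.sum_congr rfl (fun l _ => ?_)
        rw [smul_smul, mul_comm]
      rw [Finset.sum_congr rfl (fun j _ => h4 j)]
      change ∑ j, ∑ l, (z l j * ℓ j) • (β l : codiff S F R L) = _
      rw [Finset.sum_comm]
      refine Finset.sum_congr rfl (fun l _ => ?_)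
      rw [Finset.sum_smul]
    rw [h3]
    refine Submodule.sum_mem _ (fun l _ => ?_)
    refine Submodule.smul_mem_smul ?_ trivial
    have h5 := hlamq' (z l)
    rw [hz l] at h5
    have h6 : lam (q 0) = 0 := by
      have : q 0 = 0 := Submodule.Quotient.mk_zero _
      rw [this, map_zero]
    rw [h6] at h5
    exact Ideal.Quotient.eq_zero_iff_mem.mp h5.symm
  obtain ⟨u', hu'⟩ := huI.exists_left_inv
  have h3 : a = (u' * ∑ j, v' j * ℓ j) • (⟨b, hb⟩ : codiff S F R L) + u' • ∑ j, ℓ j • α j := by
    rw [h1, smul_sub, smul_smul, smul_smul, hu', one_smul]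
    abel
  rw [h3]
  exact Submodule.add_mem_sup (Submodule.smul_mem _ _ (Submodule.mem_span_singleton_self _))
    (Submodule.smul_mem _ _ h2)

include hx hδ hδ' in
/-- Totally reflexive derivations on a normal surface imply Gorenstein. -/
theorem gorenstein_of_surface (F L : Type u) [Field F] [Algebra S F] [IsFractionRing S F] [Field L]
    [Algebra R L] [IsFractionRing R L]
    [Algebra S L] [IsScalarTower S R L] [Algebra F L] [IsScalarTower S F L]
    [FiniteDimensional F L] [Algebra k F] [Algebra k L] [IsScalarTower k S F]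
    [IsScalarTower k R L] [IsScalarTower k F L] [IsLocalRing R]
    (hM : TotallyReflexive R (Derivation k R R)) : IsGorensteinLocal R := by
  haveI : IsNoetherianRing R := IsNoetherianRing.of_finite S R
  haveI : CharZero F := charZero_of_injective_algebraMap (algebraMap k F).injective
  obtain ⟨b, hb⟩ := codiff_principal (F := F) (L := L) x hx δ hδ hδ' hM
  have hb0 : (b : L) ≠ 0 := by
    intro h
    have h1 : (⟨1, one_mem_codiff⟩ : codiff S F R L) ∈ Submodule.span R {b} := by
      rw [← hb]; trivial
    obtain ⟨r, hr⟩ := Submodule.mem_span_singleton.mp h1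
    have h2 := congrArg (Subtype.val) hr
    rw [Submodule.coe_smul, h, smul_zero] at h2
    exact one_ne_zero h2.symm
  let f : R →ₗ[R] codiff S F R L := LinearMap.toSpanSingleton R _ b
  have hf : Function.Bijective f := by
    constructor
    · rw [injective_iff_map_eq_zero]
      intro r hr
      have h2 := congrArg (Subtype.val) hr
      change ((r • b : codiff S F R L) : L) = 0 at h2
      rw [Submodule.coe_smul, Algebra.smul_def, mul_eq_zero] at h2
      rcases h2 with h2 | h2
      · exact IsFractionRing.injective R L (by rw [h2, map_zero])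
      · exact absurd h2 hb0
    · intro c
      have h1 : c ∈ Submodule.span R {b} := by rw [← hb]; trivial
      obtain ⟨r, hr⟩ := Submodule.mem_span_singleton.mp h1
      exact ⟨r, hr⟩
  let e : R ≃ₗ[R] codiff S F R L := LinearEquiv.ofBijective f hf
  haveI : Module.Finite R (ModuleCat.of R (codiff S F R L)) :=
    codiff_finite (S := S) (R := R) (F := F) (L := L)
  have h3 : HasInjectiveDimensionLT (ModuleCat.of R (codiff S F R L)) 3 :=
    hasInjectiveDimensionLT_of_residue (ModuleCat.of R (codiff S F R L)) 2
      (fun i hi y => (ext_codiff x hx δ hδ (R ⧸ maximalIdeal R) i hi).elim _ _)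
  refine ⟨inferInstance, inferInstance, 2, ?_⟩
  exact hasInjectiveDimensionLT_of_iso (LinearEquiv.toModuleIso e.symm) 3

end Fld

end MP72c78a
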