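import Pool.Agent.Lib.MP_72c78a_ag.SurfN
import Pool.Agent.Lib.MP_72c78a_ag.GdimTwo

/-!
Normal surface singularities: depth bound and final form.
-/

set_option linter.unusedSectionVars false
set_option linter.unusedVariables false
set_option linter.style.haveILetI false

open IsLocalRing

universe u v
namespace MP72c78a

/-- A local ring which is finite over a local ring whose maximal ideal has two generators has depth
at most two. -/
theorem depthLE_two {S R : Type*} [CommRing S] [IsLocalRing S]
    [CommRing R] [IsLocalRing R] [IsNoetherianRing R] [Algebra S R] [Module.Finite S R]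
    (x : Fin 2 → S) (hx : Ideal.span (Set.range x) = maximalIdeal S)
    (hloc : (maximalIdeal S).map (algebraMap S R) ≤ maximalIdeal R) : DepthLE R 2 := by
  intro rs hlen hrs hreg
  have hmap : (maximalIdeal S).map (algebraMap S R)
      = Ideal.span (Set.range (fun i => algebraMap S R (x i))) := by
    rw [← hx, Ideal.map_span, ← Set.range_comp]
    rfl
  have hsub : Set.range (fun i => algebraMap S R (x i)) ⊆ (Ring.jacobson R : Set R) := by
    rw [IsLocalRing.ringJacobson_eq_maximalIdeal]
    rintro _ ⟨i, rfl⟩
    apply hloc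
    rw [hmap]
    exact Ideal.subset_span ⟨i, rfl⟩
  have h1 := ringKrullDim_le_ringKrullDim_quotient_add_encard _ hsub
  have hcard : (Set.range (fun i => algebraMap S R (x i))).encard ≤ 2 := by
    rw [← Set.image_univ]
    refine (Set.encard_image_le _ _).trans ?_
    simp
  haveI : Module.Finite (S ⧸ maximalIdeal S)
      (R ⧸ (maximalIdeal S).map (algebraMap S R)) := Module.Finite.of_restrictScalars_finite S _ _
  haveI : IsArtinianRing (S ⧸ maximalIdeal S) :=
    haveI : (maximalIdeal S).IsMaximal := inferInstance
    letI : Field (S ⧸ maximalIdeal S) := Ideal.Quotient.field _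
    inferInstance
  haveI : IsArtinianRing (R ⧸ (maximalIdeal S).map (algebraMap S R)) :=
    IsArtinianRing.of_finite (S ⧸ maximalIdeal S) _
  rw [← hmap] at h1
  haveI : Nontrivial (R ⧸ (maximalIdeal S).map (algebraMap S R)) :=
    Ideal.Quotient.nontrivial_iff.mpr (fun h => (maximalIdeal.isMaximal R).ne_top
      (top_le_iff.mp (h ▸ hloc)))
  have h2 : ringKrullDim (R ⧸ (maximalIdeal S).map (algebraMap S R)) = 0 :=
    ringKrullDimZero_iff_ringKrullDim_eq_zero.mp inferInstance
  rw [h2, zero_add] at h1
  have h3 := ringKrullDim_add_length_eq_ringKrullDim_of_isRegular rs hreg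
  rw [hlen] at h3
  haveI : Nontrivial (R ⧸ Ideal.ofList rs) := by
    apply Ideal.Quotient.nontrivial_iff.mpr
    intro h
    apply (maximalIdeal.isMaximal R).ne_top
    rw [← top_le_iff, ← h, Ideal.ofList, Ideal.span_le]
    intro r hr
    exact hrs r hr
  have h4 : (0 : WithBot ℕ∞) ≤ ringKrullDim (R ⧸ Ideal.ofList rs) :=
    ringKrullDim_nonneg_of_nontrivial
  have h5 : ((2 + 1 : ℕ) : WithBot ℕ∞) ≤ ringKrullDim R := by
    rw [← h3]
    calc ((2 + 1 : ℕ) : WithBot ℕ∞) = 0 + ((2 + 1 : ℕ) : WithBot ℕ∞) := by rw [zero_add]
      _ ≤ _ := by gcongr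
  have h6 : ((2 + 1 : ℕ) : WithBot ℕ∞) ≤ ((2 : ℕ∞) : WithBot ℕ∞) :=
    h5.trans (h1.trans (WithBot.coe_le_coe.mpr hcard))
  have h7 : ((3 : ℕ∞) : WithBot ℕ∞) ≤ ((2 : ℕ∞) : WithBot ℕ∞) := h6
  rw [WithBot.coe_le_coe] at h7
  exact absurd h7 (by decide)

/-- The final form: finite G-dimension of the derivations on a normal surface germ. -/
theorem gorenstein_of_normal_surface {k : Type v} {S R : Type u} [Field k] [CharZero k]
    [CommRing S] [IsDomain S] [IsNoetherianRing S] [IsLocalRing S] [IsIntegrallyClosed S]
    [Algebra k S] [CommRing R] [IsDomain R] [IsLocalRing R] [IsIntegrallyClosed R]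
    [Algebra S R] [FaithfulSMul S R] [Module.Finite S R] [Algebra k R] [IsScalarTower k S R]
    (x : Fin 2 → S) (hx : Ideal.span (Set.range x) = maximalIdeal S)
    (δ : Fin 2 → Derivation k S S) (hδ : ∀ i j, δ i (x j) = if i = j then 1 else 0)
    (hδ' : ∀ D : Derivation k S S, (∀ i, D (x i) = 0) → D = 0)
    (h : FiniteGdim R (Derivation k R R)) : IsGorensteinLocal R := by
  haveI : IsNoetherianRing R := IsNoetherianRing.of_finite S R
  haveI hlh : IsLocalHom (algebraMap S R) := inferInstance
  have hloc : (maximalIdeal S).map (algebraMap S R) ≤ maximalIdeal R := by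
    have h2 := (IsLocalRing.local_hom_TFAE (algebraMap S R)).out 0 2
    exact h2.mp hlh
  have hM : TotallyReflexive R (Derivation k R R) :=
    der_totallyReflexive (depthLE_two x hx hloc) h
  letI : Algebra (FractionRing S) (FractionRing R) :=
    FractionRing.liftAlgebra S (FractionRing R)
  haveI : IsScalarTower S (FractionRing S) (FractionRing R) :=
    FractionRing.isScalarTower_liftAlgebra _ _
  haveI : Algebra.IsIntegral S R := Algebra.IsIntegral.of_finite S R
  haveI : FiniteDimensional (FractionRing S) (FractionRing R) :=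
    .of_isLocalization S R (nonZeroDivisors S)
  haveI : IsScalarTower k (FractionRing S) (FractionRing R) := by
    refine IsScalarTower.of_algebraMap_eq (fun c => ?_)
    rw [IsScalarTower.algebraMap_apply k R (FractionRing R),
      IsScalarTower.algebraMap_apply k S R, ← IsScalarTower.algebraMap_apply S R (FractionRing R),
      IsScalarTower.algebraMap_apply S (FractionRing S) (FractionRing R),
      ← IsScalarTower.algebraMap_apply k S (FractionRing S)]
  exact gorenstein_of_surface x hx δ hδ hδ' (FractionRing S) (FractionRing R) hM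

end MP72c78a
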