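import Pool.Agent.Lib.MP_72c78a_ag.GdimTwo

/-!
Totally reflexive modules and modules `N` with `Ext¹(G, N) = 0` for all totally reflexive `G`.
-/

set_option linter.style.haveILetI false
set_option linter.unusedSectionVars false
set_option linter.unusedVariables false

open CategoryTheory Abelian IsLocalRing

universe u v
namespace MP72c78a

variable {R : Type u} [CommRing R]

theorem ext_projective_eq_zero (X : Type u) [AddCommGroup X] [Module R X] [Module.Projective R X]
    (N : ModuleCat.{u} R) (i : ℕ) (hi : 1 ≤ i) : Subsingleton (Ext (ModuleCat.of R X) N i) := by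
  haveI : Projective (ModuleCat.of R X) := by
    rw [← IsProjective.iff_projective]; infer_instance
  obtain ⟨i, rfl⟩ := Nat.exists_eq_add_of_le' hi
  exact subsingleton_of_forall_eq 0 (fun x => Ext.eq_zero_of_projective x)

/-- The dual of a totally reflexive module is totally reflexive. -/
theorem TotallyReflexive.dual [IsNoetherianRing R] {G : Type u} [AddCommGroup G] [Module R G]
    (hG : TotallyReflexive R G) : TotallyReflexive R (Module.Dual R G) := by
  haveI := hG.finite
  refine ⟨inferInstance, ?_, hG.ext_dual, ?_⟩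
  · constructor
    · intro φ ψ h
      ext g
      exact LinearMap.congr_fun h (Module.Dual.eval R G g)
    · intro ζ
      refine ⟨ζ ∘ₗ Module.Dual.eval R G, ?_⟩
      ext μ
      obtain ⟨g, rfl⟩ := hG.reflexive.2 μ
      rfl
  · intro i hi
    exact ext_subsingleton_of_equiv (LinearEquiv.ofBijective _ hG.reflexive) _ i
      (hG.ext_self i hi)

section Syz

variable [IsNoetherianRing R] [IsReduced R] {G : Type u} [AddCommGroup G] [Module R G]
  (hG : TotallyReflexive R G) {n : ℕ} (π : (Fin n → R) →ₗ[R] G) (hπ : Function.Surjective π)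

include hπ in
theorem dual_exact {P Q : Type u} [AddCommGroup P] [Module R P] (f : (Fin n → R) →ₗ[R] G)
    (hf : Function.Surjective f) :
    Function.Exact (Module.Dual.transpose (R := R) f)
      (Module.Dual.transpose (R := R) (LinearMap.ker f).subtype) := by
  intro φ
  constructor
  · intro hφ
    have h1 : LinearMap.ker f ≤ LinearMap.ker φ := by
      intro x hx
      exact LinearMap.congr_fun hφ ⟨x, hx⟩
    refine ⟨(LinearMap.ker f).liftQ φ h1 ∘ₗ (f.quotKerEquivOfSurjective hf).symm.toLinearMap, ?_⟩
    apply LinearMap.ext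
    intro g
    have h2 : (f.quotKerEquivOfSurjective hf).symm (f g) = (LinearMap.ker f).mkQ g := by
      rw [LinearEquiv.symm_apply_eq]; rfl
    change (LinearMap.ker f).liftQ φ h1 ((f.quotKerEquivOfSurjective hf).symm (f g)) = φ g
    rw [h2]
    rfl
  · rintro ⟨ψ, rfl⟩
    ext x
    change ψ (f ((LinearMap.ker f).subtype x)) = 0
    have : f ((LinearMap.ker f).subtype x) = 0 := x.2
    rw [this, map_zero]

theorem dual_injective (f : (Fin n → R) →ₗ[R] G) (hf : Function.Surjective f) :
    Function.Injective (Module.Dual.transpose (R := R) f) := by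
  intro φ ψ h
  ext z
  obtain ⟨g, rfl⟩ := hf z
  exact LinearMap.congr_fun h g

include hG in
theorem dual_surjective (f : (Fin n → R) →ₗ[R] G) (hf : Function.Surjective f) :
    Function.Surjective (Module.Dual.transpose (R := R) (LinearMap.ker f).subtype) := by
  intro φ
  obtain ⟨ψ, hψ⟩ := extend_of_ext_one (LinearMap.ker f).subtype f
    (Submodule.injective_subtype _) hf (LinearMap.exact_subtype_ker_map f) (ModuleCat.of R R)
    (hG.ext_self 1 le_rfl) φ
  exact ⟨ψ, hψ⟩

include hG hπ in
/-- Syzygies of totally reflexive modules are totally reflexive. -/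
theorem TotallyReflexive.syzygy : TotallyReflexive R (LinearMap.ker π) := by
  have hZ : ∀ N : ModuleCat.{u} R, ∀ i, 1 ≤ i →
      Subsingleton (Ext (ModuleCat.of R (Fin n → R)) N i) :=
    fun N i hi => ext_projective_eq_zero _ N i hi
  have hZ' : ∀ N : ModuleCat.{u} R, ∀ i, 1 ≤ i →
      Subsingleton (Ext (ModuleCat.of R (Module.Dual R (Fin n → R))) N i) :=
    fun N i hi => ext_projective_eq_zero _ N i hi
  have hι := Submodule.injective_subtype (LinearMap.ker π)
  have hιπ := LinearMap.exact_subtype_ker_map π
  have hex := dual_exact (P := R) (Q := R) π hπ π hπ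
  have hinj := dual_injective π hπ
  have hsurj := dual_surjective hG π hπ
  refine ⟨inferInstance, ?_, ?_, ?_⟩
  · exact ker_reflexive π (Module.bijective_dual_eval R (Fin n → R)) hG.reflexive.1
  · intro i hi
    exact ext_left_eq_zero _ π hι hπ hιπ _ i (hZ _ i hi) (hG.ext_self (i + 1) (by omega))
  · intro i hi
    obtain ⟨i, rfl⟩ := Nat.exists_eq_add_of_le' hi
    rcases Nat.eq_zero_or_pos i with h0 | h0
    · subst h0
      refine ext_one_eq_zero_of_extend _ _ hinj hsurj hex _ ?_ (hZ' _ 1 le_rfl)
      intro η
      obtain ⟨g, hg⟩ := hG.reflexive.2 η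
      obtain ⟨v, rfl⟩ := hπ g
      refine ⟨Module.Dual.eval R (Fin n → R) v, ?_⟩
      rw [← hg]
      rfl
    · exact ext_succ_eq_zero _ _ hinj hsurj hex _ i (hG.ext_dual i h0) (hZ' _ (i + 1) (by omega))

end Syz

section Rep

variable [IsNoetherianRing R] [IsReduced R] (N : ModuleCat.{u} R)
  (hN : ∀ (X : Type u) [AddCommGroup X] [Module R X], TotallyReflexive R X →
    Subsingleton (Ext (ModuleCat.of R X) N 1))

include hN in
/-- Maps from the dual of a totally reflexive module to `N` are finite sums of evaluations. -/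
theorem exists_rep {G : Type u} [AddCommGroup G] [Module R G] (hG : TotallyReflexive R G) {n : ℕ}
    (π : (Fin n → R) →ₗ[R] G) (hπ : Function.Surjective π) (φ : Module.Dual R G →ₗ[R] N) :
    ∃ c : Fin n → N, ∀ w : Module.Dual R G, φ w = ∑ j, w (π (Pi.single j 1)) • c j := by
  classical
  obtain ⟨ψ, hψ⟩ := extend_of_ext_one (Module.Dual.transpose (R := R) π)
    (Module.Dual.transpose (R := R) (LinearMap.ker π).subtype) (dual_injective π hπ)
    (dual_surjective hG π hπ) (dual_exact (P := R) (Q := R) π hπ π hπ) N
    (hN _ (hG.syzygy π hπ).dual) φ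
  refine ⟨fun j => ψ (LinearMap.proj j), fun w => ?_⟩
  have h1 : Module.Dual.transpose (R := R) π w =
      ∑ j, w (π (Pi.single j 1)) • (LinearMap.proj j : (Fin n → R) →ₗ[R] R) := by
    apply LinearMap.ext
    intro v
    have h2 : v = ∑ j, v j • (Pi.single j (1 : R) : Fin n → R) := by
      ext i
      rw [Finset.sum_apply, Finset.sum_eq_single i]
      · simp
      · intro j _ hij
        simp [Ne.symm hij]
      · intro h
        exact absurd (Finset.mem_univ i) h
    change w (π v) = _
    conv_lhs => rw [h2]
    rw [map_sum, map_sum, LinearMap.sum_apply]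
    refine Finset.sum_congr rfl (fun j _ => ?_)
    rw [map_smul, map_smul, smul_eq_mul, mul_comm]
    rfl
  rw [← hψ]
  change ψ (Module.Dual.transpose (R := R) π w) = _
  rw [h1, map_sum]
  refine Finset.sum_congr rfl (fun j _ => ?_)
  rw [map_smul]

include hN in
/-- Relations in `N ⊗ G`. -/
theorem exists_relations {G : Type u} [AddCommGroup G] [Module R G] (hG : TotallyReflexive R G)
    {n : ℕ} (π : (Fin n → R) →ₗ[R] G) (hπ : Function.Surjective π) (α : Fin n → N)
    (hα : ∀ w : Module.Dual R G, ∑ j, w (π (Pi.single j 1)) • α j = 0) :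
    ∃ (p : ℕ) (z : Fin p → (Fin n → R)) (β : Fin p → N), (∀ l, π (z l) = 0) ∧
      ∀ j, α j = ∑ l, z l j • β l := by
  classical
  have hZ := hG.syzygy π hπ
  haveI := hZ.finite
  obtain ⟨p, π', hπ'⟩ := Module.Finite.exists_fin' R (LinearMap.ker π)
  let A : Module.Dual R (Fin n → R) →ₗ[R] N :=
    { toFun := fun f => ∑ j, f (Pi.single j 1) • α j
      map_add' := fun f g => by
        rw [← Finset.sum_add_distrib]
        refine Finset.sum_congr rfl (fun j _ => ?_)
        rw [LinearMap.add_apply, add_smul]
      map_smul' := fun r f => by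
        rw [RingHom.id_apply, Finset.smul_sum]
        refine Finset.sum_congr rfl (fun j _ => ?_)
        rw [LinearMap.smul_apply, smul_eq_mul, mul_smul] }
  have hex := dual_exact (P := R) (Q := R) π hπ π hπ
  have hsurj := dual_surjective hG π hπ
  let q := Module.Dual.transpose (R := R) (LinearMap.ker π).subtype
  have hker : LinearMap.ker q ≤ LinearMap.ker A := by
    intro f hf
    obtain ⟨w, rfl⟩ := (hex f).mp hf
    exact hα w
  let A' : Module.Dual R (LinearMap.ker π) →ₗ[R] N :=
    (LinearMap.ker q).liftQ A hker ∘ₗ (q.quotKerEquivOfSurjective hsurj).symm.toLinearMap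
  have hA' : ∀ f, A' (q f) = A f := by
    intro f
    have h2 : (q.quotKerEquivOfSurjective hsurj).symm (q f) = (LinearMap.ker q).mkQ f := by
      rw [LinearEquiv.symm_apply_eq]; rfl
    change (LinearMap.ker q).liftQ A hker ((q.quotKerEquivOfSurjective hsurj).symm (q f)) = A f
    rw [h2]
    rfl
  obtain ⟨β, hβ⟩ := exists_rep N hN hZ π' hπ' A'
  refine ⟨p, fun l => (π' (Pi.single l 1) : Fin n → R), β, fun l => (π' (Pi.single l 1)).2, ?_⟩
  intro j
  have h1 : A (LinearMap.proj j) = α j := by
    change ∑ i, (Pi.single i (1 : R) : Fin n → R) j • α i = α j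
    rw [Finset.sum_eq_single j]
    · simp
    · intro i _ hij
      simp [hij]
    · intro h
      exact absurd (Finset.mem_univ j) h
  rw [← h1, ← hA', hβ]
  rfl

end Rep

section Cosyz

variable [IsNoetherianRing R] [IsReduced R]

/-- Vanishing of `Ext¹` from vanishing of `Ext³`. -/
theorem ext_one_of_ext_three (N : ModuleCat.{u} R)
    (h3 : ∀ (X : Type u) [AddCommGroup X] [Module R X], Module.Finite R X →
      Subsingleton (Ext (ModuleCat.of R X) N 3))
    (X : Type u) [AddCommGroup X] [Module R X] (hX : TotallyReflexive R X) :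
    Subsingleton (Ext (ModuleCat.of R X) N 1) := by
  -- one step
  have step : ∀ i, 1 ≤ i → (∀ (Y : Type u) [AddCommGroup Y] [Module R Y], TotallyReflexive R Y →
      Subsingleton (Ext (ModuleCat.of R Y) N (i + 1))) →
      ∀ (Y : Type u) [AddCommGroup Y] [Module R Y], TotallyReflexive R Y →
      Subsingleton (Ext (ModuleCat.of R Y) N i) := by
    intro i hi h Y _ _ hY
    haveI := hY.dual.finite
    obtain ⟨p, π, hπ⟩ := Module.Finite.exists_fin' R (Module.Dual R Y)
    have h1 := ext_left_eq_zero (Module.Dual.transpose (R := R) π)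
      (Module.Dual.transpose (R := R) (LinearMap.ker π).subtype) (dual_injective π hπ)
      (dual_surjective hY.dual π hπ) (dual_exact (P := R) (Q := R) π hπ π hπ) N i
      (ext_projective_eq_zero _ N i hi) (h _ (hY.dual.syzygy π hπ).dual)
    exact ext_subsingleton_of_equiv (LinearEquiv.ofBijective _ hY.reflexive).symm N i h1
  have h2 := step 2 (by norm_num) (fun Y _ _ hY => h3 Y hY.finite)
  exact step 1 le_rfl h2 X hX

end Cosyz

end MP72c78a
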