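import Pool.Agent.Lib.MP_72c78a_ag.SurfG
import Pool.Agent.Lib.MP_72c78a_ag.SurfT
import Pool.Agent.Lib.MP_72c78a_ag.Cover

/-!
Change of rings for `Ext` with values in the codifferent.
-/

set_option linter.style.haveILetI false
set_option linter.unusedSectionVars false
set_option linter.unusedVariables false

open CategoryTheory Abelian IsLocalRing

universe u v
namespace MP72c78a

section Dual

variable {S : Type u} [CommRing S] [IsReduced S] [IsNoetherianRing S]

/-- Over a ring with `Ext^i(-, S) = 0` for `i ≥ 3`, duals have no higher Ext. -/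
theorem ext_dual_eq_zero
    (h3 : ∀ (X : Type u) [AddCommGroup X] [Module S X], ∀ i, 3 ≤ i →
      Subsingleton (Ext (ModuleCat.of S X) (ModuleCat.of S S) i))
    (W : Type u) [AddCommGroup W] [Module S W] [Module.Finite S W] (j : ℕ) (hj : 1 ≤ j) :
    Subsingleton (Ext (ModuleCat.of S (Module.Dual S W)) (ModuleCat.of S S) j) := by
  obtain ⟨n, π, hπ⟩ := Module.Finite.exists_fin' S W
  obtain ⟨m, π', hπ'⟩ := Module.Finite.exists_fin' S (LinearMap.ker π)
  let κ : (Fin m → S) →ₗ[S] (Fin n → S) := (LinearMap.ker π).subtype ∘ₗ π'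
  let g : Module.Dual S (Fin n → S) →ₗ[S] Module.Dual S (Fin m → S) :=
    Module.Dual.transpose (R := S) κ
  let f : Module.Dual S W →ₗ[S] Module.Dual S (Fin n → S) := Module.Dual.transpose (R := S) π
  have hf : Function.Injective f := dual_injective π hπ
  have hex0 := dual_exact (P := S) (Q := S) π hπ π hπ
  have hfg : Function.Exact f g.rangeRestrict := by
    intro φ
    constructor
    · intro hφ
      apply (hex0 φ).mp
      ext z
      obtain ⟨y, hy⟩ := hπ' z
      have h1 : g φ = 0 := congrArg Subtype.val hφ
      have h2 := LinearMap.congr_fun h1 y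
      rw [← hy]
      exact h2
    · rintro ⟨ψ, rfl⟩
      apply Subtype.ext
      ext y
      change ψ (π ((LinearMap.ker π).subtype (π' _))) = 0
      have : ∀ z : LinearMap.ker π, π ((LinearMap.ker π).subtype z) = 0 := fun z => z.2
      rw [this, map_zero]
  let G := LinearMap.range g
  let jG : ↥G →ₗ[S] Module.Dual S (Fin m → S) := Submodule.subtype G
  let πG : Module.Dual S (Fin m → S) →ₗ[S] (Module.Dual S (Fin m → S) ⧸ G) := Submodule.mkQ G
  have hjπ : Function.Exact jG πG := LinearMap.exact_subtype_mkQ G
  have hJ := @ext_left_eq_zero S _ ↥G (Module.Dual S (Fin m → S))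
    (Module.Dual S (Fin m → S) ⧸ G) _ _ _ _ _ _ jG πG (Submodule.injective_subtype G)
    (Submodule.mkQ_surjective G) hjπ (ModuleCat.of S S) (j + 1)
    (ext_projective_eq_zero _ _ (j + 1) (by omega)) (h3 _ (j + 1 + 1) (by omega))
  exact ext_left_eq_zero f g.rangeRestrict hf g.surjective_rangeRestrict hfg (ModuleCat.of S S) j
    (ext_projective_eq_zero _ _ j hj) hJ

end Dual

section Fld

variable {k : Type v} {S R F L : Type u}
  [CommRing S] [IsDomain S] [IsNoetherianRing S] [IsIntegrallyClosed S]
  [CommRing R] [IsDomain R] [IsIntegrallyClosed R] [Algebra S R] [FaithfulSMul S R]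
  [Module.Finite S R]
  [Field F] [CharZero F] [Algebra S F] [IsFractionRing S F] [Field L] [Algebra R L]
  [IsFractionRing R L]
  [Algebra S L] [IsScalarTower S R L] [Algebra F L] [IsScalarTower S F L]
  [FiniteDimensional F L]

variable (S R F L) in
include S in
theorem exists_basis : ∃ (T : Finset L) (b : Module.Basis T F L) (r : T → R),
    ∀ i, algebraMap R L (r i) = b i := by
  obtain ⟨T, b, hb⟩ := FiniteDimensional.exists_is_basis_integral S F L
  have hbR : ∀ i, ∃ r : R, algebraMap R L r = b i := by
    intro i
    have h1 : IsIntegral R (b i) := (hb i).tower_top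
    exact IsIntegrallyClosed.isIntegral_iff.mp h1
  choose r hr using hbR
  exact ⟨T, b, r, hr⟩

variable (S R F) in
include S in
theorem eq_zero_of_trace (c : L) (hc : ∀ r : R, Algebra.trace F L (c * algebraMap R L r) = 0) :
    c = 0 := by
  classical
  obtain ⟨T, b, r, hr⟩ := exists_basis S R F L
  have hnd : (Algebra.traceForm F L).Nondegenerate := traceForm_nondegenerate F L
  let b' := (Algebra.traceForm F L).dualBasis hnd b
  rw [← b'.sum_repr c]
  refine Finset.sum_eq_zero (fun i _ => ?_)
  rw [LinearMap.BilinForm.dualBasis_repr_apply, Algebra.traceForm_apply, ← hr, hc, zero_smul]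

/-- Representability of functionals by the trace. -/
theorem exists_codiff_of_functional (θ : R →ₗ[S] S) :
    ∃ c ∈ codiff S F R L, ∀ r : R,
      Algebra.trace F L (c * algebraMap R L r) = algebraMap S F (θ r) := by
  classical
  obtain ⟨T, b, r, hr⟩ := exists_basis S R F L
  have hnd : (Algebra.traceForm F L).Nondegenerate := traceForm_nondegenerate F L
  let b' := (Algebra.traceForm F L).dualBasis hnd b
  let c : L := ∑ i, algebraMap S F (θ (r i)) • b' i
  have hcb : ∀ i, Algebra.trace F L (c * b i) = algebraMap S F (θ (r i)) := by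
    intro i
    have h1 : b'.repr c i = algebraMap S F (θ (r i)) := by
      have h2 : b'.repr c = ∑ j, algebraMap S F (θ (r j)) • Finsupp.single j (1 : F) := by
        simp only [c, map_sum, map_smul, Module.Basis.repr_self]
      rw [h2, Finsupp.finsetSum_apply, Finset.sum_eq_single i]
      · rw [Finsupp.smul_apply, Finsupp.single_eq_same, smul_eq_mul, mul_one]
      · intro j _ hij
        simp [hij]
      · intro h
        exact absurd (Finset.mem_univ i) h
    rw [← h1, LinearMap.BilinForm.dualBasis_repr_apply, Algebra.traceForm_apply]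
  have key : ∀ y : R, Algebra.trace F L (c * algebraMap R L y) = algebraMap S F (θ y) := by
    intro y
    obtain ⟨s, hs⟩ := IsLocalization.exist_integer_multiples_of_finset (nonZeroDivisors S)
      (Finset.univ.image (fun i => b.repr (algebraMap R L y) i))
    have hs0 : algebraMap S F (s : S) ≠ 0 := fun e =>
      nonZeroDivisors.ne_zero s.2 (IsFractionRing.injective S F (by rw [e, map_zero]))
    have h1 : ∀ i, ∃ t : S, algebraMap S F t = (s : S) • b.repr (algebraMap R L y) i := by
      intro i
      obtain ⟨t, ht⟩ := hs _ (Finset.mem_image_of_mem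
        (fun i => b.repr (algebraMap R L y) i) (Finset.mem_univ i))
      exact ⟨t, ht⟩
    choose t ht using h1
    have h2 : (s : S) • y = ∑ i, t i • r i := by
      apply IsFractionRing.injective R L
      rw [map_sum]
      have h3 : ∀ (a : S) (z : R), algebraMap R L (a • z) = algebraMap S F a • algebraMap R L z := by
        intro a z
        rw [Algebra.smul_def, map_mul, ← IsScalarTower.algebraMap_apply S R L,
          IsScalarTower.algebraMap_apply S F L, Algebra.smul_def]
      rw [h3]
      conv_lhs => rw [← b.sum_repr (algebraMap R L y)]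
      rw [Finset.smul_sum]
      refine Finset.sum_congr rfl (fun i _ => ?_)
      rw [h3, hr, ht, Algebra.smul_def (s : S), mul_smul]
    apply mul_left_cancel₀ hs0
    have h4 : algebraMap S F (s : S) * algebraMap S F (θ y) =
        ∑ i, algebraMap S F (t i) * algebraMap S F (θ (r i)) := by
      rw [← map_mul, ← smul_eq_mul, ← map_smul, h2, map_sum, map_sum]
      refine Finset.sum_congr rfl (fun i _ => ?_)
      rw [map_smul, smul_eq_mul, map_mul]
    rw [h4, ← smul_eq_mul, ← map_smul]
    have h5 : algebraMap S F (s : S) • (c * algebraMap R L y) =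
        ∑ i, algebraMap S F (t i) • (c * b i) := by
      have h6 : algebraMap S F (s : S) • algebraMap R L y =
          ∑ i, algebraMap S F (t i) • b i := by
        conv_lhs => rw [← b.sum_repr (algebraMap R L y)]
        rw [Finset.smul_sum]
        refine Finset.sum_congr rfl (fun i _ => ?_)
        rw [ht, Algebra.smul_def (s : S), mul_smul]
      rw [← mul_smul_comm, h6, Finset.mul_sum]
      refine Finset.sum_congr rfl (fun i _ => ?_)
      rw [mul_smul_comm]
    rw [h5, map_sum]
    refine Finset.sum_congr rfl (fun i _ => ?_)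
    rw [map_smul, hcb, smul_eq_mul]
  exact ⟨c, fun y => ⟨θ y, key y⟩, key⟩

/-- The trace on the codifferent. -/
theorem exists_trace_map : ∃ τ : codiff S F R L →ₗ[S] S,
    ∀ c : codiff S F R L, algebraMap S F (τ c) = Algebra.trace F L (c : L) := by
  have h : ∀ c : codiff S F R L, ∃ s : S, algebraMap S F s = Algebra.trace F L (c : L) := by
    intro c
    obtain ⟨s, hs⟩ := c.2 1
    rw [map_one, mul_one] at hs
    exact ⟨s, hs.symm⟩
  choose τ hτ using h
  refine ⟨{ toFun := τ, map_add' := ?_, map_smul' := ?_ }, hτ⟩
  · intro a b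
    apply IsFractionRing.injective S F
    rw [hτ, map_add, hτ, hτ, Submodule.coe_add, map_add]
  · intro s c
    apply IsFractionRing.injective S F
    rw [hτ, RingHom.id_apply, smul_eq_mul, map_mul, hτ]
    have : ((s • c : codiff S F R L) : L) = algebraMap S F s • (c : L) := by
      rw [algebraMap_smul]
      rfl
    rw [this, map_smul, smul_eq_mul]

/-- Change of rings. -/
theorem ext_codiff_eq_zero
    (hRn : ∀ (n : ℕ) (j : ℕ), 1 ≤ j →
      Subsingleton (Ext (ModuleCat.of S (Fin n → R)) (ModuleCat.of S S) j)) (i : ℕ) (hi : 1 ≤ i) :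
    ∀ (X : Type u) [AddCommGroup X] [Module R X] [Module S X] [IsScalarTower S R X]
      [Module.Finite R X],
      (∀ j, i ≤ j → Subsingleton (Ext (ModuleCat.of S X) (ModuleCat.of S S) j)) →
      Subsingleton (Ext (ModuleCat.of R X) (ModuleCat.of R (codiff S F R L)) i) := by
  haveI : IsNoetherianRing R := IsNoetherianRing.of_finite S R
  induction i, hi using Nat.le_induction with
  | base =>
    intro X _ _ _ _ _ hX
    obtain ⟨n, π, hπ⟩ := Module.Finite.exists_fin' R X
    refine ext_one_eq_zero_of_extend (LinearMap.ker π).subtype π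
      (Submodule.injective_subtype _) hπ (LinearMap.exact_subtype_ker_map π) _ ?_
      (ext_projective_eq_zero _ _ 1 le_rfl)
    intro φ
    obtain ⟨τ, hτ⟩ := exists_trace_map (S := S) (R := R) (F := F) (L := L)
    obtain ⟨ψ₀, hψ₀⟩ := extend_of_ext_one (R := S)
      ((LinearMap.ker π).subtype.restrictScalars S) (π.restrictScalars S)
      (Submodule.injective_subtype _) hπ (LinearMap.exact_subtype_ker_map π) (ModuleCat.of S S)
      (hX 1 le_rfl) (τ ∘ₗ (φ.restrictScalars S))
    have hc := fun j : Fin n => exists_codiff_of_functional (S := S) (R := R) (F := F) (L := L)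
      (ψ₀ ∘ₗ (LinearMap.single R (fun _ : Fin n => R) j).restrictScalars S)
    choose c hcK hc using hc
    let ψ : (Fin n → R) →ₗ[R] codiff S F R L :=
      ∑ j, (LinearMap.toSpanSingleton R (codiff S F R L) ⟨c j, hcK j⟩) ∘ₗ (LinearMap.proj j)
    have hψ : ∀ v : Fin n → R, ((ψ v : codiff S F R L) : L) = ∑ j, algebraMap R L (v j) * c j := by
      intro v
      simp only [ψ, LinearMap.sum_apply, LinearMap.comp_apply, LinearMap.proj_apply,
        LinearMap.toSpanSingleton_apply, Submodule.coe_sum, Submodule.coe_smul, Algebra.smul_def]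
    refine ⟨ψ, ?_⟩
    apply LinearMap.ext
    intro z
    apply Subtype.ext
    rw [← sub_eq_zero]
    apply eq_zero_of_trace S R F
    intro r
    rw [sub_mul, map_sub, sub_eq_zero]
    have h1 : Algebra.trace F L (((φ z : codiff S F R L) : L) * algebraMap R L r) =
        algebraMap S F (ψ₀ (r • (z : Fin n → R))) := by
      have h2 := LinearMap.congr_fun hψ₀ (r • z)
      have h3 : ψ₀ (r • (z : Fin n → R)) = τ (φ (r • z)) := h2
      rw [h3, hτ, map_smul, Submodule.coe_smul, Algebra.smul_def, mul_comm]
    rw [h1]
    change Algebra.trace F L (((ψ (z : Fin n → R) : codiff S F R L) : L) * algebraMap R L r) = _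
    rw [hψ, Finset.sum_mul, map_sum]
    have h4 : r • (z : Fin n → R) = ∑ j, LinearMap.single R (fun _ : Fin n => R) j
        (r * (z : Fin n → R) j) := by
      ext i
      rw [Finset.sum_apply, Finset.sum_eq_single i]
      · simp
      · intro j _ hij
        simp [Ne.symm hij]
      · intro h
        exact absurd (Finset.mem_univ i) h
    rw [h4, map_sum, map_sum]
    refine Finset.sum_congr rfl (fun j _ => ?_)
    have h5 := hc j (r * (z : Fin n → R) j)
    rw [LinearMap.comp_apply] at h5
    change _ = algebraMap S F (ψ₀ (LinearMap.single R (fun _ : Fin n => R) j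
        (r * (z : Fin n → R) j))) at h5
    rw [← h5, map_mul (algebraMap R L)]
    congr 1
    ring
  | succ i hi ih =>
    intro X _ _ _ _ _ hX
    obtain ⟨n, π, hπ⟩ := Module.Finite.exists_fin' R X
    refine ext_succ_eq_zero (LinearMap.ker π).subtype π
      (Submodule.injective_subtype _) hπ (LinearMap.exact_subtype_ker_map π) _ i ?_
      (ext_projective_eq_zero _ _ (i + 1) (by omega))
    apply ih
    intro j hj
    exact ext_left_eq_zero (R := S)
      ((LinearMap.ker π).subtype.restrictScalars S) (π.restrictScalars S)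
      (Submodule.injective_subtype _) hπ (LinearMap.exact_subtype_ker_map π) (ModuleCat.of S S) j
      (hRn n j (by omega)) (hX (j + 1) (by omega))

end Fld

end MP72c78a
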